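import Mathlib

/-!
# Asymptotic facts as `p` tends to zero from above
-/

set_option autoImplicit false

namespace Pool.Agent.Helper65

open Real Filter Topology

lemma ev_neg_log_ge (C : ℝ) : ∀ᶠ p in 𝓝[>] (0 : ℝ), C ≤ -log p := by
  have h : Tendsto (fun p : ℝ => -log p) (𝓝[>] (0 : ℝ)) atTop :=
    tendsto_neg_atBot_atTop.comp Real.tendsto_log_nhdsGT_zero
  exact h.eventually_ge_atTop C

lemma ev_pos_le {a : ℝ} (ha : 0 < a) : ∀ᶠ p in 𝓝[>] (0 : ℝ), 0 < p ∧ p ≤ a := by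
  have h1 : Set.Ioc (0 : ℝ) a ∈ 𝓝[>] (0 : ℝ) := Ioc_mem_nhdsGT ha
  filter_upwards [h1] with p hp
  exact hp

lemma ev_pow_sqrt (k : ℕ) (C : ℝ) :
    ∀ᶠ p in 𝓝[>] (0 : ℝ), C * (-log p) ^ k * √p ≤ 1 := by
  have h : Tendsto (fun p : ℝ => -log p) (𝓝[>] (0 : ℝ)) atTop :=
    tendsto_neg_atBot_atTop.comp Real.tendsto_log_nhdsGT_zero
  have h1 : Tendsto (fun x : ℝ => (x / 2) ^ k * exp (-(x / 2))) atTop (𝓝 0) :=
    (Real.tendsto_pow_mul_exp_neg_atTop_nhds_zero k).comp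
      (tendsto_id.atTop_div_const (by norm_num : (0 : ℝ) < 2))
  have h2 : Tendsto (fun x : ℝ => (C * 2 ^ k) * ((x / 2) ^ k * exp (-(x / 2)))) atTop
      (𝓝 ((C * 2 ^ k) * 0)) := h1.const_mul _
  rw [mul_zero] at h2
  have h3 := (h2.comp h).eventually (ge_mem_nhds (zero_lt_one' ℝ))
  filter_upwards [h3, ev_pos_le (one_pos)] with p hp hp2
  obtain ⟨hp0, hp1⟩ := hp2
  have h4 : √p = exp (-(-log p / 2)) := by
    rw [Real.sqrt_eq_rpow, Real.rpow_def_of_pos hp0]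
    congr 1
    ring
  simp only [Function.comp] at hp
  rw [h4]
  calc C * (-log p) ^ k * exp (-(-log p / 2)) =
      (C * 2 ^ k) * ((-log p / 2) ^ k * exp (-(-log p / 2))) := by
        rw [div_pow]
        field_simp
    _ ≤ 1 := hp

lemma ev_loglog (C D : ℝ) {ε : ℝ} (hε : 0 < ε) (hD : 0 < D) :
    ∀ᶠ p in 𝓝[>] (0 : ℝ), C * log (D * (-log p)) ≤ ε * (-log p) := by
  have h : Tendsto (fun p : ℝ => -log p) (𝓝[>] (0 : ℝ)) atTop :=
    tendsto_neg_atBot_atTop.comp Real.tendsto_log_nhdsGT_zero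
  have h1 : ∀ᶠ x : ℝ in atTop, C * log (D * x) ≤ ε * x := by
    have h2 : Tendsto (fun x : ℝ => D * x) atTop atTop := tendsto_id.const_mul_atTop hD
    have h3 := (Real.isLittleO_log_id_atTop.comp_tendsto h2).def
      (c := ε / ((|C| + 1) * D)) (by positivity)
    filter_upwards [h3, eventually_ge_atTop (1 : ℝ), eventually_ge_atTop (1 / D)] with x hx hx1 hxD
    have hDx : 1 ≤ D * x := by
      rw [div_le_iff₀ hD] at hxD
      linarith
    simp only [Function.comp, id, Real.norm_eq_abs] at hx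
    rw [abs_of_nonneg (Real.log_nonneg hDx), abs_of_pos (by linarith : (0 : ℝ) < D * x)] at hx
    have h4 : ε / ((|C| + 1) * D) * (D * x) = ε * x / (|C| + 1) := by
      field_simp
    rw [h4, le_div_iff₀ (by positivity)] at hx
    have h5 : C * log (D * x) ≤ (|C| + 1) * log (D * x) :=
      mul_le_mul_of_nonneg_right ((le_abs_self C).trans (by linarith)) (Real.log_nonneg hDx)
    linarith
  exact h.eventually h1

/-- `(1 + p) ^ T` loses little when the rate is slightly decreased. -/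
lemma slow_pow {p η : ℝ} (hp0 : 0 ≤ p) (hη0 : 0 ≤ η) (hpη : p * η ≤ 1) (T : ℕ) :
    (1 + p) ^ T * (1 - T * (p * η)) ≤ (1 + p * (1 - η)) ^ T := by
  have h1 : 1 + (T : ℝ) * (-(p * η)) ≤ (1 + -(p * η)) ^ T :=
    one_add_mul_le_pow (by linarith) T
  have h2 : (1 + p) ^ T * (1 - T * (p * η)) ≤ ((1 + p) * (1 + -(p * η))) ^ T := by
    rw [mul_pow]
    refine mul_le_mul_of_nonneg_left ?_ (by positivity)
    linarith
  refine h2.trans (pow_le_pow_left₀ ?_ ?_ T)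
  · exact mul_nonneg (by linarith) (by linarith)
  · nlinarith [mul_nonneg (mul_nonneg hp0 hp0) hη0]

/-- from `(1 + p) ^ T ≤ x` a bound for `T`. -/
lemma pow_le_bound {p x : ℝ} (hp0 : 0 < p) (hp1 : p ≤ 1) {T : ℕ} (h : (1 + p) ^ T ≤ x) :
    T * p ≤ 2 * log x := by
  have h0 : (0 : ℝ) < (1 + p) ^ T := by positivity
  have h1 : (T : ℝ) * log (1 + p) ≤ log x := by
    rw [← Real.log_pow]
    exact Real.log_le_log h0 h
  have h2 : p / 2 ≤ log (1 + p) := by
    have h3 := Real.one_sub_inv_le_log_of_pos (by linarith : (0 : ℝ) < 1 + p)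
    have h4 : p / 2 ≤ 1 - (1 + p)⁻¹ := by
      have h5 : 1 - (1 + p)⁻¹ = p / (1 + p) := by field_simp; ring
      rw [h5]
      exact div_le_div_of_nonneg_left hp0.le (by linarith) (by linarith)
    linarith
  have h3 : (T : ℝ) * (p / 2) ≤ T * log (1 + p) := mul_le_mul_of_nonneg_left h2 (Nat.cast_nonneg _)
  linarith

lemma one_add_pow_le_exp {x : ℝ} (hx : 0 ≤ x) (T : ℕ) : (1 + x) ^ T ≤ exp (T * x) := by
  rw [Real.exp_nat_mul]
  exact pow_le_pow_left₀ (by linarith) (by linarith [Real.add_one_le_exp x]) T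

lemma sqrt_facts {p : ℝ} (hp0 : 0 < p) (hp1 : p ≤ 1) :
    0 < √p ∧ √p ≤ 1 ∧ √p * √p = p ∧ p ≤ √p := by
  have h1 : 0 < √p := Real.sqrt_pos.mpr hp0
  have h2 : √p ≤ 1 := Real.sqrt_le_one.mpr hp1
  have h3 : √p * √p = p := Real.mul_self_sqrt hp0.le
  exact ⟨h1, h2, h3, by nlinarith⟩

end Pool.Agent.Helper65
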