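import Mathlib

/-!
# Random subsets of a finite set

`Ex p s f` is the expectation of `f E` where `E` is a random subset of the finite set `s`,
containing each element independently with probability `p`. `Pr p s P` is the probability of
the event `P`.
-/

set_option autoImplicit false

namespace Pool.Agent.Helper65

open Finset

variable {ι κ : Type*}

/-- The expectation of `f E` when `E` is a `p`-random subset of the finite set `s`. -/
noncomputable def Ex (p : ℝ) (s : Finset ι) (f : Finset ι → ℝ) : ℝ :=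
  ∑ E ∈ s.powerset, p ^ E.card * (1 - p) ^ (s.card - E.card) * f E

open Classical in
/-- The indicator of a proposition. -/
noncomputable def ind (P : Prop) : ℝ := if P then 1 else 0

lemma ind_pos {P : Prop} (h : P) : ind P = 1 := by simp [ind, h]

lemma ind_neg {P : Prop} (h : ¬ P) : ind P = 0 := by simp [ind, h]

lemma ind_nonneg (P : Prop) : 0 ≤ ind P := by
  by_cases h : P
  · rw [ind_pos h]; norm_num
  · rw [ind_neg h]

lemma ind_le_one (P : Prop) : ind P ≤ 1 := by
  by_cases h : P
  · rw [ind_pos h]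
  · rw [ind_neg h]; norm_num

lemma ind_congr {P Q : Prop} (h : P ↔ Q) : ind P = ind Q := by
  by_cases hP : P
  · rw [ind_pos hP, ind_pos (h.mp hP)]
  · rw [ind_neg hP, ind_neg (fun hQ => hP (h.mpr hQ))]

lemma ind_mono {P Q : Prop} (h : P → Q) : ind P ≤ ind Q := by
  by_cases hP : P
  · rw [ind_pos hP, ind_pos (h hP)]
  · rw [ind_neg hP]; exact ind_nonneg Q

lemma ind_and (P Q : Prop) : ind (P ∧ Q) = ind P * ind Q := by
  by_cases hP : P <;> by_cases hQ : Q <;> simp [ind, hP, hQ]

lemma ind_not (P : Prop) : ind (¬ P) = 1 - ind P := by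
  by_cases hP : P <;> simp [ind, hP]

/-- The probability of the event `P` for a `p`-random subset of `s`. -/
noncomputable def Pr (p : ℝ) (s : Finset ι) (P : Finset ι → Prop) : ℝ :=
  Ex p s (fun E => ind (P E))

section basic

variable {p : ℝ} {s : Finset ι} {f g : Finset ι → ℝ}

lemma Ex_empty (p : ℝ) (f : Finset ι → ℝ) : Ex p ∅ f = f ∅ := by
  simp [Ex]

lemma Ex_congr (h : ∀ E ⊆ s, f E = g E) : Ex p s f = Ex p s g := by
  unfold Ex
  refine Finset.sum_congr rfl ?_
  intro E hE
  rw [h E (Finset.mem_powerset.mp hE)]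

lemma Ex_add (p : ℝ) (s : Finset ι) (f g : Finset ι → ℝ) :
    Ex p s (fun E => f E + g E) = Ex p s f + Ex p s g := by
  unfold Ex
  rw [← Finset.sum_add_distrib]
  refine Finset.sum_congr rfl ?_
  intro E _
  ring

lemma Ex_sub (p : ℝ) (s : Finset ι) (f g : Finset ι → ℝ) :
    Ex p s (fun E => f E - g E) = Ex p s f - Ex p s g := by
  unfold Ex
  rw [← Finset.sum_sub_distrib]
  refine Finset.sum_congr rfl ?_
  intro E _
  ring

lemma Ex_mul_left (p : ℝ) (s : Finset ι) (c : ℝ) (f : Finset ι → ℝ) :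
    Ex p s (fun E => c * f E) = c * Ex p s f := by
  unfold Ex
  rw [Finset.mul_sum]
  refine Finset.sum_congr rfl ?_
  intro E _
  ring

lemma Ex_mul_right (p : ℝ) (s : Finset ι) (c : ℝ) (f : Finset ι → ℝ) :
    Ex p s (fun E => f E * c) = Ex p s f * c := by
  rw [mul_comm, ← Ex_mul_left]
  congr 1
  ext E
  ring

lemma Ex_sum {α : Type*} (p : ℝ) (s : Finset ι) (t : Finset α) (f : α → Finset ι → ℝ) :
    Ex p s (fun E => ∑ i ∈ t, f i E) = ∑ i ∈ t, Ex p s (f i) := by
  unfold Ex
  rw [Finset.sum_comm]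
  refine Finset.sum_congr rfl ?_
  intro E _
  rw [Finset.mul_sum]

lemma Ex_insert [DecidableEq ι] {a : ι} (ha : a ∉ s) (p : ℝ) (f : Finset ι → ℝ) :
    Ex p (insert a s) f = (1 - p) * Ex p s f + p * Ex p s (fun E => f (insert a E)) := by
  unfold Ex
  rw [Finset.sum_powerset_insert ha, Finset.mul_sum, Finset.mul_sum]
  congr 1
  · refine Finset.sum_congr rfl ?_
    intro E hE
    have h1 : E.card ≤ s.card := Finset.card_le_card (Finset.mem_powerset.mp hE)
    rw [Finset.card_insert_of_notMem ha, Nat.succ_sub h1, pow_succ]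
    ring
  · refine Finset.sum_congr rfl ?_
    intro E hE
    have h1 : E.card ≤ s.card := Finset.card_le_card (Finset.mem_powerset.mp hE)
    have h2 : a ∉ E := fun h => ha (Finset.mem_powerset.mp hE h)
    rw [Finset.card_insert_of_notMem ha, Finset.card_insert_of_notMem h2, Nat.succ_sub_succ,
      pow_succ]
    ring

lemma Ex_const (p : ℝ) (s : Finset ι) (c : ℝ) : Ex p s (fun _ => c) = c := by
  classical
  induction s using Finset.induction_on with
  | empty => simp [Ex]
  | insert a s ha ih =>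
    rw [Ex_insert ha, ih]
    ring

lemma Ex_mono (hp0 : 0 ≤ p) (hp1 : p ≤ 1) (h : ∀ E ⊆ s, f E ≤ g E) : Ex p s f ≤ Ex p s g := by
  unfold Ex
  refine Finset.sum_le_sum ?_
  intro E hE
  refine mul_le_mul_of_nonneg_left (h E (Finset.mem_powerset.mp hE)) ?_
  have : 0 ≤ 1 - p := by linarith
  positivity

lemma Ex_nonneg (hp0 : 0 ≤ p) (hp1 : p ≤ 1) (h : ∀ E ⊆ s, 0 ≤ f E) : 0 ≤ Ex p s f := by
  have := Ex_mono (f := fun _ => 0) (g := f) hp0 hp1 h
  rwa [Ex_const] at this

/-- Fubini: a random subset of a disjoint union is a union of independent random subsets. -/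
lemma Ex_union [DecidableEq ι] {s t : Finset ι} (hst : Disjoint s t) (p : ℝ)
    (f : Finset ι → ℝ) :
    Ex p (s ∪ t) f = Ex p s (fun E => Ex p t (fun F => f (E ∪ F))) := by
  induction t using Finset.induction_on generalizing f with
  | empty =>
    rw [Finset.union_empty]
    refine Ex_congr ?_
    intro E _
    rw [Ex_empty, Finset.union_empty]
  | insert a t ha ih =>
    have hs : Disjoint s t := hst.mono_right (Finset.subset_insert a t)
    have ha' : a ∉ s ∪ t := by
      rw [Finset.mem_union, not_or]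
      exact ⟨fun h => (Finset.disjoint_left.mp hst h) (Finset.mem_insert_self a t), ha⟩
    rw [Finset.union_insert, Ex_insert ha', ih hs f, ih hs (fun E => f (insert a E)),
      ← Ex_mul_left, ← Ex_mul_left, ← Ex_add]
    refine Ex_congr ?_
    intro E _
    rw [Ex_insert ha]
    simp only [Finset.union_insert]

lemma Ex_swap {s : Finset ι} {t : Finset κ} (p : ℝ) (f : Finset ι → Finset κ → ℝ) :
    Ex p s (fun E => Ex p t (fun F => f E F)) = Ex p t (fun F => Ex p s (fun E => f E F)) := by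
  unfold Ex
  simp_rw [Finset.mul_sum]
  rw [Finset.sum_comm]
  refine Finset.sum_congr rfl ?_
  intro F _
  refine Finset.sum_congr rfl ?_
  intro E _
  ring

/-- A function depending only on the part of the random set in `t`. -/
lemma Ex_local [DecidableEq ι] {s t : Finset ι} (hts : t ⊆ s) (p : ℝ) (f : Finset ι → ℝ)
    (hf : ∀ E ⊆ s, f E = f (E ∩ t)) : Ex p s f = Ex p t f := by
  have h1 : s = t ∪ (s \ t) := by rw [Finset.union_sdiff_of_subset hts]
  have hd : Disjoint t (s \ t) := Finset.disjoint_sdiff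
  conv_lhs => rw [h1]
  rw [Ex_union hd]
  refine Ex_congr ?_
  intro E hE
  rw [← Ex_const p (s \ t) (f E)]
  refine Ex_congr ?_
  intro F hF
  rw [hf (E ∪ F) (by rw [h1]; exact Finset.union_subset_union hE hF)]
  congr 1
  ext x
  simp only [Finset.mem_inter, Finset.mem_union]
  constructor
  · rintro ⟨h | h, hx⟩
    · exact h
    · exact absurd hx (Finset.mem_sdiff.mp (hF h)).2
  · intro h
    exact ⟨Or.inl h, hE h⟩

/-- Transport along an embedding of the coordinates. -/
lemma Ex_map (φ : ι ↪ κ) (p : ℝ) (s : Finset ι) (f : Finset κ → ℝ) :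
    Ex p (s.map φ) f = Ex p s (fun E => f (E.map φ)) := by
  classical
  induction s using Finset.induction_on generalizing f with
  | empty => simp [Ex]
  | insert a s ha ih =>
    rw [Finset.map_insert, Ex_insert (by simpa using ha), Ex_insert ha, ih, ih]
    simp only [Finset.map_insert]

end basic

section prob

variable {p : ℝ} {s : Finset ι}

lemma Pr_nonneg (hp0 : 0 ≤ p) (hp1 : p ≤ 1) (P : Finset ι → Prop) : 0 ≤ Pr p s P :=
  Ex_nonneg hp0 hp1 (fun _ _ => ind_nonneg _)

lemma Pr_mono (hp0 : 0 ≤ p) (hp1 : p ≤ 1) {P Q : Finset ι → Prop} (h : ∀ E ⊆ s, P E → Q E) :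
    Pr p s P ≤ Pr p s Q :=
  Ex_mono hp0 hp1 (fun E hE => ind_mono (h E hE))

lemma Pr_congr {P Q : Finset ι → Prop} (h : ∀ E ⊆ s, (P E ↔ Q E)) :
    Pr p s P = Pr p s Q :=
  Ex_congr (fun E hE => ind_congr (h E hE))

lemma Pr_le_one (hp0 : 0 ≤ p) (hp1 : p ≤ 1) (P : Finset ι → Prop) : Pr p s P ≤ 1 :=
  (Ex_mono (g := fun _ => 1) hp0 hp1 (fun _ _ => ind_le_one _)).trans_eq (Ex_const p s 1)

lemma Pr_not (p : ℝ) (s : Finset ι) (P : Finset ι → Prop) :
    Pr p s (fun E => ¬ P E) = 1 - Pr p s P := by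
  unfold Pr
  have h1 : Ex p s (fun E => (1 : ℝ) - ind (P E)) = 1 - Ex p s (fun E => ind (P E)) := by
    rw [Ex_sub p s (fun _ => 1), Ex_const]
  rw [← h1]
  exact Ex_congr (fun E _ => ind_not _)

lemma Pr_or_le (hp0 : 0 ≤ p) (hp1 : p ≤ 1) (P Q : Finset ι → Prop) :
    Pr p s (fun E => P E ∨ Q E) ≤ Pr p s P + Pr p s Q := by
  unfold Pr
  rw [← Ex_add]
  refine Ex_mono hp0 hp1 ?_
  intro E _
  by_cases h : P E <;> by_cases h' : Q E <;> simp [ind, h, h']

/-- Union bound over a finite family. -/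
lemma Pr_exists_le {α : Type*} (hp0 : 0 ≤ p) (hp1 : p ≤ 1) (t : Finset α)
    (P : α → Finset ι → Prop) :
    Pr p s (fun E => ∃ i ∈ t, P i E) ≤ ∑ i ∈ t, Pr p s (P i) := by
  unfold Pr
  rw [← Ex_sum]
  refine Ex_mono hp0 hp1 ?_
  intro E _
  by_cases h : ∃ i ∈ t, P i E
  · obtain ⟨i, hi, hPi⟩ := h
    rw [ind_pos ⟨i, hi, hPi⟩]
    calc (1 : ℝ) = ind (P i E) := (ind_pos hPi).symm
      _ ≤ ∑ i ∈ t, ind (P i E) :=
        Finset.single_le_sum (f := fun i => ind (P i E)) (fun j _ => ind_nonneg _) hi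
  · rw [ind_neg h]
    exact Finset.sum_nonneg (fun j _ => ind_nonneg _)

/-- Markov's inequality. -/
lemma Pr_markov (hp0 : 0 ≤ p) (hp1 : p ≤ 1) {f : Finset ι → ℝ} (hf : ∀ E ⊆ s, 0 ≤ f E)
    {a : ℝ} (ha : 0 < a) : Pr p s (fun E => a ≤ f E) ≤ Ex p s f / a := by
  rw [le_div_iff₀ ha]
  unfold Pr
  rw [← Ex_mul_right]
  refine Ex_mono hp0 hp1 ?_
  intro E hE
  by_cases h : a ≤ f E
  · rw [ind_pos h, one_mul]; exact h
  · rw [ind_neg h, zero_mul]; exact hf E hE

end prob

section indep

variable {p : ℝ}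

lemma union_inter_left_of_disjoint [DecidableEq ι] {t u E F : Finset ι} (htu : Disjoint t u)
    (hE : E ⊆ t) (hF : F ⊆ u) : (E ∪ F) ∩ t = E := by
  ext x
  simp only [Finset.mem_inter, Finset.mem_union]
  constructor
  · rintro ⟨h | h, hx⟩
    · exact h
    · exact absurd (hF h) (Finset.disjoint_left.mp htu hx)
  · intro h
    exact ⟨Or.inl h, hE h⟩

lemma union_inter_right_of_disjoint [DecidableEq ι] {t u E F : Finset ι} (htu : Disjoint t u)
    (hE : E ⊆ t) (hF : F ⊆ u) : (E ∪ F) ∩ u = F := by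
  rw [Finset.union_comm]
  exact union_inter_left_of_disjoint htu.symm hF hE

/-- Functions depending on disjoint sets of coordinates are independent. -/
lemma Ex_mul_indep [DecidableEq ι] {s t u : Finset ι} (ht : t ⊆ s) (hu : u ⊆ s)
    (htu : Disjoint t u) {f g : Finset ι → ℝ} (hf : ∀ E ⊆ s, f E = f (E ∩ t))
    (hg : ∀ E ⊆ s, g E = g (E ∩ u)) :
    Ex p s (fun E => f E * g E) = Ex p t f * Ex p u g := by
  have hsub : t ∪ u ⊆ s := Finset.union_subset ht hu
  rw [Ex_local hsub]
  · rw [Ex_union htu, ← Ex_mul_right]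
    refine Ex_congr ?_
    intro E hE
    rw [← Ex_mul_left]
    refine Ex_congr ?_
    intro F hF
    have hEF : E ∪ F ⊆ s := (Finset.union_subset_union hE hF).trans hsub
    rw [hf _ hEF, hg _ hEF, union_inter_left_of_disjoint htu hE hF,
      union_inter_right_of_disjoint htu hE hF]
  · intro E hE
    have h1 : E ∩ (t ∪ u) ⊆ s := Finset.inter_subset_left.trans hE
    rw [hf _ hE, hg _ hE, hf _ h1, hg _ h1]
    congr 2
    · rw [Finset.inter_assoc, Finset.inter_eq_right.mpr Finset.subset_union_left]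
    · rw [Finset.inter_assoc, Finset.inter_eq_right.mpr Finset.subset_union_right]

lemma Pr_and_indep [DecidableEq ι] {s t u : Finset ι} (ht : t ⊆ s) (hu : u ⊆ s)
    (htu : Disjoint t u) {P Q : Finset ι → Prop} (hP : ∀ E ⊆ s, (P E ↔ P (E ∩ t)))
    (hQ : ∀ E ⊆ s, (Q E ↔ Q (E ∩ u))) :
    Pr p s (fun E => P E ∧ Q E) = Pr p t P * Pr p u Q := by
  unfold Pr
  rw [← Ex_mul_indep ht hu htu (f := fun E => ind (P E)) (g := fun E => ind (Q E))]
  · exact Ex_congr (fun E _ => ind_and _ _)
  · exact fun E hE => ind_congr (hP E hE)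
  · exact fun E hE => ind_congr (hQ E hE)

/-- An event depending only on the coordinates in `t`. -/
lemma Pr_local [DecidableEq ι] {s t : Finset ι} (hts : t ⊆ s) (p : ℝ) {P : Finset ι → Prop}
    (hP : ∀ E ⊆ s, (P E ↔ P (E ∩ t))) : Pr p s P = Pr p t P :=
  Ex_local hts p _ (fun E hE => ind_congr (hP E hE))

/-- Independence of finitely many events living on pairwise disjoint sets of coordinates. -/
lemma Pr_forall_indep [DecidableEq ι] {α : Type*} [DecidableEq α] (I : Finset α)
    {s : Finset ι} (t : α → Finset ι)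
    (hdisj : ∀ i ∈ I, ∀ j ∈ I, i ≠ j → Disjoint (t i) (t j)) (hts : ∀ i ∈ I, t i ⊆ s)
    (P : α → Finset ι → Prop) (hP : ∀ i ∈ I, ∀ E ⊆ s, (P i E ↔ P i (E ∩ t i))) :
    Pr p s (fun E => ∀ i ∈ I, P i E) = ∏ i ∈ I, Pr p (t i) (P i) := by
  induction I using Finset.induction_on with
  | empty =>
    rw [Finset.prod_empty]
    refine Eq.trans (Ex_congr (g := fun _ => 1) ?_) (Ex_const p s 1)
    intro E _
    exact ind_pos (by simp)
  | insert a I ha ih =>
    have hI : Pr p s (fun E => ∀ i ∈ I, P i E) = ∏ i ∈ I, Pr p (t i) (P i) :=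
      ih (fun i hi j hj => hdisj i (Finset.mem_insert_of_mem hi) j (Finset.mem_insert_of_mem hj))
        (fun i hi => hts i (Finset.mem_insert_of_mem hi))
        (fun i hi => hP i (Finset.mem_insert_of_mem hi))
    have h1 : Pr p s (fun E => ∀ i ∈ insert a I, P i E) =
        Pr p s (fun E => P a E ∧ ∀ i ∈ I, P i E) := by
      refine Pr_congr ?_
      intro E _
      simp
    have hta : t a ⊆ s := hts a (Finset.mem_insert_self a I)
    have hQ : ∀ E ⊆ s, ((∀ i ∈ I, P i E) ↔ (∀ i ∈ I, P i (E ∩ (s \ t a)))) := by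
      intro E hE
      refine forall₂_congr ?_
      intro i hi
      have hi' : i ∈ insert a I := Finset.mem_insert_of_mem hi
      have hE' : E ∩ (s \ t a) ⊆ s := Finset.inter_subset_left.trans hE
      rw [hP i hi' E hE, hP i hi' _ hE']
      have hia : Disjoint (t i) (t a) := hdisj i hi' a (Finset.mem_insert_self a I)
        (fun h => ha (h ▸ hi))
      have : E ∩ (s \ t a) ∩ t i = E ∩ t i := by
        ext x
        simp only [Finset.mem_inter, Finset.mem_sdiff]
        constructor
        · rintro ⟨⟨h1, _⟩, h2⟩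
          exact ⟨h1, h2⟩
        · rintro ⟨h1, h2⟩
          exact ⟨⟨h1, hE h1, Finset.disjoint_left.mp hia h2⟩, h2⟩
      rw [this]
    rw [h1, Pr_and_indep hta Finset.sdiff_subset Finset.disjoint_sdiff
      (hP a (Finset.mem_insert_self a I)) hQ, Finset.prod_insert ha]
    congr 1
    rw [← hI]
    exact (Pr_local Finset.sdiff_subset p hQ).symm

/-- The probability that a random subset of `s` equals a given subset. -/
lemma Pr_eq (p : ℝ) {s F : Finset ι} (hF : F ⊆ s) :
    Pr p s (fun E => E = F) = p ^ F.card * (1 - p) ^ (s.card - F.card) := by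
  unfold Pr Ex
  rw [Finset.sum_eq_single F]
  · show _ * ind (F = F) = _
    rw [ind_pos rfl, mul_one]
  · intro E _ hEF
    show _ * ind (E = F) = 0
    rw [ind_neg hEF, mul_zero]
  · intro h
    exact absurd (Finset.mem_powerset.mpr hF) h

/-- The probability that a random subset of `s` avoids `X ⊆ s`. -/
lemma Pr_disjoint [DecidableEq ι] (p : ℝ) {s X : Finset ι} (hX : X ⊆ s) :
    Pr p s (fun E => Disjoint E X) = (1 - p) ^ X.card := by
  have h1 : Pr p s (fun E => Disjoint E X) = Pr p X (fun E => E = ∅) := by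
    rw [Pr_local hX]
    · refine Pr_congr ?_
      intro E hE
      constructor
      · intro h
        exact (Finset.disjoint_self_iff_empty E).mp (h.mono_right hE)
      · rintro rfl
        exact Finset.disjoint_empty_left X
    · intro E _
      rw [Finset.disjoint_iff_inter_eq_empty, Finset.disjoint_iff_inter_eq_empty,
        Finset.inter_assoc, Finset.inter_self]
  rw [h1, Pr_eq p (Finset.empty_subset X)]
  simp

end indep

end Pool.Agent.Helper65
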