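import Pool.Agent.Helper65.Excess

/-!
# Many vertices have three good children
-/

set_option autoImplicit false

namespace Pool.Agent.Helper65

open Finset Real

/-- The up-set of a set is the union of the up-sets of its elements. -/
lemma up_subset_biUnion (E : Finset (ℕ × ℕ)) (V : Finset ℕ) (n : ℕ) :
    up E V n ⊆ V.biUnion (fun z => up E {z} n) := by
  induction n with
  | zero => simp [up]
  | succ n ih =>
    intro x hx
    rw [Finset.mem_biUnion]
    rw [up_succ] at hx
    have hold : x ∈ up E V n → ∃ a ∈ V, x ∈ up E {a} (n + 1) := by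
      intro hx
      have := ih hx
      rw [Finset.mem_biUnion] at this
      obtain ⟨a, ha, hxa⟩ := this
      exact ⟨a, ha, up_subset_succ _ _ _ hxa⟩
    split_ifs at hx with h
    · rcases Finset.mem_insert.mp hx with rfl | hx
      · rcases h with h | ⟨u, hu, hux⟩
        · exact ⟨x, h, mem_up_of_mem (Finset.mem_singleton_self x) (Nat.lt_succ_self x)⟩
        · have := ih hu
          rw [Finset.mem_biUnion] at this
          obtain ⟨a, ha, hua⟩ := this
          exact ⟨a, ha, mem_up_of_edge hua hux (Nat.lt_succ_self x)⟩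
      · exact hold hx
    · exact hold hx

lemma card_up_le_sum (E : Finset (ℕ × ℕ)) (V : Finset ℕ) (n : ℕ) :
    (up E V n).card ≤ ∑ z ∈ V, (up E {z} n).card :=
  (Finset.card_le_card (up_subset_biUnion E V n)).trans Finset.card_biUnion_le

/-- In a group of `2 v` starting vertices, it is unlikely that `v` of them grow badly. -/
lemma Pr_group_bad {p : ℝ} (hp0 : 0 ≤ p) (hp1 : p ≤ 1) {n1 T v M1 : ℕ} {Gp : Finset ℕ}
    (hGp : Gp ⊆ range n1) (hcard : Gp.card = 2 * v) (hv : 1 ≤ v)
    (hpM : p * (v * M1 : ℝ) ≤ 1)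
    (hg : 31 * (M1 : ℝ) ≤ (1 + p * (1 - p * (v * M1 : ℝ) / 2)) ^ T) :
    Pr p (cols n1 (n1 + T))
      (fun E => v ≤ (Gp.filter (fun z => (up E {z} (n1 + T)).card < M1)).card) ≤
      (1 / 2) ^ v := by
  set g := (1 + p * (1 - p * (v * M1 : ℝ) / 2)) ^ T with hgdef
  have hg0 : 0 < g := by
    rw [hgdef]
    apply pow_pos
    have : 0 ≤ p * (1 - p * (v * M1 : ℝ) / 2) := mul_nonneg hp0 (by linarith)
    linarith
  have h1 : Pr p (cols n1 (n1 + T))
      (fun E => v ≤ (Gp.filter (fun z => (up E {z} (n1 + T)).card < M1)).card) ≤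
      Pr p (cols n1 (n1 + T))
        (fun E => ∃ V ∈ Gp.powersetCard v, ((up E V (n1 + T)).card : ℝ) < (v * M1 : ℝ)) := by
    refine Pr_mono hp0 hp1 ?_
    intro E _ h
    obtain ⟨V, hV, hVc⟩ := Finset.exists_subset_card_eq h
    refine ⟨V, Finset.mem_powersetCard.mpr ⟨hV.trans (Finset.filter_subset _ _), hVc⟩, ?_⟩
    have h2 : (up E V (n1 + T)).card < v * M1 := by
      calc (up E V (n1 + T)).card ≤ ∑ z ∈ V, (up E {z} (n1 + T)).card := card_up_le_sum _ _ _
        _ < ∑ _z ∈ V, M1 := by
            apply Finset.sum_lt_sum_of_nonempty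
            · rw [← Finset.card_pos]; omega
            · intro z hz
              exact (Finset.mem_filter.mp (hV hz)).2
        _ = v * M1 := by rw [Finset.sum_const, hVc, smul_eq_mul]
    exact_mod_cast h2
  refine h1.trans ((Pr_exists_le hp0 hp1 _ _).trans ?_)
  have h3 : ∀ V ∈ Gp.powersetCard v, Pr p (cols n1 (n1 + T))
      (fun E => ((up E V (n1 + T)).card : ℝ) < (v * M1 : ℝ)) ≤ (exp 1 / 32) ^ v := by
    intro V hV
    rw [Finset.mem_powersetCard] at hV
    have h4 := Pr_growth_lt hp0 hp1 (hV.1.trans hGp) T (M := (v * M1 : ℝ)) (Y := 31)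
      (by positivity) hpM (by norm_num)
    refine h4.trans ?_
    rw [hV.2]
    have h5 : (v * M1 : ℝ) * (31 * g⁻¹) ≤ v := by
      have : (v * M1 : ℝ) * (31 * g⁻¹) = v * ((31 * M1) * g⁻¹) := by ring
      rw [this]
      have h6 : (31 * (M1 : ℝ)) * g⁻¹ ≤ 1 := by
        rw [← div_eq_mul_inv, div_le_one hg0]
        exact hg
      calc (v : ℝ) * ((31 * M1) * g⁻¹) ≤ v * 1 :=
            mul_le_mul_of_nonneg_left h6 (Nat.cast_nonneg v)
        _ = v := mul_one _
    calc exp ((v * M1 : ℝ) * (31 * g⁻¹)) * ((1 + 31) ^ v)⁻¹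
        ≤ exp v * ((1 + 31) ^ v)⁻¹ := by
          apply mul_le_mul_of_nonneg_right _ (by positivity)
          exact Real.exp_le_exp.mpr h5
      _ = (exp 1 / 32) ^ v := by
          rw [div_pow, ← Real.exp_nat_mul, mul_one]
          norm_num
          rw [div_eq_mul_inv]
  calc ∑ V ∈ Gp.powersetCard v, Pr p (cols n1 (n1 + T))
        (fun E => ((up E V (n1 + T)).card : ℝ) < (v * M1 : ℝ))
      ≤ ∑ _V ∈ Gp.powersetCard v, (exp 1 / 32) ^ v := Finset.sum_le_sum h3
    _ = ((2 * v).choose v : ℝ) * (exp 1 / 32) ^ v := by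
        rw [Finset.sum_const, Finset.card_powersetCard, hcard, nsmul_eq_mul]
    _ ≤ 4 ^ v * (exp 1 / 32) ^ v := by
        apply mul_le_mul_of_nonneg_right _ (by positivity)
        have := Nat.choose_le_two_pow (2 * v) v
        have h2 : (2 : ℕ) ^ (2 * v) = 4 ^ v := by rw [pow_mul]; norm_num
        rw [h2] at this
        exact_mod_cast this
    _ = (4 * (exp 1 / 32)) ^ v := by rw [mul_pow]
    _ ≤ (1 / 2) ^ v := by
        apply pow_le_pow_left₀ (by positivity)
        have := Real.exp_one_lt_d9
        linarith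

/-- Among the `2 v J` vertices `m ≤ z < m + 2 v J`, at least half grow well, with high
probability. -/
lemma Pr_few_good {p : ℝ} (hp0 : 0 ≤ p) (hp1 : p ≤ 1) (m : ℕ) {J T v M1 : ℕ} (hv : 1 ≤ v)
    (hpM : p * (v * M1 : ℝ) ≤ 1)
    (hg : 31 * (M1 : ℝ) ≤ (1 + p * (1 - p * (v * M1 : ℝ) / 2)) ^ T) :
    Pr p (cols (m + 2 * v * J) (m + 2 * v * J + T))
      (fun E => ((Ico m (m + 2 * v * J)).filter
        (fun z => M1 ≤ (up E {z} (m + 2 * v * J + T)).card)).card < v * J) ≤
      J * (1 / 2) ^ v := by
  set n1 := m + 2 * v * J with hn1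
  set Gp : ℕ → Finset ℕ := fun j => Ico (m + 2 * v * j) (m + 2 * v * (j + 1)) with hGp
  have h1 : Pr p (cols n1 (n1 + T))
      (fun E => ((Ico m n1).filter (fun z => M1 ≤ (up E {z} (n1 + T)).card)).card < v * J) ≤
      Pr p (cols n1 (n1 + T)) (fun E => ∃ j ∈ range J,
        v ≤ ((Gp j).filter (fun z => (up E {z} (n1 + T)).card < M1)).card) := by
    refine Pr_mono hp0 hp1 ?_
    intro E _ h
    by_contra hcon
    push Not at hcon
    -- the number of bad vertices
    have h2 : ((Ico m n1).filter (fun z => ¬ M1 ≤ (up E {z} (n1 + T)).card)).card ≤ v * J := by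
      have h3 : (Ico m n1).filter (fun z => ¬ M1 ≤ (up E {z} (n1 + T)).card) ⊆
          (range J).biUnion (fun j => (Gp j).filter
            (fun z => (up E {z} (n1 + T)).card < M1)) := by
        intro z hz
        rw [Finset.mem_filter, Finset.mem_Ico] at hz
        rw [Finset.mem_biUnion]
        refine ⟨(z - m) / (2 * v), ?_, ?_⟩
        · rw [Finset.mem_range]
          apply Nat.div_lt_of_lt_mul
          omega
        · rw [Finset.mem_filter, hGp]
          simp only [Finset.mem_Ico]
          have h4 := Nat.div_add_mod (z - m) (2 * v)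
          have h5 := Nat.mod_lt (z - m) (show 0 < 2 * v by omega)
          refine ⟨⟨?_, ?_⟩, by omega⟩
          · omega
          · rw [Nat.mul_add, Nat.mul_one]
            omega
      calc ((Ico m n1).filter (fun z => ¬ M1 ≤ (up E {z} (n1 + T)).card)).card
          ≤ ((range J).biUnion (fun j => (Gp j).filter
            (fun z => (up E {z} (n1 + T)).card < M1))).card := Finset.card_le_card h3
        _ ≤ ∑ j ∈ range J, ((Gp j).filter (fun z => (up E {z} (n1 + T)).card < M1)).card :=
            Finset.card_biUnion_le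
        _ ≤ ∑ _j ∈ range J, v := Finset.sum_le_sum (fun j hj => (hcon j hj).le)
        _ = v * J := by rw [Finset.sum_const, Finset.card_range, smul_eq_mul, mul_comm]
    have h6 := Finset.card_filter_add_card_filter_not (s := Ico m n1)
      (fun z => M1 ≤ (up E {z} (n1 + T)).card)
    rw [Nat.card_Ico] at h6
    have h7 : n1 - m = 2 * (v * J) := by rw [hn1, Nat.add_sub_cancel_left]; ring
    omega
  refine h1.trans ((Pr_exists_le hp0 hp1 _ _).trans ?_)
  calc ∑ j ∈ range J, Pr p (cols n1 (n1 + T)) (fun E =>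
        v ≤ ((Gp j).filter (fun z => (up E {z} (n1 + T)).card < M1)).card)
      ≤ ∑ _j ∈ range J, (1 / 2 : ℝ) ^ v := by
        refine Finset.sum_le_sum ?_
        intro j hj
        refine Pr_group_bad hp0 hp1 ?_ ?_ hv hpM hg
        · intro z hz
          rw [hGp] at hz
          simp only [Finset.mem_Ico] at hz
          rw [Finset.mem_range] at hj ⊢
          have h8 : 2 * v * (j + 1) ≤ 2 * v * J := Nat.mul_le_mul_left _ hj
          omega
        · rw [hGp]
          simp only [Nat.card_Ico]
          rw [Nat.mul_add, Nat.mul_one]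
          omega
    _ = J * (1 / 2) ^ v := by rw [Finset.sum_const, Finset.card_range, nsmul_eq_mul]

/-- It is unlikely that many vertices have fewer than three neighbours in a large set `G`. -/
lemma Pr_few_children {p : ℝ} (hp0 : 0 ≤ p) (hp1 : p ≤ 1) {m n1 h : ℕ} {G : Finset ℕ}
    (hG : G ⊆ Ico m n1) (hGc : 3 * h ≤ G.card) (s : ℕ) :
    Pr p (cols m n1) (fun E =>
      s ≤ ((range m).filter (fun a => (G.filter (fun z => (a, z) ∈ E)).card < 3)).card) ≤
      2 ^ m * (3 * (1 - p) ^ h) ^ s := by
  have hq0 : 0 ≤ 1 - p := by linarith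
  have h1 : Pr p (cols m n1) (fun E =>
      s ≤ ((range m).filter (fun a => (G.filter (fun z => (a, z) ∈ E)).card < 3)).card) ≤
      Pr p (cols m n1) (fun E => ∃ Q ∈ (range m).powersetCard s,
        ∀ a ∈ Q, (G.filter (fun z => (a, z) ∈ E)).card < 3) := by
    refine Pr_mono hp0 hp1 ?_
    intro E _ h
    obtain ⟨Q, hQ, hQc⟩ := Finset.exists_subset_card_eq h
    refine ⟨Q, Finset.mem_powersetCard.mpr ⟨hQ.trans (Finset.filter_subset _ _), hQc⟩, ?_⟩
    intro a ha
    exact (Finset.mem_filter.mp (hQ ha)).2
  refine h1.trans ((Pr_exists_le hp0 hp1 _ _).trans ?_)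
  have h2 : ∀ Q ∈ (range m).powersetCard s, Pr p (cols m n1) (fun E =>
      ∀ a ∈ Q, (G.filter (fun z => (a, z) ∈ E)).card < 3) ≤ (3 * (1 - p) ^ h) ^ s := by
    intro Q hQ
    rw [Finset.mem_powersetCard] at hQ
    have hsub : ∀ a ∈ Q, ({a} : Finset ℕ) ×ˢ G ⊆ cols m n1 := by
      intro a ha e he
      rw [Finset.mem_product, Finset.mem_singleton] at he
      have h3 := Finset.mem_Ico.mp (hG he.2)
      have h4 := Finset.mem_range.mp (hQ.1 ha)
      rw [mem_cols]
      omega
    rw [Pr_forall_indep Q (fun a => ({a} : Finset ℕ) ×ˢ G) ?_ hsub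
      (fun a E => (G.filter (fun z => (a, z) ∈ E)).card < 3) ?_]
    · calc ∏ a ∈ Q, Pr p (({a} : Finset ℕ) ×ˢ G)
            (fun E => (G.filter (fun z => (a, z) ∈ E)).card < 3)
          ≤ ∏ _a ∈ Q, (3 * (1 - p) ^ h) := by
            refine Finset.prod_le_prod (fun a _ => Pr_nonneg hp0 hp1 _) ?_
            intro a ha
            -- three disjoint parts of G
            obtain ⟨G1, hG1, hG1c⟩ := Finset.exists_subset_card_eq (s := G) (n := h) (by omega)
            obtain ⟨G2, hG2, hG2c⟩ := Finset.exists_subset_card_eq (s := G \ G1) (n := h)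
              (by rw [Finset.card_sdiff_of_subset hG1]; omega)
            have hG12 : G1 ∪ G2 ⊆ G := Finset.union_subset hG1 (hG2.trans Finset.sdiff_subset)
            have hd12 : Disjoint G1 G2 := by
              rw [Finset.disjoint_left]
              intro x hx hx'
              exact (Finset.mem_sdiff.mp (hG2 hx')).2 hx
            have hc12 : (G1 ∪ G2).card = 2 * h := by
              rw [Finset.card_union_of_disjoint hd12]; omega
            obtain ⟨G3, hG3, hG3c⟩ := Finset.exists_subset_card_eq (s := G \ (G1 ∪ G2)) (n := h)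
              (by rw [Finset.card_sdiff_of_subset hG12]; omega)
            have hG3G : G3 ⊆ G := hG3.trans Finset.sdiff_subset
            have hG2G : G2 ⊆ G := hG2.trans Finset.sdiff_subset
            have hd3 : ∀ x ∈ G3, x ∉ G1 ∧ x ∉ G2 := by
              intro x hx
              have := (Finset.mem_sdiff.mp (hG3 hx)).2
              rw [Finset.mem_union, not_or] at this
              exact this
            have h5 : Pr p (({a} : Finset ℕ) ×ˢ G)
                (fun E => (G.filter (fun z => (a, z) ∈ E)).card < 3) ≤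
                Pr p (({a} : Finset ℕ) ×ˢ G) (fun E => Disjoint E (({a} : Finset ℕ) ×ˢ G1) ∨
                  (Disjoint E (({a} : Finset ℕ) ×ˢ G2) ∨
                    Disjoint E (({a} : Finset ℕ) ×ˢ G3))) := by
              refine Pr_mono hp0 hp1 ?_
              intro E _ hE
              by_contra hcon
              rw [not_or, not_or] at hcon
              obtain ⟨hc1, hc2, hc3⟩ := hcon
              have hex : ∀ G' : Finset ℕ, ¬ Disjoint E (({a} : Finset ℕ) ×ˢ G') →
                  ∃ z ∈ G', (a, z) ∈ E := by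
                intro G' hG'
                rw [Finset.not_disjoint_iff] at hG'
                obtain ⟨e, he, he'⟩ := hG'
                rw [Finset.mem_product, Finset.mem_singleton] at he'
                refine ⟨e.2, he'.2, ?_⟩
                rw [← he'.1]
                exact he
              obtain ⟨z1, hz1, hz1E⟩ := hex G1 hc1
              obtain ⟨z2, hz2, hz2E⟩ := hex G2 hc2
              obtain ⟨z3, hz3, hz3E⟩ := hex G3 hc3
              have hne12 : z1 ≠ z2 := fun h => Finset.disjoint_left.mp hd12 hz1 (h ▸ hz2)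
              have hne13 : z1 ≠ z3 := fun h => (hd3 z3 hz3).1 (h ▸ hz1)
              have hne23 : z2 ≠ z3 := fun h => (hd3 z3 hz3).2 (h ▸ hz2)
              have hsub3 : ({z1, z2, z3} : Finset ℕ) ⊆ G.filter (fun z => (a, z) ∈ E) := by
                intro x hx
                simp only [Finset.mem_insert, Finset.mem_singleton] at hx
                rw [Finset.mem_filter]
                rcases hx with rfl | rfl | rfl
                · exact ⟨hG1 hz1, hz1E⟩
                · exact ⟨hG2G hz2, hz2E⟩
                · exact ⟨hG3G hz3, hz3E⟩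
              have := Finset.card_le_card hsub3
              rw [Finset.card_eq_three.mpr ⟨z1, z2, z3, hne12, hne13, hne23, rfl⟩] at this
              omega
            have hdis : ∀ G' ⊆ G, G'.card = h → Pr p (({a} : Finset ℕ) ×ˢ G)
                (fun E => Disjoint E (({a} : Finset ℕ) ×ˢ G')) = (1 - p) ^ h := by
              intro G' hG' hc
              rw [Pr_disjoint p (Finset.product_subset_product (Finset.Subset.refl _) hG')]
              rw [Finset.card_product, Finset.card_singleton, one_mul, hc]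
            refine h5.trans ((Pr_or_le hp0 hp1 _ _).trans ?_)
            have h6 := Pr_or_le (s := ({a} : Finset ℕ) ×ˢ G) hp0 hp1
              (fun E => Disjoint E (({a} : Finset ℕ) ×ˢ G2))
              (fun E => Disjoint E (({a} : Finset ℕ) ×ˢ G3))
            rw [hdis G2 hG2G hG2c, hdis G3 hG3G hG3c] at h6
            rw [hdis G1 hG1 hG1c]
            linarith
        _ = (3 * (1 - p) ^ h) ^ s := by rw [Finset.prod_const, hQ.2]
    · intro a _ b _ hab
      rw [Finset.disjoint_left]
      intro e he he'
      rw [Finset.mem_product, Finset.mem_singleton] at he he'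
      exact hab (he.1.symm.trans he'.1)
    · intro a _ E _
      have : G.filter (fun z => (a, z) ∈ E) =
          G.filter (fun z => (a, z) ∈ E ∩ (({a} : Finset ℕ) ×ˢ G)) := by
        ext z
        simp only [Finset.mem_filter, Finset.mem_inter, Finset.mem_product,
          Finset.mem_singleton]
        tauto
      rw [this]
  calc ∑ Q ∈ (range m).powersetCard s, Pr p (cols m n1) (fun E =>
        ∀ a ∈ Q, (G.filter (fun z => (a, z) ∈ E)).card < 3)
      ≤ ∑ _Q ∈ (range m).powersetCard s, (3 * (1 - p) ^ h) ^ s := Finset.sum_le_sum h2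
    _ = (m.choose s : ℝ) * (3 * (1 - p) ^ h) ^ s := by
        rw [Finset.sum_const, Finset.card_powersetCard, Finset.card_range, nsmul_eq_mul]
    _ ≤ 2 ^ m * (3 * (1 - p) ^ h) ^ s := by
        apply mul_le_mul_of_nonneg_right _ (by positivity)
        exact_mod_cast Nat.choose_le_two_pow m s

end Pool.Agent.Helper65
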