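import Pool.Agent.Helper65.HalfDet
import Pool.Agent.Helper91.DD10Cross
import Pool.Agent.Helper27.RGOBlock

/-!
# Bounds for the sums entering the second moment computation
-/

set_option autoImplicit false

namespace Pool.Agent.Helper65

open Finset Real

lemma inv_pow_le_exp {p : ℝ} (hp0 : 0 ≤ p) (hp1 : p ≤ 1 / 2) (k : ℕ) :
    ((1 - p) ^ k)⁻¹ ≤ exp (2 * p * k) := by
  have h1 : exp (-(2 * p)) ≤ 1 - p := by
    rw [Real.exp_neg, inv_le_comm₀ (exp_pos _) (by linarith)]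
    have h2 := Real.add_one_le_exp (2 * p)
    refine le_trans ?_ h2
    rw [inv_le_iff_one_le_mul₀ (by linarith)]
    nlinarith
  have h3 : exp (-(2 * p * k)) ≤ (1 - p) ^ k := by
    have h4 : exp (-(2 * p * k)) = exp (-(2 * p)) ^ k := by
      rw [← Real.exp_nat_mul]; congr 1; ring
    rw [h4]
    exact pow_le_pow_left₀ (exp_pos _).le h1 k
  have h5 : ((1 - p) ^ k)⁻¹ ≤ (exp (-(2 * p * k)))⁻¹ := inv_anti₀ (exp_pos _) h3
  rwa [← Real.exp_neg, neg_neg] at h5

lemma beta_bound {p g η κ β : ℝ} (hp0 : 0 ≤ p) (hp1 : p ≤ 1 / 2) (hg : 0 ≤ g) (hη : 0 ≤ η)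
    (hκ : 0 ≤ κ) {m : ℕ}
    (hm : 1 ≤ m) (S : Finset ℕ) (V : ℕ → Finset ℕ) (u : ℕ) (hu : (u : ℝ) ≤ 16 * g)
    (hS : S ⊆ range m) (hSm : m ≤ 2 * S.card) (hV : ∀ x ∈ S, ((V x).card : ℝ) ≤ 16 * g)
    (hpair : (((range m ×ˢ range m).filter (fun q => q.1 ≠ q.2 ∧
        η < ((V q.1 ∩ V q.2).card : ℝ))).card : ℝ) ≤ κ * m ^ 2)
    (hβ : exp (512 * (p * g ^ 2)) * (2 / m + 4 * κ) + (exp (32 * (p * g * η)) - 1) ≤ β) :
    ∑ x ∈ S, ∑ y ∈ S, (((1 - p) ^ (u * (V x ∩ V y).card))⁻¹ - 1) ≤ β * (S.card : ℝ) ^ 2 := by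
  classical
  have hq : (0 : ℝ) < 1 - p := by linarith
  have hm0 : (0 : ℝ) < m := by exact_mod_cast hm
  set W := exp (512 * (p * g ^ 2)) with hW
  set w0 := exp (32 * (p * g * η)) - 1 with hw0
  have hw00 : 0 ≤ w0 := by
    rw [hw0]
    have := Real.add_one_le_exp (32 * (p * g * η))
    have h2 : 0 ≤ 32 * (p * g * η) := by positivity
    linarith
  have hW0 : 0 < W := exp_pos _
  set Q : ℕ × ℕ → Prop := fun q => q.1 = q.2 ∨ η < ((V q.1 ∩ V q.2).card : ℝ) with hQ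
  have hterm : ∀ q ∈ S ×ˢ S, (((1 - p) ^ (u * (V q.1 ∩ V q.2).card))⁻¹ - 1) ≤
      (if Q q then W else 0) + w0 := by
    intro q hqS
    rw [Finset.mem_product] at hqS
    by_cases hQq : Q q
    · rw [if_pos hQq]
      have h1 := inv_pow_le_exp hp0 hp1 (u * (V q.1 ∩ V q.2).card)
      have h2 : ((u * (V q.1 ∩ V q.2).card : ℕ) : ℝ) ≤ 16 * g * (16 * g) := by
        push_cast
        refine mul_le_mul hu ?_ (Nat.cast_nonneg _) (by positivity)
        refine le_trans ?_ (hV q.1 hqS.1)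
        exact_mod_cast Finset.card_le_card Finset.inter_subset_left
      have h3 : exp (2 * p * ((u * (V q.1 ∩ V q.2).card : ℕ) : ℝ)) ≤ W := by
        refine Real.exp_le_exp.mpr ?_
        calc 2 * p * ((u * (V q.1 ∩ V q.2).card : ℕ) : ℝ) ≤ 2 * p * (16 * g * (16 * g)) :=
              mul_le_mul_of_nonneg_left h2 (by positivity)
          _ = _ := by ring
      linarith
    · rw [if_neg hQq, zero_add]
      have h1 := inv_pow_le_exp hp0 hp1 (u * (V q.1 ∩ V q.2).card)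
      rw [hQ] at hQq
      simp only [not_or, not_lt] at hQq
      have h2 : ((u * (V q.1 ∩ V q.2).card : ℕ) : ℝ) ≤ 16 * g * η := by
        push_cast
        exact mul_le_mul hu hQq.2 (Nat.cast_nonneg _) (by positivity)
      have h3 : exp (2 * p * ((u * (V q.1 ∩ V q.2).card : ℕ) : ℝ)) ≤ exp (32 * (p * g * η)) := by
        refine Real.exp_le_exp.mpr ?_
        calc 2 * p * ((u * (V q.1 ∩ V q.2).card : ℕ) : ℝ) ≤ 2 * p * (16 * g * η) :=
              mul_le_mul_of_nonneg_left h2 (by positivity)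
          _ = _ := by ring
      rw [hw0]
      linarith
  have hcount : (((S ×ˢ S).filter Q).card : ℝ) ≤ S.card + κ * m ^ 2 := by
    have h1 : (S ×ˢ S).filter Q ⊆ (S.image (fun x => (x, x))) ∪
        (range m ×ˢ range m).filter (fun q => q.1 ≠ q.2 ∧
        η < ((V q.1 ∩ V q.2).card : ℝ)) := by
      intro q hqS
      rw [Finset.mem_filter, Finset.mem_product] at hqS
      by_cases heq : q.1 = q.2
      · refine Finset.mem_union_left _ (Finset.mem_image.mpr ⟨q.1, hqS.1.1, ?_⟩)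
        exact Prod.ext rfl heq
      · refine Finset.mem_union_right _ (Finset.mem_filter.mpr ⟨?_, heq, ?_⟩)
        · exact Finset.mem_product.mpr ⟨hS hqS.1.1, hS hqS.1.2⟩
        · rcases hqS.2 with h | h
          · exact absurd h heq
          · exact h
    have h2 := (Finset.card_le_card h1).trans (Finset.card_union_le _ _)
    have h3 : (S.image (fun x => (x, x))).card ≤ S.card := Finset.card_image_le
    have h4 : (((S ×ˢ S).filter Q).card : ℝ) ≤ S.card +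
        ((range m ×ˢ range m).filter (fun q => q.1 ≠ q.2 ∧
        η < ((V q.1 ∩ V q.2).card : ℝ))).card := by
      exact_mod_cast h2.trans (Nat.add_le_add_right h3 _)
    linarith
  have hsum : ∑ x ∈ S, ∑ y ∈ S, (((1 - p) ^ (u * (V x ∩ V y).card))⁻¹ - 1) ≤
      W * (S.card + κ * m ^ 2) + w0 * (S.card : ℝ) ^ 2 := by
    rw [← Finset.sum_product']
    refine (Finset.sum_le_sum hterm).trans ?_
    rw [Finset.sum_add_distrib, ← Finset.sum_filter, Finset.sum_const, Finset.sum_const,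
      nsmul_eq_mul, nsmul_eq_mul, Finset.card_product]
    have h1 : (((S ×ˢ S).filter Q).card : ℝ) * W ≤ W * (S.card + κ * m ^ 2) := by
      rw [mul_comm]
      exact mul_le_mul_of_nonneg_left hcount hW0.le
    have h2 : ((S.card * S.card : ℕ) : ℝ) * w0 = w0 * (S.card : ℝ) ^ 2 := by
      push_cast; ring
    linarith
  have hs : (m : ℝ) ≤ 2 * S.card := by exact_mod_cast hSm
  have hs1 : (S.card : ℝ) ≤ 2 / m * (S.card : ℝ) ^ 2 := by
    rw [div_mul_eq_mul_div, le_div_iff₀ hm0]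
    nlinarith
  have hs2 : (m : ℝ) ^ 2 ≤ 4 * (S.card : ℝ) ^ 2 := by nlinarith
  have hs3 : κ * (m : ℝ) ^ 2 ≤ κ * (4 * (S.card : ℝ) ^ 2) := mul_le_mul_of_nonneg_left hs2 hκ
  calc ∑ x ∈ S, ∑ y ∈ S, (((1 - p) ^ (u * (V x ∩ V y).card))⁻¹ - 1)
      ≤ W * (S.card + κ * m ^ 2) + w0 * (S.card : ℝ) ^ 2 := hsum
    _ ≤ W * (2 / m * (S.card : ℝ) ^ 2 + κ * (4 * (S.card : ℝ) ^ 2)) + w0 * (S.card : ℝ) ^ 2 := by
        have := mul_le_mul_of_nonneg_left (add_le_add hs1 hs3) hW0.le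
        linarith
    _ = (W * (2 / m + 4 * κ) + w0) * (S.card : ℝ) ^ 2 := by ring
    _ ≤ β * (S.card : ℝ) ^ 2 := mul_le_mul_of_nonneg_right hβ (by positivity)

end Pool.Agent.Helper65
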