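import Pool.Agent.Helper65.Growth
import Pool.Agent.Helper91.DD10Branch

/-!
# Superfluous edges met by the exploration process
-/

set_option autoImplicit false

namespace Pool.Agent.Helper65

open Finset Real

lemma exc_succ (E : Finset (ℕ × ℕ)) (S : Finset ℕ) (n : ℕ) :
    exc E S (n + 1) = exc E S n + (((up E S n).filter (fun u => (u, n) ∈ E)).card - 1) := rfl

lemma exc_congr {E E' : Finset (ℕ × ℕ)} {S : Finset ℕ} {n : ℕ}
    (h : ∀ e : ℕ × ℕ, e.2 < n → (e ∈ E ↔ e ∈ E')) : exc E S n = exc E' S n := by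
  induction n with
  | zero => rfl
  | succ n ih =>
    rw [exc_succ, exc_succ, ih (fun e he => h e (he.trans (Nat.lt_succ_self n))),
      up_congr (fun e he => h e (he.trans (Nat.lt_succ_self n))) (fun _ _ => Iff.rfl)]
    congr 3
    ext u
    simp only [Finset.mem_filter]
    refine and_congr Iff.rfl ?_
    exact h (u, n) (Nat.lt_succ_self n)

lemma exc_union_col {E F : Finset (ℕ × ℕ)} {S : Finset ℕ} {n : ℕ} (hF : F ⊆ col n) :
    exc (E ∪ F) S n = exc E S n := by
  refine exc_congr ?_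
  intro e he
  rw [Finset.mem_union]
  constructor
  · rintro (h | h)
    · exact h
    · have := mem_col.mp (hF h)
      omega
  · exact Or.inl

/-- No edges below `m`: no excess. -/
lemma exc_start {F : Finset (ℕ × ℕ)} {S : Finset ℕ} {m b : ℕ} (hF : F ⊆ cols m b) :
    exc F S m = 0 := by
  have key : ∀ k ≤ m, exc F S k = 0 := by
    intro k
    induction k with
    | zero => intro _; rfl
    | succ k ih =>
      intro hk
      rw [exc_succ, ih (by omega)]
      have : (up F S k).filter (fun u => (u, k) ∈ F) = ∅ := by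
        rw [Finset.filter_eq_empty_iff]
        intro u _ hu
        have := mem_cols.mp (hF hu)
        simp only at this
        omega
      rw [this]
      simp
  exact key m le_rfl

/-- The degree of the new vertex into `U` is binomial. -/
lemma Ex_col_deg (p : ℝ) {n : ℕ} {U : Finset ℕ} (hU : U ⊆ range n) (g : ℕ → ℝ) :
    Ex p (col n) (fun F => g (U.filter (fun u => (u, n) ∈ F)).card) =
      Ex p U (fun Γ => g Γ.card) := by
  let φ : ℕ ↪ ℕ × ℕ := ⟨fun u => (u, n), fun a b h => (Prod.mk.inj h).1⟩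
  have hφ : ∀ u, φ u = (u, n) := fun _ => rfl
  have hmap : U.map φ ⊆ col n := by
    intro e he
    rw [Finset.mem_map] at he
    obtain ⟨u, hu, rfl⟩ := he
    rw [hφ, mem_col]
    exact ⟨Finset.mem_range.mp (hU hu), rfl⟩
  rw [Ex_local hmap, Ex_map]
  · refine Ex_congr ?_
    intro Γ hΓ
    have : U.filter (fun u => (u, n) ∈ Γ.map φ) = Γ := by
      ext u
      rw [Finset.mem_filter, ← hφ, Finset.mem_map']
      exact ⟨fun h => h.2, fun h => ⟨hΓ h, h⟩⟩
    rw [this]
  · intro F _
    have : U.filter (fun u => (u, n) ∈ F) = U.filter (fun u => (u, n) ∈ F ∩ U.map φ) := by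
      ext u
      rw [Finset.mem_filter, Finset.mem_filter, Finset.mem_inter, ← hφ, Finset.mem_map']
      tauto
    rw [this]

lemma Ex_pow_card {ι : Type*} (p y : ℝ) (U : Finset ι) :
    Ex p U (fun Γ => y ^ Γ.card) = (1 - p + p * y) ^ U.card := by
  classical
  induction U using Finset.induction_on with
  | empty => simp [Ex]
  | insert a U ha ih =>
    rw [Ex_insert ha, ih, Finset.card_insert_of_notMem ha, pow_succ]
    have : Ex p U (fun Γ => y ^ (insert a Γ).card) = y * Ex p U (fun Γ => y ^ Γ.card) := by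
      rw [← Ex_mul_left]
      refine Ex_congr ?_
      intro Γ hΓ
      rw [Finset.card_insert_of_notMem (fun h => ha (hΓ h)), pow_succ]
      ring
    rw [this, ih]
    ring

/-- The exponential moment of the excess of one vertex. -/
lemma Ex_excess_step {p y : ℝ} (hp0 : 0 ≤ p) (hp1 : p ≤ 1) (hy : 1 ≤ y) {n : ℕ}
    {U : Finset ℕ} (hU : U ⊆ range n) (hpyN : p * y * U.card ≤ 1) :
    Ex p (col n) (fun F => y ^ ((U.filter (fun u => (u, n) ∈ F)).card - 1)) ≤
      1 + 2 * y * p ^ 2 * (U.card : ℝ) ^ 2 := by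
  rw [Ex_col_deg p hU (fun D => y ^ (D - 1))]
  have hy0 : 0 < y := by linarith
  have h1 : ∀ Γ ⊆ U, y ^ (Γ.card - 1) = y⁻¹ * y ^ Γ.card + (1 - y⁻¹) * ind (Γ = ∅) := by
    intro Γ _
    rcases Finset.eq_empty_or_nonempty Γ with h | h
    · subst h
      rw [ind_pos rfl]
      simp
    · rw [ind_neg h.ne_empty, mul_zero, add_zero]
      have : 0 < Γ.card := Finset.card_pos.mpr h
      obtain ⟨k, hk⟩ : ∃ k, Γ.card = k + 1 := ⟨Γ.card - 1, by omega⟩
      rw [hk, pow_succ, Nat.add_sub_cancel]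
      field_simp
  rw [Ex_congr h1, Ex_add, Ex_mul_left, Ex_mul_left, Ex_pow_card]
  have h2 : Ex p U (fun Γ => ind (Γ = ∅)) = (1 - p) ^ U.card := by
    have := Pr_eq p (Finset.empty_subset U)
    unfold Pr at this
    rw [this]
    simp
  rw [h2]
  set N := U.card with hN
  have hN0 : (0 : ℝ) ≤ N := Nat.cast_nonneg N
  set u := p * (y - 1) * N with hu
  have hu0 : 0 ≤ u := mul_nonneg (mul_nonneg hp0 (by linarith)) hN0
  have hu1 : u ≤ 1 := by
    have : u = p * y * N - p * N := by rw [hu]; ring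
    have h3 : 0 ≤ p * N := mul_nonneg hp0 hN0
    linarith
  have h3 : (1 - p + p * y) ^ N ≤ 1 + u + u ^ 2 := by
    calc (1 - p + p * y) ^ N ≤ (exp (p * (y - 1))) ^ N := by
          apply pow_le_pow_left₀ (by nlinarith)
          have := Real.add_one_le_exp (p * (y - 1))
          linarith
      _ = exp u := by
          rw [← Real.exp_nat_mul]
          congr 1
          rw [hu]; ring
      _ ≤ 1 + u + u ^ 2 := by
          have := Real.abs_exp_sub_one_sub_id_le (x := u) (by rw [abs_of_nonneg hu0]; exact hu1)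
          have h4 := le_abs_self (exp u - 1 - u)
          linarith
  have h4 : (1 - p) ^ N ≤ 1 - N * p + (N * p) ^ 2 / 2 := by
    have h5 := one_sub_pow_ge hp0 hp1 N
    have h6 : (N : ℝ) * (N - 1) * p ^ 2 / 2 ≤ (N * p) ^ 2 / 2 := by
      have : (N : ℝ) * (N - 1) ≤ N * N := by nlinarith
      have h7 : 0 ≤ p ^ 2 := by positivity
      nlinarith
    linarith
  have hyinv0 : 0 < y⁻¹ := inv_pos.mpr hy0
  have hyinv1 : y⁻¹ ≤ 1 := inv_le_one_of_one_le₀ hy
  have h5 : y⁻¹ * (1 - p + p * y) ^ N ≤ y⁻¹ * (1 + u + u ^ 2) :=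
    mul_le_mul_of_nonneg_left h3 hyinv0.le
  have h6 : (1 - y⁻¹) * (1 - p) ^ N ≤ (1 - y⁻¹) * (1 - N * p + (N * p) ^ 2 / 2) :=
    mul_le_mul_of_nonneg_left h4 (by linarith)
  have h7 : y⁻¹ * (1 + u + u ^ 2) + (1 - y⁻¹) * (1 - N * p + (N * p) ^ 2 / 2) =
      1 + y⁻¹ * u ^ 2 + (1 - y⁻¹) * (N * p) ^ 2 / 2 := by
    have : y⁻¹ * u = (1 - y⁻¹) * (N * p) := by
      rw [hu]; field_simp
    linear_combination this
  have h8 : y⁻¹ * u ^ 2 ≤ y * p ^ 2 * (N : ℝ) ^ 2 := by
    rw [hu]
    have : y⁻¹ * (p * (y - 1) * N) ^ 2 = (y⁻¹ * (y - 1) ^ 2) * (p ^ 2 * (N : ℝ) ^ 2) := by ring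
    rw [this]
    have h9 : y⁻¹ * (y - 1) ^ 2 ≤ y := by
      rw [inv_mul_le_iff₀ hy0]
      nlinarith
    have h10 : 0 ≤ p ^ 2 * (N : ℝ) ^ 2 := by positivity
    calc (y⁻¹ * (y - 1) ^ 2) * (p ^ 2 * (N : ℝ) ^ 2) ≤ y * (p ^ 2 * (N : ℝ) ^ 2) :=
          mul_le_mul_of_nonneg_right h9 h10
      _ = y * p ^ 2 * (N : ℝ) ^ 2 := by ring
  have h9 : (1 - y⁻¹) * (N * p) ^ 2 / 2 ≤ y * p ^ 2 * (N : ℝ) ^ 2 := by
    have h10 : 0 ≤ p ^ 2 * (N : ℝ) ^ 2 := by positivity
    have h11 : (1 - y⁻¹) / 2 ≤ y := by linarith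
    calc (1 - y⁻¹) * (N * p) ^ 2 / 2 = ((1 - y⁻¹) / 2) * (p ^ 2 * (N : ℝ) ^ 2) := by ring
      _ ≤ y * (p ^ 2 * (N : ℝ) ^ 2) := mul_le_mul_of_nonneg_right h11 h10
      _ = y * p ^ 2 * (N : ℝ) ^ 2 := by ring
  linarith

/-- Tail bound for the excess. -/
theorem Pr_exc_ge {p y : ℝ} (hp0 : 0 ≤ p) (hp1 : p ≤ 1) (hy : 1 ≤ y) {S : Finset ℕ} {m : ℕ}
    (hS : S ⊆ range m) (T K j : ℕ) (hpyK : p * y * K ≤ 1) :
    Pr p (cols m (m + T)) (fun E => j ≤ exc E S (m + T) ∧ (up E S (m + T)).card ≤ K) ≤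
      (y ^ j)⁻¹ * (1 + 2 * y * p ^ 2 * (K : ℝ) ^ 2) ^ T := by
  have hy0 : 0 < y := by linarith
  set c := 1 + 2 * y * p ^ 2 * (K : ℝ) ^ 2 with hc
  have hc1 : 1 ≤ c := by
    rw [hc]
    have : 0 ≤ 2 * y * p ^ 2 * (K : ℝ) ^ 2 := by positivity
    linarith
  have key : ∀ t : ℕ, Ex p (cols m (m + t)) (fun E => y ^ (exc E S (m + t)) *
      ind ((up E S (m + t)).card ≤ K)) ≤ c ^ t := by
    intro t
    induction t with
    | zero =>
      rw [Nat.add_zero, cols_self, Ex_empty, exc_start (b := m) (Finset.empty_subset _)]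
      simp only [pow_zero, one_mul]
      exact ind_le_one _
    | succ t ih =>
      rw [← Nat.add_assoc, Ex_cols_succ (Nat.le_add_right m t)]
      have h1 : ∀ E ⊆ cols m (m + t), Ex p (col (m + t)) (fun F =>
          y ^ (exc (E ∪ F) S (m + t + 1)) * ind ((up (E ∪ F) S (m + t + 1)).card ≤ K)) ≤
          c * (y ^ (exc E S (m + t)) * ind ((up E S (m + t)).card ≤ K)) := by
        intro E hE
        set U := up E S (m + t) with hU
        have hUr : U ⊆ range (m + t) := up_subset_range E S (m + t)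
        have hterm : ∀ F ⊆ col (m + t),
            y ^ (exc (E ∪ F) S (m + t + 1)) * ind ((up (E ∪ F) S (m + t + 1)).card ≤ K) ≤
            (y ^ (exc E S (m + t)) * ind (U.card ≤ K)) *
              y ^ ((U.filter (fun u => (u, m + t) ∈ F)).card - 1) := by
          intro F hF
          rw [exc_succ, exc_union_col hF, up_union_col hF, pow_add]
          have h2 : (up E S (m + t)).filter (fun u => (u, m + t) ∈ E ∪ F) =
              U.filter (fun u => (u, m + t) ∈ F) := by
            refine Finset.filter_congr ?_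
            intro u _
            rw [Finset.mem_union]
            constructor
            · rintro (h | h)
              · exact absurd h (not_mem_of_subset_cols hE le_rfl)
              · exact h
            · exact Or.inr
          rw [h2]
          have h3 : ind ((up (E ∪ F) S (m + t + 1)).card ≤ K) ≤ ind (U.card ≤ K) := by
            apply ind_mono
            intro h
            refine le_trans ?_ h
            apply Finset.card_le_card
            rw [hU, ← up_union_col (E := E) hF]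
            exact up_subset_succ _ _ _
          have h4 : 0 ≤ y ^ (exc E S (m + t)) *
              y ^ ((U.filter (fun u => (u, m + t) ∈ F)).card - 1) := by positivity
          calc y ^ (exc E S (m + t)) * y ^ ((U.filter (fun u => (u, m + t) ∈ F)).card - 1) *
                ind ((up (E ∪ F) S (m + t + 1)).card ≤ K)
              ≤ y ^ (exc E S (m + t)) * y ^ ((U.filter (fun u => (u, m + t) ∈ F)).card - 1) *
                ind (U.card ≤ K) := mul_le_mul_of_nonneg_left h3 h4
            _ = _ := by ring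
        refine (Ex_mono hp0 hp1 hterm).trans ?_
        rw [Ex_mul_left]
        by_cases hK : U.card ≤ K
        · rw [ind_pos hK, mul_one]
          have h5 : p * y * U.card ≤ 1 := by
            refine le_trans ?_ hpyK
            apply mul_le_mul_of_nonneg_left _ (by positivity)
            exact_mod_cast hK
          have h6 := Ex_excess_step hp0 hp1 hy hUr h5
          have h7 : 1 + 2 * y * p ^ 2 * (U.card : ℝ) ^ 2 ≤ c := by
            rw [hc]
            have : (U.card : ℝ) ≤ K := by exact_mod_cast hK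
            gcongr
          rw [mul_comm c]
          exact mul_le_mul_of_nonneg_left (h6.trans h7) (by positivity)
        · rw [ind_neg hK, mul_zero, zero_mul, mul_zero]
      calc Ex p (cols m (m + t)) (fun E => Ex p (col (m + t)) (fun F =>
            y ^ (exc (E ∪ F) S (m + t + 1)) * ind ((up (E ∪ F) S (m + t + 1)).card ≤ K)))
          ≤ Ex p (cols m (m + t)) (fun E => c * (y ^ (exc E S (m + t)) *
              ind ((up E S (m + t)).card ≤ K))) := Ex_mono hp0 hp1 h1
        _ = c * Ex p (cols m (m + t)) (fun E => y ^ (exc E S (m + t)) *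
              ind ((up E S (m + t)).card ≤ K)) := Ex_mul_left _ _ _ _
        _ ≤ c * c ^ t := mul_le_mul_of_nonneg_left ih (by linarith)
        _ = c ^ (t + 1) := by rw [pow_succ]; ring
  have h1 : ∀ E ⊆ cols m (m + T), ind (j ≤ exc E S (m + T) ∧ (up E S (m + T)).card ≤ K) ≤
      (y ^ j)⁻¹ * (y ^ (exc E S (m + T)) * ind ((up E S (m + T)).card ≤ K)) := by
    intro E _
    by_cases h : j ≤ exc E S (m + T) ∧ (up E S (m + T)).card ≤ K
    · rw [ind_pos h, ind_pos h.2, mul_one, ← div_eq_inv_mul, le_div_iff₀ (by positivity),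
        one_mul]
      exact pow_le_pow_right₀ hy h.1
    · rw [ind_neg h]
      exact mul_nonneg (by positivity) (mul_nonneg (by positivity) (ind_nonneg _))
  calc Pr p (cols m (m + T)) (fun E => j ≤ exc E S (m + T) ∧ (up E S (m + T)).card ≤ K)
      ≤ Ex p (cols m (m + T)) (fun E => (y ^ j)⁻¹ * (y ^ (exc E S (m + T)) *
          ind ((up E S (m + T)).card ≤ K))) := Ex_mono hp0 hp1 h1
    _ = (y ^ j)⁻¹ * Ex p (cols m (m + T)) (fun E => y ^ (exc E S (m + T)) *
          ind ((up E S (m + T)).card ≤ K)) := Ex_mul_left _ _ _ _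
    _ ≤ (y ^ j)⁻¹ * c ^ T := mul_le_mul_of_nonneg_left (key T) (by positivity)

end Pool.Agent.Helper65
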