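import Pool.Agent.Helper65.Bern

/-!
# Ordered random graphs on the natural numbers: exploration of up-sets

Edges are pairs `(i, j)` with `i < j`. `col n` is the set of potential edges into `n`, and
`cols a b` is the set of potential edges into the vertices `a ≤ j < b`.
`up E A n` is the set of vertices below `n` that are in `A` or reachable from `A`.
-/

set_option autoImplicit false

namespace Pool.Agent.Helper65

open Finset

/-- Potential edges into the vertex `n`. -/
def col (n : ℕ) : Finset (ℕ × ℕ) := (range n) ×ˢ {n}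

/-- Potential edges into the vertices `a ≤ j < b`. -/
def cols (a b : ℕ) : Finset (ℕ × ℕ) := ((range b) ×ˢ (Ico a b)).filter (fun e => e.1 < e.2)

lemma mem_col {n : ℕ} {e : ℕ × ℕ} : e ∈ col n ↔ e.1 < n ∧ e.2 = n := by
  unfold col
  rw [Finset.mem_product, Finset.mem_range, Finset.mem_singleton]

lemma mem_cols {a b : ℕ} {e : ℕ × ℕ} : e ∈ cols a b ↔ e.1 < e.2 ∧ a ≤ e.2 ∧ e.2 < b := by
  simp only [cols, Finset.mem_filter, Finset.mem_product, Finset.mem_range, Finset.mem_Ico]
  constructor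
  · rintro ⟨⟨_, h2, h3⟩, h4⟩
    exact ⟨h4, h2, h3⟩
  · rintro ⟨h1, h2, h3⟩
    exact ⟨⟨h1.trans h3, h2, h3⟩, h1⟩

lemma cols_self (a : ℕ) : cols a a = ∅ := by
  ext e
  simp only [mem_cols, Finset.notMem_empty, iff_false]
  omega

lemma cols_succ {a b : ℕ} (h : a ≤ b) : cols a (b + 1) = cols a b ∪ col b := by
  ext e
  simp only [mem_cols, Finset.mem_union, mem_col]
  omega

lemma cols_disjoint_col {a b : ℕ} : Disjoint (cols a b) (col b) := by
  rw [Finset.disjoint_left]
  intro e he he'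
  rw [mem_cols] at he
  rw [mem_col] at he'
  omega

lemma cols_union {a b c : ℕ} (hab : a ≤ b) (hbc : b ≤ c) : cols a c = cols a b ∪ cols b c := by
  ext e
  simp only [mem_cols, Finset.mem_union]
  omega

lemma cols_disjoint {a b c : ℕ} : Disjoint (cols a b) (cols b c) := by
  rw [Finset.disjoint_left]
  intro e he he'
  rw [mem_cols] at he he'
  omega

lemma Ex_cols_succ {a b : ℕ} (h : a ≤ b) (p : ℝ) (f : Finset (ℕ × ℕ) → ℝ) :
    Ex p (cols a (b + 1)) f = Ex p (cols a b) (fun E => Ex p (col b) (fun F => f (E ∪ F))) := by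
  rw [cols_succ h, Ex_union cols_disjoint_col]

lemma Ex_cols_union {a b c : ℕ} (hab : a ≤ b) (hbc : b ≤ c) (p : ℝ)
    (f : Finset (ℕ × ℕ) → ℝ) :
    Ex p (cols a c) f = Ex p (cols a b) (fun E => Ex p (cols b c) (fun F => f (E ∪ F))) := by
  rw [cols_union hab hbc, Ex_union cols_disjoint]

/-- The vertices below `n` in `A` or reachable from `A`. -/
def up (E : Finset (ℕ × ℕ)) (A : Finset ℕ) : ℕ → Finset ℕ
  | 0 => ∅
  | (n + 1) => if n ∈ A ∨ ∃ u ∈ up E A n, (u, n) ∈ E then insert n (up E A n) else up E A n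

lemma up_succ (E : Finset (ℕ × ℕ)) (A : Finset ℕ) (n : ℕ) :
    up E A (n + 1) =
      if n ∈ A ∨ ∃ u ∈ up E A n, (u, n) ∈ E then insert n (up E A n) else up E A n := rfl

lemma up_subset_range (E : Finset (ℕ × ℕ)) (A : Finset ℕ) (n : ℕ) : up E A n ⊆ range n := by
  induction n with
  | zero => simp [up]
  | succ n ih =>
    have h1 : up E A n ⊆ range (n + 1) := ih.trans (Finset.range_subset_range.mpr (Nat.le_succ n))
    rw [up_succ]
    split_ifs
    · exact Finset.insert_subset (Finset.self_mem_range_succ n) h1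
    · exact h1

lemma lt_of_mem_up {E : Finset (ℕ × ℕ)} {A : Finset ℕ} {n u : ℕ} (h : u ∈ up E A n) : u < n :=
  Finset.mem_range.mp (up_subset_range E A n h)

lemma notMem_up_self (E : Finset (ℕ × ℕ)) (A : Finset ℕ) (n : ℕ) : n ∉ up E A n :=
  fun h => lt_irrefl _ (lt_of_mem_up h)

lemma up_congr {E E' : Finset (ℕ × ℕ)} {A A' : Finset ℕ} {n : ℕ}
    (h : ∀ e : ℕ × ℕ, e.2 < n → (e ∈ E ↔ e ∈ E')) (hA : ∀ i < n, (i ∈ A ↔ i ∈ A')) :
    up E A n = up E' A' n := by
  induction n with
  | zero => rfl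
  | succ n ih =>
    have h1 : up E A n = up E' A' n := ih (fun e he => h e (he.trans (Nat.lt_succ_self n)))
      (fun i hi => hA i (hi.trans (Nat.lt_succ_self n)))
    rw [up_succ, up_succ, h1]
    have h2 : (n ∈ A ∨ ∃ u ∈ up E' A' n, (u, n) ∈ E) ↔
        (n ∈ A' ∨ ∃ u ∈ up E' A' n, (u, n) ∈ E') := by
      rw [hA n (Nat.lt_succ_self n)]
      refine or_congr Iff.rfl ?_
      refine exists_congr ?_
      intro u
      refine and_congr Iff.rfl ?_
      exact h (u, n) (Nat.lt_succ_self n)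
    by_cases h3 : n ∈ A' ∨ ∃ u ∈ up E' A' n, (u, n) ∈ E'
    · rw [if_pos h3, if_pos (h2.mpr h3)]
    · rw [if_neg h3, if_neg (fun h => h3 (h2.mp h))]

lemma up_union_col {E F : Finset (ℕ × ℕ)} {A : Finset ℕ} {n : ℕ} (hF : F ⊆ col n) :
    up (E ∪ F) A n = up E A n := by
  refine up_congr ?_ (fun _ _ => Iff.rfl)
  intro e he
  rw [Finset.mem_union]
  constructor
  · rintro (h | h)
    · exact h
    · have := mem_col.mp (hF h)
      omega
  · exact Or.inl

lemma up_union_cols {E F : Finset (ℕ × ℕ)} {A : Finset ℕ} {n m : ℕ} (hF : F ⊆ cols n m) :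
    up (E ∪ F) A n = up E A n := by
  refine up_congr ?_ (fun _ _ => Iff.rfl)
  intro e he
  rw [Finset.mem_union]
  constructor
  · rintro (h | h)
    · exact h
    · have := mem_cols.mp (hF h)
      omega
  · exact Or.inl

/-- No edge of `cols a b` enters `n ≥ b`. -/
lemma not_mem_of_subset_cols {E : Finset (ℕ × ℕ)} {a b u n : ℕ} (hE : E ⊆ cols a b)
    (hn : b ≤ n) : (u, n) ∉ E := by
  intro h
  have := mem_cols.mp (hE h)
  simp only at this
  omega

lemma up_mono_edges {E E' : Finset (ℕ × ℕ)} (h : E ⊆ E') (A : Finset ℕ) (n : ℕ) :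
    up E A n ⊆ up E' A n := by
  induction n with
  | zero => exact Finset.Subset.refl _
  | succ n ih =>
    rw [up_succ, up_succ]
    by_cases h1 : n ∈ A ∨ ∃ u ∈ up E A n, (u, n) ∈ E
    · have h2 : n ∈ A ∨ ∃ u ∈ up E' A n, (u, n) ∈ E' := by
        rcases h1 with h1 | ⟨u, hu, hun⟩
        · exact Or.inl h1
        · exact Or.inr ⟨u, ih hu, h hun⟩
      rw [if_pos h1, if_pos h2]
      exact Finset.insert_subset_insert _ ih
    · rw [if_neg h1]
      split_ifs
      · exact ih.trans (Finset.subset_insert _ _)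
      · exact ih

lemma up_mono_start {E : Finset (ℕ × ℕ)} {A A' : Finset ℕ} (h : A ⊆ A') (n : ℕ) :
    up E A n ⊆ up E A' n := by
  induction n with
  | zero => exact Finset.Subset.refl _
  | succ n ih =>
    rw [up_succ, up_succ]
    by_cases h1 : n ∈ A ∨ ∃ u ∈ up E A n, (u, n) ∈ E
    · have h2 : n ∈ A' ∨ ∃ u ∈ up E A' n, (u, n) ∈ E := by
        rcases h1 with h1 | ⟨u, hu, hun⟩
        · exact Or.inl (h h1)
        · exact Or.inr ⟨u, ih hu, hun⟩
      rw [if_pos h1, if_pos h2]
      exact Finset.insert_subset_insert _ ih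
    · rw [if_neg h1]
      split_ifs
      · exact ih.trans (Finset.subset_insert _ _)
      · exact ih

lemma up_subset_succ (E : Finset (ℕ × ℕ)) (A : Finset ℕ) (n : ℕ) :
    up E A n ⊆ up E A (n + 1) := by
  rw [up_succ]
  split_ifs
  · exact Finset.subset_insert _ _
  · exact Finset.Subset.refl _

lemma up_mono (E : Finset (ℕ × ℕ)) (A : Finset ℕ) {n m : ℕ} (h : n ≤ m) :
    up E A n ⊆ up E A m := by
  induction m, h using Nat.le_induction with
  | base => exact Finset.Subset.refl _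
  | succ m _ ih => exact ih.trans (up_subset_succ E A m)

lemma mem_up_of_mem {E : Finset (ℕ × ℕ)} {A : Finset ℕ} {n a : ℕ} (ha : a ∈ A) (han : a < n) :
    a ∈ up E A n := by
  have h1 : a ∈ up E A (a + 1) := by
    rw [up_succ, if_pos (Or.inl ha)]
    exact Finset.mem_insert_self _ _
  exact up_mono E A han h1

lemma mem_up_of_edge {E : Finset (ℕ × ℕ)} {A : Finset ℕ} {n u z : ℕ} (hu : u ∈ up E A z)
    (huz : (u, z) ∈ E) (hz : z < n) : z ∈ up E A n := by
  have h1 : z ∈ up E A (z + 1) := by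
    rw [up_succ, if_pos (Or.inr ⟨u, hu, huz⟩)]
    exact Finset.mem_insert_self _ _
  exact up_mono E A hz h1

/-- Membership in `up E A n` is decided at stage `z + 1`. -/
lemma mem_up_iff {E : Finset (ℕ × ℕ)} {A : Finset ℕ} {n z : ℕ} :
    z ∈ up E A n ↔ z < n ∧ (z ∈ A ∨ ∃ u ∈ up E A z, (u, z) ∈ E) := by
  constructor
  · intro h
    refine ⟨lt_of_mem_up h, ?_⟩
    induction n with
    | zero => simp [up] at h
    | succ n ih =>
      rw [up_succ] at h
      split_ifs at h with h1
      · rcases Finset.mem_insert.mp h with h2 | h2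
        · rw [h2]; exact h1
        · exact ih h2
      · exact ih h
  · rintro ⟨hz, h | ⟨u, hu, huz⟩⟩
    · exact mem_up_of_mem h hz
    · exact mem_up_of_edge hu huz hz

/-- Membership in `up` in terms of directed paths. -/
lemma mem_up_iff_transGen {E : Finset (ℕ × ℕ)} (hE : ∀ e ∈ E, e.1 < e.2) {A : Finset ℕ}
    {n z : ℕ} :
    z ∈ up E A n ↔ z < n ∧ (z ∈ A ∨ ∃ a ∈ A, Relation.TransGen (fun x y => (x, y) ∈ E) a z) := by
  induction z using Nat.strong_induction_on generalizing n with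
  | _ z ih =>
    rw [mem_up_iff]
    refine and_congr Iff.rfl ?_
    refine or_congr Iff.rfl ?_
    constructor
    · rintro ⟨u, hu, huz⟩
      have hlt : u < z := hE _ huz
      rcases ((ih u hlt).mp hu).2 with h | ⟨a, ha, hau⟩
      · exact ⟨u, h, Relation.TransGen.single huz⟩
      · exact ⟨a, ha, Relation.TransGen.tail hau huz⟩
    · rintro ⟨a, ha, haz⟩
      rcases Relation.TransGen.tail'_iff.mp haz with ⟨u, hau, huz⟩
      have hlt : u < z := hE _ huz
      refine ⟨u, ?_, huz⟩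
      rw [ih u hlt]
      refine ⟨hlt, ?_⟩
      rcases Relation.reflTransGen_iff_eq_or_transGen.mp hau with h | h
      · left; rw [h]; exact ha
      · right; exact ⟨a, ha, h⟩

lemma card_up_succ (E : Finset (ℕ × ℕ)) (A : Finset ℕ) (n : ℕ) :
    (up E A (n + 1)).card =
      if n ∈ A ∨ ∃ u ∈ up E A n, (u, n) ∈ E then (up E A n).card + 1 else (up E A n).card := by
  rw [up_succ]
  split_ifs
  · rw [Finset.card_insert_of_notMem (notMem_up_self E A n)]
  · rfl

/-- The probability that no vertex of `U` has an edge to `n`. -/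
lemma Pr_col_nohit (p : ℝ) {n : ℕ} {U : Finset ℕ} (hU : U ⊆ range n) :
    Pr p (col n) (fun F => ¬ ∃ u ∈ U, (u, n) ∈ F) = (1 - p) ^ U.card := by
  have hX : U ×ˢ {n} ⊆ col n := Finset.product_subset_product hU (Finset.Subset.refl _)
  have h := Pr_disjoint p hX
  rw [Finset.card_product, Finset.card_singleton, mul_one] at h
  rw [← h]
  refine Pr_congr ?_
  intro F _
  rw [Finset.disjoint_right]
  constructor
  · intro h1 e he heF
    rw [Finset.mem_product, Finset.mem_singleton] at he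
    apply h1
    refine ⟨e.1, he.1, ?_⟩
    rw [← he.2]
    exact heF
  · rintro h1 ⟨u, hu, hun⟩
    exact h1 (Finset.mem_product.mpr ⟨hu, Finset.mem_singleton_self n⟩) hun

/-- One exploration step. -/
lemma Ex_col_hit (p : ℝ) {n : ℕ} {U : Finset ℕ} (hU : U ⊆ range n) (α β : ℝ) :
    Ex p (col n) (fun F => α * ind (∃ u ∈ U, (u, n) ∈ F) + β * ind (¬ ∃ u ∈ U, (u, n) ∈ F)) =
      α * (1 - (1 - p) ^ U.card) + β * (1 - p) ^ U.card := by
  have h := Pr_col_nohit p hU
  have h2 : Pr p (col n) (fun F => ∃ u ∈ U, (u, n) ∈ F) = 1 - (1 - p) ^ U.card := by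
    rw [← h, Pr_not]; ring
  rw [Ex_add, Ex_mul_left, Ex_mul_left]
  unfold Pr at h h2
  rw [h, h2]

end Pool.Agent.Helper65
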