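import Pool.Agent.Helper65.Graph

/-!
# Tail bounds for the exploration process
-/

set_option autoImplicit false

namespace Pool.Agent.Helper65

open Finset Real

/-- Exploration can be restarted from the set reached so far. -/
lemma up_restart {E F : Finset (ℕ × ℕ)} {S : Finset ℕ} {a b m n : ℕ} (hE : E ⊆ cols a m)
    (hF : F ⊆ cols m b) (hS : S ⊆ range m) (hn : m ≤ n) :
    up (E ∪ F) S n = up F (up E S m) n := by
  induction n, hn using Nat.le_induction with
  | base =>
    rw [up_union_cols hF]
    have key : ∀ k ≤ m, up F (up E S m) k = (up E S m).filter (fun x => x < k) := by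
      intro k
      induction k with
      | zero => intro _; simp [up]
      | succ k ih =>
        intro hk
        rw [up_succ, ih (by omega)]
        have h1 : ¬ ∃ u ∈ (up E S m).filter (fun x => x < k), (u, k) ∈ F := by
          rintro ⟨u, _, hu⟩
          have := mem_cols.mp (hF hu)
          simp only at this
          omega
        by_cases h2 : k ∈ up E S m
        · rw [if_pos (Or.inl h2)]
          ext x
          simp only [Finset.mem_insert, Finset.mem_filter]
          constructor
          · rintro (rfl | ⟨h3, h4⟩)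
            · exact ⟨h2, Nat.lt_succ_self _⟩
            · exact ⟨h3, by omega⟩
          · rintro ⟨h3, h4⟩
            rcases Nat.lt_succ_iff_lt_or_eq.mp h4 with h5 | h5
            · exact Or.inr ⟨h3, h5⟩
            · exact Or.inl h5
        · rw [if_neg (not_or.mpr ⟨h2, h1⟩)]
          ext x
          simp only [Finset.mem_filter]
          constructor
          · rintro ⟨h3, h4⟩
            exact ⟨h3, by omega⟩
          · rintro ⟨h3, h4⟩
            refine ⟨h3, ?_⟩
            rcases Nat.lt_succ_iff_lt_or_eq.mp h4 with h5 | h5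
            · exact h5
            · exact absurd (h5 ▸ h3) h2
    rw [key m le_rfl]
    ext x
    rw [Finset.mem_filter]
    constructor
    · intro h
      exact ⟨h, lt_of_mem_up h⟩
    · exact fun h => h.1
  | succ n hmn ih =>
    rw [up_succ, up_succ, ih]
    have hnS : n ∉ S := fun h => by
      have := Finset.mem_range.mp (hS h)
      omega
    have hnU : n ∉ up E S m := fun h => by
      have := lt_of_mem_up h
      omega
    have hedge : ∀ u, (u, n) ∈ E ∪ F ↔ (u, n) ∈ F := by
      intro u
      rw [Finset.mem_union]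
      constructor
      · rintro (h | h)
        · exact absurd h (not_mem_of_subset_cols hE hmn)
        · exact h
      · exact Or.inr
    simp only [hedge, hnS, hnU, false_or]

/-- The initial state. -/
lemma up_start {F : Finset (ℕ × ℕ)} {S : Finset ℕ} {m b : ℕ} (hF : F ⊆ cols m b)
    (hS : S ⊆ range m) : up F S m = S := by
  have key : ∀ k ≤ m, up F S k = S.filter (fun x => x < k) := by
    intro k
    induction k with
    | zero => intro _; simp [up]
    | succ k ih =>
      intro hk
      rw [up_succ, ih (by omega)]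
      have h1 : ¬ ∃ u ∈ S.filter (fun x => x < k), (u, k) ∈ F := by
        rintro ⟨u, _, hu⟩
        have := mem_cols.mp (hF hu)
        simp only at this
        omega
      by_cases h2 : k ∈ S
      · rw [if_pos (Or.inl h2)]
        ext x
        simp only [Finset.mem_insert, Finset.mem_filter]
        constructor
        · rintro (rfl | ⟨h3, h4⟩)
          · exact ⟨h2, Nat.lt_succ_self _⟩
          · exact ⟨h3, by omega⟩
        · rintro ⟨h3, h4⟩
          rcases Nat.lt_succ_iff_lt_or_eq.mp h4 with h5 | h5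
          · exact Or.inr ⟨h3, h5⟩
          · exact Or.inl h5
      · rw [if_neg (not_or.mpr ⟨h2, h1⟩)]
        ext x
        simp only [Finset.mem_filter]
        constructor
        · rintro ⟨h3, h4⟩
          exact ⟨h3, by omega⟩
        · rintro ⟨h3, h4⟩
          refine ⟨h3, ?_⟩
          rcases Nat.lt_succ_iff_lt_or_eq.mp h4 with h5 | h5
          · exact h5
          · exact absurd (h5 ▸ h3) h2
  rw [key m le_rfl]
  ext x
  rw [Finset.mem_filter]
  constructor
  · exact fun h => h.1
  · intro h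
    exact ⟨h, Finset.mem_range.mp (hS h)⟩

/-- One step of the exploration process, for a function of the size. -/
lemma Ex_step_card {p : ℝ} {E : Finset (ℕ × ℕ)} {S : Finset ℕ} {m n : ℕ}
    (hE : E ⊆ cols m n) (hS : S ⊆ range m) (hmn : m ≤ n) (φ : ℕ → ℝ) :
    Ex p (col n) (fun F => φ (up (E ∪ F) S (n + 1)).card) =
      φ ((up E S n).card + 1) * (1 - (1 - p) ^ (up E S n).card) +
        φ (up E S n).card * (1 - p) ^ (up E S n).card := by
  rw [← Ex_col_hit p (up_subset_range E S n)]
  refine Ex_congr ?_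
  intro F hF
  have hnS : n ∉ S := fun h => by
    have := Finset.mem_range.mp (hS h)
    omega
  have hedge : ∀ u, (u, n) ∈ E ∪ F ↔ (u, n) ∈ F := by
    intro u
    rw [Finset.mem_union]
    constructor
    · rintro (h | h)
      · exact absurd h (not_mem_of_subset_cols hE le_rfl)
      · exact h
    · exact Or.inr
  rw [card_up_succ, up_union_col hF]
  simp only [hedge, hnS, false_or]
  by_cases h : ∃ u ∈ up E S n, (u, n) ∈ F
  · rw [if_pos h, ind_pos h, ind_neg (not_not.mpr h)]
    ring
  · rw [if_neg h, ind_neg h, ind_pos h]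
    ring

/-- Supermartingale principle for functions of the size of the explored set. -/
lemma Ex_growth_le {p : ℝ} (hp0 : 0 ≤ p) (hp1 : p ≤ 1) {S : Finset ℕ} {m : ℕ}
    (hS : S ⊆ range m) (T : ℕ) (Φ : ℕ → ℕ → ℝ)
    (hstep : ∀ t < T, ∀ N : ℕ, Φ (t + 1) (N + 1) * (1 - (1 - p) ^ N) +
      Φ (t + 1) N * (1 - p) ^ N ≤ Φ t N) :
    Ex p (cols m (m + T)) (fun E => Φ T (up E S (m + T)).card) ≤ Φ 0 S.card := by
  have key : ∀ t ≤ T, Ex p (cols m (m + t)) (fun E => Φ t (up E S (m + t)).card) ≤
      Φ 0 S.card := by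
    intro t
    induction t with
    | zero =>
      intro _
      rw [Nat.add_zero, cols_self, Ex_empty, up_start (b := m) (Finset.empty_subset _) hS]
    | succ t ih =>
      intro ht
      rw [← Nat.add_assoc, Ex_cols_succ (Nat.le_add_right m t)]
      refine le_trans (Ex_mono hp0 hp1 ?_) (ih (by omega))
      intro E hE
      rw [Ex_step_card hE hS (Nat.le_add_right m t) (Φ (t + 1))]
      exact hstep t (by omega) _
  exact key T le_rfl

lemma one_sub_pow_ge {p : ℝ} (hp0 : 0 ≤ p) (hp1 : p ≤ 1) (N : ℕ) :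
    (1 - p) ^ N ≤ 1 - N * p + N * (N - 1) * p ^ 2 / 2 := by
  induction N with
  | zero => simp
  | succ N ih =>
    have h1 : (1 - p) ^ (N + 1) ≤ (1 - N * p + N * (N - 1) * p ^ 2 / 2) * (1 - p) := by
      rw [pow_succ]
      exact mul_le_mul_of_nonneg_right ih (by linarith)
    have h2 : 0 ≤ (N : ℝ) * (N - 1) := by
      rcases Nat.eq_zero_or_pos N with h | h
      · subst h; simp
      · have : (1 : ℝ) ≤ N := by exact_mod_cast h
        exact mul_nonneg (by linarith) (by linarith)
    have h3 : 0 ≤ (N : ℝ) * (N - 1) * p ^ 3 / 2 := by positivity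
    refine h1.trans ?_
    push_cast
    nlinarith

/-- Lower tail of the exploration process: starting from `S`, the probability that fewer than
`M` vertices are reached after `T` steps. -/
theorem Pr_growth_lt {p : ℝ} (hp0 : 0 ≤ p) (hp1 : p ≤ 1) {S : Finset ℕ} {m : ℕ}
    (hS : S ⊆ range m) (T : ℕ) {M Y : ℝ} (hM : 0 ≤ M) (hpM : p * M ≤ 1) (hY : 0 ≤ Y) :
    Pr p (cols m (m + T)) (fun E => ((up E S (m + T)).card : ℝ) < M) ≤
      exp (M * (Y * ((1 + p * (1 - p * M / 2)) ^ T)⁻¹)) * ((1 + Y) ^ S.card)⁻¹ := by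
  set p' := p * (1 - p * M / 2) with hp'
  have hp'0 : 0 ≤ p' := mul_nonneg hp0 (by linarith)
  have h1p' : 0 < 1 + p' := by linarith
  set y : ℕ → ℝ := fun s => Y * ((1 + p') ^ T)⁻¹ * (1 + p') ^ s with hy
  have hy0 : ∀ s, 0 ≤ y s := fun s => by rw [hy]; positivity
  have hyrec : ∀ s, y (s + 1) = y s + p' * y s := fun s => by
    rw [hy]; simp only [pow_succ]; ring
  set Φ : ℕ → ℕ → ℝ := fun t N => if (N : ℝ) < M then ((1 + y (T - t)) ^ N)⁻¹ else 0 with hΦ
  have hΦnn : ∀ t N, 0 ≤ Φ t N := by
    intro t N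
    rw [hΦ]
    simp only
    split_ifs
    · have := hy0 (T - t)
      positivity
    · exact le_rfl
  have hstep : ∀ t < T, ∀ N : ℕ, Φ (t + 1) (N + 1) * (1 - (1 - p) ^ N) +
      Φ (t + 1) N * (1 - p) ^ N ≤ Φ t N := by
    intro t ht N
    have hqN1 : (1 - p) ^ N ≤ 1 := pow_le_one₀ (by linarith) (by linarith)
    have hqN0 : 0 ≤ (1 - p) ^ N := pow_nonneg (by linarith) N
    by_cases hNM : (N : ℝ) < M
    · set s := T - (t + 1) with hs
      have hTt : T - t = s + 1 := by omega
      have hys := hy0 s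
      have e1 : Φ t N = ((1 + (y s + p' * y s)) ^ N)⁻¹ := by
        rw [hΦ]; simp only; rw [if_pos hNM, hTt, hyrec]
      have e2 : Φ (t + 1) N = ((1 + y s) ^ N)⁻¹ := by
        rw [hΦ]; simp only; rw [if_pos hNM]
      have e3 : Φ (t + 1) (N + 1) ≤ ((1 + y s) ^ (N + 1))⁻¹ := by
        rw [hΦ]; simp only
        split_ifs
        · exact le_rfl
        · positivity
      -- 1 - q^N ≥ p' N
      have h5 : p' * N ≤ 1 - (1 - p) ^ N := by
        have h6 := one_sub_pow_ge hp0 hp1 N
        have h7 : (N : ℝ) * (N - 1) * p ^ 2 / 2 ≤ N * M * p ^ 2 / 2 := by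
          have : (N : ℝ) - 1 ≤ M := by linarith
          have hN0 : (0 : ℝ) ≤ N := Nat.cast_nonneg N
          have := mul_le_mul_of_nonneg_left this hN0
          nlinarith [sq_nonneg p]
        rw [hp']
        nlinarith
      set w := y s / (1 + y s) with hw
      have h1y : 0 < 1 + y s := by linarith
      have hw0 : 0 ≤ w := by positivity
      have hw1 : w ≤ 1 := by
        rw [hw, div_le_one h1y]; linarith
      have key : (1 - (1 - (1 - p) ^ N) * w) * (1 + p' * w) ^ N ≤ 1 := by
        have h8 : 1 - (1 - (1 - p) ^ N) * w ≤ exp (-(p' * N * w)) := by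
          have h9 : 1 - (1 - (1 - p) ^ N) * w ≤ 1 - p' * N * w := by
            have := mul_le_mul_of_nonneg_right h5 hw0
            linarith
          exact h9.trans (Real.one_sub_le_exp_neg _)
        have h10 : (1 + p' * w) ^ N ≤ exp (p' * N * w) := by
          have h11 : 1 + p' * w ≤ exp (p' * w) := by
            have := Real.add_one_le_exp (p' * w)
            linarith
          calc (1 + p' * w) ^ N ≤ (exp (p' * w)) ^ N :=
                pow_le_pow_left₀ (by positivity) h11 N
            _ = exp (p' * N * w) := by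
                rw [← Real.exp_nat_mul]
                congr 1
                ring
        have h12 : 0 ≤ 1 - (1 - (1 - p) ^ N) * w := by
          have : (1 - (1 - p) ^ N) * w ≤ 1 * 1 :=
            mul_le_mul (by linarith) hw1 hw0 (by norm_num)
          linarith
        calc (1 - (1 - (1 - p) ^ N) * w) * (1 + p' * w) ^ N
            ≤ exp (-(p' * N * w)) * exp (p' * N * w) :=
              mul_le_mul h8 h10 (by positivity) (by positivity)
          _ = 1 := by rw [← Real.exp_add]; simp
      have e4 : (1 + (y s + p' * y s)) = (1 + y s) * (1 + p' * w) := by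
        rw [hw]; field_simp; ring
      have hpos : 0 < (1 + p' * w) ^ N := by positivity
      calc Φ (t + 1) (N + 1) * (1 - (1 - p) ^ N) + Φ (t + 1) N * (1 - p) ^ N
          ≤ ((1 + y s) ^ (N + 1))⁻¹ * (1 - (1 - p) ^ N) + ((1 + y s) ^ N)⁻¹ * (1 - p) ^ N := by
            rw [e2]
            gcongr
        _ = ((1 + y s) ^ N)⁻¹ * (1 - (1 - (1 - p) ^ N) * w) := by
            rw [hw, pow_succ]
            field_simp
            ring
        _ ≤ ((1 + y s) ^ N)⁻¹ * ((1 + p' * w) ^ N)⁻¹ := by
            apply mul_le_mul_of_nonneg_left _ (by positivity)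
            rw [← one_div, le_div_iff₀ hpos]
            exact key
        _ = Φ t N := by
            rw [e1, e4, mul_pow, mul_inv]
    · have e1 : Φ t N = 0 := by
        rw [hΦ]; simp only; rw [if_neg hNM]
      have e2 : Φ (t + 1) N = 0 := by
        rw [hΦ]; simp only; rw [if_neg hNM]
      have e3 : Φ (t + 1) (N + 1) = 0 := by
        rw [hΦ]; simp only
        rw [if_neg]
        push_cast
        push Not at hNM ⊢
        linarith
      rw [e1, e2, e3]
      simp
  have hmain := Ex_growth_le hp0 hp1 hS T Φ hstep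
  have hy00 : y 0 = Y * ((1 + p') ^ T)⁻¹ := by rw [hy]; simp
  have hyT : y T = Y := by
    rw [hy]; simp only; rw [mul_assoc, inv_mul_cancel₀ (by positivity), mul_one]
  -- compare the indicator with Φ
  have hΦ0 : Φ 0 S.card ≤ ((1 + Y) ^ S.card)⁻¹ := by
    rw [hΦ]; simp only
    split_ifs
    · rw [Nat.sub_zero, hyT]
    · positivity
  have hind : ∀ E ⊆ cols m (m + T), ind (((up E S (m + T)).card : ℝ) < M) ≤
      exp (M * (Y * ((1 + p') ^ T)⁻¹)) * Φ T (up E S (m + T)).card := by
    intro E _
    set N := (up E S (m + T)).card with hN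
    by_cases h : (N : ℝ) < M
    · rw [ind_pos h, hΦ]
      simp only
      rw [if_pos h, Nat.sub_self, hy00]
      set y0 := Y * ((1 + p') ^ T)⁻¹ with hy0'
      have hy0nn : 0 ≤ y0 := by positivity
      have h13 : (1 + y0) ^ N ≤ exp (M * y0) := by
        calc (1 + y0) ^ N ≤ (exp y0) ^ N := by
              apply pow_le_pow_left₀ (by positivity)
              have := Real.add_one_le_exp y0
              linarith
          _ = exp (N * y0) := by rw [← Real.exp_nat_mul]
          _ ≤ exp (M * y0) := by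
              apply Real.exp_le_exp.mpr
              exact mul_le_mul_of_nonneg_right h.le hy0nn
      rw [← div_eq_mul_inv, le_div_iff₀ (by positivity), one_mul]
      exact h13
    · rw [ind_neg h]
      exact mul_nonneg (Real.exp_pos _).le (hΦnn _ _)
  calc Pr p (cols m (m + T)) (fun E => ((up E S (m + T)).card : ℝ) < M)
      ≤ Ex p (cols m (m + T)) (fun E => exp (M * (Y * ((1 + p') ^ T)⁻¹)) *
          Φ T (up E S (m + T)).card) := Ex_mono hp0 hp1 hind
    _ = exp (M * (Y * ((1 + p') ^ T)⁻¹)) *
          Ex p (cols m (m + T)) (fun E => Φ T (up E S (m + T)).card) := Ex_mul_left _ _ _ _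
    _ ≤ exp (M * (Y * ((1 + p') ^ T)⁻¹)) * ((1 + Y) ^ S.card)⁻¹ := by
        apply mul_le_mul_of_nonneg_left (hmain.trans hΦ0) (Real.exp_pos _).le

/-- Upper tail of the exploration process. -/
theorem Pr_growth_ge {p : ℝ} (hp0 : 0 ≤ p) (hp1 : p ≤ 1) {S : Finset ℕ} {m : ℕ}
    (hS : S ⊆ range m) (T : ℕ) (K : ℕ) :
    Pr p (cols m (m + T)) (fun E => K ≤ (up E S (m + T)).card) ≤
      2 ^ S.card * exp (-(K * ((1 + p) ^ T)⁻¹ / 2)) := by
  have h1p : 0 < 1 + p := by linarith
  set w : ℕ → ℝ := fun s => ((1 + p) ^ T)⁻¹ / 2 * (1 + p) ^ s with hw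
  have hwnn : ∀ s, 0 ≤ w s := fun s => by rw [hw]; positivity
  have hwrec : ∀ s, w (s + 1) = w s + p * w s := fun s => by
    rw [hw]; simp only [pow_succ]; ring
  have hwT : w T = 1 / 2 := by
    rw [hw]; simp only
    have : ((1 + p) ^ T) ≠ 0 := by positivity
    field_simp
  have hwle : ∀ s ≤ T, w s ≤ 1 / 2 := by
    intro s hs
    rw [← hwT, hw]
    simp only
    apply mul_le_mul_of_nonneg_left _ (by positivity)
    exact pow_le_pow_right₀ (by linarith) hs
  set Φ : ℕ → ℕ → ℝ := fun t N => ((1 - w (T - t))⁻¹) ^ N with hΦ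
  have hstep : ∀ t < T, ∀ N : ℕ, Φ (t + 1) (N + 1) * (1 - (1 - p) ^ N) +
      Φ (t + 1) N * (1 - p) ^ N ≤ Φ t N := by
    intro t ht N
    set s := T - (t + 1) with hs
    have hTt : T - t = s + 1 := by omega
    have hws : w s ≤ 1 / 2 := hwle s (by omega)
    have hws1 : w (s + 1) ≤ 1 / 2 := hwle (s + 1) (by omega)
    have hws0 := hwnn s
    have h1w : 0 < 1 - w s := by linarith
    have h1w' : 0 < 1 - w (s + 1) := by linarith
    have e1 : Φ t N = ((1 - w (s + 1))⁻¹) ^ N := by rw [hΦ]; simp only; rw [hTt]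
    have e2 : Φ (t + 1) N = ((1 - w s)⁻¹) ^ N := rfl
    have e3 : Φ (t + 1) (N + 1) = ((1 - w s)⁻¹) ^ (N + 1) := rfl
    rw [e1, e2, e3]
    have hN0 : (0 : ℝ) ≤ N := Nat.cast_nonneg N
    have hq : 1 - (1 - p) ^ N ≤ p * N := by
      have h := one_add_mul_le_pow (a := -p) (by linarith) N
      have h2 : (1 + -p) = 1 - p := by ring
      rw [h2] at h
      linarith
    have hz : (1 - w s)⁻¹ - 1 = w s / (1 - w s) := by field_simp; ring
    calc ((1 - w s)⁻¹) ^ (N + 1) * (1 - (1 - p) ^ N) + ((1 - w s)⁻¹) ^ N * (1 - p) ^ N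
        = ((1 - w s)⁻¹) ^ N * (1 + (1 - (1 - p) ^ N) * ((1 - w s)⁻¹ - 1)) := by
          rw [pow_succ]; ring
      _ ≤ ((1 - w s)⁻¹) ^ N * (1 + (p * N) * (w s / (1 - w s))) := by
          rw [hz]
          gcongr
      _ ≤ ((1 - w s)⁻¹) ^ N * (exp (p * (w s / (1 - w s)))) ^ N := by
          gcongr
          rw [← Real.exp_nat_mul]
          have := Real.add_one_le_exp ((N : ℝ) * (p * (w s / (1 - w s))))
          linarith
      _ = ((1 - w s)⁻¹ * exp (p * (w s / (1 - w s)))) ^ N := by rw [mul_pow]
      _ ≤ ((1 - w (s + 1))⁻¹) ^ N := by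
          apply pow_le_pow_left₀ (by positivity)
          -- exp(x) ≤ 1 / (1 - x)
          have h3 : 1 - p * (w s / (1 - w s)) ≤ exp (-(p * (w s / (1 - w s)))) :=
            Real.one_sub_le_exp_neg _
          have h4 : (1 - w s) * (1 - p * (w s / (1 - w s))) = 1 - w (s + 1) := by
            rw [hwrec]; field_simp; ring
          have h5 : 1 - w (s + 1) ≤ (1 - w s) * exp (-(p * (w s / (1 - w s)))) := by
            rw [← h4]
            exact mul_le_mul_of_nonneg_left h3 h1w.le
          have h6 : (1 - w s)⁻¹ * exp (p * (w s / (1 - w s))) =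
              ((1 - w s) * exp (-(p * (w s / (1 - w s)))))⁻¹ := by
            rw [mul_inv, Real.exp_neg, inv_inv]
          rw [h6]
          exact inv_anti₀ h1w' h5
  have hmain := Ex_growth_le hp0 hp1 hS T Φ hstep
  have hw0 : w 0 = ((1 + p) ^ T)⁻¹ / 2 := by rw [hw]; simp
  have hw0le := hwle 0 (Nat.zero_le T)
  have hw0nn := hwnn 0
  have h2 : Φ 0 S.card = 2 ^ S.card := by
    rw [hΦ]; simp only
    rw [Nat.sub_zero, hwT]
    norm_num
  have hind : ∀ E ⊆ cols m (m + T), ind (K ≤ (up E S (m + T)).card) ≤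
      exp (-(K * ((1 + p) ^ T)⁻¹ / 2)) * Φ T (up E S (m + T)).card := by
    intro E _
    set N := (up E S (m + T)).card with hN
    have h1w : 0 < 1 - w 0 := by linarith
    by_cases h : K ≤ N
    · rw [ind_pos h, hΦ]
      simp only
      rw [Nat.sub_self]
      have h3 : 1 ≤ (1 - w 0)⁻¹ := by
        rw [one_le_inv₀ h1w]; linarith
      have h4 : ((1 - w 0)⁻¹) ^ K ≤ ((1 - w 0)⁻¹) ^ N := pow_le_pow_right₀ h3 h
      have h5 : exp (K * ((1 + p) ^ T)⁻¹ / 2) ≤ ((1 - w 0)⁻¹) ^ K := by
        have h6 : exp (w 0) ≤ (1 - w 0)⁻¹ := by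
          have := Real.one_sub_le_exp_neg (w 0)
          rw [Real.exp_neg] at this
          rw [le_inv_comm₀ (Real.exp_pos _) h1w]
          exact this
        calc exp (K * ((1 + p) ^ T)⁻¹ / 2) = (exp (w 0)) ^ K := by
              rw [← Real.exp_nat_mul, hw0]
              congr 1
              ring
          _ ≤ ((1 - w 0)⁻¹) ^ K := pow_le_pow_left₀ (Real.exp_pos _).le h6 K
      rw [Real.exp_neg, ← div_eq_inv_mul, le_div_iff₀ (Real.exp_pos _), one_mul]
      exact h5.trans h4
    · rw [ind_neg h]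
      have : 0 ≤ Φ T N := by
        rw [hΦ]; simp only; rw [Nat.sub_self]
        have := inv_pos.mpr h1w
        positivity
      exact mul_nonneg (Real.exp_pos _).le this
  calc Pr p (cols m (m + T)) (fun E => K ≤ (up E S (m + T)).card)
      ≤ Ex p (cols m (m + T)) (fun E => exp (-(K * ((1 + p) ^ T)⁻¹ / 2)) *
          Φ T (up E S (m + T)).card) := Ex_mono hp0 hp1 hind
    _ = exp (-(K * ((1 + p) ^ T)⁻¹ / 2)) *
          Ex p (cols m (m + T)) (fun E => Φ T (up E S (m + T)).card) := Ex_mul_left _ _ _ _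
    _ ≤ exp (-(K * ((1 + p) ^ T)⁻¹ / 2)) * 2 ^ S.card := by
        apply mul_le_mul_of_nonneg_left _ (Real.exp_pos _).le
        rw [← h2]
        exact hmain
    _ = 2 ^ S.card * exp (-(K * ((1 + p) ^ T)⁻¹ / 2)) := mul_comm _ _

end Pool.Agent.Helper65
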