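import Mathlib

set_option autoImplicit false

/-!
# Two-state recursion on rooted trees (Hoffman-London property, two part sizes)

A rooted tree is coded by the list of its root's branches: `nil` is the one-vertex tree and
`cons c r` is the rooted tree `r` with the rooted tree `c` attached by an edge between the roots.
`κ + 1` colours have weight `a`, `μ + 1` colours have weight `b`.
-/

namespace Pool.Agent.Helper65.HL

inductive F
  | nil : F
  | cons (c r : F) : F

namespace F

def size : F → ℕ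
  | nil => 1
  | cons c r => size c + size r

lemma size_pos (T : F) : 0 < size T := by
  induction T with
  | nil => simp [size]
  | cons c r ih1 ih2 => simp only [size]; omega

/-- the pair (weight of colourings with the root in a fixed colour of the first kind,
same for the second kind) -/
def E (κ μ a b : ℕ) : F → ℕ × ℕ
  | nil => (a, b)
  | cons c r =>
    ((E κ μ a b r).1 * (κ * (E κ μ a b c).1 + (μ + 1) * (E κ μ a b c).2),
     (E κ μ a b r).2 * ((κ + 1) * (E κ μ a b c).1 + μ * (E κ μ a b c).2))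

/-- total weight -/
def X (κ μ a b : ℕ) (T : F) : ℕ := (κ + 1) * (E κ μ a b T).1 + (μ + 1) * (E κ μ a b T).2

/-- minimal total weight among trees of the same size -/
def Min (κ μ a b : ℕ) (T : F) : Prop := ∀ T' : F, size T' = size T → X κ μ a b T ≤ X κ μ a b T'

section
variable {κ μ a b : ℕ}

lemma X_swap (c r : F) : X κ μ a b (cons c r) = X κ μ a b (cons r c) := by
  simp only [X, E]; ring

lemma E_perm (c d r : F) : E κ μ a b (cons c (cons d r)) = E κ μ a b (cons d (cons c r)) := by
  simp only [E, Prod.mk.injEq]; constructor <;> ring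

lemma size_swap (c r : F) : size (cons c r) = size (cons r c) := by
  simp only [size]; omega

lemma size_perm (c d r : F) : size (cons c (cons d r)) = size (cons d (cons c r)) := by
  simp only [size]; omega

lemma X_perm (c d r : F) : X κ μ a b (cons c (cons d r)) = X κ μ a b (cons d (cons c r)) := by
  simp only [X, E_perm c d r]

lemma Min.congr {T T' : F} (h : Min κ μ a b T) (hs : size T' = size T)
    (hX : X κ μ a b T' = X κ μ a b T) : Min κ μ a b T' := by
  intro U hU
  rw [hX]
  exact h U (hU.trans hs)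

/-- every tree with at least two vertices can be re-rooted at a leaf -/
lemma exists_leaf_root (c : F) : ∀ r : F, ∃ B : F, size (cons B nil) = size (cons c r) ∧
    X κ μ a b (cons B nil) = X κ μ a b (cons c r) := by
  induction c with
  | nil => intro r; exact ⟨r, size_swap _ _, X_swap _ _⟩
  | cons d e ihd ihe =>
    intro r
    obtain ⟨B, hB1, hB2⟩ := ihd (cons r e)
    refine ⟨B, ?_, ?_⟩
    · rw [hB1]; simp only [size]; omega
    · rw [hB2, X_perm, X_swap]

end

section real
variable (κ μ a b : ℕ)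

/-- real versions -/
noncomputable def p (T : F) : ℝ := ((E κ μ a b T).1 : ℝ)
noncomputable def q (T : F) : ℝ := ((E κ μ a b T).2 : ℝ)
noncomputable def XR (T : F) : ℝ := (X κ μ a b T : ℝ)
noncomputable def x (T : F) : ℝ := q κ μ a b T / p κ μ a b T
noncomputable def t (y : ℝ) : ℝ := (((κ : ℝ) + 1) + μ * y) / (κ + ((μ : ℝ) + 1) * y)

variable {κ μ a b}

lemma p_nil : p κ μ a b nil = a := rfl
lemma q_nil : q κ μ a b nil = b := rfl
lemma p_cons (c r : F) : p κ μ a b (cons c r) =
    p κ μ a b r * (κ * p κ μ a b c + (μ + 1) * q κ μ a b c) := by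
  simp only [p, q, E]; push_cast; ring
lemma q_cons (c r : F) : q κ μ a b (cons c r) =
    q κ μ a b r * ((κ + 1) * p κ μ a b c + μ * q κ μ a b c) := by
  simp only [p, q, E]; push_cast; ring
lemma XR_eq (T : F) : XR κ μ a b T = (κ + 1) * p κ μ a b T + (μ + 1) * q κ μ a b T := by
  simp only [XR, X, p, q]; push_cast; ring

lemma glue (c r : F) : ((κ : ℝ) + μ + 2) * XR κ μ a b (cons c r) =
    (κ + μ + 1) * XR κ μ a b c * XR κ μ a b r
      - (κ + 1) * (μ + 1) * ((p κ μ a b c - q κ μ a b c) * (p κ μ a b r - q κ μ a b r)) := by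
  simp only [XR_eq, p_cons, q_cons]; ring

lemma pq_pos (ha : 0 < a) (hb : 0 < b) (T : F) : 0 < p κ μ a b T ∧ 0 < q κ μ a b T := by
  induction T with
  | nil => exact ⟨by rw [p_nil]; exact_mod_cast ha, by rw [q_nil]; exact_mod_cast hb⟩
  | cons c r ihc ihr =>
    rw [p_cons, q_cons]
    obtain ⟨h1, h2⟩ := ihc
    obtain ⟨h3, h4⟩ := ihr
    have hκ : (0 : ℝ) ≤ κ := Nat.cast_nonneg _
    have hμ : (0 : ℝ) ≤ μ := Nat.cast_nonneg _
    constructor
    · positivity
    · positivity

lemma x_pos (ha : 0 < a) (hb : 0 < b) (T : F) : 0 < x κ μ a b T :=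
  div_pos (pq_pos ha hb T).2 (pq_pos ha hb T).1

lemma x_lt_one (ha : 0 < a) (hb : 0 < b) (T : F) :
    x κ μ a b T < 1 ↔ q κ μ a b T < p κ μ a b T := by
  rw [x, div_lt_one (pq_pos ha hb T).1]

lemma one_lt_x (ha : 0 < a) (hb : 0 < b) (T : F) :
    1 < x κ μ a b T ↔ p κ μ a b T < q κ μ a b T := by
  rw [x, one_lt_div (pq_pos ha hb T).1]

lemma t_pos {y : ℝ} (hy : 0 < y) : 0 < t κ μ y := by
  unfold t
  have hκ : (0 : ℝ) ≤ κ := Nat.cast_nonneg _
  have hμ : (0 : ℝ) ≤ μ := Nat.cast_nonneg _
  positivity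

lemma t_anti {y z : ℝ} (hy : 0 < y) (hz : y < z) : t κ μ z < t κ μ y := by
  unfold t
  have hκ : (0 : ℝ) ≤ κ := Nat.cast_nonneg _
  have hμ : (0 : ℝ) ≤ μ := Nat.cast_nonneg _
  have h1 : 0 < (κ : ℝ) + (μ + 1) * y := by positivity
  have h2 : 0 < (κ : ℝ) + (μ + 1) * z := by have := hy.trans hz; positivity
  rw [div_lt_div_iff₀ h2 h1]
  nlinarith [mul_nonneg hκ hμ, hy, hz]

lemma t_anti' {y z : ℝ} (hy : 0 < y) (hz : y ≤ z) : t κ μ z ≤ t κ μ y := by
  rcases hz.lt_or_eq with h | h
  · exact (t_anti hy h).le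
  · rw [h]

/-- `y * t y` is strictly increasing when there are at least three colours -/
lemma yt_mono (h3 : 1 ≤ κ + μ) {y z : ℝ} (hy : 0 < y) (hz : y < z) :
    y * t κ μ y < z * t κ μ z := by
  unfold t
  have hκ : (0 : ℝ) ≤ κ := Nat.cast_nonneg _
  have hμ : (0 : ℝ) ≤ μ := Nat.cast_nonneg _
  have h3' : (1 : ℝ) ≤ κ + μ := by exact_mod_cast h3
  have hz0 : 0 < z := hy.trans hz
  have h1 : 0 < (κ : ℝ) + (μ + 1) * y := by positivity
  have h2 : 0 < (κ : ℝ) + (μ + 1) * z := by positivity
  rw [← mul_div_assoc, ← mul_div_assoc, div_lt_div_iff₀ h1 h2]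
  -- difference = (z-y) * (κ(κ+1) + κ μ (y+z) + μ(μ+1) y z)
  have key : z * ((κ + 1) + μ * z) * (κ + (μ + 1) * y) - y * ((κ + 1) + μ * y) * (κ + (μ + 1) * z)
      = (z - y) * (κ * (κ + 1) + κ * μ * (y + z) + μ * (μ + 1) * (y * z)) := by ring
  have hpos : 0 < (κ : ℝ) * (κ + 1) + κ * μ * (y + z) + μ * (μ + 1) * (y * z) := by
    rcases Nat.eq_zero_or_pos κ with h | h
    · have : 1 ≤ μ := by omega
      have hμ1 : (0 : ℝ) < μ := by exact_mod_cast this
      have : 0 < (μ : ℝ) * (μ + 1) * (y * z) := by positivity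
      have h5 : 0 ≤ (κ : ℝ) * (κ + 1) + κ * μ * (y + z) := by positivity
      linarith
    · have hκ1 : (0 : ℝ) < κ := by exact_mod_cast h
      have h5 : 0 < (κ : ℝ) * (κ + 1) := by positivity
      have h6 : 0 ≤ (κ : ℝ) * μ * (y + z) + μ * (μ + 1) * (y * z) := by positivity
      linarith
  have := mul_pos (sub_pos.mpr hz) hpos
  linarith

lemma yt_mono' (h3 : 1 ≤ κ + μ) {y z : ℝ} (hy : 0 < y) (hz : y ≤ z) :
    y * t κ μ y ≤ z * t κ μ z := by
  rcases hz.lt_or_eq with h | h
  · exact (yt_mono h3 hy h).le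
  · rw [h]

lemma t_one : t κ μ 1 = 1 := by
  unfold t
  have hκ : (0 : ℝ) ≤ κ := Nat.cast_nonneg _
  have hμ : (0 : ℝ) ≤ μ := Nat.cast_nonneg _
  rw [div_eq_one_iff_eq (by positivity)]
  ring

lemma x_cons (ha : 0 < a) (hb : 0 < b) (c r : F) :
    x κ μ a b (cons c r) = x κ μ a b r * t κ μ (x κ μ a b c) := by
  obtain ⟨h1, h2⟩ := pq_pos (κ := κ) (μ := μ) ha hb c
  obtain ⟨h3, h4⟩ := pq_pos (κ := κ) (μ := μ) ha hb r
  have hκ : (0 : ℝ) ≤ κ := Nat.cast_nonneg _
  have hμ : (0 : ℝ) ≤ μ := Nat.cast_nonneg _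
  simp only [x, t, p_cons, q_cons]
  have h5 : 0 < (κ : ℝ) * p κ μ a b c + (μ + 1) * q κ μ a b c := by positivity
  have h6 : 0 < (κ : ℝ) + (μ + 1) * (q κ μ a b c / p κ μ a b c) := by positivity
  field_simp

end real

section main
variable {κ μ a b : ℕ}

lemma X_eq_iff {S T : F} : XR κ μ a b S = XR κ μ a b T ↔ X κ μ a b S = X κ μ a b T := by
  simp only [XR]; exact Nat.cast_inj

/-- in every tree some vertex (a leaf or its neighbour) prefers the heavier colours -/
lemma exists_light (h3 : 1 ≤ κ + μ) (hb : 0 < b) (hab : b < a) (V : F) :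
    ∃ V' : F, size V' = size V ∧ X κ μ a b V' = X κ μ a b V ∧
      q κ μ a b V' < p κ μ a b V' := by
  have ha : 0 < a := hb.trans hab
  have habR : (b : ℝ) < a := by exact_mod_cast hab
  have hbR : (0 : ℝ) < b := by exact_mod_cast hb
  have haR : (0 : ℝ) < a := by exact_mod_cast ha
  have hκ : (0 : ℝ) ≤ κ := Nat.cast_nonneg _
  have hμ : (0 : ℝ) ≤ μ := Nat.cast_nonneg _
  cases V with
  | nil => exact ⟨nil, rfl, rfl, by rw [p_nil, q_nil]; exact habR⟩
  | cons c r =>
    obtain ⟨B, hB1, hB2⟩ := exists_leaf_root (κ := κ) (μ := μ) (a := a) (b := b) c r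
    by_cases h1 : q κ μ a b (cons B nil) < p κ μ a b (cons B nil)
    · exact ⟨_, hB1, hB2, h1⟩
    refine ⟨cons nil B, by rw [size_swap, hB1], by rw [X_swap, hB2], ?_⟩
    by_contra h2
    rw [not_lt] at h1 h2
    rw [p_cons, q_cons, p_nil, q_nil] at h1
    rw [p_cons, q_cons, p_nil, q_nil] at h2
    obtain ⟨hp, hq⟩ := pq_pos (κ := κ) (μ := μ) ha hb B
    set P := p κ μ a b B
    set Q := q κ μ a b B
    -- h1 : a (κ P + (μ+1) Q) ≤ b ((κ+1) P + μ Q)
    -- h2 : P (κ a + (μ+1) b) ≤ Q ((κ+1) a + μ b)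
    have e1 : Q * (a * (μ + 1) - b * μ) ≤ P * (b * (κ + 1) - a * κ) := by nlinarith [h1]
    have hl : 0 < (a : ℝ) * (μ + 1) - b * μ := by nlinarith
    have hr : 0 < (b : ℝ) * (κ + 1) - a * κ := by
      by_contra h
      rw [not_lt] at h
      have := mul_pos hq hl
      have := mul_nonpos_of_nonneg_of_nonpos hp.le h
      linarith
    have hc : 0 < (κ : ℝ) * a + (μ + 1) * b := by positivity
    have e2 := mul_le_mul_of_nonneg_right e1 hc.le
    have e3 := mul_le_mul_of_nonneg_right h2 hr.le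
    have e4 : Q * ((a * (μ + 1) - b * μ) * (κ * a + (μ + 1) * b)) ≤
        Q * ((b * (κ + 1) - a * κ) * ((κ + 1) * a + μ * b)) := by nlinarith [e2, e3]
    have e5 := le_of_mul_le_mul_left e4 hq
    have h3' : (1 : ℝ) ≤ κ + μ := by exact_mod_cast h3
    have key : ((a : ℝ) * (μ + 1) - b * μ) * (κ * a + (μ + 1) * b)
        - (b * (κ + 1) - a * κ) * ((κ + 1) * a + μ * b)
        = (κ + μ + 2) * ((a - b) * (a * κ + b * μ)) := by ring
    have hpos : 0 < ((κ : ℝ) + μ + 2) * ((a - b) * (a * κ + b * μ)) := by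
      have h6 : 0 < (a : ℝ) * κ + b * μ := by
        have : (b : ℝ) * (κ + μ) ≤ a * κ + b * μ := by nlinarith
        have : (b : ℝ) ≤ b * (κ + μ) := by nlinarith
        linarith
      have h7 : 0 < (a : ℝ) - b := by linarith
      positivity
    linarith

/-- a heavy vertex has a light child -/
lemma exists_light_child (hb : 0 < b) (hab : b < a) :
    ∀ V : F, p κ μ a b V < q κ μ a b V →
      ∃ W L : F, size V = size W + size L ∧ p κ μ a b V = p κ μ a b (cons W L) ∧
        q κ μ a b V = q κ μ a b (cons W L) ∧ q κ μ a b W < p κ μ a b W := by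
  have ha : 0 < a := hb.trans hab
  intro V
  induction V with
  | nil =>
    intro h
    rw [p_nil, q_nil] at h
    have : a < b := by exact_mod_cast h
    omega
  | cons c r ihc ihr =>
    intro h
    by_cases hc : q κ μ a b c < p κ μ a b c
    · exact ⟨c, r, rfl, rfl, rfl, hc⟩
    rw [not_lt] at hc
    obtain ⟨hp, hq⟩ := pq_pos (κ := κ) (μ := μ) ha hb c
    obtain ⟨hpr, hqr⟩ := pq_pos (κ := κ) (μ := μ) ha hb r
    have hκ : (0 : ℝ) ≤ κ := Nat.cast_nonneg _
    have hμ : (0 : ℝ) ≤ μ := Nat.cast_nonneg _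
    have hr : p κ μ a b r < q κ μ a b r := by
      by_contra h'
      rw [not_lt] at h'
      rw [p_cons, q_cons] at h
      have h1 : ((κ : ℝ) + 1) * p κ μ a b c + μ * q κ μ a b c ≤
          κ * p κ μ a b c + (μ + 1) * q κ μ a b c := by nlinarith
      have h2 : 0 ≤ ((κ : ℝ) + 1) * p κ μ a b c + μ * q κ μ a b c := by positivity
      have h3 := mul_le_mul h' h1 h2 hpr.le
      linarith
    obtain ⟨W, L, h1, h2, h3, h4⟩ := ihr hr
    refine ⟨W, cons c L, ?_, ?_, ?_, h4⟩
    · simp only [size]; omega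
    · rw [p_cons c r, h2]; simp only [p_cons]; ring
    · rw [q_cons c r, h3]; simp only [q_cons]; ring

/-- comparison of gluings: in a minimal tree the product of deviations is maximal -/
lemma glue_le {c r c' r' : F} (hX : XR κ μ a b (cons c r) ≤ XR κ μ a b (cons c' r'))
    (hc : XR κ μ a b c' = XR κ μ a b c) (hr : XR κ μ a b r' = XR κ μ a b r) :
    (p κ μ a b c' - q κ μ a b c') * (p κ μ a b r' - q κ μ a b r') ≤
    (p κ μ a b c - q κ μ a b c) * (p κ μ a b r - q κ μ a b r) := by
  have h1 := glue (κ := κ) (μ := μ) (a := a) (b := b) c r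
  have h2 := glue (κ := κ) (μ := μ) (a := a) (b := b) c' r'
  rw [hc, hr] at h2
  have hκ : (0 : ℝ) ≤ κ := Nat.cast_nonneg _
  have hμ : (0 : ℝ) ≤ μ := Nat.cast_nonneg _
  have h3 : ((κ : ℝ) + μ + 2) * XR κ μ a b (cons c r) ≤
      (κ + μ + 2) * XR κ μ a b (cons c' r') := mul_le_mul_of_nonneg_left hX (by positivity)
  rw [h1, h2] at h3
  have h4 : 0 < ((κ : ℝ) + 1) * (μ + 1) := by positivity
  have h5 : ((κ : ℝ) + 1) * (μ + 1) * ((p κ μ a b c' - q κ μ a b c') * (p κ μ a b r' - q κ μ a b r'))
     ≤ (κ + 1) * (μ + 1) * ((p κ μ a b c - q κ μ a b c) * (p κ μ a b r - q κ μ a b r)) := by linarith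
  exact le_of_mul_le_mul_left h5 h4

lemma Min.le {T T' : F} (h : Min κ μ a b T) (hs : size T' = size T) :
    XR κ μ a b T ≤ XR κ μ a b T' := by
  simp only [XR]; exact_mod_cast h T' hs

/-- in a minimal tree the two sides of an edge deviate in the same direction -/
lemma Min.prod_pos (h3 : 1 ≤ κ + μ) (hb : 0 < b) (hab : b < a) {c r : F}
    (h : Min κ μ a b (cons c r)) :
    0 < (p κ μ a b c - q κ μ a b c) * (p κ μ a b r - q κ μ a b r) := by
  obtain ⟨c', hc1, hc2, hc3⟩ := exists_light h3 hb hab c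
  obtain ⟨r', hr1, hr2, hr3⟩ := exists_light h3 hb hab r
  have h1 := glue_le (h.le (T' := cons c' r') (by simp only [size]; omega))
    (X_eq_iff.mpr hc2) (X_eq_iff.mpr hr2)
  have := mul_pos (sub_pos.mpr hc3) (sub_pos.mpr hr3)
  linarith

/-- from total weights and deviations to ratios -/
lemma ratio_le (ha : 0 < a) (hb : 0 < b) {R R' : F} (hX : XR κ μ a b R = XR κ μ a b R')
    (hd : p κ μ a b R' - q κ μ a b R' ≤ p κ μ a b R - q κ μ a b R) :
    x κ μ a b R ≤ x κ μ a b R' := by
  obtain ⟨h1, h2⟩ := pq_pos (κ := κ) (μ := μ) ha hb R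
  obtain ⟨h3, h4⟩ := pq_pos (κ := κ) (μ := μ) ha hb R'
  rw [XR_eq, XR_eq] at hX
  have hκ : (0 : ℝ) ≤ κ := Nat.cast_nonneg _
  have hμ : (0 : ℝ) ≤ μ := Nat.cast_nonneg _
  have hp : p κ μ a b R' ≤ p κ μ a b R := by nlinarith
  have hq : q κ μ a b R ≤ q κ μ a b R' := by nlinarith
  unfold x
  rw [div_le_div_iff₀ h1 h3]
  exact mul_le_mul hq hp h3.le h4.le

/-- the scalar inequality behind the cross moves -/
lemma cross_scalar (h3 : 1 ≤ κ + μ) {m w z : ℝ} (hm : 0 < m) (hw : 0 < w) (hz : 0 < z)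
    (h : z * t κ μ (m * t κ μ w) ≤ w * t κ μ (m * t κ μ z)) : z ≤ w := by
  by_contra hlt
  rw [not_le] at hlt
  have tw := t_pos (κ := κ) (μ := μ) hw
  have tz := t_pos (κ := κ) (μ := μ) hz
  have h1 : m * t κ μ z < m * t κ μ w := mul_lt_mul_of_pos_left (t_anti hw hlt) hm
  have h2 := yt_mono h3 (mul_pos hm tz) h1
  have h3' := yt_mono h3 hw hlt
  have pα := t_pos (κ := κ) (μ := μ) (mul_pos hm tz)
  have pβ := t_pos (κ := κ) (μ := μ) (mul_pos hm tw)
  set α := t κ μ (m * t κ μ z)
  set β := t κ μ (m * t κ μ w)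
  set τz := t κ μ z
  set τw := t κ μ w
  -- h2 : m τz α < m τw β ;  h3' : w τw < z τz ; h : z β ≤ w α
  have h4 : τz * α < τw * β := by
    have : m * (τz * α) < m * (τw * β) := by nlinarith
    exact lt_of_mul_lt_mul_left this hm.le
  have h5 : w * α * (τz * τw) < z * β * (τz * τw) := by
    calc w * α * (τz * τw) = (τz * α) * (w * τw) := by ring
      _ < (τw * β) * (w * τw) := mul_lt_mul_of_pos_right h4 (mul_pos hw tw)
      _ < (τw * β) * (z * τz) := mul_lt_mul_of_pos_left h3' (mul_pos tw pβ)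
      _ = z * β * (τz * τw) := by ring
  have h6 := lt_of_mul_lt_mul_right h5 (mul_pos tz tw).le
  linarith

/-- one cross move -/
lemma cross_move (h3 : 1 ≤ κ + μ) (hb : 0 < b) (hab : b < a) {Z M W L : F}
    (h : Min κ μ a b (cons (cons Z M) (cons W L))) (hZ : q κ μ a b Z < p κ μ a b Z) :
    x κ μ a b M ≤ x κ μ a b W := by
  have ha : 0 < a := hb.trans hab
  have hX1 : X κ μ a b (cons Z (cons (cons W L) M)) = X κ μ a b (cons (cons Z M) (cons W L)) := by
    rw [X_perm, X_swap]
  have hs1 : size (cons Z (cons (cons W L) M)) = size (cons (cons Z M) (cons W L)) := by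
    simp only [size]; omega
  have hmin : Min κ μ a b (cons Z (cons (cons W L) M)) := h.congr hs1 hX1
  have hXR : XR κ μ a b (cons (cons M L) W) = XR κ μ a b (cons (cons W L) M) := by
    rw [X_eq_iff, X_swap, X_perm, X_swap]
  have h1 := glue_le (hmin.le (T' := cons Z (cons (cons M L) W))
    (by simp only [size]; omega)) rfl hXR
  have h2 := le_of_mul_le_mul_left h1 (sub_pos.mpr hZ)
  have h4 := ratio_le ha hb hXR.symm h2
  rw [x_cons ha hb, x_cons ha hb, x_cons ha hb, x_cons ha hb] at h4
  exact cross_scalar h3 (x_pos ha hb L) (x_pos ha hb W) (x_pos ha hb M) h4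

/-- in a minimal tree every directed branch is light -/
lemma Min.light (h3 : 1 ≤ κ + μ) (hb : 0 < b) (hab : b < a) {c r : F}
    (h : Min κ μ a b (cons c r)) :
    q κ μ a b r < p κ μ a b r := by
  have ha : 0 < a := hb.trans hab
  by_contra hr
  rw [not_lt] at hr
  have hprod := h.prod_pos h3 hb hab
  have hr' : p κ μ a b r < q κ μ a b r := by
    rcases hr.lt_or_eq with h' | h'
    · exact h'
    · rw [h', sub_self, mul_zero] at hprod; exact absurd hprod (lt_irrefl _)
  have hc' : p κ μ a b c < q κ μ a b c := by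
    by_contra h'
    rw [not_lt] at h'
    have := mul_nonpos_of_nonneg_of_nonpos (sub_nonneg.mpr h') (sub_nonpos.mpr hr)
    linarith
  obtain ⟨W, L, hWs, hWp, hWq, hW⟩ := exists_light_child hb hab r hr'
  obtain ⟨Z, M, hZs, hZp, hZq, hZ⟩ := exists_light_child hb hab c hc'
  have hX0 : X κ μ a b (cons (cons Z M) (cons W L)) = X κ μ a b (cons c r) := by
    rw [← X_eq_iff, XR_eq, XR_eq, p_cons c r, q_cons c r, hWp, hWq, hZp, hZq,
      p_cons (cons Z M), q_cons (cons Z M)]
  have hs0 : size (cons (cons Z M) (cons W L)) = size (cons c r) := by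
    simp only [size]; omega
  have hmin : Min κ μ a b (cons (cons Z M) (cons W L)) := h.congr hs0 hX0
  have e1 := cross_move h3 hb hab hmin hZ
  have hmin2 : Min κ μ a b (cons (cons W L) (cons Z M)) :=
    hmin.congr (size_swap _ _) (X_swap _ _)
  have e2 := cross_move h3 hb hab hmin2 hW
  -- ratios
  have hxr : x κ μ a b r = x κ μ a b L * t κ μ (x κ μ a b W) := by
    rw [← x_cons ha hb W L, x, x, hWp, hWq]
  have hxc : x κ μ a b c = x κ μ a b M * t κ μ (x κ μ a b Z) := by
    rw [← x_cons ha hb Z M, x, x, hZp, hZq]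
  have hxr1 := (one_lt_x ha hb r).mpr hr'
  have hxc1 := (one_lt_x ha hb c).mpr hc'
  have hxW := (x_lt_one ha hb W).mpr hW
  have hxZ := (x_lt_one ha hb Z).mpr hZ
  have pW := x_pos (κ := κ) (μ := μ) ha hb W
  have pZ := x_pos (κ := κ) (μ := μ) ha hb Z
  have tW := t_pos (κ := κ) (μ := μ) pW
  have tZ := t_pos (κ := κ) (μ := μ) pZ
  have f1 : x κ μ a b r ≤ x κ μ a b Z * t κ μ (x κ μ a b W) := by
    rw [hxr]; exact mul_le_mul_of_nonneg_right e2 tW.le
  have f2 : x κ μ a b c ≤ x κ μ a b W * t κ μ (x κ μ a b Z) := by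
    rw [hxc]; exact mul_le_mul_of_nonneg_right e1 tZ.le
  have g1 : x κ μ a b W * t κ μ (x κ μ a b W) ≤ 1 := by
    have := yt_mono' (κ := κ) (μ := μ) h3 pW hxW.le
    rwa [t_one, mul_one] at this
  have g2 : x κ μ a b Z * t κ μ (x κ μ a b Z) ≤ 1 := by
    have := yt_mono' (κ := κ) (μ := μ) h3 pZ hxZ.le
    rwa [t_one, mul_one] at this
  have h7 : x κ μ a b r * x κ μ a b c ≤ 1 := by
    calc x κ μ a b r * x κ μ a b c
        ≤ (x κ μ a b Z * t κ μ (x κ μ a b W)) * (x κ μ a b W * t κ μ (x κ μ a b Z)) :=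
          mul_le_mul f1 f2 (x_pos ha hb c).le (mul_pos pZ tW).le
      _ = (x κ μ a b W * t κ μ (x κ μ a b W)) * (x κ μ a b Z * t κ μ (x κ μ a b Z)) := by ring
      _ ≤ 1 * 1 := mul_le_mul g1 g2 (mul_pos pZ tZ).le zero_le_one
      _ = 1 := one_mul 1
  have h8 : 1 < x κ μ a b r * x κ μ a b c := by nlinarith
  linarith

lemma Min.light_left (h3 : 1 ≤ κ + μ) (hb : 0 < b) (hab : b < a) {c r : F}
    (h : Min κ μ a b (cons c r)) : q κ μ a b c < p κ μ a b c :=
  (h.congr (T' := cons r c) (size_swap _ _) (X_swap _ _)).light h3 hb hab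

/-- append of lists of branches -/
def app : F → F → F
  | nil, r => r
  | cons c g, r => cons c (app g r)

lemma size_app_cons (g c r : F) : size (app g (cons c r)) = size (cons c (app g r)) := by
  induction g with
  | nil => rfl
  | cons d g _ ih =>
    simp only [app, size] at *
    omega

lemma E_app_cons (g c r : F) : E κ μ a b (app g (cons c r)) = E κ μ a b (cons c (app g r)) := by
  induction g with
  | nil => rfl
  | cons d g _ ih =>
    simp only [app]
    rw [E_perm, E, ih]
    simp only [E]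

/-- in a minimal tree all branches at the root are light, so the root ratio is at least `b/a` -/
lemma Min.root_ratio (h3 : 1 ≤ κ + μ) (hb : 0 < b) (hab : b < a) :
    ∀ (r g : F), Min κ μ a b (app g r) → (b : ℝ) / a ≤ x κ μ a b r := by
  have ha : 0 < a := hb.trans hab
  intro r
  induction r with
  | nil => intro g _; rw [x, p_nil, q_nil]
  | cons c r _ ih =>
    intro g h
    have h' : Min κ μ a b (cons c (app g r)) :=
      h.congr (size_app_cons g c r).symm (by simp only [X, E_app_cons])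
    have hc := h'.light_left h3 hb hab
    have h2 := ih (cons c g) h'
    rw [x_cons ha hb]
    have h1 : 1 ≤ t κ μ (x κ μ a b c) := by
      rw [← t_one (κ := κ) (μ := μ)]
      exact t_anti' (x_pos ha hb c) ((x_lt_one ha hb c).mpr hc).le
    calc (b : ℝ) / a ≤ x κ μ a b r := h2
      _ = x κ μ a b r * 1 := (mul_one _).symm
      _ ≤ x κ μ a b r * t κ μ (x κ μ a b c) :=
        mul_le_mul_of_nonneg_left h1 (x_pos ha hb r).le

/-- a path on top: `up s L` is the tree `L` with a pendant path of `s` vertices at its root,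
rooted at the free end of that path -/
def up : ℕ → F → F
  | 0, L => L
  | s + 1, L => cons (up s L) nil

/-- the path with `s + 1` vertices rooted at an end -/
def chain (s : ℕ) : F := up s nil

lemma size_up (s : ℕ) (L : F) : size (up s L) = s + size L := by
  induction s with
  | zero => simp [up]
  | succ s ih => simp only [up, size, ih]; omega

lemma size_chain (s : ℕ) : size (chain s) = s + 1 := by
  rw [chain, size_up]; rfl

lemma X_up (s : ℕ) : ∀ (j : ℕ) (G : F),
    X κ μ a b (cons (chain j) (up s G)) = X κ μ a b (cons (chain (j + s)) G) := by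
  induction s with
  | zero => intro j G; rfl
  | succ s ih =>
    intro j G
    rw [up, X_perm, X_swap]
    have : cons (chain j) nil = chain (j + 1) := rfl
    rw [this, ih (j + 1) G]
    congr 3
    omega

lemma X_up' (s : ℕ) (G : F) :
    X κ μ a b (up (s + 1) G) = X κ μ a b (cons (chain s) G) := by
  rw [up, X_swap]
  have := X_up (κ := κ) (μ := μ) (a := a) (b := b) s 0 G
  rw [chain, up, zero_add] at this
  exact this

/-- every rooted tree is a path, or a pendant path on top of a vertex with two branches -/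
lemma up_form (T : F) : (∃ s, T = chain s) ∨ ∃ s c d r, T = up s (cons c (cons d r)) := by
  induction T with
  | nil => exact Or.inl ⟨0, rfl⟩
  | cons c r ihc _ =>
    cases r with
    | nil =>
      rcases ihc with ⟨s, hs⟩ | ⟨s, c', d, r, hs⟩
      · exact Or.inl ⟨s + 1, by rw [hs]; rfl⟩
      · exact Or.inr ⟨s + 1, c', d, r, by rw [hs]; rfl⟩
    | cons d r => exact Or.inr ⟨0, c, d, r, rfl⟩

/-- iterating `y ↦ (b/a) t(y)` contracts ratios -/
lemma contract (h3 : 1 ≤ κ + μ) (ha : 0 < a) (hb : 0 < b) {G H : F}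
    (hGH : x κ μ a b G < x κ μ a b H) (s : ℕ) :
    x κ μ a b (up (s + 1) H) * x κ μ a b G < x κ μ a b (up (s + 1) G) * x κ μ a b H ∧
    x κ μ a b (up (s + 1) G) * x κ μ a b G < x κ μ a b (up (s + 1) H) * x κ μ a b H := by
  have hc : 0 < x κ μ a b nil := x_pos ha hb nil
  have pG := x_pos (κ := κ) (μ := μ) ha hb G
  have pH := x_pos (κ := κ) (μ := μ) ha hb H
  induction s with
  | zero =>
    simp only [up, x_cons ha hb]
    have h1 := t_anti (κ := κ) (μ := μ) pG hGH
    have h2 := yt_mono (κ := κ) (μ := μ) h3 pG hGH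
    have tG := t_pos (κ := κ) (μ := μ) pG
    have tH := t_pos (κ := κ) (μ := μ) pH
    constructor
    · have : t κ μ (x κ μ a b H) * x κ μ a b G < t κ μ (x κ μ a b G) * x κ μ a b H :=
        mul_lt_mul h1 hGH.le pG tG.le
      nlinarith [mul_lt_mul_of_pos_left this hc]
    · nlinarith [mul_lt_mul_of_pos_left h2 hc]
  | succ s ih =>
    obtain ⟨i1, i2⟩ := ih
    have pA := x_pos (κ := κ) (μ := μ) ha hb (up (s + 1) G)
    have pB := x_pos (κ := κ) (μ := μ) ha hb (up (s + 1) H)
    have eG : x κ μ a b (up (s + 1 + 1) G) = x κ μ a b nil * t κ μ (x κ μ a b (up (s + 1) G)) := by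
      rw [up, x_cons ha hb]
    have eH : x κ μ a b (up (s + 1 + 1) H) = x κ μ a b nil * t κ μ (x κ μ a b (up (s + 1) H)) := by
      rw [up, x_cons ha hb]
    rw [eG, eH]
    set A := x κ μ a b (up (s + 1) G)
    set B := x κ μ a b (up (s + 1) H)
    set g := x κ μ a b G
    set h := x κ μ a b H
    have tA := t_pos (κ := κ) (μ := μ) pA
    have tB := t_pos (κ := κ) (μ := μ) pB
    -- i1 : B g < A h, i2 : A g < B h
    rcases le_total A B with hAB | hAB
    · have j1 : t κ μ B ≤ t κ μ A := t_anti' pA hAB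
      have j2 : A * t κ μ A ≤ B * t κ μ B := yt_mono' h3 pA hAB
      constructor
      · have : t κ μ B * g < t κ μ A * h :=
          mul_lt_mul' j1 hGH pG.le tA
        nlinarith [mul_lt_mul_of_pos_left this hc]
      · -- t A * g < t B * h
        have k1 : t κ μ A * g * A < t κ μ B * h * A := by
          calc t κ μ A * g * A = (A * t κ μ A) * g := by ring
            _ ≤ (B * t κ μ B) * g := mul_le_mul_of_nonneg_right j2 pG.le
            _ = t κ μ B * (B * g) := by ring
            _ < t κ μ B * (A * h) := mul_lt_mul_of_pos_left i1 tB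
            _ = t κ μ B * h * A := by ring
        have k2 := lt_of_mul_lt_mul_right k1 pA.le
        nlinarith [mul_lt_mul_of_pos_left k2 hc]
    · have j1 : t κ μ A ≤ t κ μ B := t_anti' pB hAB
      have j2 : B * t κ μ B ≤ A * t κ μ A := yt_mono' h3 pB hAB
      constructor
      · have k1 : t κ μ B * g * B < t κ μ A * h * B := by
          calc t κ μ B * g * B = (B * t κ μ B) * g := by ring
            _ ≤ (A * t κ μ A) * g := mul_le_mul_of_nonneg_right j2 pG.le
            _ = t κ μ A * (A * g) := by ring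
            _ < t κ μ A * (B * h) := mul_lt_mul_of_pos_left i2 tA
            _ = t κ μ A * h * B := by ring
        have k2 := lt_of_mul_lt_mul_right k1 pB.le
        nlinarith [mul_lt_mul_of_pos_left k2 hc]
      · have : t κ μ A * g < t κ μ B * h := mul_lt_mul' j1 hGH pG.le tB
        nlinarith [mul_lt_mul_of_pos_left this hc]

/-- a minimal tree has the same total weight as the path -/
lemma Min.eq_chain (h3 : 1 ≤ κ + μ) (hb : 0 < b) (hab : b < a) {T : F}
    (h : Min κ μ a b T) : ∃ s, size T = s + 1 ∧ X κ μ a b T = X κ μ a b (chain s) := by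
  have ha : 0 < a := hb.trans hab
  cases T with
  | nil => exact ⟨0, rfl, rfl⟩
  | cons c₀ r₀ =>
    obtain ⟨B, hB1, hB2⟩ := exists_leaf_root (κ := κ) (μ := μ) (a := a) (b := b) c₀ r₀
    have hB : Min κ μ a b (cons B nil) := h.congr hB1 hB2
    rcases up_form B with ⟨s, hs⟩ | ⟨s, c, d, r, hs⟩
    · refine ⟨s + 1, ?_, ?_⟩
      · rw [← hB1, hs]; simp only [size, size_chain]
      · rw [← hB2, hs]; rfl
    · exfalso
      have hBup : cons B nil = up (s + 1) (cons c (cons d r)) := by rw [hs]; rfl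
      rw [hBup] at hB
      -- re-root at the branching vertex
      have hT1 : Min κ μ a b (cons (chain s) (cons c (cons d r))) :=
        hB.congr (by rw [size_up]; simp only [size, size_chain]) (X_up' s _).symm
      have hT2 : Min κ μ a b (cons c (cons (chain s) (cons d r))) :=
        hT1.congr (size_perm _ _ _) (X_perm _ _ _)
      have hT3 : Min κ μ a b (cons d (cons (chain s) (cons c r))) := by
        refine hT1.congr ?_ ?_
        · simp only [size]; omega
        · rw [X_perm]; simp only [X, E]; ring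
      have hc := hT2.light_left h3 hb hab
      have hd := hT3.light_left h3 hb hab
      have hr : (b : ℝ) / a ≤ x κ μ a b r := by
        apply Min.root_ratio h3 hb hab r (cons (chain s) (cons c (cons d nil)))
        exact hT1
      -- the ratio at w without the leg and without c
      have hu : x κ μ a b nil < x κ μ a b (cons d r) := by
        rw [x_cons ha hb]
        have h1 : 1 < t κ μ (x κ μ a b d) := by
          rw [← t_one (κ := κ) (μ := μ)]
          exact t_anti (x_pos ha hb d) ((x_lt_one ha hb d).mpr hd)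
        have h2 : x κ μ a b nil = (b : ℝ) / a := by rw [x, p_nil, q_nil]
        calc x κ μ a b nil ≤ x κ μ a b r := by rw [h2]; exact hr
          _ = x κ μ a b r * 1 := (mul_one _).symm
          _ < x κ μ a b r * t κ μ (x κ μ a b d) := mul_lt_mul_of_pos_left h1 (x_pos ha hb r)
      have hcon := (contract (κ := κ) (μ := μ) h3 ha hb hu s).1
      -- compare the two ways of attaching c
      have hXR : XR κ μ a b (up (s + 1) (cons d r)) = XR κ μ a b (cons (chain s) (cons d r)) :=
        X_eq_iff.mpr (X_up' s _)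
      have h1 := glue_le (hT2.le (T' := cons c (up (s + 1) (cons d r)))
        (by simp only [size, size_up, size_chain])) rfl hXR
      have h2 := le_of_mul_le_mul_left h1 (sub_pos.mpr hc)
      have h4 := ratio_le ha hb hXR.symm h2
      rw [x_cons ha hb] at h4
      -- x (up (s+1) nil) = x nil * t (x (chain s))
      have h5 : x κ μ a b (up (s + 1) nil) = x κ μ a b nil * t κ μ (x κ μ a b (chain s)) := by
        rw [up, x_cons ha hb]; rfl
      rw [h5] at hcon
      have h6 : 0 < x κ μ a b nil := x_pos ha hb nil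
      have h7 : x κ μ a b nil * x κ μ a b (up (s + 1) (cons d r)) <
          x κ μ a b nil * (x κ μ a b (cons d r) * t κ μ (x κ μ a b (chain s))) := by
        calc _ = x κ μ a b (up (s + 1) (cons d r)) * x κ μ a b nil := mul_comm _ _
          _ < _ := hcon
          _ = _ := by ring
      have h8 := lt_of_mul_lt_mul_left h7 h6.le
      linarith

/-- existence of a minimal tree -/
lemma exists_min (T : F) : ∃ T' : F, size T' = size T ∧ Min κ μ a b T' := by
  classical
  let s : Set ℕ := {m | ∃ U : F, size U = size T ∧ X κ μ a b U = m}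
  have hs : s.Nonempty := ⟨_, T, rfl, rfl⟩
  obtain ⟨U, hU1, hU2⟩ := Nat.sInf_mem hs
  refine ⟨U, hU1, fun T' hT' => ?_⟩
  rw [hU2]
  exact Nat.sInf_le ⟨T', hT'.trans hU1, rfl⟩

theorem chain_le_of_lt (h3 : 1 ≤ κ + μ) (hb : 0 < b) (hab : b < a) (T : F) :
    X κ μ a b (chain (size T - 1)) ≤ X κ μ a b T := by
  obtain ⟨T', h1, h2⟩ := exists_min (κ := κ) (μ := μ) (a := a) (b := b) T
  obtain ⟨s, hs, hX⟩ := h2.eq_chain h3 hb hab
  have : size T - 1 = s := by omega
  rw [this, ← hX]
  exact h2 T h1.symm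

/-- exchanging the two kinds of colours -/
lemma E_flip (T : F) : E κ μ a b T = ((E μ κ b a T).2, (E μ κ b a T).1) := by
  induction T with
  | nil => rfl
  | cons c r ihc ihr =>
    simp only [E, ihc, ihr, Prod.mk.injEq]
    constructor <;> ring

lemma X_flip (T : F) : X κ μ a b T = X μ κ b a T := by
  simp only [X, E_flip (κ := κ) (μ := μ) (a := a) (b := b) T]; ring

lemma E_same (T : F) : (E κ μ a a T).1 = a ^ size T * (κ + μ + 1) ^ (size T - 1) ∧
    (E κ μ a a T).2 = a ^ size T * (κ + μ + 1) ^ (size T - 1) := by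
  induction T with
  | nil => simp [E, size]
  | cons c r ihc ihr =>
    obtain ⟨c1, c2⟩ := ihc
    obtain ⟨r1, r2⟩ := ihr
    have hc := size_pos c
    have hr := size_pos r
    have hsz : size c + size r - 1 = (size r - 1) + (size c - 1) + 1 := by omega
    simp only [E, size, c1, c2, r1, r2, hsz, pow_add, pow_one]
    constructor <;> ring

theorem chain_le (h3 : 1 ≤ κ + μ) (ha : 0 < a) (hb : 0 < b) (T : F) :
    X κ μ a b (chain (size T - 1)) ≤ X κ μ a b T := by
  rcases lt_trichotomy a b with h | h | h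
  · rw [X_flip, X_flip (κ := κ)]
    exact chain_le_of_lt (by omega) ha h T
  · subst h
    have hT := size_pos T
    have hsz : size (chain (size T - 1)) = size T := by rw [size_chain]; omega
    obtain ⟨h1, h2⟩ := E_same (κ := κ) (μ := μ) (a := a) (chain (size T - 1))
    obtain ⟨h5, h6⟩ := E_same (κ := κ) (μ := μ) (a := a) T
    rw [hsz] at h1 h2
    apply le_of_eq
    simp only [X, h1, h2, h5, h6]
  · exact chain_le_of_lt h3 hb h T

end main

end F

end Pool.Agent.Helper65.HL
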