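import Pool.Agent.Helper65.HLCore

set_option autoImplicit false

/-!
# From graph homomorphism counts to the two-state recursion
-/

namespace Pool.Agent.Helper65.HL

open F Finset

section
variable {ι : Type} [Fintype ι] [DecidableEq ι] (A : Finset ι) (κ μ a b : ℕ)

/-- weight of the colourings of the rooted tree with root colour `i` -/
def val (T : F) (i : ι) : ℕ := if i ∈ A then (E κ μ a b T).1 else (E κ μ a b T).2

variable {A κ μ a b}

lemma sum_val (hA : A.card = κ + 1) (hB : Aᶜ.card = μ + 1) (T : F) :
    ∑ i, val A κ μ a b T i = X κ μ a b T := by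
  rw [← Finset.sum_add_sum_compl A]
  have h1 : ∑ i ∈ A, val A κ μ a b T i = ∑ i ∈ A, (E κ μ a b T).1 :=
    Finset.sum_congr rfl (fun i hi => by simp [val, hi])
  have h2 : ∑ i ∈ Aᶜ, val A κ μ a b T i = ∑ i ∈ Aᶜ, (E κ μ a b T).2 :=
    Finset.sum_congr rfl (fun i hi => by simp [val, Finset.mem_compl.mp hi])
  rw [h1, h2, Finset.sum_const, Finset.sum_const, hA, hB, X]
  simp

lemma val_cons (hA : A.card = κ + 1) (hB : Aᶜ.card = μ + 1) (c r : F) (i : ι) :
    val A κ μ a b (cons c r) i = val A κ μ a b r i * ∑ j ∈ univ.erase i, val A κ μ a b c j := by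
  have h := sum_val (a := a) (b := b) hA hB c
  rw [← Finset.add_sum_erase univ _ (Finset.mem_univ i)] at h
  by_cases hi : i ∈ A
  · have h2 : ∑ j ∈ univ.erase i, val A κ μ a b c j =
        κ * (E κ μ a b c).1 + (μ + 1) * (E κ μ a b c).2 := by
      have h3 : val A κ μ a b c i = (E κ μ a b c).1 := by simp [val, hi]
      rw [h3, X] at h
      have : (κ + 1) * (E κ μ a b c).1 = (E κ μ a b c).1 + κ * (E κ μ a b c).1 := by ring
      omega
    rw [h2]
    simp [val, hi, E]
  · have h2 : ∑ j ∈ univ.erase i, val A κ μ a b c j =
        (κ + 1) * (E κ μ a b c).1 + μ * (E κ μ a b c).2 := by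
      have h3 : val A κ μ a b c i = (E κ μ a b c).2 := by simp [val, hi]
      rw [h3, X] at h
      have : (μ + 1) * (E κ μ a b c).2 = (E κ μ a b c).2 + μ * (E κ μ a b c).2 := by ring
      omega
    rw [h2]
    simp [val, hi, E]

/-- Decorated count: every finite tree whose vertices carry rooted trees amounts to one code. -/
theorem exists_code (hA : A.card = κ + 1) (hB : Aᶜ.card = μ + 1) :
    ∀ (n : ℕ) (V : Type) [Fintype V] [DecidableEq V] (G : SimpleGraph V) (_ : G.IsTree)
      (_ : Fintype.card V = n) (D : V → F),
      ∃ τ : F, size τ = ∑ v, size (D v) ∧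
        X κ μ a b τ = ∑ c : V → ι, open Classical in
          if (∀ u v, G.Adj u v → c u ≠ c v) then ∏ v, val A κ μ a b (D v) (c v) else 0 := by
  classical
  intro n
  induction n with
  | zero =>
    intro V _ _ G hG hn D
    have := hG.1.nonempty
    have := Fintype.card_pos (α := V)
    omega
  | succ n ih =>
    intro V _ _ G hG hn D
    rcases Nat.eq_zero_or_pos n with h0 | hpos
    · -- one vertex
      subst h0
      have hsub : Subsingleton V := Fintype.card_le_one_iff_subsingleton.mp (by omega)
      obtain ⟨v₀⟩ := hG.1.nonempty
      have huniq : Unique V := ⟨⟨v₀⟩, fun x => Subsingleton.elim _ _⟩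
      refine ⟨D default, by rw [Fintype.sum_unique], ?_⟩
      rw [← sum_val (a := a) (b := b) hA hB]
      have : ∀ c : V → ι, (∀ u v, G.Adj u v → c u ≠ c v) := by
        intro c u v huv
        exact absurd (Subsingleton.elim u v) huv.ne
      rw [← Equiv.sum_comp (Equiv.funUnique V ι) (fun i => val A κ μ a b (D default) i)]
      apply Finset.sum_congr rfl
      intro c _
      rw [if_pos (this c), Fintype.prod_unique]
      rfl
    · -- remove a leaf
      have hnt : Nontrivial V := Fintype.one_lt_card_iff_nontrivial.mp (by omega)
      obtain ⟨ℓ, hℓ⟩ := hG.exists_vert_degree_one_of_nontrivial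
      obtain ⟨m, hm, hmu⟩ := SimpleGraph.degree_eq_one_iff_existsUnique_adj.mp hℓ
      have hmℓ : m ≠ ℓ := hm.ne'
      set V' := {j : V // j ≠ ℓ}
      let G' : SimpleGraph V' := G.comap (Subtype.val : V' → V)
      have hG' : G'.IsTree := by
        have h1 : (G.induce {ℓ}ᶜ).Connected := hG.1.induce_compl_singleton_of_degree_eq_one hℓ
        have h2 : (G.induce {ℓ}ᶜ).IsAcyclic := hG.2.induce _
        exact ⟨h1, h2⟩
      have hcard : Fintype.card V' = n := by
        have := Fintype.card_subtype_compl (fun j : V => j = ℓ)
        rw [Fintype.card_subtype_eq] at this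
        simp only [V']
        have h2 : Fintype.card {j : V // j ≠ ℓ} = Fintype.card {x : V // ¬ x = ℓ} := rfl
        omega
      let m' : V' := ⟨m, hmℓ⟩
      let D' : V' → F := fun v => if v = m' then cons (D ℓ) (D m) else D v
      obtain ⟨τ, hτ1, hτ2⟩ := ih V' G' hG' hcard D'
      refine ⟨τ, ?_, ?_⟩
      · rw [hτ1]
        have e1 : ∑ v, size (D v) = size (D ℓ) + ∑ v : V', size (D v) := by
          rw [← Finset.add_sum_erase univ _ (Finset.mem_univ ℓ)]
          congr 1
          apply Finset.sum_subtype
          intro x; simp
        rw [e1, ← Finset.add_sum_erase univ (fun v => size (D' v)) (Finset.mem_univ m'),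
          ← Finset.add_sum_erase univ (fun v : V' => size (D v)) (Finset.mem_univ m')]
        have e2 : ∑ v ∈ univ.erase m', size (D' v) = ∑ v ∈ univ.erase m', size (D v) := by
          apply Finset.sum_congr rfl
          intro v hv
          have : v ≠ m' := Finset.ne_of_mem_erase hv
          simp [D', this]
        rw [e2]
        simp only [D', if_true, size, m']
        omega
      · rw [hτ2]
        rw [← Equiv.sum_comp (Equiv.funSplitAt ℓ ι).symm, Fintype.sum_prod_type_right]
        apply Finset.sum_congr rfl
        intro c' _
        -- fixed colouring of the rest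
        have hcond : ∀ j : ι, (∀ u v, G.Adj u v →
            (Equiv.funSplitAt ℓ ι).symm (j, c') u ≠ (Equiv.funSplitAt ℓ ι).symm (j, c') v) ↔
            ((∀ u v, G'.Adj u v → c' u ≠ c' v) ∧ j ≠ c' m') := by
          intro j
          have ha1 : (Equiv.funSplitAt ℓ ι).symm (j, c') ℓ = j := by
            simp [Equiv.funSplitAt]
          have ha2 : ∀ v (hv : v ≠ ℓ), (Equiv.funSplitAt ℓ ι).symm (j, c') v = c' ⟨v, hv⟩ := by
            intro v hv
            simp [Equiv.funSplitAt, hv]
          constructor
          · intro h
            refine ⟨?_, ?_⟩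
            · intro u v huv
              have := h u v huv
              rwa [ha2 u u.2, ha2 v v.2] at this
            · have := h ℓ m hm
              rwa [ha1, ha2 m hmℓ] at this
          · rintro ⟨h1, h2⟩ u v huv
            by_cases hu : u = ℓ
            · subst hu
              have hv : v = m := hmu v huv
              subst hv
              rw [ha1, ha2 v hmℓ]
              exact h2
            · by_cases hv : v = ℓ
              · subst hv
                have hu' : u = m := hmu u huv.symm
                subst hu'
                rw [ha1, ha2 u hmℓ]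
                exact h2.symm
              · rw [ha2 u hu, ha2 v hv]
                exact h1 ⟨u, hu⟩ ⟨v, hv⟩ huv
        have hprod : ∀ j : ι, ∏ v, val A κ μ a b (D v) ((Equiv.funSplitAt ℓ ι).symm (j, c') v) =
            val A κ μ a b (D ℓ) j * ∏ v : V', val A κ μ a b (D v) (c' v) := by
          intro j
          rw [← Finset.mul_prod_erase univ _ (Finset.mem_univ ℓ)]
          congr 1
          · simp [Equiv.funSplitAt]
          · rw [Finset.prod_subtype (univ.erase ℓ) (p := fun j => j ≠ ℓ) (by intro x; simp)]
            apply Finset.prod_congr rfl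
            intro v _
            have : (v : V) ≠ ℓ := v.2
            simp [Equiv.funSplitAt, this]
        simp only [hcond, hprod]
        by_cases hc : ∀ u v, G'.Adj u v → c' u ≠ c' v
        · rw [if_pos hc]
          have e0 : ∀ j : ι, (if (∀ u v, G'.Adj u v → c' u ≠ c' v) ∧ j ≠ c' m' then
              val A κ μ a b (D ℓ) j * ∏ v : V', val A κ μ a b (D v) (c' v) else 0) =
              (if j ≠ c' m' then val A κ μ a b (D ℓ) j else 0) *
                ∏ v : V', val A κ μ a b (D v) (c' v) := by
            intro j
            by_cases hj : j = c' m'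
            · rw [if_neg (fun h => h.2 hj), if_neg (fun h => h hj), zero_mul]
            · rw [if_pos ⟨hc, hj⟩, if_pos hj]
          rw [Finset.sum_congr rfl (fun j _ => e0 j), ← Finset.sum_mul, ← Finset.sum_filter,
            Finset.filter_ne', ← Finset.mul_prod_erase univ _ (Finset.mem_univ m')]
          have e3 : ∏ v ∈ univ.erase m', val A κ μ a b (D' v) (c' v) =
              ∏ v ∈ univ.erase m', val A κ μ a b (D v) (c' v) := by
            apply Finset.prod_congr rfl
            intro v hv
            have : v ≠ m' := Finset.ne_of_mem_erase hv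
            simp [D', this]
          have e4 : val A κ μ a b (D' m') (c' m') =
              val A κ μ a b (D m) (c' m') * ∑ j ∈ univ.erase (c' m'), val A κ μ a b (D ℓ) j := by
            simp only [D', if_true]
            exact val_cons hA hB _ _ _
          rw [e3, e4, ← Finset.mul_prod_erase univ (fun v : V' => val A κ μ a b (D v) (c' v))
              (Finset.mem_univ m')]
          simp only [m']
          ring
        · rw [if_neg hc]
          symm
          apply Finset.sum_eq_zero
          intro j _
          rw [if_neg (fun h => hc h.1)]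

end

end Pool.Agent.Helper65.HL
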