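import Pool.Agent.Helper65.HLGraph

set_option autoImplicit false

/-!
# Complete multipartite graphs with at most two part sizes are Hoffman-London
-/

namespace Pool.Agent.Helper65.HL

open F Finset

section
variable {ι : Type} [Fintype ι] [DecidableEq ι] {A : Finset ι} {κ μ a b : ℕ}

/-- colourings of the path with `s + 1` vertices whose first colour is `i` -/
lemma path_count (hA : A.card = κ + 1) (hB : Aᶜ.card = μ + 1) (s : ℕ) : ∀ i : ι,
    (∑ c : Fin (s + 1) → ι, open Classical in
      if (c 0 = i ∧ ∀ k : Fin s, c k.castSucc ≠ c k.succ) then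
        ∏ v, val A κ μ a b nil (c v) else 0) = val A κ μ a b (chain s) i := by
  classical
  induction s with
  | zero =>
    intro i
    rw [← Equiv.sum_comp (Equiv.funUnique (Fin 1) ι).symm]
    have : ∀ j : ι, (if ((Equiv.funUnique (Fin 1) ι).symm j 0 = i ∧
        ∀ k : Fin 0, (Equiv.funUnique (Fin 1) ι).symm j k.castSucc ≠
          (Equiv.funUnique (Fin 1) ι).symm j k.succ) then
        ∏ v, val A κ μ a b nil ((Equiv.funUnique (Fin 1) ι).symm j v) else 0) =
        if j = i then val A κ μ a b nil j else 0 := by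
      intro j
      have h1 : (Equiv.funUnique (Fin 1) ι).symm j 0 = j := rfl
      by_cases hj : j = i
      · rw [if_pos ⟨by rw [h1]; exact hj, fun k => k.elim0⟩, if_pos hj, Fin.prod_univ_one, h1]
      · rw [if_neg (fun h => hj (h1 ▸ h.1)), if_neg hj]
    rw [Finset.sum_congr rfl (fun j _ => this j), Finset.sum_ite_eq' univ i]
    simp [chain, up]
  | succ s ih =>
    intro i
    have hch : chain (s + 1) = cons (chain s) nil := rfl
    rw [hch, val_cons hA hB]
    rw [← Equiv.sum_comp (Fin.consEquiv (fun _ : Fin (s + 2) => ι)), Fintype.sum_prod_type]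
    have h1 : ∀ (j : ι) (c : Fin (s + 1) → ι),
        (if ((Fin.consEquiv (fun _ : Fin (s + 2) => ι)) (j, c) 0 = i ∧
          ∀ k : Fin (s + 1), (Fin.consEquiv (fun _ : Fin (s + 2) => ι)) (j, c) k.castSucc ≠
            (Fin.consEquiv (fun _ : Fin (s + 2) => ι)) (j, c) k.succ) then
          ∏ v, val A κ μ a b nil ((Fin.consEquiv (fun _ : Fin (s + 2) => ι)) (j, c) v) else 0) =
        if j = i then (val A κ μ a b nil i *
          (if (c 0 ≠ i ∧ ∀ k : Fin s, c k.castSucc ≠ c k.succ) then
            ∏ v, val A κ μ a b nil (c v) else 0)) else 0 := by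
      intro j c
      have e0 : (Fin.consEquiv (fun _ : Fin (s + 2) => ι)) (j, c) 0 = j := rfl
      have e1 : ∀ k : Fin (s + 1), (Fin.consEquiv (fun _ : Fin (s + 2) => ι)) (j, c) k.succ = c k :=
        fun k => rfl
      have e2 : ∀ k : Fin s, (Fin.consEquiv (fun _ : Fin (s + 2) => ι)) (j, c) (k.succ).castSucc =
          c k.castSucc := fun k => rfl
      by_cases hj : j = i
      · rw [if_pos hj]
        by_cases hc : c 0 ≠ i ∧ ∀ k : Fin s, c k.castSucc ≠ c k.succ
        · rw [if_pos hc, if_pos]
          · rw [Fin.prod_univ_succ, e0, hj]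
            rfl
          · refine ⟨by rw [e0]; exact hj, ?_⟩
            intro k
            refine Fin.cases ?_ (fun k => ?_) k
            · rw [e1]
              show j ≠ c 0
              rw [hj]; exact hc.1.symm
            · rw [e1, e2]
              exact hc.2 k
        · rw [if_neg hc, mul_zero, if_neg]
          rintro ⟨_, h⟩
          apply hc
          refine ⟨?_, fun k => ?_⟩
          · have := h 0
            rw [e1] at this
            have h3 : j ≠ c 0 := this
            rw [← hj]; exact h3.symm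
          · have := h k.succ
            rw [e1, e2] at this
            exact this
      · rw [if_neg hj, if_neg (fun h => hj (e0 ▸ h.1))]
    have h2 : ∑ j : ι, ∑ c : Fin (s + 1) → ι,
        (if ((Fin.consEquiv (fun _ : Fin (s + 2) => ι)) (j, c) 0 = i ∧
          ∀ k : Fin (s + 1), (Fin.consEquiv (fun _ : Fin (s + 2) => ι)) (j, c) k.castSucc ≠
            (Fin.consEquiv (fun _ : Fin (s + 2) => ι)) (j, c) k.succ) then
          ∏ v, val A κ μ a b nil ((Fin.consEquiv (fun _ : Fin (s + 2) => ι)) (j, c) v) else 0) =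
        val A κ μ a b nil i * ∑ c : Fin (s + 1) → ι,
          (if (c 0 ≠ i ∧ ∀ k : Fin s, c k.castSucc ≠ c k.succ) then
            ∏ v, val A κ μ a b nil (c v) else 0) := by
      rw [Finset.sum_comm, Finset.mul_sum]
      apply Finset.sum_congr rfl
      intro c _
      rw [Finset.sum_congr rfl (fun j _ => h1 j c), Finset.sum_ite_eq' univ i, if_pos (mem_univ i)]
    rw [h2]
    congr 1
    rw [Finset.sum_congr rfl (fun j _ => (ih j).symm), Finset.sum_comm]
    apply Finset.sum_congr rfl
    intro c _
    by_cases hc : c 0 ≠ i ∧ ∀ k : Fin s, c k.castSucc ≠ c k.succ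
    · rw [if_pos hc, Finset.sum_eq_single (c 0)]
      · rw [if_pos ⟨rfl, hc.2⟩]
      · intro j _ hj
        rw [if_neg (fun h => hj h.1.symm)]
      · intro h
        exact absurd (Finset.mem_erase.mpr ⟨hc.1, mem_univ _⟩) h
    · rw [if_neg hc]
      symm
      apply Finset.sum_eq_zero
      intro j hj
      rw [if_neg]
      rintro ⟨h1, h2⟩
      exact hc ⟨by rw [h1]; exact Finset.ne_of_mem_erase hj, h2⟩

omit [Fintype ι] [DecidableEq ι] in
lemma path_adj_iff (s : ℕ) (c : Fin (s + 1) → ι) :
    (∀ u v, (SimpleGraph.pathGraph (s + 1)).Adj u v → c u ≠ c v) ↔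
      ∀ k : Fin s, c k.castSucc ≠ c k.succ := by
  constructor
  · intro h k
    apply h
    rw [SimpleGraph.pathGraph_adj]
    left
    simp
  · intro h u v huv
    rw [SimpleGraph.pathGraph_adj] at huv
    rcases huv with h1 | h1
    · have hu : u.val < s := by have := v.isLt; omega
      have e1 : u = (⟨u.val, hu⟩ : Fin s).castSucc := rfl
      have e2 : v = (⟨u.val, hu⟩ : Fin s).succ := Fin.ext h1.symm
      rw [e1, e2]
      exact h _
    · have hv : v.val < s := by have := u.isLt; omega
      have e1 : v = (⟨v.val, hv⟩ : Fin s).castSucc := rfl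
      have e2 : u = (⟨v.val, hv⟩ : Fin s).succ := Fin.ext h1.symm
      rw [e1, e2]
      exact (h _).symm

lemma path_total (hA : A.card = κ + 1) (hB : Aᶜ.card = μ + 1) (s : ℕ) :
    (∑ c : Fin (s + 1) → ι, open Classical in
      if (∀ u v, (SimpleGraph.pathGraph (s + 1)).Adj u v → c u ≠ c v) then
        ∏ v, val A κ μ a b nil (c v) else 0) = X κ μ a b (chain s) := by
  classical
  rw [← sum_val (a := a) (b := b) hA hB,
    Finset.sum_congr rfl (fun i _ => (path_count (a := a) (b := b) hA hB s i).symm),
    Finset.sum_comm]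
  apply Finset.sum_congr rfl
  intro c _
  by_cases hc : ∀ k : Fin s, c k.castSucc ≠ c k.succ
  · rw [if_pos ((path_adj_iff s c).mpr hc), Finset.sum_eq_single (c 0)]
    · rw [if_pos ⟨rfl, hc⟩]
    · intro j _ hj
      rw [if_neg (fun h => hj h.1.symm)]
    · intro h
      exact absurd (mem_univ _) h
  · rw [if_neg (fun h => hc ((path_adj_iff s c).mp h))]
    symm
    apply Finset.sum_eq_zero
    intro j _
    rw [if_neg (fun h => hc h.2)]

end

/-- colourings into the blow-up, counted through the colours -/
lemma card_lift {V W ι : Type} [Fintype V] [DecidableEq V] [Fintype W] [Fintype ι] [DecidableEq ι]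
    (p : W → ι) (w : ι → ℕ) (hw : ∀ i, Nat.card {x : W // p x = i} = w i) (G : SimpleGraph V) :
    Nat.card {f : V → W // ∀ u v, G.Adj u v → p (f u) ≠ p (f v)} =
      ∑ c : V → ι, open Classical in
        if (∀ u v, G.Adj u v → c u ≠ c v) then ∏ v, w (c v) else 0 := by
  classical
  rw [Nat.card_eq_fintype_card, Fintype.card_subtype]
  have h1 : (univ.filter (fun f : V → W => ∀ u v, G.Adj u v → p (f u) ≠ p (f v))).card =
      ∑ c : V → ι, ((univ.filter (fun f : V → W => ∀ u v, G.Adj u v → p (f u) ≠ p (f v))).filter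
        (fun f => p ∘ f = c)).card := by
    apply Finset.card_eq_sum_card_fiberwise
    intro f _
    exact Finset.mem_coe.mpr (mem_univ _)
  rw [h1]
  apply Finset.sum_congr rfl
  intro c _
  by_cases hc : ∀ u v, G.Adj u v → c u ≠ c v
  · rw [if_pos hc]
    have h2 : ((univ.filter (fun f : V → W => ∀ u v, G.Adj u v → p (f u) ≠ p (f v))).filter
        (fun f => p ∘ f = c)) = Fintype.piFinset (fun v => univ.filter (fun x : W => p x = c v)) := by
      ext f
      simp only [mem_filter, mem_univ, true_and, Fintype.mem_piFinset]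
      constructor
      · rintro ⟨_, h⟩ v
        exact congrFun h v
      · intro h
        have h' : p ∘ f = c := funext h
        refine ⟨fun u v huv => ?_, h'⟩
        rw [h u, h v]
        exact hc u v huv
    rw [h2, Fintype.card_piFinset]
    apply Finset.prod_congr rfl
    intro v _
    rw [← hw (c v), Nat.card_eq_fintype_card, Fintype.card_subtype]
  · rw [if_neg hc, Finset.card_eq_zero, Finset.filter_eq_empty_iff]
    intro f hf h
    rw [mem_filter] at hf
    apply hc
    intro u v huv
    rw [← h]
    exact hf.2 u v huv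

theorem main (r : ℕ) (hr : 3 ≤ r) (W : Type) [Fintype W] (p : W → Fin r)
    (hp : Function.Surjective p)
    (h2 : ∃ a b : ℕ, ∀ i : Fin r, Nat.card {x : W // p x = i} = a ∨ Nat.card {x : W // p x = i} = b)
    (n : ℕ) (T : SimpleGraph (Fin n)) (hT : T.IsTree) :
    Nat.card {f : Fin n → W // ∀ u v : Fin n, (SimpleGraph.pathGraph n).Adj u v → p (f u) ≠ p (f v)}
      ≤ Nat.card {f : Fin n → W // ∀ u v : Fin n, T.Adj u v → p (f u) ≠ p (f v)} := by
  classical
  obtain ⟨s, rfl⟩ : ∃ s, n = s + 1 := by
    obtain ⟨v⟩ := hT.1.nonempty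
    exact ⟨n - 1, by have := v.isLt; omega⟩
  obtain ⟨a, b, hab⟩ := h2
  have hpos : ∀ i, 0 < Nat.card {x : W // p x = i} := by
    intro i
    obtain ⟨x, hx⟩ := hp i
    exact Nat.card_pos_iff.mpr ⟨⟨⟨x, hx⟩⟩, inferInstance⟩
  -- choose a set of colours with weight a', complement with weight b'
  obtain ⟨A, a', b', κ, μ, hA, hB, ha', hb', hval⟩ : ∃ (A : Finset (Fin r)) (a' b' κ μ : ℕ),
      A.card = κ + 1 ∧ Aᶜ.card = μ + 1 ∧ 0 < a' ∧ 0 < b' ∧
      ∀ i, Nat.card {x : W // p x = i} = if i ∈ A then a' else b' := by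
    have key : ∀ (A : Finset (Fin r)) (a' b' : ℕ), A.Nonempty → Aᶜ.Nonempty →
        (∀ i, Nat.card {x : W // p x = i} = if i ∈ A then a' else b') →
        ∃ (A : Finset (Fin r)) (a' b' κ μ : ℕ),
          A.card = κ + 1 ∧ Aᶜ.card = μ + 1 ∧ 0 < a' ∧ 0 < b' ∧
          ∀ i, Nat.card {x : W // p x = i} = if i ∈ A then a' else b' := by
      intro A a' b' h1 h2 h3
      refine ⟨A, a', b', A.card - 1, Aᶜ.card - 1, ?_, ?_, ?_, ?_, h3⟩
      · have := h1.card_pos; omega
      · have := h2.card_pos; omega
      · obtain ⟨i, hi⟩ := h1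
        have := hpos i
        rwa [h3 i, if_pos hi] at this
      · obtain ⟨i, hi⟩ := h2
        have := hpos i
        rwa [h3 i, if_neg (Finset.mem_compl.mp hi)] at this
    have hmem : ∀ i, i ∈ (univ.filter (fun i => Nat.card {x : W // p x = i} = a)) ↔
        Nat.card {x : W // p x = i} = a := by
      intro i; rw [Finset.mem_filter]; exact ⟨fun h => h.2, fun h => ⟨mem_univ _, h⟩⟩
    generalize hFdef : (univ.filter (fun i => Nat.card {x : W // p x = i} = a)) = FA at hmem
    by_cases hA : FA.Nonempty ∧ FAᶜ.Nonempty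
    · refine key FA a b hA.1 hA.2 ?_
      intro i
      by_cases hi : Nat.card {x : W // p x = i} = a
      · rw [if_pos ((hmem i).mpr hi), hi]
      · rw [if_neg (fun h => hi ((hmem i).mp h))]
        exact (hab i).resolve_left hi
    · -- all parts have the same size
      obtain ⟨c, hc⟩ : ∃ c, ∀ i, Nat.card {x : W // p x = i} = c := by
        rw [not_and_or, Finset.not_nonempty_iff_eq_empty, Finset.not_nonempty_iff_eq_empty] at hA
        rcases hA with h | h
        · refine ⟨b, fun i => (hab i).resolve_left (fun hi => ?_)⟩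
          have := (hmem i).mpr hi
          rw [h] at this
          exact absurd this (Finset.notMem_empty i)
        · refine ⟨a, fun i => ?_⟩
          by_contra hi
          have : i ∈ FAᶜ := Finset.mem_compl.mpr (fun h' => hi ((hmem i).mp h'))
          rw [h] at this
          exact absurd this (Finset.notMem_empty i)
      refine key {⟨0, by omega⟩} c c ⟨_, Finset.mem_singleton_self _⟩
        ⟨⟨1, by omega⟩, Finset.mem_compl.mpr (fun h => by
          have := congrArg Fin.val (Finset.mem_singleton.mp h)
          simp at this)⟩ (fun i => ?_)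
      rw [hc i, ite_self]
  have hcard : κ + 1 + (μ + 1) = r := by
    have := Finset.card_add_card_compl A
    rw [hA, hB, Fintype.card_fin] at this
    exact this
  have hw : ∀ i, Nat.card {x : W // p x = i} = val A κ μ a' b' nil i := by
    intro i; rw [hval i]; rfl
  rw [card_lift p (val A κ μ a' b' nil) hw, card_lift p (val A κ μ a' b' nil) hw]
  obtain ⟨τ, hτ1, hτ2⟩ := exists_code (a := a') (b := b') hA hB (s + 1) (Fin (s + 1)) T hT
    (Fintype.card_fin _) (fun _ => nil)
  have hτs : size τ = s + 1 := by
    rw [hτ1]; simp [size]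
  have h5 := chain_le (κ := κ) (μ := μ) (a := a') (b := b') (by omega) ha' hb' τ
  rw [hτs, Nat.add_sub_cancel, hτ2, ← path_total hA hB s] at h5
  convert h5 using 2
  congr

end Pool.Agent.Helper65.HL
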