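import Pool.Agent.Helper65.AsymBasic

/-!
# Numerical lemmas for one half of a window
-/

set_option autoImplicit false

namespace Pool.Agent.Helper65

open Real Filter Topology

/-- first level parameters -/
lemma num_level {p L : ℝ} (hp0 : 0 < p) (hp1 : p ≤ 1 / 10000) (hL : 1 ≤ L)
    (hLr : 10 * L * √p ≤ 1) {v J M1 : ℕ} (hv : v = ⌈1 / √p⌉₊) (hJ : J = ⌈16 / √p⌉₊)
    (hM1 : M1 = ⌈4 * L⌉₊) :
    1 ≤ v ∧ 16 / p ≤ (v : ℝ) * J ∧ 2 * ((v : ℝ) * J) ≤ 33 / p ∧ (J : ℝ) ≤ 17 * v ∧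
      p * (v * M1 : ℝ) ≤ 1 ∧ p * (v * M1 : ℝ) ≤ 10 * L * √p ∧ 4 * L ≤ M1 ∧
      (M1 : ℝ) ≤ 5 * L := by
  obtain ⟨hr0, hr1, hrr, hpr⟩ := sqrt_facts hp0 (by linarith : p ≤ 1)
  set r := √p with hr
  have hr100 : r ≤ 1 / 100 := by
    rw [hr]
    refine Real.sqrt_le_iff.mpr ⟨by norm_num, by norm_num; linarith⟩
  have hv1 : 1 / r ≤ v := by rw [hv]; exact Nat.le_ceil _
  have hv2 : (v : ℝ) ≤ 1 / r + 1 := by rw [hv]; exact (Nat.ceil_lt_add_one (by positivity)).le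
  have hJ1 : 16 / r ≤ J := by rw [hJ]; exact Nat.le_ceil _
  have hJ2 : (J : ℝ) ≤ 16 / r + 1 := by rw [hJ]; exact (Nat.ceil_lt_add_one (by positivity)).le
  have hM11 : 4 * L ≤ M1 := by rw [hM1]; exact Nat.le_ceil _
  have hM12 : (M1 : ℝ) ≤ 4 * L + 1 := by
    rw [hM1]; exact (Nat.ceil_lt_add_one (by linarith)).le
  have h1r : 100 ≤ 1 / r := by
    rw [le_div_iff₀ hr0]; linarith
  have hvpos : (1 : ℝ) ≤ v := by linarith
  have hM15 : (M1 : ℝ) ≤ 5 * L := by linarith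
  have hv2r : (v : ℝ) ≤ 2 / r := by
    have : 2 / r = 1 / r + 1 / r := by ring
    linarith
  have hpv : p * (v * M1 : ℝ) ≤ 10 * L * r := by
    have h1 : (v : ℝ) * M1 ≤ 2 / r * (5 * L) := mul_le_mul hv2r hM15 (by positivity) (by positivity)
    have h2 : p * (v * M1 : ℝ) ≤ p * (2 / r * (5 * L)) := mul_le_mul_of_nonneg_left h1 hp0.le
    have h3 : p * (2 / r * (5 * L)) = 10 * L * r := by
      rw [← hrr]; field_simp; ring
    linarith
  refine ⟨by exact_mod_cast hvpos, ?_, ?_, ?_, hpv.trans hLr, hpv, hM11, hM15⟩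
  · have h1 : 1 / r * (16 / r) ≤ (v : ℝ) * J := mul_le_mul hv1 hJ1 (by positivity) (by positivity)
    have h2 : 1 / r * (16 / r) = 16 / p := by rw [← hrr]; field_simp
    linarith
  · have h1 : (v : ℝ) * J ≤ (1 / r + 1) * (16 / r + 1) := mul_le_mul hv2 hJ2 (by positivity)
      (by positivity)
    have h2 : 2 * ((1 / r + 1) * (16 / r + 1)) ≤ 33 / p := by
      rw [le_div_iff₀ hp0]
      have h3 : 2 * ((1 / r + 1) * (16 / r + 1)) * p = 2 * ((1 + r) * (16 + r)) := by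
        rw [← hrr]; field_simp
      rw [h3]
      nlinarith
    linarith
  · have : 16 / r = 16 * (1 / r) := by ring
    linarith

/-- growth of one good vertex -/
lemma num_growth {p L : ℝ} (hp0 : 0 < p) (hp1 : p ≤ 1 / 10000) (hL : 1 ≤ L) {v M1 T : ℕ}
    (hM15 : (M1 : ℝ) ≤ 5 * L) (hpv : p * (v * M1 : ℝ) ≤ 10 * L * √p)
    (hT1 : (1 + p) ^ T ≤ 400 * L) (hT2 : 400 * L < (1 + p) ^ (T + 1))
    (hsmall : 40 * L ^ 2 * √p ≤ 1) (hll : 2 * log (400 * L) ≤ L) :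
    31 * (M1 : ℝ) ≤ (1 + p * (1 - p * (v * M1 : ℝ) / 2)) ^ T := by
  obtain ⟨hr0, hr1, hrr, hpr⟩ := sqrt_facts hp0 (by linarith : p ≤ 1)
  have hTp := pow_le_bound hp0 (by linarith) hT1
  set η := p * (v * M1 : ℝ) / 2 with hη
  have hη0 : 0 ≤ η := by positivity
  have hη1 : η ≤ 5 * L * √p := by linarith
  have hTη : T * (p * η) ≤ 1 / 4 := by
    have h1 : T * (p * η) = (T * p) * η := by ring
    have h2 : (T * p) * η ≤ L * (5 * L * √p) :=
      mul_le_mul (hTp.trans hll) hη1 hη0 (by linarith)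
    nlinarith
  have hpη : p * η ≤ 1 := by
    have h3 : 5 * L * √p ≤ 1 := by
      have : L * √p ≤ L ^ 2 * √p := by
        have : L ≤ L ^ 2 := by nlinarith
        exact mul_le_mul_of_nonneg_right this hr0.le
      nlinarith [mul_nonneg (by linarith : (0 : ℝ) ≤ L) hr0.le]
    have h4 : η ≤ 1 := hη1.trans h3
    nlinarith
  have h5 := slow_pow hp0.le hη0 hpη T
  have h6 : 300 * L ≤ (1 + p) ^ T * (1 - T * (p * η)) * (1 + p) + 1 / 4 := by
    have h7 : (1 + p) ^ T * (1 + p) = (1 + p) ^ (T + 1) := by ring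
    have h8 : (1 + p) ^ T * (1 - T * (p * η)) * (1 + p) =
        (1 + p) ^ (T + 1) * (1 - T * (p * η)) := by rw [← h7]; ring
    rw [h8]
    have h9 : (1 + p) ^ (T + 1) * (3 / 4) ≤ (1 + p) ^ (T + 1) * (1 - T * (p * η)) :=
      mul_le_mul_of_nonneg_left (by linarith) (by positivity)
    linarith
  have h10 : (1 + p) ^ T * (1 - T * (p * η)) * (1 + p) ≤
      (1 + p * (1 - η)) ^ T * (1 + p) := mul_le_mul_of_nonneg_right h5 (by linarith)
  have h11 : 0 ≤ (1 + p * (1 - η)) ^ T := by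
    refine pow_nonneg ?_ _
    nlinarith
  nlinarith

/-- error term 2 -/
lemma num_err2 {p c0 : ℝ} (hp0 : 0 < p) (hp1 : p ≤ 1 / 10000) (hc0 : 0 < c0) {m h s : ℕ}
    (hm : c0 / p ≤ m) (hh : h = ⌈5 / p⌉₊) (hs : s = m / 4 + 1) :
    (2 : ℝ) ^ m * (3 * (1 - p) ^ h) ^ s ≤ 4 * p / c0 := by
  have hh1 : 5 / p ≤ h := by rw [hh]; exact Nat.le_ceil _
  have hq : (0 : ℝ) ≤ 1 - p := by linarith
  have h1 : 3 * (1 - p) ^ h ≤ 1 / 32 := by
    have h2 : (1 - p) ^ h ≤ exp (-5) := by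
      have h3 : (1 - p) ^ h ≤ exp (-p) ^ h :=
        pow_le_pow_left₀ hq (Real.one_sub_le_exp_neg p) h
      rw [← Real.exp_nat_mul] at h3
      refine h3.trans (Real.exp_le_exp.mpr ?_)
      have : 5 ≤ h * p := by rwa [div_le_iff₀ hp0] at hh1
      linarith
    have h4 : exp (-5) ≤ 1 / 96 := by
      rw [Real.exp_neg, ← one_div]
      refine one_div_le_one_div_of_le (by norm_num) ?_
      have h5 : exp 5 = exp 1 ^ 5 := by rw [← Real.exp_nat_mul]; norm_num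
      rw [h5]
      have h6 : (2.7 : ℝ) ≤ exp 1 := by linarith [Real.exp_one_gt_d9]
      calc (96 : ℝ) ≤ 2.7 ^ 5 := by norm_num
        _ ≤ _ := pow_le_pow_left₀ (by norm_num) h6 5
    linarith
  have h7 : (3 * (1 - p) ^ h) ^ s ≤ (1 / 32) ^ s := pow_le_pow_left₀ (by positivity) h1 s
  have h8 : (1 / 32 : ℝ) ^ s = (1 / 2) ^ (5 * s) := by rw [pow_mul]; norm_num
  have hms : m ≤ 4 * s := by omega
  have h9 : (2 : ℝ) ^ m ≤ 2 ^ (4 * s) := pow_le_pow_right₀ (by norm_num) hms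
  have h10 : (2 : ℝ) ^ (4 * s) * (1 / 2) ^ (5 * s) = (1 / 2) ^ s := by
    rw [show 5 * s = 4 * s + s by ring, pow_add, ← mul_assoc, ← mul_pow]
    norm_num
  have h11 : (1 / 2 : ℝ) ^ s ≤ 1 / s := by
    rw [one_div_pow]
    have hs0 : (0 : ℝ) < s := by
      have : 0 < s := by omega
      exact_mod_cast this
    refine one_div_le_one_div_of_le hs0 ?_
    exact_mod_cast (Nat.lt_two_pow_self (n := s)).le
  have h12 : 1 / (s : ℝ) ≤ 4 * p / c0 := by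
    have hs1 : (m : ℝ) / 4 ≤ s := by
      have : (m : ℝ) ≤ 4 * s := by exact_mod_cast hms
      linarith
    have hs2 : c0 / p / 4 ≤ s := by linarith
    have h13 : 0 < c0 / p / 4 := by positivity
    calc 1 / (s : ℝ) ≤ 1 / (c0 / p / 4) := one_div_le_one_div_of_le h13 hs2
      _ = 4 * p / c0 := by field_simp
  calc (2 : ℝ) ^ m * (3 * (1 - p) ^ h) ^ s ≤ 2 ^ (4 * s) * (1 / 32) ^ s :=
        mul_le_mul h9 h7 (by positivity) (by positivity)
    _ = (1 / 2) ^ s := by rw [h8, h10]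
    _ ≤ _ := h11.trans h12

/-- error term 3, first part -/
lemma num_err3a {p L : ℝ} (hp0 : 0 < p) (hL : 1 ≤ L) {m K T R : ℕ}
    (hm : (m : ℝ) ≤ L ^ 3 / p) (hK : (K : ℝ) ≤ 2 * L ^ 3) (hK0 : 0 < (K : ℝ))
    (hT : T * p ≤ L) {y : ℝ} (hy : y = 1 / (2 * p * (K : ℝ) ^ 2 * L)) :
    (m : ℝ) ^ R * ((y ^ (R + 1))⁻¹ * (1 + 2 * y * p ^ 2 * (K : ℝ) ^ 2) ^ T) ≤
      exp 1 * 8 ^ (R + 1) * L ^ (10 * R + 7) * p := by
  have hL0 : 0 < L := by linarith
  have h1 : (1 + 2 * y * p ^ 2 * (K : ℝ) ^ 2) ^ T ≤ exp 1 := by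
    have h2 : 2 * y * p ^ 2 * (K : ℝ) ^ 2 = p / L := by
      rw [hy]; field_simp
    rw [h2]
    refine (one_add_pow_le_exp (by positivity) T).trans (Real.exp_le_exp.mpr ?_)
    have : T * (p / L) = T * p / L := by ring
    rw [this, div_le_one hL0]
    exact hT
  have h3 : (y ^ (R + 1))⁻¹ ≤ (8 * p * L ^ 7) ^ (R + 1) := by
    rw [← inv_pow]
    refine pow_le_pow_left₀ (by rw [hy]; positivity) ?_ _
    rw [hy, one_div, inv_inv]
    have h4 : (K : ℝ) ^ 2 ≤ 4 * L ^ 6 := by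
      calc (K : ℝ) ^ 2 ≤ (2 * L ^ 3) ^ 2 := pow_le_pow_left₀ hK0.le hK 2
        _ = 4 * L ^ 6 := by ring
    have h5 : 2 * p * (K : ℝ) ^ 2 * L ≤ 2 * p * (4 * L ^ 6) * L := by
      gcongr
    calc 2 * p * (K : ℝ) ^ 2 * L ≤ 2 * p * (4 * L ^ 6) * L := h5
      _ = 8 * p * L ^ 7 := by ring
  have h6 : (m : ℝ) ^ R ≤ (L ^ 3 / p) ^ R := pow_le_pow_left₀ (Nat.cast_nonneg _) hm R
  have hy0 : 0 < y := by rw [hy]; positivity
  calc (m : ℝ) ^ R * ((y ^ (R + 1))⁻¹ * (1 + 2 * y * p ^ 2 * (K : ℝ) ^ 2) ^ T)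
      ≤ (L ^ 3 / p) ^ R * ((8 * p * L ^ 7) ^ (R + 1) * exp 1) := by
        gcongr
    _ = exp 1 * 8 ^ (R + 1) * L ^ (10 * R + 7) * p := by
        rw [div_pow, mul_pow, mul_pow, ← pow_mul, ← pow_mul]
        have : L ^ (10 * R + 7) = L ^ (3 * R) * L ^ (7 * (R + 1)) := by
          rw [← pow_add]; congr 1; ring
        rw [this, pow_succ p R]
        field_simp

/-- error term 3, second part -/
lemma num_err3b {p L B : ℝ} (hp0 : 0 < p) (hLp : L = -log p) (hL : 1 ≤ L) {m K T R : ℕ}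
    (hm : (m : ℝ) ≤ L ^ 3 / p) (hK : L ^ 3 ≤ (K : ℝ)) (hB : 0 < B)
    (hT : (1 + p) ^ T ≤ B * L) (hbig : 2 * B * (R + 1) ≤ L) :
    (m : ℝ) ^ R * (2 ^ R * exp (-((K : ℝ) * ((1 + p) ^ T)⁻¹ / 2))) ≤
      2 ^ R * L ^ (3 * R) * p := by
  have hL0 : 0 < L := by linarith
  have h6 : (m : ℝ) ^ R ≤ (L ^ 3 / p) ^ R := pow_le_pow_left₀ (Nat.cast_nonneg _) hm R
  have h1 : L ^ 2 / (2 * B) ≤ (K : ℝ) * ((1 + p) ^ T)⁻¹ / 2 := by
    have h2 : (B * L)⁻¹ ≤ ((1 + p) ^ T)⁻¹ := inv_anti₀ (by positivity) hT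
    have h3 : L ^ 3 * (B * L)⁻¹ ≤ (K : ℝ) * ((1 + p) ^ T)⁻¹ :=
      mul_le_mul hK h2 (by positivity) (by positivity)
    have h4 : L ^ 2 / (2 * B) = L ^ 3 * (B * L)⁻¹ / 2 := by field_simp
    rw [h4]
    linarith
  have h5 : (R + 1) * L ≤ L ^ 2 / (2 * B) := by
    rw [le_div_iff₀ (by positivity)]
    nlinarith
  have h7 : exp (-((K : ℝ) * ((1 + p) ^ T)⁻¹ / 2)) ≤ exp (-((R + 1) * L)) :=
    Real.exp_le_exp.mpr (by linarith)
  have h8 : exp (-(((R : ℝ) + 1) * L)) = p ^ (R + 1) := by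
    have : -(((R : ℝ) + 1) * L) = ((R + 1 : ℕ) : ℝ) * log p := by
      rw [hLp]; push_cast; ring
    rw [this, Real.exp_nat_mul, Real.exp_log hp0]
  rw [h8] at h7
  calc (m : ℝ) ^ R * (2 ^ R * exp (-((K : ℝ) * ((1 + p) ^ T)⁻¹ / 2)))
      ≤ (L ^ 3 / p) ^ R * (2 ^ R * p ^ (R + 1)) := by gcongr
    _ = 2 ^ R * L ^ (3 * R) * p := by
        rw [div_pow, ← pow_mul, pow_succ]
        field_simp

/-- error term 4 -/
lemma num_err4 {p L B g M2 : ℝ} (hp0 : 0 < p) (hp1 : p ≤ 1 / 10000) (hLp : L = -log p)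
    (hL : 1 ≤ L) {m M1 T0 T2 R : ℕ} (hR : 1 ≤ R)
    (hm : (m : ℝ) ≤ L ^ 3 / p) (hM1 : 4 * L ≤ (M1 : ℝ)) (hB : 0 < B) (hg : 0 < g)
    (hM2 : M2 * (4 * B) = R * g) (hpM2 : L * (p * M2) ≤ 1 / 2)
    (hT0 : (1 + p) ^ T0 ≤ B * L) (hT02 : g ≤ 2 * (1 + p) ^ (T0 + T2)) (hT2 : T2 * p ≤ 2 * L)
    (hM20 : 0 ≤ M2) :
    (m : ℝ) ^ R * (exp (M2 * ((1 + p * (1 - p * M2 / 2)) ^ T2)⁻¹) * (2 ^ (R * M1))⁻¹) ≤
      L ^ (3 * R) * √p := by
  obtain ⟨hr0, hr1, hrr, hpr⟩ := sqrt_facts hp0 (by linarith : p ≤ 1)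
  have hL0 : 0 < L := by linarith
  have hR1 : (1 : ℝ) ≤ R := by exact_mod_cast hR
  have h6 : (m : ℝ) ^ R ≤ (L ^ 3 / p) ^ R := pow_le_pow_left₀ (Nat.cast_nonneg _) hm R
  set η := p * M2 / 2 with hη
  have hη0 : 0 ≤ η := by positivity
  have hpM : p * M2 ≤ 1 / 2 := by nlinarith [mul_nonneg hp0.le hM20]
  have hT2η : T2 * (p * η) ≤ 1 / 2 := by
    have h1 : T2 * (p * η) = (T2 * p) * η := by ring
    have h2 : (T2 * p) * η ≤ (2 * L) * η := mul_le_mul_of_nonneg_right hT2 hη0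
    rw [h1]
    refine h2.trans ?_
    rw [hη]
    nlinarith
  have hs := slow_pow hp0.le hη0 (by nlinarith : p * η ≤ 1) T2
  have hX : (1 + p) ^ T2 / 2 ≤ (1 + p * (1 - η)) ^ T2 := by
    have : (1 + p) ^ T2 * (1 / 2) ≤ (1 + p) ^ T2 * (1 - T2 * (p * η)) :=
      mul_le_mul_of_nonneg_left (by linarith) (by positivity)
    linarith
  have hX2 : g / (4 * B * L) ≤ (1 + p * (1 - η)) ^ T2 := by
    refine le_trans ?_ hX
    rw [div_le_iff₀ (by positivity)]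
    have h1 : (1 + p) ^ (T0 + T2) ≤ B * L * (1 + p) ^ T2 := by
      rw [pow_add]
      exact mul_le_mul_of_nonneg_right hT0 (by positivity)
    linarith
  have hexp1 : M2 * ((1 + p * (1 - η)) ^ T2)⁻¹ ≤ R * L := by
    have h1 : ((1 + p * (1 - η)) ^ T2)⁻¹ ≤ (g / (4 * B * L))⁻¹ := inv_anti₀ (by positivity) hX2
    have h2 : M2 * ((1 + p * (1 - η)) ^ T2)⁻¹ ≤ M2 * (g / (4 * B * L))⁻¹ :=
      mul_le_mul_of_nonneg_left h1 hM20
    have h3 : M2 * (g / (4 * B * L))⁻¹ = (M2 * (4 * B)) * L / g := by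
      field_simp
    rw [h3, hM2] at h2
    have h4 : (R : ℝ) * g * L / g = R * L := by field_simp
    linarith
  have hpow : exp (2.76 * (R * L)) ≤ 2 ^ (R * M1) := by
    have h1 : (2 : ℝ) ^ (R * M1) = exp ((R * M1 : ℕ) * log 2) := by
      rw [Real.exp_nat_mul, Real.exp_log (by norm_num)]
    rw [h1]
    refine Real.exp_le_exp.mpr ?_
    push_cast
    have h2 := Real.log_two_gt_d9
    have h3 : (R : ℝ) * (4 * L) ≤ R * M1 := mul_le_mul_of_nonneg_left hM1 (by positivity)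
    have h4 : (R : ℝ) * (4 * L) * 0.69 ≤ R * M1 * log 2 :=
      mul_le_mul h3 (by linarith) (by norm_num) (by positivity)
    nlinarith
  have hexpL : exp (-L) = p := by rw [hLp, neg_neg, Real.exp_log hp0]
  have hfin : (L ^ 3 / p) ^ R * (exp (R * L) * (exp (2.76 * (R * L)))⁻¹) =
      L ^ (3 * R) * exp (-(0.76 * (R * L))) := by
    rw [div_pow, ← pow_mul]
    have h1 : p ^ R = exp (-(R * L)) := by
      rw [← hexpL, ← Real.exp_nat_mul]; congr 1; ring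
    rw [h1, div_eq_mul_inv, ← Real.exp_neg, ← Real.exp_neg, mul_assoc, ← Real.exp_add,
      ← Real.exp_add]
    congr 2
    ring
  have hsq : exp (-(0.76 * (R * L))) ≤ √p := by
    have h1 : √p = exp (-(L / 2)) := by
      rw [Real.sqrt_eq_rpow, Real.rpow_def_of_pos hp0, hLp]
      congr 1; ring
    rw [h1]
    refine Real.exp_le_exp.mpr ?_
    nlinarith
  calc (m : ℝ) ^ R * (exp (M2 * ((1 + p * (1 - η)) ^ T2)⁻¹) * (2 ^ (R * M1))⁻¹)
      ≤ (L ^ 3 / p) ^ R * (exp (R * L) * (exp (2.76 * (R * L)))⁻¹) := by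
        refine mul_le_mul h6 ?_ (by positivity) (by positivity)
        refine mul_le_mul (Real.exp_le_exp.mpr hexp1) ?_ (by positivity) (exp_pos _).le
        exact inv_anti₀ (exp_pos _) hpow
    _ = L ^ (3 * R) * exp (-(0.76 * (R * L))) := hfin
    _ ≤ _ := mul_le_mul_of_nonneg_left hsq (by positivity)

/-- facts on `g = √(lam L / p)` -/
lemma num_g {p L lam : ℝ} (hp0 : 0 < p) (hp1 : p ≤ 1 / 10000) (hLp : L = -log p) (hL : 1 ≤ L)
    (hlam : 0 < lam) (hlam1 : lam ≤ 1) (hLr : L * √p ≤ 1) {g : ℝ} (hg : g = √(lam * L / p)) :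
    0 < g ∧ g ^ 2 = lam * L / p ∧ p * g ≤ L * √p ∧ log g ≤ L := by
  obtain ⟨hr0, hr1, hrr, hpr⟩ := sqrt_facts hp0 (by linarith : p ≤ 1)
  have hL0 : 0 < L := by linarith
  have hg0 : 0 < g := by rw [hg]; exact Real.sqrt_pos.mpr (by positivity)
  have hg2 : g ^ 2 = lam * L / p := by rw [hg]; exact Real.sq_sqrt (by positivity)
  refine ⟨hg0, hg2, ?_, ?_⟩
  · rw [← pow_le_pow_iff_left₀ (by positivity) (by positivity) (two_ne_zero)]
    have h1 : (p * g) ^ 2 = p * (lam * L) := by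
      rw [mul_pow, hg2]; field_simp
    have h2 : (L * √p) ^ 2 = p * L ^ 2 := by
      rw [mul_pow, Real.sq_sqrt hp0.le]; ring
    rw [h1, h2]
    refine mul_le_mul_of_nonneg_left ?_ hp0.le
    nlinarith
  · have h1 : g ≤ 1 / p := by
      rw [← pow_le_pow_iff_left₀ hg0.le (by positivity) (two_ne_zero), hg2, div_pow, one_pow,
        div_le_div_iff₀ hp0 (by positivity)]
      have h2 : L * p ≤ 1 := by nlinarith
      have h3 : lam * L * p ≤ 1 := by nlinarith [mul_nonneg hL0.le hp0.le]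
      nlinarith
    have h2 : log g ≤ log (1 / p) := Real.log_le_log hg0 h1
    rw [one_div, Real.log_inv] at h2
    rw [hLp]
    exact h2

end Pool.Agent.Helper65
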