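import Pool.Agent.Helper65.HalfMain
import Pool.Agent.Helper65.HalfNum

/-!
# One half of a window: asymptotic statement
-/

set_option autoImplicit false

namespace Pool.Agent.Helper65

open Finset Real Filter Topology

lemma ev_v {δ : ℝ} (hδ : 0 < δ) :
    ∀ᶠ p in 𝓝[>] (0 : ℝ), ((⌈1 / √p⌉₊ : ℕ) : ℝ) * (1 / 2) ^ ⌈1 / √p⌉₊ ≤ δ := by
  have h1 : Tendsto (fun p : ℝ => 1 / √p) (𝓝[>] (0 : ℝ)) atTop := by
    have h2 : Tendsto (fun p : ℝ => √p) (𝓝[>] (0 : ℝ)) (𝓝[>] (0 : ℝ)) := by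
      refine tendsto_nhdsWithin_iff.mpr ⟨?_, ?_⟩
      · have := (Real.continuous_sqrt.tendsto (0 : ℝ))
        rw [Real.sqrt_zero] at this
        exact this.mono_left nhdsWithin_le_nhds
      · filter_upwards [self_mem_nhdsWithin] with p hp
        exact Real.sqrt_pos.mpr hp
    simp only [one_div]
    exact tendsto_inv_nhdsGT_zero.comp h2
  have h3 : Tendsto (fun p : ℝ => ⌈1 / √p⌉₊) (𝓝[>] (0 : ℝ)) atTop :=
    tendsto_nat_ceil_atTop.comp h1
  have h4 : Tendsto (fun n : ℕ => (n : ℝ) * (1 / 2 : ℝ) ^ n) atTop (𝓝 0) :=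
    tendsto_self_mul_const_pow_of_lt_one (by norm_num) (by norm_num)
  exact (h4.comp h3).eventually (ge_mem_nhds hδ)

theorem half_main {c0 δ lam : ℝ} (hc0 : 0 < c0) (hδ : 0 < δ) (hlam : 0 < lam) (hlam1 : lam ≤ 1)
    {R : ℕ} (hR : 1 ≤ R) :
    ∀ᶠ p in 𝓝[>] (0 : ℝ), ∀ m t : ℕ, c0 / p ≤ m → (m : ℝ) ≤ (-log p) ^ 3 / p →
      (1 + p) ^ t ≤ √(lam * (-log p) / p) → √(lam * (-log p) / p) ≤ 2 * (1 + p) ^ t →
      1 - δ ≤ Pr p (cols m (m + t)) (HalfGood m (m + t) R (√(lam * (-log p) / p))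
        (R * √(lam * (-log p) / p) / (4 * (400 * exp 33)))
        (√(lam * (-log p) / p) / (-log p) ^ 3)
        (8 * p * √(lam * (-log p) / p) * (-log p) ^ 4)) := by
  set B : ℝ := 400 * exp 33 with hB
  have hB1 : 1 ≤ B := by
    have := Real.add_one_le_exp (33 : ℝ)
    rw [hB]; linarith
  have hB0 : 0 < B := by linarith
  filter_upwards [ev_pos_le (show (0 : ℝ) < 1 / 10000 by norm_num), ev_neg_log_ge 100,
    ev_neg_log_ge (2 * B * (R + 1)), ev_neg_log_ge (6 / δ), ev_pow_sqrt 1 10, ev_pow_sqrt 2 40,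
    ev_pow_sqrt 1 (16 * B ^ 2 / lam), ev_loglog 4 400 (show (0 : ℝ) < 1 by norm_num)
      (show (0 : ℝ) < 400 by norm_num), ev_v (show 0 < δ / 204 by positivity),
    ev_pow_sqrt 0 (24 / (c0 * δ)), ev_pow_sqrt (10 * R + 7) (12 * exp 1 * 8 ^ (R + 1) / δ),
    ev_pow_sqrt (3 * R) (12 * 2 ^ R / δ), ev_pow_sqrt (3 * R) (6 / δ),
    ev_pow_sqrt 1 (24 / δ), ev_pow_sqrt 1 (48 / δ), ev_pow_sqrt 0 (24 / (c0 * δ) + 1),
    ev_pow_sqrt 10 8,
    ev_pow_sqrt 2 (2 * R)]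
    with p hp hL100 hLB hLδ hs1 hs2 hs3 hll hv hs4 hs5 hs6 hs7 hs8 hs9 hs10 hs11 hs12 m t hm hm2 ht ht2
  obtain ⟨hp0, hp1⟩ := hp
  set L := -log p with hL
  have hL0 : 0 < L := by linarith
  have hL1 : 1 ≤ L := by linarith
  obtain ⟨hr0, hr1, hrr, hpr⟩ := sqrt_facts hp0 (by linarith : p ≤ 1)
  set r := √p with hr
  have hp1' : p ≤ 1 := by linarith
  rw [pow_one] at hs1 hs3 hs8 hs9
  rw [pow_zero, mul_one] at hs4 hs10
  set g := √(lam * L / p) with hg
  have hLr : L * r ≤ 1 := by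
    have : 0 ≤ L * r := by positivity
    linarith
  obtain ⟨hg0, hg2, hpg, hlogg⟩ := num_g hp0 hp1 hL hL1 hlam hlam1 hLr hg
  -- parameters
  obtain ⟨T, hT1, hT2⟩ := exists_nat_pow_near (x := 400 * L) (y := 1 + p) (by linarith)
    (by linarith)
  set v := ⌈1 / r⌉₊ with hvdef
  set J := ⌈16 / r⌉₊ with hJdef
  set M1 := ⌈4 * L⌉₊ with hM1def
  obtain ⟨q1, q2, q3, q4, q5, q6, q7, q8⟩ := num_level hp0 hp1 hL1 hs1 hvdef hJdef hM1def
  have hTp : T * p ≤ L / 2 := by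
    have := pow_le_bound hp0 hp1' hT1
    linarith
  have hgrow := num_growth hp0 hp1 hL1 q8 q6 hT1 hT2 hs2 (by
    have : 0 ≤ L := hL0.le
    linarith)
  -- size of the first stage
  have hT0p : ((2 * v * J : ℕ) : ℝ) * p ≤ 33 := by
    push_cast
    have : 2 * ((v : ℝ) * J) * p ≤ 33 := by
      rwa [le_div_iff₀ hp0] at q3
    linarith
  have hpow0 : (1 + p) ^ (2 * v * J + T) ≤ B * L := by
    rw [pow_add, hB]
    have h1 : (1 + p) ^ (2 * v * J) ≤ exp 33 := by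
      refine (one_add_pow_le_exp hp0.le _).trans (Real.exp_le_exp.mpr hT0p)
    calc (1 + p) ^ (2 * v * J) * (1 + p) ^ T ≤ exp 33 * (400 * L) :=
          mul_le_mul h1 hT1 (by positivity) (exp_pos _).le
      _ = 400 * exp 33 * L := by ring
  have hTT : ((2 * v * J + T : ℕ) : ℝ) * p ≤ L := by
    push_cast at hT0p ⊢
    rw [add_mul]
    linarith
  -- `t` is larger than the first two stages
  have hgbig : 4 * B * L ≤ g := by
    rw [← pow_le_pow_iff_left₀ (by positivity) hg0.le (two_ne_zero), hg2, le_div_iff₀ hp0]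
    have h1 : 16 * B ^ 2 / lam * L * r ≤ 1 := hs3
    have h2 : 16 * B ^ 2 * L * r ≤ lam := by
      have : 16 * B ^ 2 / lam * L * r = 16 * B ^ 2 * L * r / lam := by ring
      rw [this, div_le_one hlam] at h1
      exact h1
    have h3 : (4 * B * L) ^ 2 * p = (16 * B ^ 2 * L * r) * (L * r) := by
      rw [← hrr]; ring
    rw [h3]
    have h4 : (16 * B ^ 2 * L * r) * (L * r) ≤ lam * (L * r) :=
      mul_le_mul_of_nonneg_right h2 (by positivity)
    have h5 : lam * (L * r) ≤ lam * L :=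
      mul_le_mul_of_nonneg_left (mul_le_of_le_one_right hL0.le hr1) hlam.le
    linarith
  have htbig : 2 * v * J + T ≤ t := by
    by_contra hcon
    push Not at hcon
    have h1 : (1 + p) ^ t ≤ (1 + p) ^ (2 * v * J + T) :=
      pow_le_pow_right₀ (by linarith) hcon.le
    have h2 : 0 < B * L := by positivity
    linarith
  obtain ⟨T2, hT2eq⟩ := Nat.exists_eq_add_of_le htbig
  have htp : t * p ≤ 2 * L := by
    have := pow_le_bound hp0 hp1' ht
    linarith
  have hT2p : T2 * p ≤ 2 * L := by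
    have : (T2 : ℝ) ≤ t := Nat.cast_le.mpr (by omega)
    exact (mul_le_mul_of_nonneg_right this hp0.le).trans htp
  -- other parameters
  set K := ⌈L ^ 3⌉₊ with hK
  have hK1 : L ^ 3 ≤ K := Nat.le_ceil _
  have hL3 : 1 ≤ L ^ 3 := one_le_pow₀ hL1
  have hK2 : (K : ℝ) ≤ 2 * L ^ 3 := by
    have := (Nat.ceil_lt_add_one (by positivity : 0 ≤ L ^ 3)).le
    rw [← hK] at this
    linarith
  have hK0 : (0 : ℝ) < K := by linarith
  set y : ℝ := 1 / (2 * p * (K : ℝ) ^ 2 * L) with hy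
  set M2 : ℝ := R * g / (4 * B) with hM2
  have hM20 : 0 ≤ M2 := by positivity
  have hpM2 : L * (p * M2) ≤ 1 / 2 := by
    have h1 : L * (p * M2) = L * (p * g) * R / (4 * B) := by rw [hM2]; ring
    rw [h1, div_le_iff₀ (by positivity)]
    have h2 : L * (p * g) * R ≤ L * (L * r) * R := by
      refine mul_le_mul_of_nonneg_right ?_ (Nat.cast_nonneg _)
      exact mul_le_mul_of_nonneg_left hpg hL0.le
    have h3 : 2 * R * L ^ 2 * r ≤ 1 := hs12
    have h4 : L * (L * r) * R = (2 * R * L ^ 2 * r) / 2 := by ring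
    rw [h4] at h2
    linarith
  set h := ⌈5 / p⌉₊ with hh
  set s := m / 4 + 1 with hs
  have hm1 : 1 ≤ m := by
    have : 0 < (m : ℝ) := lt_of_lt_of_le (by positivity) hm
    exact_mod_cast this
  have hm0 : (0 : ℝ) < m := by exact_mod_cast hm1
  set κ : ℝ := 8 * p * g * L ^ 4 with hκ
  set η : ℝ := g / L ^ 3 with hη
  have hκ0 : 0 < κ := by positivity
  have hη0 : 0 < η := by positivity
  have h4t : 4 * p ^ 2 * t ≤ 8 * (L * p) := by
    have h1 : 4 * p ^ 2 * t = 4 * p * (t * p) := by ring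
    have h2 : 4 * p * (t * p) ≤ 4 * p * (2 * L) := mul_le_mul_of_nonneg_left htp (by positivity)
    linarith
  have hLp1 : L * p ≤ L * r := mul_le_mul_of_nonneg_left hpr hL0.le
  have hpG : p * (1 + p) ^ t ≤ L * r :=
    (mul_le_mul_of_nonneg_left ht hp0.le).trans hpg
  have hLr10 : 10 * (L * r) ≤ 1 := by linarith
  refine le_trans ?_ (Pr_half_ge (p := p) (y := y) (g := g) (M2 := M2) (η := η) (κ := κ)
    hp0.le hp1' (m := m) (J := J) (T := T) (v := v) (M1 := M1) (T2 := T2) (K := K) (R := R)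
    (h := h) (s := s) (t := t) hT2eq.symm hg0 hη0 hκ0 hm1 q1 q5 hgrow ?_ (by omega) ?_ ?_ hM20
    ?_ (by linarith) ht (by linarith))
  · -- the error terms
    have e1 : (J : ℝ) * (1 / 2) ^ v ≤ δ / 12 := by
      have h1 : (J : ℝ) * (1 / 2) ^ v ≤ 17 * v * (1 / 2) ^ v :=
        mul_le_mul_of_nonneg_right q4 (by positivity)
      linarith
    have e2 : (2 : ℝ) ^ m * (3 * (1 - p) ^ h) ^ s ≤ δ / 6 := by
      have h1 := num_err2 hp0 hp1 hc0 hm hh hs
      have h2 : 4 * p / c0 ≤ δ / 6 := by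
        rw [div_le_iff₀ hc0]
        have h3 : 24 / (c0 * δ) * r ≤ 1 := hs4
        rw [div_mul_eq_mul_div, div_le_one (by positivity)] at h3
        linarith
      exact h1.trans h2
    have e3a := num_err3a (R := R) hp0 hL1 hm2 hK2 hK0 hTT hy
    have e3b := num_err3b (R := R) hp0 hL hL1 hm2 hK1 hB0 hpow0 hLB
    have e3a' : exp 1 * 8 ^ (R + 1) * L ^ (10 * R + 7) * p ≤ δ / 12 := by
      have h1 : 12 * exp 1 * 8 ^ (R + 1) / δ * L ^ (10 * R + 7) * r ≤ 1 := hs5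
      have h2 : 12 * exp 1 * 8 ^ (R + 1) / δ * L ^ (10 * R + 7) * r =
          (12 * (exp 1 * 8 ^ (R + 1) * L ^ (10 * R + 7) * r)) / δ := by ring
      rw [h2, div_le_one hδ] at h1
      have h3 : exp 1 * 8 ^ (R + 1) * L ^ (10 * R + 7) * p ≤
          exp 1 * 8 ^ (R + 1) * L ^ (10 * R + 7) * r :=
        mul_le_mul_of_nonneg_left hpr (by positivity)
      linarith
    have e3b' : 2 ^ R * L ^ (3 * R) * p ≤ δ / 12 := by
      have h1 : 12 * 2 ^ R / δ * L ^ (3 * R) * r ≤ 1 := hs6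
      have h2 : 12 * 2 ^ R / δ * L ^ (3 * R) * r = (12 * (2 ^ R * L ^ (3 * R) * r)) / δ := by ring
      rw [h2, div_le_one hδ] at h1
      have h3 : 2 ^ R * L ^ (3 * R) * p ≤ 2 ^ R * L ^ (3 * R) * r :=
        mul_le_mul_of_nonneg_left hpr (by positivity)
      linarith
    have e4 := num_err4 (p := p) (L := L) (B := B) (g := g) (M2 := M2) (m := m) (M1 := M1)
      (T0 := 2 * v * J + T) (T2 := T2) (R := R) hp0 hp1 hL hL1 hR hm2 q7 hB0 hg0
      (by rw [hM2]; field_simp) hpM2 hpow0 (by rw [← hT2eq]; exact ht2) hT2p hM20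
    have e4' : L ^ (3 * R) * r ≤ δ / 6 := by
      have h1 : 6 / δ * L ^ (3 * R) * r ≤ 1 := hs7
      have h2 : 6 / δ * L ^ (3 * R) * r = (6 * (L ^ (3 * R) * r)) / δ := by ring
      rw [h2, div_le_one hδ] at h1
      linarith
    have e5 : 2 / (m : ℝ) + 4 * p ^ 2 * t + 2 * (p * (1 + p) ^ t) ≤ δ / 6 + δ / 12 + δ / 12 := by
      have h1 : 2 / (m : ℝ) ≤ δ / 12 := by
        have h2 : 2 / (m : ℝ) ≤ 2 / (c0 / p) := by
          exact div_le_div_of_nonneg_left (by norm_num) (by positivity) hm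
        have h3 : 2 / (c0 / p) = 2 * p / c0 := by field_simp
        rw [h3] at h2
        refine h2.trans ?_
        rw [div_le_iff₀ hc0]
        have h3 : 24 / (c0 * δ) * r ≤ 1 := hs4
        rw [div_mul_eq_mul_div, div_le_one (by positivity)] at h3
        linarith
      have h2 : 8 * (L * r) ≤ δ / 6 := by
        have h3 : 48 / δ * L * r ≤ 1 := hs9
        have h4 : 48 / δ * L * r = 48 * (L * r) / δ := by ring
        rw [h4, div_le_one hδ] at h3
        linarith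
      have h3 : 2 * (L * r) ≤ δ / 12 := by
        have h3 : 24 / δ * L * r ≤ 1 := hs8
        have h4 : 24 / δ * L * r = 24 * (L * r) / δ := by ring
        rw [h4, div_le_one hδ] at h3
        linarith
      linarith
    have e6 : (m : ℝ) ^ 2 * (4 * p * (1 + p) ^ (2 * t)) / (κ * m ^ 2 * η) ≤ δ / 12 := by
      have h1 : (1 + p) ^ (2 * t) ≤ g ^ 2 := by
        rw [mul_comm, pow_mul]
        exact pow_le_pow_left₀ (by positivity) ht 2
      have h2 : (m : ℝ) ^ 2 * (4 * p * (1 + p) ^ (2 * t)) / (κ * m ^ 2 * η) ≤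
          (m : ℝ) ^ 2 * (4 * p * g ^ 2) / (κ * m ^ 2 * η) := by gcongr
      have h3 : (m : ℝ) ^ 2 * (4 * p * g ^ 2) / (κ * m ^ 2 * η) = 1 / (2 * L) := by
        rw [hκ, hη]; field_simp; ring
      rw [h3] at h2
      refine h2.trans ?_
      rw [div_le_div_iff₀ (by positivity) (by norm_num)]
      have : 6 ≤ L * δ := by rwa [div_le_iff₀ hδ] at hLδ
      linarith
    have e3 : (m : ℝ) ^ R * ((y ^ (R + 1))⁻¹ * (1 + 2 * y * p ^ 2 * (K : ℝ) ^ 2) ^ (2 * v * J + T) +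
        2 ^ R * exp (-((K : ℝ) * ((1 + p) ^ (2 * v * J + T))⁻¹ / 2))) ≤ δ / 6 := by
      rw [mul_add]
      linarith
    linarith
  · -- 3 h ≤ v J
    have h1 : (h : ℝ) ≤ 5 / p + 1 := by rw [hh]; exact (Nat.ceil_lt_add_one (by positivity)).le
    have h2 : 3 ≤ 1 / p := by
      rw [le_div_iff₀ hp0]; linarith
    have h3 : 3 * (h : ℝ) ≤ v * J := by
      have h4 : 3 * (5 / p + 1) ≤ 16 / p := by
        have h5 : 3 * (5 / p + 1) = 15 / p + 3 := by ring
        have h6 : 16 / p = 15 / p + 1 / p := by ring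
        linarith
      linarith
    exact_mod_cast h3
  · -- 1 ≤ y
    rw [hy, le_div_iff₀ (by positivity), one_mul]
    have h1 : (K : ℝ) ^ 2 ≤ 4 * L ^ 6 := by
      calc (K : ℝ) ^ 2 ≤ (2 * L ^ 3) ^ 2 := pow_le_pow_left₀ hK0.le hK2 2
        _ = 4 * L ^ 6 := by ring
    have h2 : 2 * p * (K : ℝ) ^ 2 * L ≤ 2 * p * (4 * L ^ 6) * L := by gcongr
    have h3 : 2 * p * (4 * L ^ 6) * L ≤ 8 * L ^ 10 * r := by
      have h4 : 2 * p * (4 * L ^ 6) * L = 8 * L ^ 7 * p := by ring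
      rw [h4]
      have h5 : L ^ 7 ≤ L ^ 10 := pow_le_pow_right₀ hL1 (by norm_num)
      gcongr
    linarith
  · -- p y K ≤ 1
    have h1 : p * y * K = 1 / (2 * K * L) := by rw [hy]; field_simp
    rw [h1, div_le_one (by positivity)]
    have h2 : 1 ≤ (K : ℝ) := hL3.trans hK1
    have h3 : 1 ≤ (K : ℝ) * L := one_le_mul_of_one_le_of_one_le h2 hL1
    linarith
  · -- p M2 ≤ 1
    have h1 : p * M2 ≤ L * (p * M2) := le_mul_of_one_le_left (mul_nonneg hp0.le hM20) hL1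
    linarith

end Pool.Agent.Helper65
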