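import Pool.Agent.Helper65.Excess
import Pool.Agent.Helper65.Children

/-!
# One half of a window: the deterministic part
-/

set_option autoImplicit false

namespace Pool.Agent.Helper65

open Finset Real

/-- The useful event for one half of a window. -/
def HalfGood (m n R : ℕ) (g M2 η κ : ℝ) (E : Finset (ℕ × ℕ)) : Prop :=
  ∃ A' ⊆ range m, 5 * m ≤ 8 * A'.card ∧
    (∀ a ∈ A', ((up E {a} n).card : ℝ) ≤ 16 * g) ∧
    (∀ S ⊆ A', S.card = R → M2 ≤ ((up E S n).card : ℝ)) ∧
    (((range m ×ˢ range m).filter (fun q => q.1 ≠ q.2 ∧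
        η < ((up E {q.1} n ∩ up E {q.2} n).card : ℝ))).card : ℝ) ≤ κ * m ^ 2

/-- Good first-level vertices. -/
def Gset (m n1 n2 M1 : ℕ) (E : Finset (ℕ × ℕ)) : Finset ℕ :=
  (Ico m n1).filter (fun z => M1 ≤ (up (E ∩ cols n1 n2) {z} n2).card)

/-- Vertices of the block with few good children. -/
def Few (m n1 n2 M1 : ℕ) (E : Finset (ℕ × ℕ)) : Finset ℕ :=
  (range m).filter (fun a => ((Gset m n1 n2 M1 E).filter (fun z => (a, z) ∈ E)).card < 3)

lemma up_inter_cols {E : Finset (ℕ × ℕ)} {m n n2 : ℕ} (hE : E ⊆ cols m n) (S : Finset ℕ) :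
    up (E ∩ cols m n2) S n2 = up E S n2 := by
  refine up_congr (fun e he => ?_) (fun _ _ => Iff.rfl)
  rw [Finset.mem_inter, mem_cols]
  constructor
  · exact fun h => h.1
  · intro h
    have := mem_cols.mp (hE h)
    exact ⟨h, this.1, this.2.1, he⟩

lemma exc_inter_cols {E : Finset (ℕ × ℕ)} {m n n2 : ℕ} (hE : E ⊆ cols m n) (S : Finset ℕ) :
    exc (E ∩ cols m n2) S n2 = exc E S n2 := by
  refine exc_congr (fun e he => ?_)
  rw [Finset.mem_inter, mem_cols]
  constructor
  · exact fun h => h.1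
  · intro h
    have := mem_cols.mp (hE h)
    exact ⟨h, this.1, this.2.1, he⟩

/-- The up-set of a set of `R` vertices with three good children each. -/
lemma up_ge_of_children {E : Finset (ℕ × ℕ)} {m n1 n2 n R M1 : ℕ} (hm : m ≤ n1) (hn : n1 ≤ n2)
    (hE : E ⊆ cols m n) {S : Finset ℕ} (hS : S ⊆ range m) (hSR : S.card = R)
    (hch : ∀ a ∈ S, a ∉ Few m n1 n2 M1 E) (hexc : exc E S n2 ≤ R) :
    R * M1 ≤ (up E S n2).card := by
  set Br := (S ×ˢ Gset m n1 n2 M1 E).filter (fun e => e ∈ E) with hBr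
  have hcard : 3 * R ≤ Br.card := by
    have h1 : Br.card = ∑ a ∈ S, ((Gset m n1 n2 M1 E).filter (fun z => (a, z) ∈ E)).card := by
      rw [hBr, Finset.card_filter, Finset.sum_product]
      refine Finset.sum_congr rfl (fun a _ => ?_)
      rw [Finset.card_filter]
    rw [h1, ← hSR]
    calc 3 * S.card = ∑ _a ∈ S, 3 := by rw [Finset.sum_const, smul_eq_mul, mul_comm]
      _ ≤ _ := Finset.sum_le_sum (fun a ha => by
        have h2 := hch a ha
        unfold Few at h2
        rw [Finset.mem_filter, not_and, not_lt] at h2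
        exact h2 (hS ha))
  have hBrE : Br ⊆ E ∩ cols m n2 := by
    intro e he
    rw [hBr, Finset.mem_filter, Finset.mem_product] at he
    have h3 := mem_cols.mp (hE he.2)
    refine Finset.mem_inter.mpr ⟨he.2, mem_cols.mpr ⟨h3.1, h3.2.1, ?_⟩⟩
    have h4 := he.1.2
    unfold Gset at h4
    rw [Finset.mem_filter, Finset.mem_Ico] at h4
    exact h4.1.2.trans_le hn
  have hkey := branch_lower (E := E ∩ cols m n2) (m := m) (n := n2) (M := M1)
    Finset.inter_subset_right hS Br hBrE
    (fun e he => by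
      rw [hBr, Finset.mem_filter, Finset.mem_product] at he
      exact he.1.1)
    (fun e he => by
      rw [hBr, Finset.mem_filter, Finset.mem_product] at he
      have h4 := he.1.2
      unfold Gset at h4
      rw [Finset.mem_filter] at h4
      refine h4.2.trans (Finset.card_le_card (up_mono_edges ?_ _ _))
      intro x hx
      rw [Finset.mem_inter] at hx ⊢
      have h5 := mem_cols.mp hx.2
      exact ⟨hx.1, mem_cols.mpr ⟨h5.1, hm.trans h5.2.1, h5.2.2⟩⟩)
  rw [up_inter_cols hE, exc_inter_cols hE] at hkey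
  refine le_trans ?_ hkey
  refine Nat.mul_le_mul_right _ ?_
  omega

/-- Few elements exceed a multiple of the average. -/
lemma card_large_le {ι : Type*} (s : Finset ι) (f : ι → ℝ) (hf : ∀ i ∈ s, 0 ≤ f i) {C T : ℝ}
    (hC : ∑ i ∈ s, f i ≤ C) : ((s.filter (fun i => T < f i)).card : ℝ) * T ≤ C := by
  calc ((s.filter (fun i => T < f i)).card : ℝ) * T = ∑ _i ∈ s.filter (fun i => T < f i), T := by
        rw [Finset.sum_const, nsmul_eq_mul]
    _ ≤ ∑ i ∈ s.filter (fun i => T < f i), f i :=
        Finset.sum_le_sum (fun i hi => (Finset.mem_filter.mp hi).2.le)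
    _ ≤ ∑ i ∈ s, f i := Finset.sum_le_sum_of_subset_of_nonneg (Finset.filter_subset _ _)
        (fun i hi _ => hf i hi)
    _ ≤ C := hC

lemma half_det {m n1 n2 n R M1 s : ℕ} {g M2 η κ : ℝ} {E : Finset (ℕ × ℕ)}
    (hm : m ≤ n1) (hn : n1 ≤ n2) (hE : E ⊆ cols m n) (hg : 0 < g) (hη : 0 < η)
    (hs : 4 * s ≤ m + 4)
    (h2 : (Few m n1 n2 M1 E).card < s)
    (h3 : ∀ S ∈ (range m).powersetCard R, exc E S n2 ≤ R)
    (h4 : ∀ S ∈ (range m).powersetCard R, R * M1 ≤ (up E S n2).card →
      M2 ≤ ((up E S n).card : ℝ))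
    (h5 : ∑ a ∈ range m, ((up E {a} n).card : ℝ) ≤ 2 * (m * g))
    (h6 : ∑ q ∈ (range m ×ˢ range m).filter (fun q => q.1 ≠ q.2),
      ((up E {q.1} n ∩ up E {q.2} n).card : ℝ) ≤ κ * m ^ 2 * η) :
    HalfGood m n R g M2 η κ E := by
  refine ⟨(range m).filter (fun a => a ∉ Few m n1 n2 M1 E ∧ ((up E {a} n).card : ℝ) ≤ 16 * g),
    Finset.filter_subset _ _, ?_, ?_, ?_, ?_⟩
  · -- cardinality
    have hbig := card_large_le (range m) (fun a => ((up E {a} n).card : ℝ))
      (fun _ _ => Nat.cast_nonneg _) (T := 16 * g) h5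
    have hbig2 : 8 * ((range m).filter (fun a => 16 * g < ((up E {a} n).card : ℝ))).card ≤ m := by
      have : (((range m).filter (fun a => 16 * g < ((up E {a} n).card : ℝ))).card : ℝ) * 8 ≤ m := by
        have h7 : ((((range m).filter (fun a => 16 * g < ((up E {a} n).card : ℝ))).card : ℝ) * 8) *
            (2 * g) ≤ m * (2 * g) := by linarith
        exact le_of_mul_le_mul_right h7 (by positivity)
      have h8 : ((((range m).filter (fun a => 16 * g < ((up E {a} n).card : ℝ))).card * 8 : ℕ) : ℝ)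
          ≤ (m : ℝ) := by push_cast; exact this
      have h9 := Nat.cast_le.mp h8
      omega
    have hcov : range m ⊆ (range m).filter (fun a => a ∉ Few m n1 n2 M1 E ∧
        ((up E {a} n).card : ℝ) ≤ 16 * g) ∪ (Few m n1 n2 M1 E ∪
        (range m).filter (fun a => 16 * g < ((up E {a} n).card : ℝ))) := by
      intro a ha
      by_cases h10 : a ∈ Few m n1 n2 M1 E
      · exact Finset.mem_union_right _ (Finset.mem_union_left _ h10)
      · by_cases h11 : ((up E {a} n).card : ℝ) ≤ 16 * g
        · exact Finset.mem_union_left _ (Finset.mem_filter.mpr ⟨ha, h10, h11⟩)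
        · exact Finset.mem_union_right _ (Finset.mem_union_right _
            (Finset.mem_filter.mpr ⟨ha, not_le.mp h11⟩))
    have h12 := (Finset.card_le_card hcov).trans (Finset.card_union_le _ _)
    have h13 := Finset.card_union_le (Few m n1 n2 M1 E)
      ((range m).filter (fun a => 16 * g < ((up E {a} n).card : ℝ)))
    rw [Finset.card_range] at h12
    omega
  · intro a ha
    exact (Finset.mem_filter.mp ha).2.2
  · intro S hS hSR
    have hSr : S ⊆ range m := hS.trans (Finset.filter_subset _ _)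
    have hSp : S ∈ (range m).powersetCard R := Finset.mem_powersetCard.mpr ⟨hSr, hSR⟩
    refine h4 S hSp ?_
    refine up_ge_of_children hm hn hE hSr hSR (fun a ha => ?_) (h3 S hSp)
    exact (Finset.mem_filter.mp (hS ha)).2.1
  · have h14 := card_large_le ((range m ×ˢ range m).filter (fun q => q.1 ≠ q.2))
      (fun q => ((up E {q.1} n ∩ up E {q.2} n).card : ℝ))
      (fun _ _ => Nat.cast_nonneg _) (T := η) h6
    rw [Finset.filter_filter] at h14
    exact le_of_mul_le_mul_right h14 hη

end Pool.Agent.Helper65
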