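import Pool.Agent.Helper65.HalfProb

/-!
# One half of a window: the combined bound
-/

set_option autoImplicit false

namespace Pool.Agent.Helper65

open Finset Real

theorem Pr_half_ge {p y g M2 η κ : ℝ} (hp0 : 0 ≤ p) (hp1 : p ≤ 1) {m J T v M1 T2 K R h s t : ℕ}
    (ht : 2 * v * J + T + T2 = t) (hg : 0 < g) (hη : 0 < η) (hκ : 0 < κ) (hm : 1 ≤ m)
    (hv : 1 ≤ v) (hpM : p * (v * M1 : ℝ) ≤ 1)
    (hgr : 31 * (M1 : ℝ) ≤ (1 + p * (1 - p * (v * M1 : ℝ) / 2)) ^ T)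
    (h3h : 3 * h ≤ v * J) (hs : 4 * s ≤ m + 4) (hy : 1 ≤ y) (hpyK : p * y * K ≤ 1)
    (hM2 : 0 ≤ M2) (hpM2 : p * M2 ≤ 1) (h4t : 4 * p ^ 2 * t ≤ 1) (hG : (1 + p) ^ t ≤ g)
    (hpG : p * (1 + p) ^ t ≤ 1) :
    1 - (J * (1 / 2) ^ v + 2 ^ m * (3 * (1 - p) ^ h) ^ s +
      (m : ℝ) ^ R * ((y ^ (R + 1))⁻¹ * (1 + 2 * y * p ^ 2 * (K : ℝ) ^ 2) ^ (2 * v * J + T) +
        2 ^ R * exp (-((K : ℝ) * ((1 + p) ^ (2 * v * J + T))⁻¹ / 2))) +
      (m : ℝ) ^ R * (exp (M2 * ((1 + p * (1 - p * M2 / 2)) ^ T2)⁻¹) * (2 ^ (R * M1))⁻¹) +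
      (2 / m + 4 * p ^ 2 * t + 2 * (p * (1 + p) ^ t)) +
      m ^ 2 * (4 * p * (1 + p) ^ (2 * t)) / (κ * m ^ 2 * η)) ≤
    Pr p (cols m (m + t)) (HalfGood m (m + t) R g M2 η κ) := by
  have hm0 : (0 : ℝ) < m := by exact_mod_cast hm
  set n1 := m + 2 * v * J with hn1
  set n2 := m + 2 * v * J + T with hn2
  have hn : m + t = n2 + T2 := by omega
  have h1 := Pr_B1 hp0 hp1 m (J := J) (T := T) (v := v) (M1 := M1) (n := m + t) hv hpM hgr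
    (by omega)
  have h2 := Pr_B2 hp0 hp1 (m := m) (n1 := n1) (n2 := n2) (n := m + t) (M1 := M1) (h := h)
    (c := v * J) (by omega) (by omega) (by omega) h3h s
  have h3 := Pr_B3 hp0 hp1 hy (m := m) (T := 2 * v * J + T) (n := m + t) R K (by omega) hpyK
  have h4 := Pr_B4 hp0 hp1 (m := m) (n2 := n2) (T := T2) R M1 (by omega) hM2 hpM2
  have h5 := Pr_B5 hp0 hp1 (m := m) (t := t) hm h4t hG hpG
  have h6 := Pr_B6 hp0 hp1 (m := m) (t := t) h4t (C := κ * m ^ 2 * η) (by positivity)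
  rw [← hn] at h4
  rw [← hn1, ← hn2] at h1
  have he3 : m + (2 * v * J + T) = n2 := by omega
  rw [he3] at h3
  -- complement
  set B1 : Finset (ℕ × ℕ) → Prop := fun E => (Gset m n1 n2 M1 E).card < v * J with hB1
  set B2 : Finset (ℕ × ℕ) → Prop := fun E => v * J ≤ (Gset m n1 n2 M1 E).card ∧
    s ≤ (Few m n1 n2 M1 E).card with hB2
  set B3 : Finset (ℕ × ℕ) → Prop := fun E => ∃ S ∈ (range m).powersetCard R,
    R + 1 ≤ exc E S n2 with hB3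
  set B4 : Finset (ℕ × ℕ) → Prop := fun E => ∃ S ∈ (range m).powersetCard R,
      R * M1 ≤ (up E S n2).card ∧ ((up E S (m + t)).card : ℝ) < M2 with hB4
  set B5 : Finset (ℕ × ℕ) → Prop := fun E =>
      2 * (m * g) < ∑ a ∈ range m, ((up E {a} (m + t)).card : ℝ) with hB5
  set B6 : Finset (ℕ × ℕ) → Prop := fun E => κ * m ^ 2 * η <
      ∑ q ∈ (range m ×ˢ range m).filter (fun q => q.1 ≠ q.2),
      ((up E {q.1} (m + t) ∩ up E {q.2} (m + t)).card : ℝ) with hB6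
  have hcomp : Pr p (cols m (m + t)) (fun E => ¬ HalfGood m (m + t) R g M2 η κ E) ≤
      Pr p (cols m (m + t)) (fun E => B1 E ∨ B2 E ∨ B3 E ∨ B4 E ∨ B5 E ∨ B6 E) := by
    refine Pr_mono hp0 hp1 (fun E hE hbad => ?_)
    by_contra hcon
    simp only [not_or] at hcon
    obtain ⟨c1, c2, c3, c4, c5, c6⟩ := hcon
    apply hbad
    refine half_det (n1 := n1) (n2 := n2) (M1 := M1) (s := s) (by omega) (by omega) hE hg hη hs
      ?_ ?_ ?_ (not_lt.mp c5) (not_lt.mp c6)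
    · by_contra h7
      exact c2 ⟨not_lt.mp c1, not_lt.mp h7⟩
    · intro S hS
      by_contra h7
      exact c3 ⟨S, hS, by omega⟩
    · intro S hS h7
      by_contra h8
      exact c4 ⟨S, hS, h7, not_le.mp h8⟩
  rw [Pr_not] at hcomp
  have o1 := Pr_or_le hp0 hp1 (s := cols m (m + t)) B1
    (fun E => B2 E ∨ B3 E ∨ B4 E ∨ B5 E ∨ B6 E)
  have o2 := Pr_or_le hp0 hp1 (s := cols m (m + t)) B2 (fun E => B3 E ∨ B4 E ∨ B5 E ∨ B6 E)
  have o3 := Pr_or_le hp0 hp1 (s := cols m (m + t)) B3 (fun E => B4 E ∨ B5 E ∨ B6 E)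
  have o4 := Pr_or_le hp0 hp1 (s := cols m (m + t)) B4 (fun E => B5 E ∨ B6 E)
  have o5 := Pr_or_le hp0 hp1 (s := cols m (m + t)) B5 B6
  linarith

end Pool.Agent.Helper65
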