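import Pool.Agent.Helper65.HalfDet
import Pool.Agent.Helper61.DDMoments

/-!
# One half of a window: probability bounds
-/

set_option autoImplicit false

namespace Pool.Agent.Helper65

open Finset Real

lemma cols_mono {a b c d : ℕ} (h1 : c ≤ a) (h2 : b ≤ d) : cols a b ⊆ cols c d := by
  intro e he
  rw [mem_cols] at he ⊢
  exact ⟨he.1, h1.trans he.2.1, he.2.2.trans_le h2⟩

/-- B1 -/
lemma Pr_B1 {p : ℝ} (hp0 : 0 ≤ p) (hp1 : p ≤ 1) (m : ℕ) {J T v M1 n : ℕ} (hv : 1 ≤ v)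
    (hpM : p * (v * M1 : ℝ) ≤ 1)
    (hg : 31 * (M1 : ℝ) ≤ (1 + p * (1 - p * (v * M1 : ℝ) / 2)) ^ T)
    (hn : m + 2 * v * J + T ≤ n) :
    Pr p (cols m n) (fun E =>
      (Gset m (m + 2 * v * J) (m + 2 * v * J + T) M1 E).card < v * J) ≤ J * (1 / 2) ^ v := by
  have hsub : cols (m + 2 * v * J) (m + 2 * v * J + T) ⊆ cols m n :=
    cols_mono (by rw [mul_assoc]; exact Nat.le_add_right _ _) hn
  have h1 : Pr p (cols m n) (fun E =>
      (Gset m (m + 2 * v * J) (m + 2 * v * J + T) M1 E).card < v * J) =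
      Pr p (cols (m + 2 * v * J) (m + 2 * v * J + T)) (fun E =>
      (Gset m (m + 2 * v * J) (m + 2 * v * J + T) M1 E).card < v * J) := by
    refine Pr_local hsub p (fun E _ => ?_)
    unfold Gset
    simp only [Finset.inter_assoc, Finset.inter_self]
  rw [h1]
  refine le_trans (le_of_eq ?_) (Pr_few_good hp0 hp1 m (J := J) hv hpM hg)
  refine Pr_congr (fun E hE => ?_)
  unfold Gset
  rw [Finset.inter_eq_left.mpr hE]

/-- B2 -/
lemma Pr_B2 {p : ℝ} (hp0 : 0 ≤ p) (hp1 : p ≤ 1) {m n1 n2 n M1 h c : ℕ} (hm : m ≤ n1)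
    (hn : n1 ≤ n2) (hn' : n2 ≤ n) (hc : 3 * h ≤ c) (s : ℕ) :
    Pr p (cols m n) (fun E => c ≤ (Gset m n1 n2 M1 E).card ∧ s ≤ (Few m n1 n2 M1 E).card) ≤
      2 ^ m * (3 * (1 - p) ^ h) ^ s := by
  have hq : (0 : ℝ) ≤ 1 - p := by linarith
  unfold Pr
  rw [Ex_cols_union hm (hn.trans hn'), Ex_swap]
  refine le_trans (Ex_mono hp0 hp1 (g := fun _ => 2 ^ m * (3 * (1 - p) ^ h) ^ s) ?_)
    (le_of_eq (Ex_const _ _ _))
  intro F hF
  -- the good set only depends on `F`
  have hG : ∀ E ⊆ cols m n1, Gset m n1 n2 M1 (E ∪ F) = Gset m n1 n2 M1 F := by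
    intro E hE
    unfold Gset
    have : (E ∪ F) ∩ cols n1 n2 = F ∩ cols n1 n2 := by
      ext e
      simp only [Finset.mem_inter, Finset.mem_union]
      constructor
      · rintro ⟨h1 | h1, h2⟩
        · have h3 := mem_cols.mp (hE h1)
          have h4 := mem_cols.mp h2
          omega
        · exact ⟨h1, h2⟩
      · rintro ⟨h1, h2⟩
        exact ⟨Or.inr h1, h2⟩
    rw [this]
  by_cases hcF : c ≤ (Gset m n1 n2 M1 F).card
  · refine le_trans ?_ (Pr_few_children hp0 hp1 (m := m) (n1 := n1) (h := h)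
      (G := Gset m n1 n2 M1 F) (Finset.filter_subset _ _) (hc.trans hcF) s)
    unfold Pr
    refine Ex_mono hp0 hp1 (fun E hE => ind_mono ?_)
    rintro ⟨_, h2⟩
    refine h2.trans (Finset.card_le_card ?_)
    intro a ha
    unfold Few at ha
    rw [hG E hE, Finset.mem_filter] at ha
    refine Finset.mem_filter.mpr ⟨ha.1, ?_⟩
    refine lt_of_le_of_lt (Finset.card_le_card ?_) ha.2
    intro z hz
    rw [Finset.mem_filter] at hz ⊢
    exact ⟨hz.1, Finset.mem_union_left _ hz.2⟩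
  · have h0 : Ex p (cols m n1) (fun E => ind (c ≤ (Gset m n1 n2 M1 (E ∪ F)).card ∧
        s ≤ (Few m n1 n2 M1 (E ∪ F)).card)) = Ex p (cols m n1) (fun _ => (0 : ℝ)) := by
      refine Ex_congr (fun E hE => ind_neg ?_)
      rw [hG E hE]
      exact fun h => hcF h.1
    rw [h0, Ex_const]
    positivity

/-- B3 -/
lemma Pr_B3 {p y : ℝ} (hp0 : 0 ≤ p) (hp1 : p ≤ 1) (hy : 1 ≤ y) {m T n : ℕ} (R K : ℕ)
    (hn : m + T ≤ n) (hpyK : p * y * K ≤ 1) :
    Pr p (cols m n) (fun E => ∃ S ∈ (range m).powersetCard R, R + 1 ≤ exc E S (m + T)) ≤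
      (m : ℝ) ^ R * ((y ^ (R + 1))⁻¹ * (1 + 2 * y * p ^ 2 * (K : ℝ) ^ 2) ^ T +
        2 ^ R * exp (-((K : ℝ) * ((1 + p) ^ T)⁻¹ / 2))) := by
  have hsub : cols m (m + T) ⊆ cols m n := cols_mono le_rfl hn
  have h1 : Pr p (cols m n) (fun E => ∃ S ∈ (range m).powersetCard R, R + 1 ≤ exc E S (m + T)) =
      Pr p (cols m (m + T)) (fun E => ∃ S ∈ (range m).powersetCard R,
        R + 1 ≤ exc E S (m + T)) := by
    refine Pr_local hsub p (fun E hE => ?_)
    simp only [exc_inter_cols hE]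
  rw [h1]
  refine (Pr_exists_le hp0 hp1 _ _).trans ?_
  have h2 : ∀ S ∈ (range m).powersetCard R,
      Pr p (cols m (m + T)) (fun E => R + 1 ≤ exc E S (m + T)) ≤
      ((y ^ (R + 1))⁻¹ * (1 + 2 * y * p ^ 2 * (K : ℝ) ^ 2) ^ T +
        2 ^ R * exp (-((K : ℝ) * ((1 + p) ^ T)⁻¹ / 2))) := by
    intro S hS
    obtain ⟨hS1, hS2⟩ := Finset.mem_powersetCard.mp hS
    refine (Pr_mono hp0 hp1 (Q := fun E => (R + 1 ≤ exc E S (m + T) ∧
      (up E S (m + T)).card ≤ K) ∨ K ≤ (up E S (m + T)).card) (fun E _ h => ?_)).trans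
      ((Pr_or_le hp0 hp1 _ _).trans (add_le_add (Pr_exc_ge hp0 hp1 hy hS1 T K (R + 1) hpyK) ?_))
    · rcases le_total (up E S (m + T)).card K with h3 | h3
      · exact Or.inl ⟨h, h3⟩
      · exact Or.inr h3
    · have := Pr_growth_ge hp0 hp1 hS1 T K
      rwa [hS2] at this
  refine (Finset.sum_le_sum h2).trans ?_
  rw [Finset.sum_const, Finset.card_powersetCard, Finset.card_range, nsmul_eq_mul]
  refine mul_le_mul_of_nonneg_right ?_ (by positivity)
  exact_mod_cast Nat.choose_le_pow m R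

/-- B4 -/
lemma Pr_B4 {p : ℝ} (hp0 : 0 ≤ p) (hp1 : p ≤ 1) {m n2 T : ℕ} (R M1 : ℕ) {M2 : ℝ}
    (hm : m ≤ n2) (hM2 : 0 ≤ M2) (hpM2 : p * M2 ≤ 1) :
    Pr p (cols m (n2 + T)) (fun E => ∃ S ∈ (range m).powersetCard R,
      R * M1 ≤ (up E S n2).card ∧ ((up E S (n2 + T)).card : ℝ) < M2) ≤
      (m : ℝ) ^ R * (exp (M2 * ((1 + p * (1 - p * M2 / 2)) ^ T)⁻¹) * (2 ^ (R * M1))⁻¹) := by
  refine (Pr_exists_le hp0 hp1 _ _).trans ?_
  have h2 : ∀ S ∈ (range m).powersetCard R,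
      Pr p (cols m (n2 + T)) (fun E => R * M1 ≤ (up E S n2).card ∧
        ((up E S (n2 + T)).card : ℝ) < M2) ≤
      exp (M2 * ((1 + p * (1 - p * M2 / 2)) ^ T)⁻¹) * (2 ^ (R * M1))⁻¹ := by
    intro S hS
    obtain ⟨hS1, hS2⟩ := Finset.mem_powersetCard.mp hS
    have hSn : S ⊆ range n2 := hS1.trans (Finset.range_subset_range.mpr hm)
    unfold Pr
    rw [Ex_cols_union hm (Nat.le_add_right n2 T)]
    refine le_trans (Ex_mono hp0 hp1 (g := fun _ =>
      exp (M2 * ((1 + p * (1 - p * M2 / 2)) ^ T)⁻¹) * (2 ^ (R * M1))⁻¹) ?_)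
      (le_of_eq (Ex_const _ _ _))
    intro E hE
    by_cases hbig : R * M1 ≤ (up E S n2).card
    · have h3 : Ex p (cols n2 (n2 + T)) (fun F => ind (R * M1 ≤ (up (E ∪ F) S n2).card ∧
          ((up (E ∪ F) S (n2 + T)).card : ℝ) < M2)) ≤
          Pr p (cols n2 (n2 + T)) (fun F => ((up F (up E S n2) (n2 + T)).card : ℝ) < M2) := by
        unfold Pr
        refine Ex_mono hp0 hp1 (fun F hF => ind_mono ?_)
        rintro ⟨_, h4⟩
        rwa [up_restart hE hF hSn (Nat.le_add_right _ _)] at h4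
      refine h3.trans ((Pr_growth_lt hp0 hp1 (up_subset_range E S n2) T hM2 hpM2
        (Y := 1) zero_le_one).trans ?_)
      rw [one_mul]
      refine mul_le_mul_of_nonneg_left ?_ (exp_pos _).le
      refine inv_anti₀ (by positivity) ?_
      norm_num
      exact pow_le_pow_right₀ (by norm_num) hbig
    · have h0 : Ex p (cols n2 (n2 + T)) (fun F => ind (R * M1 ≤ (up (E ∪ F) S n2).card ∧
          ((up (E ∪ F) S (n2 + T)).card : ℝ) < M2)) = Ex p (cols n2 (n2 + T)) (fun _ => (0 : ℝ)) := by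
        refine Ex_congr (fun F hF => ind_neg ?_)
        rw [up_union_cols hF]
        exact fun h => hbig h.1
      rw [h0, Ex_const]
      positivity
  refine (Finset.sum_le_sum h2).trans ?_
  rw [Finset.sum_const, Finset.card_powersetCard, Finset.card_range, nsmul_eq_mul]
  refine mul_le_mul_of_nonneg_right ?_ (by positivity)
  exact_mod_cast Nat.choose_le_pow m R

/-- B5 -/
lemma Pr_B5 {p : ℝ} (hp0 : 0 ≤ p) (hp1 : p ≤ 1) {m t : ℕ} (hm : 1 ≤ m)
    (ht : 4 * p ^ 2 * t ≤ 1) {g : ℝ} (hg : (1 + p) ^ t ≤ g) (hpg : p * (1 + p) ^ t ≤ 1) :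
    Pr p (cols m (m + t)) (fun E =>
      2 * (m * g) < ∑ a ∈ range m, ((up E {a} (m + t)).card : ℝ)) ≤
      2 / m + 4 * p ^ 2 * t + 2 * (p * (1 + p) ^ t) := by
  set G := (1 + p) ^ t with hG
  have hG0 : 0 < G := by positivity
  have hm0 : (0 : ℝ) < m := by exact_mod_cast hm
  set f : ℕ → Finset (ℕ × ℕ) → ℝ := fun a E => ((up E {a} (m + t)).card : ℝ) with hf
  set Sf : Finset (ℕ × ℕ) → ℝ := fun E => ∑ a ∈ range m, f a E with hSf
  -- second moment
  have hsq : Ex p (cols m (m + t)) (fun E => Sf E ^ 2) ≤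
      2 * m * G ^ 2 + m ^ 2 * ((1 + 4 * p ^ 2 * t) * G ^ 2) := by
    have h1 : ∀ E, Sf E ^ 2 = ∑ a ∈ range m, ∑ b ∈ range m, f a E * f b E := by
      intro E
      rw [hSf, sq, Finset.sum_mul_sum]
    simp_rw [h1]
    rw [Ex_sum]
    simp_rw [Ex_sum]
    have h2 : ∀ a ∈ range m, ∑ b ∈ range m, Ex p (cols m (m + t)) (fun E => f a E * f b E) ≤
        2 * G ^ 2 + m * ((1 + 4 * p ^ 2 * t) * G ^ 2) := by
      intro a ha
      have ha' := Finset.mem_range.mp ha
      rw [← Finset.add_sum_erase _ _ ha]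
      refine add_le_add ?_ ?_
      · have := Pool.Agent.Helper61.DDMoments.mom_sq hp0 hp1 ha' t
        have h3 : (1 + p) ^ (2 * t) = G ^ 2 := by rw [hG, ← pow_mul, mul_comm]
        rw [h3] at this
        refine le_trans (le_of_eq (Ex_congr (fun E _ => ?_))) this
        rw [hf]
        ring
      · have h4 : ∀ b ∈ (range m).erase a, Ex p (cols m (m + t)) (fun E => f a E * f b E) ≤
            (1 + 4 * p ^ 2 * t) * G ^ 2 := by
          intro b hb
          obtain ⟨hba, hb'⟩ := Finset.mem_erase.mp hb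
          have := (Pool.Agent.Helper61.DDMoments.mom_pair hp0 hp1 ha' (Finset.mem_range.mp hb')
            (Ne.symm hba) t ht).2
          have h3 : (1 + p) ^ (2 * t) = G ^ 2 := by rw [hG, ← pow_mul, mul_comm]
          rwa [h3] at this
        refine (Finset.sum_le_sum h4).trans ?_
        rw [Finset.sum_const, nsmul_eq_mul]
        refine mul_le_mul_of_nonneg_right ?_ (by positivity)
        have : ((range m).erase a).card ≤ m := by
          have := Finset.card_erase_le (s := range m) (a := a)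
          rwa [Finset.card_range] at this
        exact_mod_cast this
    refine (Finset.sum_le_sum h2).trans ?_
    rw [Finset.sum_const, Finset.card_range, nsmul_eq_mul]
    ring_nf
    linarith
  -- first moment
  have hlow : m * (G - p * G ^ 2) ≤ Ex p (cols m (m + t)) Sf := by
    rw [hSf, Ex_sum]
    have h2 : ∀ a ∈ range m, G - p * G ^ 2 ≤ Ex p (cols m (m + t)) (f a) := by
      intro a ha
      have := Pool.Agent.Helper61.DDMoments.mom_lower hp0 hp1 (Finset.mem_range.mp ha) t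
      have h3 : (1 + p) ^ (2 * t) = G ^ 2 := by rw [hG, ← pow_mul, mul_comm]
      rwa [h3, ← hG] at this
    refine le_trans ?_ (Finset.sum_le_sum h2)
    rw [Finset.sum_const, Finset.card_range, nsmul_eq_mul]
  have hupp : Ex p (cols m (m + t)) Sf ≤ m * G := by
    rw [hSf, Ex_sum]
    have h2 : ∀ a ∈ range m, Ex p (cols m (m + t)) (f a) ≤ G := by
      intro a ha
      exact Pool.Agent.Helper61.DDMoments.mom_upper hp0 hp1 (Finset.mem_range.mp ha) t
    refine (Finset.sum_le_sum h2).trans ?_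
    rw [Finset.sum_const, Finset.card_range, nsmul_eq_mul]
  -- Chebyshev
  set μ := Ex p (cols m (m + t)) Sf with hμ
  have hvar : Ex p (cols m (m + t)) (fun E => (Sf E - μ) ^ 2) =
      Ex p (cols m (m + t)) (fun E => Sf E ^ 2) - μ ^ 2 := by
    have h1 : ∀ E, (Sf E - μ) ^ 2 = (Sf E ^ 2 - (2 * μ) * Sf E) + μ ^ 2 := by intro E; ring
    simp_rw [h1]
    rw [Ex_add, Ex_sub, Ex_mul_left, Ex_const, ← hμ]
    ring
  have hmark := Pr_markov (p := p) (s := cols m (m + t)) hp0 hp1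
    (f := fun E => (Sf E - μ) ^ 2) (fun E _ => sq_nonneg _) (a := (m * G) ^ 2) (by positivity)
  have hsub : Pr p (cols m (m + t)) (fun E => 2 * (m * g) < Sf E) ≤
      Pr p (cols m (m + t)) (fun E => (m * G) ^ 2 ≤ (Sf E - μ) ^ 2) := by
    refine Pr_mono hp0 hp1 (fun E _ h => ?_)
    have h1 : (m : ℝ) * G ≤ Sf E - μ := by
      have : (m : ℝ) * G ≤ m * g := mul_le_mul_of_nonneg_left hg hm0.le
      linarith
    exact pow_le_pow_left₀ (by positivity) h1 2
  refine hsub.trans (hmark.trans ?_)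
  rw [div_le_iff₀ (by positivity), hvar]
  have hμ2 : (m * (G - p * G ^ 2)) ^ 2 ≤ μ ^ 2 := by
    refine pow_le_pow_left₀ ?_ hlow 2
    have : p * G * G ≤ 1 * G := mul_le_mul_of_nonneg_right hpg hG0.le
    have h2 : 0 ≤ G - p * G ^ 2 := by nlinarith
    positivity
  have hfin : (2 / m + 4 * p ^ 2 * t + 2 * (p * G)) * (m * G) ^ 2 =
      2 * m * G ^ 2 + (4 * p ^ 2 * t) * (m ^ 2 * G ^ 2) + 2 * (p * G) * (m ^ 2 * G ^ 2) := by
    field_simp
  rw [hfin]
  nlinarith [sq_nonneg (m * p * G ^ 2)]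

/-- B6 -/
lemma Pr_B6 {p : ℝ} (hp0 : 0 ≤ p) (hp1 : p ≤ 1) {m t : ℕ}
    (ht : 4 * p ^ 2 * t ≤ 1) {C : ℝ} (hC : 0 < C) :
    Pr p (cols m (m + t)) (fun E => C < ∑ q ∈ (range m ×ˢ range m).filter (fun q => q.1 ≠ q.2),
      ((up E {q.1} (m + t) ∩ up E {q.2} (m + t)).card : ℝ)) ≤
      m ^ 2 * (4 * p * (1 + p) ^ (2 * t)) / C := by
  refine (Pr_mono hp0 hp1 (fun E _ h => h.le)).trans ((Pr_markov hp0 hp1
    (fun E _ => Finset.sum_nonneg (fun _ _ => Nat.cast_nonneg _)) hC).trans ?_)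
  refine div_le_div_of_nonneg_right ?_ hC.le
  rw [Ex_sum]
  have h1 : ∀ q ∈ (range m ×ˢ range m).filter (fun q => q.1 ≠ q.2),
      Ex p (cols m (m + t)) (fun E => ((up E {q.1} (m + t) ∩ up E {q.2} (m + t)).card : ℝ)) ≤
      4 * p * (1 + p) ^ (2 * t) := by
    intro q hq
    rw [Finset.mem_filter, Finset.mem_product, Finset.mem_range, Finset.mem_range] at hq
    exact (Pool.Agent.Helper61.DDMoments.mom_pair hp0 hp1 hq.1.1 hq.1.2 hq.2 t ht).1
  refine (Finset.sum_le_sum h1).trans ?_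
  rw [Finset.sum_const, nsmul_eq_mul]
  refine mul_le_mul_of_nonneg_right ?_ (by positivity)
  have h2 : ((range m ×ˢ range m).filter (fun q => q.1 ≠ q.2)).card ≤ m ^ 2 := by
    refine (Finset.card_filter_le _ _).trans ?_
    rw [Finset.card_product, Finset.card_range, sq]
  exact_mod_cast h2

end Pool.Agent.Helper65
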