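import Pool.Agent.Helper65.Width

/-!
# Explicit tail bound for the width
-/

set_option autoImplicit false

namespace Pool.Agent.Helper65

open Finset Real

lemma prod_ratio_eq_choose (M j : ℕ) :
    ∏ v ∈ Ico 1 (j + 1), (((v : ℝ) + M) / v) = ((M + j).choose j : ℝ) := by
  induction j with
  | zero => simp
  | succ j ih =>
    rw [Finset.prod_Ico_succ_top (by omega), ih]
    have h1 : ((j + 1 : ℕ) : ℝ) ≠ 0 := by positivity
    rw [mul_div_assoc', div_eq_iff h1]
    have h2 := Nat.add_one_mul_choose_eq (M + j) j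
    have h3 : ((M + j + 1 : ℕ) : ℝ) * ((M + j).choose j : ℝ) =
        ((M + j + 1).choose (j + 1) : ℝ) * ((j + 1 : ℕ) : ℝ) := by
      exact_mod_cast h2
    have h4 : M + (j + 1) = M + j + 1 := by ring
    rw [h4, ← h3]
    push_cast
    ring

lemma sum_log_ratio_le (M : ℕ) :
    ∑ v ∈ Ico 1 (M + 1), log (((v : ℝ) + M) / v) ≤ M * log 4 := by
  rw [← Real.log_prod]
  · rw [prod_ratio_eq_choose]
    have h1 : (((M + M).choose M : ℕ) : ℝ) ≤ 4 ^ M := by
      have := Nat.choose_le_two_pow (M + M) M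
      have h2 : (2 : ℕ) ^ (M + M) = 4 ^ M := by
        rw [← two_mul, pow_mul]; norm_num
      rw [h2] at this
      exact_mod_cast this
    have h3 : (0 : ℝ) < ((M + M).choose M : ℝ) := by
      exact_mod_cast Nat.choose_pos (by omega)
    calc log ((M + M).choose M : ℝ) ≤ log (4 ^ M) := Real.log_le_log h3 h1
      _ = M * log 4 := by rw [Real.log_pow]
  · intro v hv
    rw [Finset.mem_Ico] at hv
    have : (0 : ℝ) < v := by exact_mod_cast (by omega : 0 < v)
    positivity

lemma sum_geom_le {p : ℝ} (hp0 : 0 < p) (hp1 : p ≤ 1) (a b : ℕ) :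
    ∑ v ∈ Ico a b, (1 - p) ^ (v - a) ≤ 1 / p := by
  have hq0 : 0 ≤ 1 - p := by linarith
  rw [Finset.sum_Ico_eq_sum_range]
  simp only [Nat.add_sub_cancel_left]
  have h1 : (∑ i ∈ range (b - a), (1 - p) ^ i) * p = 1 - (1 - p) ^ (b - a) := by
    have := geom_sum_mul (1 - p) (b - a)
    have h2 : (∑ i ∈ range (b - a), (1 - p) ^ i) * (1 - p - 1) = (1 - p) ^ (b - a) - 1 := this
    linarith
  rw [le_div_iff₀ hp0, h1]
  have : 0 ≤ (1 - p) ^ (b - a) := pow_nonneg hq0 _
  linarith

/-- `-log (1 - q ^ v)` summed over `v`. -/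
lemma sum_neg_log_le {p : ℝ} (hp0 : 0 < p) (hp1 : p < 1) (n : ℕ) :
    ∑ v ∈ Ico 1 (n + 1), -log (1 - (1 - p) ^ v) ≤ (1 / p + 1) * log 4 + 2 / p := by
  have hq0 : 0 < 1 - p := by linarith
  have hq1 : 1 - p < 1 := by linarith
  set M := ⌈1 / p⌉₊ with hM
  have hMp : 1 / p ≤ M := Nat.le_ceil _
  have hM1 : (M : ℝ) ≤ 1 / p + 1 := (Nat.ceil_lt_add_one (by positivity)).le
  have hM0 : 0 < M := Nat.ceil_pos.mpr (by positivity)
  -- lower bound for 1 - q^v
  have hlow : ∀ v : ℕ, 1 ≤ v → (v : ℝ) * p / (1 + v * p) ≤ 1 - (1 - p) ^ v := by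
    intro v hv
    have h1 : (1 - p) ≤ 1 / (1 + p) := by
      rw [le_div_iff₀ (by linarith)]
      nlinarith
    have h2 : (1 - p) ^ v ≤ (1 / (1 + p)) ^ v := pow_le_pow_left₀ hq0.le h1 v
    have h3 : 1 + (v : ℝ) * p ≤ (1 + p) ^ v := one_add_mul_le_pow (by linarith) v
    have h4 : (1 / (1 + p)) ^ v ≤ 1 / (1 + v * p) := by
      rw [div_pow, one_pow]
      apply one_div_le_one_div_of_le _ h3
      have : (0 : ℝ) ≤ v := Nat.cast_nonneg v
      positivity
    have h5 : (v : ℝ) * p / (1 + v * p) = 1 - 1 / (1 + v * p) := by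
      have : (0 : ℝ) < 1 + v * p := by
        have : (0 : ℝ) ≤ v := Nat.cast_nonneg v
        positivity
      field_simp
      ring
    linarith
  have hbound : ∀ v ∈ Ico 1 (n + 1), -log (1 - (1 - p) ^ v) ≤
      (if v ≤ M then log (((v : ℝ) + M) / v) else 0) + 2 * (1 - p) ^ (v - 1) := by
    intro v hv
    rw [Finset.mem_Ico] at hv
    have hv0 : (0 : ℝ) < v := by exact_mod_cast (by omega : 0 < v)
    have hpos : 0 < (v : ℝ) * p / (1 + v * p) := by positivity
    by_cases hvM : v ≤ M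
    · rw [if_pos hvM]
      have h1 : -log (1 - (1 - p) ^ v) ≤ log (((v : ℝ) + M) / v) := by
        rw [← Real.log_inv]
        apply Real.log_le_log (inv_pos.mpr (lt_of_lt_of_le hpos (hlow v hv.1)))
        calc (1 - (1 - p) ^ v)⁻¹ ≤ ((v : ℝ) * p / (1 + v * p))⁻¹ :=
              inv_anti₀ hpos (hlow v hv.1)
          _ = ((v : ℝ) + 1 / p) / v := by field_simp; ring
          _ ≤ ((v : ℝ) + M) / v := by gcongr
      have h2 : 0 ≤ 2 * (1 - p) ^ (v - 1) := by positivity
      linarith
    · rw [if_neg hvM, zero_add]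
      push Not at hvM
      have hqv : (1 - p) ^ v ≤ 1 / 2 := by
        have h1 : (1 - p) ^ v ≤ (1 - p) ^ M := pow_le_pow_of_le_one hq0.le hq1.le hvM.le
        have h2 : 1 - (1 - p) ^ M ≥ (M : ℝ) * p / (1 + M * p) := hlow M hM0
        have h3 : 1 ≤ (M : ℝ) * p := by
          rw [div_le_iff₀ hp0] at hMp; exact hMp
        have h4 : (1 : ℝ) / 2 ≤ (M : ℝ) * p / (1 + M * p) := by
          rw [div_le_div_iff₀ (by norm_num) (by positivity)]
          linarith
        linarith
      have h5 : 0 < 1 - (1 - p) ^ v := by linarith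
      -- -log (1 - y) ≤ y / (1 - y) ≤ 2 y
      have h6 : -log (1 - (1 - p) ^ v) ≤ (1 - p) ^ v / (1 - (1 - p) ^ v) := by
        have h7 := Real.one_sub_inv_le_log_of_pos h5
        have h8 : (1 - p) ^ v / (1 - (1 - p) ^ v) = (1 - (1 - p) ^ v)⁻¹ - 1 := by
          field_simp
          ring
        rw [h8]
        linarith
      have h9 : (1 - p) ^ v / (1 - (1 - p) ^ v) ≤ 2 * (1 - p) ^ v := by
        rw [div_le_iff₀ h5]
        have : 0 ≤ (1 - p) ^ v := by positivity
        nlinarith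
      have h10 : (1 - p) ^ v ≤ (1 - p) ^ (v - 1) :=
        pow_le_pow_of_le_one hq0.le hq1.le (Nat.sub_le v 1)
      linarith
  calc ∑ v ∈ Ico 1 (n + 1), -log (1 - (1 - p) ^ v)
      ≤ ∑ v ∈ Ico 1 (n + 1), ((if v ≤ M then log (((v : ℝ) + M) / v) else 0) +
          2 * (1 - p) ^ (v - 1)) := Finset.sum_le_sum hbound
    _ = ∑ v ∈ Ico 1 (n + 1), (if v ≤ M then log (((v : ℝ) + M) / v) else 0) +
          2 * ∑ v ∈ Ico 1 (n + 1), (1 - p) ^ (v - 1) := by
        rw [Finset.sum_add_distrib, Finset.mul_sum]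
    _ ≤ M * log 4 + 2 * (1 / p) := by
        gcongr
        · rw [← Finset.sum_filter]
          refine le_trans ?_ (sum_log_ratio_le M)
          apply Finset.sum_le_sum_of_subset_of_nonneg
          · intro v hv
            rw [Finset.mem_filter, Finset.mem_Ico] at hv
            rw [Finset.mem_Ico]
            omega
          · intro v hv _
            rw [Finset.mem_Ico] at hv
            have hv0 : (0 : ℝ) < v := by exact_mod_cast (by omega : 0 < v)
            apply Real.log_nonneg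
            rw [le_div_iff₀ hv0]
            have : (0 : ℝ) ≤ M := Nat.cast_nonneg M
            linarith
        · exact sum_geom_le hp0 hp1.le 1 (n + 1)
    _ ≤ (1 / p + 1) * log 4 + 2 / p := by
        have : 0 ≤ log 4 := Real.log_nonneg (by norm_num)
        have h1 : (M : ℝ) * log 4 ≤ (1 / p + 1) * log 4 := mul_le_mul_of_nonneg_right hM1 this
        have h2 : 2 * (1 / p) = 2 / p := by ring
        linarith

/-- `log (1 + q^v / q^k)` summed over `v`. -/
lemma sum_log_one_add_le {p : ℝ} (hp0 : 0 < p) (hp1 : p < 1) (n k : ℕ) :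
    ∑ v ∈ Ico 1 (n + 1), log (1 + ((1 - p) ^ k)⁻¹ * (1 - p) ^ v) ≤
      k * log 2 + (k * (k - 1) / 2) * (-log (1 - p)) + 1 / p := by
  have hq0 : 0 < 1 - p := by linarith
  have hq1 : 1 - p < 1 := by linarith
  set lam := -log (1 - p) with hlam
  have hlam0 : 0 ≤ lam := by
    rw [hlam]
    have := Real.log_nonpos hq0.le hq1.le
    linarith
  have hlog2 : 0 ≤ log 2 := Real.log_nonneg (by norm_num)
  have hbound : ∀ v ∈ Ico 1 (n + 1), log (1 + ((1 - p) ^ k)⁻¹ * (1 - p) ^ v) ≤
      (if v ≤ k then log 2 + ((k : ℝ) - v) * lam else 0) +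
        (if k < v then (1 - p) ^ (v - (k + 1)) else 0) := by
    intro v hv
    by_cases hvk : v ≤ k
    · rw [if_pos hvk, if_neg (by omega), add_zero]
      have h1 : ((1 - p) ^ k)⁻¹ * (1 - p) ^ v = ((1 - p) ^ (k - v))⁻¹ := by
        have : (1 - p) ^ k = (1 - p) ^ (k - v) * (1 - p) ^ v := by
          rw [← pow_add]; congr 1; omega
        rw [this]
        field_simp
      rw [h1]
      have h2 : 1 ≤ ((1 - p) ^ (k - v))⁻¹ := by
        rw [one_le_inv₀ (by positivity)]
        exact pow_le_one₀ hq0.le hq1.le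
      calc log (1 + ((1 - p) ^ (k - v))⁻¹) ≤ log (2 * ((1 - p) ^ (k - v))⁻¹) := by
            apply Real.log_le_log (by positivity)
            linarith
        _ = log 2 + ((k : ℝ) - v) * lam := by
            rw [Real.log_mul (by norm_num) (by positivity), Real.log_inv, Real.log_pow, hlam,
              Nat.cast_sub hvk]
            ring
    · rw [if_neg hvk, zero_add, if_pos (by omega)]
      push Not at hvk
      have h1 : ((1 - p) ^ k)⁻¹ * (1 - p) ^ v = (1 - p) ^ (v - k) := by
        have : (1 - p) ^ v = (1 - p) ^ (v - k) * (1 - p) ^ k := by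
          rw [← pow_add]; congr 1; omega
        rw [this]
        field_simp
      rw [h1]
      have h2 : log (1 + (1 - p) ^ (v - k)) ≤ (1 - p) ^ (v - k) := by
        have := Real.log_le_sub_one_of_pos (show 0 < 1 + (1 - p) ^ (v - k) by positivity)
        linarith
      refine h2.trans ?_
      exact pow_le_pow_of_le_one hq0.le hq1.le (by omega)
  have hsumk : ∑ v ∈ Ico 1 (k + 1), (log 2 + ((k : ℝ) - v) * lam) =
      k * log 2 + (k * (k - 1) / 2) * lam := by
    rw [Finset.sum_add_distrib, Finset.sum_const, Nat.card_Ico, ← Finset.sum_mul]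
    have h1 : ∀ j : ℕ, ∑ v ∈ Ico 1 (j + 1), ((j : ℝ) - v) = j * (j - 1) / 2 := by
      intro j
      induction j with
      | zero => simp
      | succ j ih =>
        rw [Finset.sum_Ico_succ_top (by omega)]
        have h2 : ∑ v ∈ Ico 1 (j + 1), (((j + 1 : ℕ) : ℝ) - v) =
            ∑ v ∈ Ico 1 (j + 1), (((j : ℝ) - v) + 1) := by
          refine Finset.sum_congr rfl ?_
          intro v _
          push_cast
          ring
        rw [h2, Finset.sum_add_distrib, ih, Finset.sum_const, Nat.card_Ico]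
        push_cast
        simp
        ring
    rw [h1]
    simp
  calc ∑ v ∈ Ico 1 (n + 1), log (1 + ((1 - p) ^ k)⁻¹ * (1 - p) ^ v)
      ≤ ∑ v ∈ Ico 1 (n + 1), ((if v ≤ k then log 2 + ((k : ℝ) - v) * lam else 0) +
        (if k < v then (1 - p) ^ (v - (k + 1)) else 0)) := Finset.sum_le_sum hbound
    _ = ∑ v ∈ (Ico 1 (n + 1)).filter (fun v => v ≤ k), (log 2 + ((k : ℝ) - v) * lam) +
        ∑ v ∈ (Ico 1 (n + 1)).filter (fun v => k < v), (1 - p) ^ (v - (k + 1)) := by
        rw [Finset.sum_add_distrib, Finset.sum_filter, Finset.sum_filter]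
    _ ≤ ∑ v ∈ Ico 1 (k + 1), (log 2 + ((k : ℝ) - v) * lam) +
        ∑ v ∈ Ico (k + 1) (n + 1), (1 - p) ^ (v - (k + 1)) := by
        refine add_le_add ?_ ?_
        · apply Finset.sum_le_sum_of_subset_of_nonneg
          · intro v hv
            rw [Finset.mem_filter, Finset.mem_Ico] at hv
            rw [Finset.mem_Ico]
            omega
          · intro v hv _
            rw [Finset.mem_Ico] at hv
            have : (v : ℝ) ≤ k := by exact_mod_cast (by omega : v ≤ k)
            have : 0 ≤ ((k : ℝ) - v) * lam := mul_nonneg (by linarith) hlam0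
            linarith
        · apply Finset.sum_le_sum_of_subset_of_nonneg
          · intro v hv
            rw [Finset.mem_filter, Finset.mem_Ico] at hv
            rw [Finset.mem_Ico]
            omega
          · intro v _ _
            exact pow_nonneg hq0.le _
    _ ≤ k * log 2 + (k * (k - 1) / 2) * lam + 1 / p := by
        rw [hsumk]
        have := sum_geom_le hp0 hp1.le (k + 1) (n + 1)
        linarith

/-- Explicit bound for the probability that the width is at least `k`. -/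
theorem Pr_width_le {p : ℝ} (hp0 : 0 < p) (hp1 : p < 1) (n k : ℕ) (hk : 1 ≤ k) :
    Pr p (cols 0 n) (fun E => ∃ A ⊆ range n, A.card = k ∧ anti E A n) ≤
      n * exp (k * log 2 + (k * (k - 1) / 2) * log (1 - p) + 8 / p) := by
  have hq0 : 0 < 1 - p := by linarith
  have hq1 : 1 - p < 1 := by linarith
  set x : ℝ := ((1 - p) ^ k)⁻¹ with hx
  have hx0 : 0 < x := by positivity
  have h1 := Pr_anti_le hp0 hp1.le hx0 n k hk
  have hqv : ∀ v : ℕ, 1 ≤ v → (1 - p) ^ v < 1 := fun v hv =>
    pow_lt_one₀ hq0.le hq1 (by omega)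
  have h2 : ∏ v ∈ Ico 1 (n + 1), (1 + x * (1 - p) ^ v / (1 - (1 - p) ^ v)) ≤
      exp (k * log 2 + (k * (k - 1) / 2) * (-log (1 - p)) + 1 / p +
        ((1 / p + 1) * log 4 + 2 / p)) := by
    have h3 : ∀ v ∈ Ico 1 (n + 1), (1 + x * (1 - p) ^ v / (1 - (1 - p) ^ v)) ≤
        exp (log (1 + x * (1 - p) ^ v) + -log (1 - (1 - p) ^ v)) := by
      intro v hv
      rw [Finset.mem_Ico] at hv
      have h4 : 0 < 1 - (1 - p) ^ v := by linarith [hqv v hv.1]
      have h5 : 0 < (1 - p) ^ v := by positivity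
      rw [Real.exp_add, Real.exp_log (by positivity), Real.exp_neg, Real.exp_log h4]
      rw [← div_eq_mul_inv, ← sub_nonneg]
      have : (1 + x * (1 - p) ^ v) / (1 - (1 - p) ^ v) -
          (1 + x * (1 - p) ^ v / (1 - (1 - p) ^ v)) = (1 - p) ^ v / (1 - (1 - p) ^ v) := by
        field_simp
        ring
      rw [this]
      positivity
    calc ∏ v ∈ Ico 1 (n + 1), (1 + x * (1 - p) ^ v / (1 - (1 - p) ^ v))
        ≤ ∏ v ∈ Ico 1 (n + 1), exp (log (1 + x * (1 - p) ^ v) + -log (1 - (1 - p) ^ v)) := by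
          apply Finset.prod_le_prod _ h3
          intro v hv
          rw [Finset.mem_Ico] at hv
          have h4 : 0 < 1 - (1 - p) ^ v := by linarith [hqv v hv.1]
          positivity
      _ = exp (∑ v ∈ Ico 1 (n + 1), (log (1 + x * (1 - p) ^ v) + -log (1 - (1 - p) ^ v))) :=
          (Real.exp_sum _ _).symm
      _ ≤ _ := by
          apply Real.exp_le_exp.mpr
          rw [Finset.sum_add_distrib]
          exact add_le_add (sum_log_one_add_le hp0 hp1 n k) (sum_neg_log_le hp0 hp1 n)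
  set P := Pr p (cols 0 n) (fun E => ∃ A ⊆ range n, A.card = k ∧ anti E A n) with hP
  have h6 : x ^ k * P ≤ n * (x * exp (k * log 2 + (k * (k - 1) / 2) * (-log (1 - p)) + 1 / p +
        ((1 / p + 1) * log 4 + 2 / p))) :=
    h1.trans (by gcongr)
  have hxe : x = exp (-(k * log (1 - p))) := by
    rw [hx, Real.exp_neg]
    congr 1
    rw [← Real.log_pow, Real.exp_log (by positivity)]
  have h7 : P ≤ (x ^ k)⁻¹ * (n * (x * exp (k * log 2 + (k * (k - 1) / 2) * (-log (1 - p)) +
      1 / p + ((1 / p + 1) * log 4 + 2 / p)))) := by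
    rw [← div_eq_inv_mul, le_div_iff₀ (by positivity), mul_comm]
    exact h6
  refine h7.trans ?_
  have h8 : (x ^ k)⁻¹ * (n * (x * exp (k * log 2 + (k * (k - 1) / 2) * (-log (1 - p)) +
      1 / p + ((1 / p + 1) * log 4 + 2 / p)))) = n * exp (k * (k * log (1 - p)) +
      -(k * log (1 - p)) + (k * log 2 + (k * (k - 1) / 2) * (-log (1 - p)) +
      1 / p + ((1 / p + 1) * log 4 + 2 / p))) := by
    rw [hxe, ← Real.exp_nat_mul, ← Real.exp_neg]
    have e1 : ∀ a b c : ℝ, exp a * (n * (exp b * exp c)) = n * exp (a + b + c) := by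
      intro a b c
      rw [Real.exp_add, Real.exp_add]
      ring
    rw [e1]
    congr 2
    ring
  rw [h8]
  apply mul_le_mul_of_nonneg_left _ (Nat.cast_nonneg n)
  apply Real.exp_le_exp.mpr
  have hlog4 : log 4 ≤ 1.4 := by
    have : (4 : ℝ) = 2 ^ 2 := by norm_num
    rw [this, Real.log_pow]
    have := Real.log_two_lt_d9
    push_cast
    linarith
  have hip : 1 ≤ 1 / p := by
    rw [le_div_iff₀ hp0]; linarith
  have e1 : (8 : ℝ) / p = 8 * (1 / p) := by ring
  have e2 : (2 : ℝ) / p = 2 * (1 / p) := by ring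
  rw [e1, e2]
  have h9 : (1 / p + 1) * log 4 ≤ (1 / p + 1) * 1.4 := by
    apply mul_le_mul_of_nonneg_left hlog4
    linarith
  nlinarith

/-- For `p = 1` there is no antichain with two elements. -/
theorem Pr_width_one (n k : ℕ) (hk : 2 ≤ k) :
    Pr 1 (cols 0 n) (fun E => ∃ A ⊆ range n, A.card = k ∧ anti E A n) ≤ 0 := by
  set P := Pr 1 (cols 0 n) (fun E => ∃ A ⊆ range n, A.card = k ∧ anti E A n) with hP
  have hP0 : 0 ≤ P := Pr_nonneg zero_le_one le_rfl _
  by_contra hcon
  push Not at hcon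
  -- x ^ k P ≤ n x for all x > 0
  have key : ∀ x : ℝ, 0 < x → x ^ k * P ≤ n * x := by
    intro x hx
    have h1 := Pr_anti_le zero_lt_one le_rfl hx n k (by omega)
    refine h1.trans ?_
    have h2 : ∏ v ∈ Ico 1 (n + 1), (1 + x * (1 - (1 : ℝ)) ^ v / (1 - (1 - (1 : ℝ)) ^ v)) = 1 := by
      apply Finset.prod_eq_one
      intro v hv
      rw [Finset.mem_Ico] at hv
      have : (1 - (1 : ℝ)) ^ v = 0 := by
        rw [sub_self]
        exact zero_pow (by omega)
      rw [this]
      simp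
    rw [h2, mul_one]
  set y : ℝ := max 1 ((n + 1) / P) with hy
  have hy1 : 1 ≤ y := le_max_left _ _
  have h3 := key y (by linarith)
  have h4 : y * y ≤ y ^ k := by
    rw [← sq]
    exact pow_le_pow_right₀ hy1 hk
  have h5 : (n + 1 : ℝ) ≤ y * P := by
    have : (n + 1 : ℝ) / P ≤ y := le_max_right _ _
    rwa [div_le_iff₀ hcon] at this
  have h6 : y * (n + 1) ≤ n * y := by
    calc y * (n + 1) ≤ y * (y * P) := by gcongr
      _ = (y * y) * P := by ring
      _ ≤ y ^ k * P := by gcongr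
      _ ≤ n * y := h3
  nlinarith

end Pool.Agent.Helper65
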