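import Pool.Agent.Helper65.Transfer
import Pool.Agent.Helper65.WidthBound

/-!
# The range `p ≥ (log log n)^4 / log n`
-/

set_option autoImplicit false

namespace Pool.Agent.Helper65

open Finset Real Filter

lemma no_realizer_zero {n : ℕ} (hn : 2 ≤ n) {E : Finset (ℕ × ℕ)} (hE : E ⊆ cols 0 n) :
    ¬ ∃ d < 1, ∃ σ : Fin d → ℕ → ℕ, IsRealizer n E d σ := by
  rintro ⟨d, hd, σ, hσ⟩
  have hd0 : d = 0 := by omega
  subst hd0
  have h1 := (hσ.2 1 (by omega) 0 (by omega) (by norm_num)).mpr (fun k => k.elim0)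
  have key : ∀ x y, Rel E x y → x < y := by
    intro x y h
    induction h with
    | single h => exact (mem_cols.mp (hE h)).1
    | tail _ h ih => exact ih.trans (mem_cols.mp (hE h)).1
  have := key _ _ h1
  omega

lemma Pr_no_realizer_zero {p : ℝ} (hp0 : 0 ≤ p) (hp1 : p ≤ 1) {n : ℕ} (hn : 2 ≤ n) :
    Pr p (cols 0 n) (fun E => ∃ d < 1, ∃ σ : Fin d → ℕ → ℕ, IsRealizer n E d σ) ≤ 0 := by
  have h1 : Pr p (cols 0 n) (fun E => ∃ d < 1, ∃ σ : Fin d → ℕ → ℕ, IsRealizer n E d σ) ≤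
      Pr p (cols 0 n) (fun _ => False) :=
    Pr_mono hp0 hp1 (fun E hE h => no_realizer_zero hn hE h)
  refine h1.trans ?_
  unfold Pr
  have h2 : (fun _ : Finset (ℕ × ℕ) => ind False) = fun _ => (0 : ℝ) := by
    ext E
    exact ind_neg (fun h => h)
  rw [h2, Ex_const]

/-- Width bound when `p log n` is large. -/
lemma width_high {p : ℝ} (hp0 : 0 < p) (hp1 : p < 1) {n : ℕ} (hn : 1 ≤ n)
    (h16 : 16 ≤ p * log n) (k : ℕ)
    (hk : 4 * √(log n / (-log (1 - p))) ≤ (k : ℝ) - 1) :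
    Pr p (cols 0 n) (fun E => ∃ A ⊆ range n, A.card = k ∧ anti E A n) ≤ 1 / n := by
  set ℓ := log n with hℓ
  set lam := -log (1 - p) with hlam
  have hq0 : 0 < 1 - p := by linarith
  have hlamp : p ≤ lam := by
    have := Real.log_le_sub_one_of_pos hq0
    linarith
  have hlam0 : 0 < lam := by linarith
  have hℓ0 : 0 < ℓ := by
    by_contra hcon
    push Not at hcon
    nlinarith
  set y := √(ℓ / lam) with hy
  have hy0 : 0 ≤ y := Real.sqrt_nonneg _
  have hy2 : lam * y ^ 2 = ℓ := by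
    rw [hy, Real.sq_sqrt (by positivity)]
    field_simp
  have hlamy : 4 ≤ lam * y := by
    have h1 : (lam * y) ^ 2 = lam * ℓ := by rw [mul_pow, sq lam, mul_assoc, hy2]
    have h2 : (16 : ℝ) ≤ (lam * y) ^ 2 := by
      rw [h1]
      calc (16 : ℝ) ≤ p * ℓ := h16
        _ ≤ lam * ℓ := mul_le_mul_of_nonneg_right hlamp hℓ0.le
    by_contra hcon
    push Not at hcon
    have h3 : 0 ≤ lam * y := by positivity
    nlinarith
  have hk1 : (1 : ℝ) ≤ k := by linarith
  have hk1' : 1 ≤ k := by exact_mod_cast hk1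
  refine (Pr_width_le hp0 hp1 n k hk1').trans ?_
  have h8 : 8 / p ≤ ℓ / 2 := by
    rw [div_le_div_iff₀ hp0 (by norm_num)]
    linarith
  have hlog2 : log 2 ≤ 1 := by
    have := Real.log_two_lt_d9
    linarith
  have hmain : k * log 2 + (k * (k - 1) / 2) * log (1 - p) + 8 / p ≤ -2 * ℓ := by
    have h1 : log (1 - p) = -lam := by rw [hlam]; ring
    rw [h1]
    have h2 : (4 * y) * (4 * y) ≤ (k : ℝ) * (k - 1) := by
      have : 4 * y ≤ (k : ℝ) := by linarith
      exact mul_le_mul this hk (by positivity) (by linarith)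
    have h3 : lam * ((4 * y) * (4 * y)) ≤ lam * ((k : ℝ) * (k - 1)) :=
      mul_le_mul_of_nonneg_left h2 hlam0.le
    have h4 : lam * ((4 * y) * (4 * y)) = 16 * ℓ := by
      rw [← hy2]; ring
    have h5 : (k : ℝ) * (lam * (4 * y)) ≤ k * (lam * (k - 1)) := by
      apply mul_le_mul_of_nonneg_left _ (by linarith)
      exact mul_le_mul_of_nonneg_left hk hlam0.le
    have h6 : (k : ℝ) * 16 ≤ k * (lam * (4 * y)) := by
      apply mul_le_mul_of_nonneg_left _ (by linarith)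
      linarith
    have h7 : (k : ℝ) * log 2 ≤ k * 1 := mul_le_mul_of_nonneg_left hlog2 (by linarith)
    nlinarith
  have hn0 : (0 : ℝ) < n := by exact_mod_cast (by omega : 0 < n)
  calc (n : ℝ) * exp (k * log 2 + (k * (k - 1) / 2) * log (1 - p) + 8 / p)
      ≤ n * exp (-2 * ℓ) := by
        apply mul_le_mul_of_nonneg_left _ hn0.le
        exact Real.exp_le_exp.mpr hmain
    _ = 1 / n := by
        have : exp (-2 * ℓ) = 1 / (n * n) := by
          rw [show -2 * ℓ = -(ℓ + ℓ) by ring, Real.exp_neg, Real.exp_add, hℓ,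
            Real.exp_log hn0]
          rw [one_div]
        rw [this]
        field_simp

/-- Dimension bound when `p log n ≥ (log log n)^4`. -/
lemma dim_high {p : ℝ} (hp0 : 0 < p) (hp1 : p < 1) {n : ℕ} (hn : 2 ≤ n)
    (hll : 2 ≤ log (log n)) (h4 : (log (log n)) ^ 4 ≤ p * log n)
    (hbig1 : log n ≤ exp (log n / 4)) (hbig2 : 4 * log n ≤ exp (log n / 2)) (m : ℕ)
    (hm2 : 2 ≤ m) (hm : (m : ℝ) ≤ √(log n / (-log (1 - p))) / 20) :
    Pr p (cols 0 n) (fun E => ∃ d < m, ∃ σ : Fin d → ℕ → ℕ, IsRealizer n E d σ) ≤ 1 / n := by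
  set ℓ := log n with hℓ
  set lam := -log (1 - p) with hlam
  have hq0 : 0 < 1 - p := by linarith
  have hlamp : p ≤ lam := by
    have := Real.log_le_sub_one_of_pos hq0
    linarith
  have hlam0 : 0 < lam := by linarith
  have hℓ1 : 1 < ℓ := by
    by_contra hcon
    push Not at hcon
    have : log ℓ ≤ 0 := Real.log_nonpos (Real.log_natCast_nonneg n) hcon
    linarith
  have hℓ0 : 0 < ℓ := by linarith
  have h16 : 16 ≤ p * ℓ := by
    have : (2 : ℝ) ^ 4 ≤ (log ℓ) ^ 4 := pow_le_pow_left₀ (by norm_num) hll 4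
    linarith
  set y := √(ℓ / lam) with hy
  have hy0 : 0 ≤ y := Real.sqrt_nonneg _
  have hy2 : lam * y ^ 2 = ℓ := by
    rw [hy, Real.sq_sqrt (by positivity)]
    field_simp
  have hn0 : (0 : ℝ) < n := by exact_mod_cast (by omega : 0 < n)
  have hm0 : (0 : ℝ) < m := by exact_mod_cast (by omega : 0 < m)
  -- y ≤ sqrt (ℓ / p) and y ≤ ℓ / 4
  have hyp : p * y ^ 2 ≤ ℓ := by
    rw [← hy2]
    exact mul_le_mul_of_nonneg_right hlamp (by positivity)
  have hyℓ : y ≤ ℓ / 4 := by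
    have h1 : 16 * y ^ 2 ≤ ℓ ^ 2 := by
      calc 16 * y ^ 2 ≤ (p * ℓ) * y ^ 2 := by gcongr
        _ = ℓ * (p * y ^ 2) := by ring
        _ ≤ ℓ * ℓ := by gcongr
        _ = ℓ ^ 2 := by ring
    have h2 : (4 * y) ^ 2 ≤ ℓ ^ 2 := by
      rw [mul_pow]; linarith
    have h3 := (le_abs_self _).trans (abs_le_of_sq_le_sq h2 hℓ0.le)
    linarith
  have hmℓ : (m : ℝ) ≤ ℓ / 80 := by linarith
  -- number of bits
  set r := Nat.log 2 m + 1 with hr
  have hmr : m ≤ 2 ^ r := (Nat.lt_pow_succ_log_self (by norm_num) m).le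
  have hrm : r ≤ m := by
    have h1 : 2 ^ (Nat.log 2 m) ≤ m := Nat.pow_log_le_self 2 (by omega)
    have h2 : Nat.log 2 m + 1 ≤ 2 ^ (Nat.log 2 m) := Nat.lt_two_pow_self
    omega
  have hrlog : (r : ℝ) ≤ 2 * log ℓ := by
    have h1 : ((2 : ℕ) : ℝ) ^ (Nat.log 2 m) ≤ m := by
      exact_mod_cast Nat.pow_log_le_self 2 (by omega)
    have h2 : (Nat.log 2 m : ℝ) * log 2 ≤ log m := by
      have := Real.log_le_log (by positivity) h1
      rw [Real.log_pow] at this
      push_cast at this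
      exact this
    have h3 : log m ≤ log ℓ := Real.log_le_log hm0 (by linarith)
    have h4 : (0.69 : ℝ) ≤ log 2 := by
      have := Real.log_two_gt_d9
      linarith
    have h5 : (Nat.log 2 m : ℝ) * 0.69 ≤ log ℓ := by
      have : (0 : ℝ) ≤ Nat.log 2 m := Nat.cast_nonneg _
      nlinarith
    rw [hr]
    push_cast
    linarith
  -- log (1/p)
  have hlogp : -log p ≤ log ℓ := by
    have h1 : 1 ≤ p * ℓ := by linarith
    have h2 : 0 ≤ log (p * ℓ) := Real.log_nonneg h1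
    rw [Real.log_mul hp0.ne' hℓ0.ne'] at h2
    linarith
  have hlogp0 : 0 ≤ -log p := by
    have := Real.log_nonpos hp0.le hp1.le
    linarith
  -- cost of the edges
  have hcost1 : 2 * ((m : ℝ) * r) * (-log p) ≤ ℓ / 5 := by
    have h1 : (r : ℝ) * (-log p) ≤ 2 * log ℓ * log ℓ := by
      apply mul_le_mul hrlog hlogp hlogp0
      linarith
    have h2 : 2 * ((m : ℝ) * r) * (-log p) ≤ 2 * (y / 20) * (2 * log ℓ * log ℓ) := by
      calc 2 * ((m : ℝ) * r) * (-log p) = 2 * m * (r * (-log p)) := by ring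
        _ ≤ 2 * (y / 20) * (2 * log ℓ * log ℓ) := by
          apply mul_le_mul _ h1 (mul_nonneg (Nat.cast_nonneg _) hlogp0) (by positivity)
          linarith
    -- y (log ℓ)^2 ≤ ℓ
    have h3 : y * (log ℓ) ^ 2 ≤ ℓ := by
      have h5 : (y * (log ℓ) ^ 2) ^ 2 ≤ ℓ ^ 2 := by
        calc (y * (log ℓ) ^ 2) ^ 2 = (log ℓ) ^ 4 * y ^ 2 := by ring
          _ ≤ (p * ℓ) * y ^ 2 := by gcongr
          _ = ℓ * (p * y ^ 2) := by ring
          _ ≤ ℓ * ℓ := by gcongr
          _ = ℓ ^ 2 := by ring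
      exact (le_abs_self _).trans (abs_le_of_sq_le_sq h5 hℓ0.le)
    nlinarith
  -- cost of the non-edges
  have hcost2 : ((2 * (m : ℝ) + 2 * r) ^ 2) * lam ≤ ℓ / 25 := by
    have h1 : (2 * (m : ℝ) + 2 * r) ≤ 4 * m := by
      have : (r : ℝ) ≤ m := by exact_mod_cast hrm
      linarith
    have h2 : (2 * (m : ℝ) + 2 * r) ^ 2 ≤ (4 * m) ^ 2 := by
      apply pow_le_pow_left₀ _ h1
      positivity
    calc ((2 * (m : ℝ) + 2 * r) ^ 2) * lam ≤ (4 * m) ^ 2 * lam := by gcongr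
      _ ≤ (4 * (y / 20)) ^ 2 * lam := by gcongr
      _ = (lam * y ^ 2) / 25 := by ring
      _ = ℓ / 25 := by rw [hy2]
  set pw := p ^ (2 * (m * r)) * (1 - p) ^ ((2 * m + 2 * r) ^ 2) with hpw
  have hpwlow : exp (-(ℓ / 4)) ≤ pw := by
    have h1 : pw = exp (-(2 * ((m : ℝ) * r) * (-log p) + ((2 * (m : ℝ) + 2 * r) ^ 2) * lam)) := by
      rw [hpw, neg_add, Real.exp_add]
      congr 1
      · rw [← Real.exp_log (pow_pos hp0 _), Real.log_pow]
        congr 1
        push_cast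
        ring
      · rw [← Real.exp_log (pow_pos hq0 _), Real.log_pow, hlam]
        congr 1
        push_cast
        ring
    rw [h1]
    apply Real.exp_le_exp.mpr
    linarith
  have hpw1 : pw ≤ 1 := by
    have h1 : p ^ (2 * (m * r)) ≤ 1 := pow_le_one₀ hp0.le hp1.le
    have h2 : (1 - p) ^ ((2 * m + 2 * r) ^ 2) ≤ 1 := pow_le_one₀ hq0.le (by linarith)
    calc pw ≤ 1 * 1 := mul_le_mul h1 h2 (by positivity) (by norm_num)
      _ = 1 := by norm_num
  set W := n / (2 * m + 2 * r) with hW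
  have hWn : W * (2 * m + 2 * r) ≤ n := Nat.div_mul_le_self _ _
  have hexpℓ : exp ℓ = n := by rw [hℓ, Real.exp_log hn0]
  have hWlow : exp (3 * ℓ / 4) / 2 ≤ (W : ℝ) := by
    have h1 : (n : ℝ) < (W + 1) * (2 * m + 2 * r) := by
      have : n < (W + 1) * (2 * m + 2 * r) := by
        rw [hW]
        have h2 : 0 < 2 * m + 2 * r := by omega
        rw [mul_comm]
        exact Nat.lt_mul_div_succ n h2
      exact_mod_cast this
    have h2 : (2 * (m : ℝ) + 2 * r) ≤ ℓ / 20 := by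
      have : (r : ℝ) ≤ m := by exact_mod_cast hrm
      linarith
    have h3 : (n : ℝ) < (W + 1) * (exp (ℓ / 4) / 20) := by
      calc (n : ℝ) < (W + 1) * (2 * m + 2 * r) := h1
        _ ≤ (W + 1) * (ℓ / 20) := by gcongr
        _ ≤ (W + 1) * (exp (ℓ / 4) / 20) := by gcongr
    have h4 : (n : ℝ) = exp (3 * ℓ / 4) * exp (ℓ / 4) := by
      rw [← Real.exp_add, ← hexpℓ]
      congr 1
      ring
    rw [h4] at h3
    have h5 : exp (3 * ℓ / 4) < (W + 1) / 20 := by
      have h6 : 0 < exp (ℓ / 4) := Real.exp_pos _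
      by_contra hcon
      push Not at hcon
      have : (W + 1) / 20 * exp (ℓ / 4) ≤ exp (3 * ℓ / 4) * exp (ℓ / 4) :=
        mul_le_mul_of_nonneg_right hcon h6.le
      linarith
    have h7 : 1 ≤ exp (3 * ℓ / 4) := Real.one_le_exp (by positivity)
    linarith
  refine (Pr_small_dim_le hp0.le hp1.le n m r W hmr hWn).trans ?_
  have h1 : (1 - pw) ^ W ≤ exp (-(pw * W)) := by
    calc (1 - pw) ^ W ≤ (exp (-pw)) ^ W := by
          apply pow_le_pow_left₀ (by linarith)
          exact Real.one_sub_le_exp_neg pw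
      _ = exp (-(pw * W)) := by
          rw [← Real.exp_nat_mul]
          congr 1
          ring
  refine h1.trans ?_
  have h2 : ℓ ≤ pw * W := by
    calc ℓ ≤ exp (ℓ / 2) / 2 := by linarith
      _ = exp (-(ℓ / 4)) * (exp (3 * ℓ / 4) / 2) := by
          rw [mul_div_assoc', ← Real.exp_add]
          congr 2
          ring
      _ ≤ pw * W := mul_le_mul hpwlow hWlow (by positivity) (by positivity)
  calc exp (-(pw * W)) ≤ exp (-ℓ) := Real.exp_le_exp.mpr (by linarith)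
    _ = 1 / n := by rw [Real.exp_neg, hexpℓ, one_div]

end Pool.Agent.Helper65
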