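import Pool.Agent.Helper65.High

/-!
# The range `p ≥ (log log n)^4 / log n`: dimension is at least `width / 200`
-/

set_option autoImplicit false

namespace Pool.Agent.Helper65

open Finset Real Filter

lemma high_core {n : ℕ} (hn : 3 ≤ n) (hll : 2 ≤ log (log n))
    (hbig1 : log n ≤ exp (log n / 4)) (hbig2 : 4 * log n ≤ exp (log n / 2)) {p : ℝ}
    (h4 : (log (log n)) ^ 4 ≤ p * log n) (hp1 : p ≤ 1) :
    1 - 2 / n ≤ Pr p (Finset.univ.filter (fun e : Fin n × Fin n => e.1 < e.2))
      (Good (1 / 200) n) := by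
  have hn0 : (0 : ℝ) < n := by exact_mod_cast (by omega : 0 < n)
  have hℓ1 : 1 < log n := by
    by_contra hcon
    push Not at hcon
    have : log (log n) ≤ 0 := Real.log_nonpos (Real.log_natCast_nonneg n) hcon
    linarith
  have h16 : 16 ≤ p * log n := by
    have : (2 : ℝ) ^ 4 ≤ (log (log n)) ^ 4 := pow_le_pow_left₀ (by norm_num) hll 4
    linarith
  have hp0 : 0 < p := by
    by_contra hcon
    push Not at hcon
    nlinarith
  have h2n : 0 ≤ 2 / (n : ℝ) := by positivity
  rcases eq_or_lt_of_le hp1 with hp | hp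
  · subst hp
    have h1 := Pr_Good_ge (p := 1) (ε := 1 / 200) zero_le_one le_rfl (n := n) (k := 2) (D := 1)
      (by norm_num) (by norm_num)
    have h2 := Pr_width_one n 2 le_rfl
    have h3 := Pr_no_realizer_zero (p := 1) zero_le_one le_rfl (n := n) (by omega)
    linarith
  · set y := √(log n / (-log (1 - p))) with hy
    have hy0 : 0 ≤ y := Real.sqrt_nonneg _
    set k := ⌈4 * y⌉₊ + 1 with hk
    have hk1 : 4 * y ≤ (k : ℝ) - 1 := by
      rw [hk]; push_cast
      have := Nat.le_ceil (4 * y)
      linarith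
    have hk2 : (k : ℝ) - 1 ≤ 4 * y + 1 := by
      rw [hk]; push_cast
      have := Nat.ceil_lt_add_one (show 0 ≤ 4 * y by positivity)
      linarith
    have hw := width_high hp0 hp (by omega : 1 ≤ n) h16 k hk1
    have h12 : 1 / (n : ℝ) + 1 / n = 2 / n := by ring
    by_cases hy40 : y < 40
    · have h1 := Pr_Good_ge (p := p) (ε := 1 / 200) hp0.le hp1 (n := n) (k := k) (D := 1)
        (by norm_num) (by push_cast; linarith)
      have h3 := Pr_no_realizer_zero (p := p) hp0.le hp1 (n := n) (by omega)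
      have h4 : 0 ≤ 1 / (n : ℝ) := by positivity
      linarith
    · push Not at hy40
      set m := ⌊y / 20⌋₊ with hm
      have hm1 : (m : ℝ) ≤ y / 20 := Nat.floor_le (by positivity)
      have hm2 : y / 20 - 1 < m := Nat.sub_one_lt_floor _
      have hm3 : 2 ≤ m := by
        rw [hm]
        exact Nat.le_floor (by push_cast; linarith)
      have hd := dim_high hp0 hp (by omega : 2 ≤ n) hll h4 hbig1 hbig2 m hm3 hm1
      have h1 := Pr_Good_ge (p := p) (ε := 1 / 200) hp0.le hp1 (n := n) (k := k) (D := m)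
        (by norm_num) (by linarith)
      linarith

/-- For all large `n` and all `p` with `(log log n)^4 / log n ≤ p ≤ 1`, the dimension is at
least `1 / 200` times the width with probability at least `1 - 2 / n`. -/
theorem high_range : ∀ᶠ n : ℕ in atTop, ∀ p : ℝ, (log (log n)) ^ 4 / log n ≤ p → p ≤ 1 →
    1 - 2 / n ≤ Pr p (Finset.univ.filter (fun e : Fin n × Fin n => e.1 < e.2))
      (Good (1 / 200) n) := by
  have hlog : Tendsto (fun n : ℕ => log (n : ℝ)) atTop atTop :=
    Real.tendsto_log_atTop.comp tendsto_natCast_atTop_atTop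
  have hloglog : Tendsto (fun n : ℕ => log (log (n : ℝ))) atTop atTop :=
    Real.tendsto_log_atTop.comp hlog
  have h1 : ∀ᶠ n : ℕ in atTop, 2 ≤ log (log (n : ℝ)) := hloglog.eventually_ge_atTop 2
  have hexp : ∀ c : ℝ, 0 < c → ∀ᶠ x : ℝ in atTop, 4 * x ≤ exp (c * x) := by
    intro c hc
    have h2 : Tendsto (fun x : ℝ => exp (c * x) / x) atTop atTop := by
      have h3 := Real.tendsto_exp_div_pow_atTop 1
      have h4 : Tendsto (fun x : ℝ => c * x) atTop atTop := tendsto_id.const_mul_atTop hc
      have h5 := (h3.comp h4).const_mul_atTop hc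
      refine h5.congr' ?_
      filter_upwards [eventually_gt_atTop 0] with x hx
      simp only [Function.comp, pow_one]
      field_simp
    filter_upwards [h2.eventually_ge_atTop 4, eventually_gt_atTop 0] with x hx hx0
    rwa [le_div_iff₀ hx0] at hx
  have h2 : ∀ᶠ n : ℕ in atTop, 4 * log (n : ℝ) ≤ exp ((1 / 4) * log n) :=
    hlog.eventually (hexp (1 / 4) (by norm_num))
  have h3 : ∀ᶠ n : ℕ in atTop, 4 * log (n : ℝ) ≤ exp ((1 / 2) * log n) :=
    hlog.eventually (hexp (1 / 2) (by norm_num))
  filter_upwards [h1, h2, h3, eventually_ge_atTop 3] with n hn1 hn2 hn3 hn4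
  intro p hp hp1
  have hℓ1 : 1 < log (n : ℝ) := by
    by_contra hcon
    push Not at hcon
    have : log (log (n : ℝ)) ≤ 0 := Real.log_nonpos (Real.log_natCast_nonneg n) hcon
    linarith
  have hℓ0 : 0 < log (n : ℝ) := by linarith
  refine high_core hn4 hn1 ?_ ?_ ?_ hp1
  · have : log (n : ℝ) / 4 = (1 / 4) * log n := by ring
    rw [this]
    linarith
  · have : log (n : ℝ) / 2 = (1 / 2) * log n := by ring
    rw [this]
    exact hn3
  · rwa [div_le_iff₀ hℓ0] at hp

end Pool.Agent.Helper65
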