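import Pool.Agent.Helper65.Graph

/-!
# First moment bound for antichains of a random graph order
-/

set_option autoImplicit false

namespace Pool.Agent.Helper65

open Finset

/-- `A` is an antichain of the order generated by `E` on `{0, …, n-1}`. -/
def anti (E : Finset (ℕ × ℕ)) (A : Finset ℕ) (n : ℕ) : Prop :=
  ∀ j ∈ A, j < n → ¬ ∃ u ∈ up E A j, (u, j) ∈ E

section step

variable {E F : Finset (ℕ × ℕ)} {A : Finset ℕ} {n : ℕ}

lemma anti_union_old (hF : F ⊆ col n) (hA : A ⊆ range n) :
    anti (E ∪ F) A (n + 1) ↔ anti E A n := by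
  unfold anti
  refine forall₂_congr ?_
  intro j hj
  have hjn : j < n := Finset.mem_range.mp (hA hj)
  have h1 : up (E ∪ F) A j = up E A j := by
    refine up_congr ?_ (fun _ _ => Iff.rfl)
    intro e he
    rw [Finset.mem_union]
    constructor
    · rintro (h | h)
      · exact h
      · have := mem_col.mp (hF h)
        omega
    · exact Or.inl
  have h2 : ∀ u, (u, j) ∈ E ∪ F ↔ (u, j) ∈ E := by
    intro u
    rw [Finset.mem_union]
    constructor
    · rintro (h | h)
      · exact h
      · have := mem_col.mp (hF h)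
        simp only at this
        omega
    · exact Or.inl
  simp only [h1, h2]
  constructor
  · intro h _
    exact h (by omega)
  · intro h _
    exact h hjn

lemma up_insert_top (hF : F ⊆ col n) :
    up (E ∪ F) (insert n A) n = up E A n := by
  refine up_congr ?_ ?_
  · intro e he
    rw [Finset.mem_union]
    constructor
    · rintro (h | h)
      · exact h
      · have := mem_col.mp (hF h)
        omega
    · exact Or.inl
  · intro i hi
    rw [Finset.mem_insert]
    constructor
    · rintro (h | h)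
      · omega
      · exact h
    · exact Or.inr

lemma mem_union_top (hE : E ⊆ cols 0 n) (u : ℕ) : (u, n) ∈ E ∪ F ↔ (u, n) ∈ F := by
  rw [Finset.mem_union]
  constructor
  · rintro (h | h)
    · exact absurd h (not_mem_of_subset_cols hE le_rfl)
    · exact h
  · exact Or.inr

lemma anti_union_new (hE : E ⊆ cols 0 n) (hF : F ⊆ col n) (hA : A ⊆ range n) :
    anti (E ∪ F) (insert n A) (n + 1) ↔ anti E A n ∧ ¬ ∃ u ∈ up E A n, (u, n) ∈ F := by
  have hold := anti_union_old (E := E) (F := F) hF hA
  have hup : ∀ j < n, up (E ∪ F) (insert n A) j = up (E ∪ F) A j := by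
    intro j hj
    refine up_congr (fun _ _ => Iff.rfl) ?_
    intro i hi
    rw [Finset.mem_insert]
    constructor
    · rintro (h | h)
      · omega
      · exact h
    · exact Or.inr
  constructor
  · intro h
    refine ⟨hold.mp ?_, ?_⟩
    · intro j hj hjn
      have hjn' : j < n := Finset.mem_range.mp (hA hj)
      have := h j (Finset.mem_insert_of_mem hj) hjn
      rwa [hup j hjn'] at this
    · have := h n (Finset.mem_insert_self _ _) (Nat.lt_succ_self n)
      rw [up_insert_top hF] at this
      simpa only [mem_union_top hE] using this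
  · rintro ⟨h1, h2⟩ j hj hjn
    rcases Finset.mem_insert.mp hj with rfl | hj
    · rw [up_insert_top hF]
      simpa only [mem_union_top hE] using h2
    · have hjn' : j < n := Finset.mem_range.mp (hA hj)
      rw [hup j hjn']
      exact (hold.mpr h1) j hj hjn

lemma card_up_union_old (hE : E ⊆ cols 0 n) (hF : F ⊆ col n) (hA : A ⊆ range n) :
    (up (E ∪ F) A (n + 1)).card =
      if ∃ u ∈ up E A n, (u, n) ∈ F then (up E A n).card + 1 else (up E A n).card := by
  rw [card_up_succ, up_union_col hF]
  have hn : n ∉ A := fun h => by simpa using hA h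
  have h1 : (n ∈ A ∨ ∃ u ∈ up E A n, (u, n) ∈ E ∪ F) ↔ ∃ u ∈ up E A n, (u, n) ∈ F := by
    simp only [mem_union_top hE, hn, false_or]
  by_cases h2 : ∃ u ∈ up E A n, (u, n) ∈ F
  · rw [if_pos h2, if_pos (h1.mpr h2)]
  · rw [if_neg h2, if_neg (fun h => h2 (h1.mp h))]

lemma card_up_union_new (hF : F ⊆ col n) :
    (up (E ∪ F) (insert n A) (n + 1)).card = (up E A n).card + 1 := by
  rw [card_up_succ, up_insert_top hF, if_pos (Or.inl (Finset.mem_insert_self _ _))]

end step

/-- The weight of an antichain. -/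
noncomputable def wt (x : ℝ) (H : ℕ → ℝ) (E : Finset (ℕ × ℕ)) (A : Finset ℕ) (n : ℕ) : ℝ :=
  ind (anti E A n) * (x ^ A.card * H (up E A n).card)

/-- One step of the supermartingale. -/
lemma wt_step {p x : ℝ} {H : ℕ → ℝ} {n : ℕ} {E : Finset (ℕ × ℕ)} {A : Finset ℕ}
    (hE : E ⊆ cols 0 n) (hA : A ⊆ range n) :
    Ex p (col n) (fun F => wt x H (E ∪ F) A (n + 1) + wt x H (E ∪ F) (insert n A) (n + 1)) =
      ind (anti E A n) * (x ^ A.card *
        (H ((up E A n).card + 1) * (1 - (1 - p) ^ (up E A n).card) +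
          (H (up E A n).card + x * H ((up E A n).card + 1)) * (1 - p) ^ (up E A n).card)) := by
  set U := up E A n with hU
  have hUr : U ⊆ range n := up_subset_range E A n
  have hn : n ∉ A := fun h => by simpa using hA h
  have key : ∀ F ⊆ col n, wt x H (E ∪ F) A (n + 1) + wt x H (E ∪ F) (insert n A) (n + 1) =
      ind (anti E A n) * (x ^ A.card * (H (U.card + 1) * ind (∃ u ∈ U, (u, n) ∈ F) +
        (H U.card + x * H (U.card + 1)) * ind (¬ ∃ u ∈ U, (u, n) ∈ F))) := by
    intro F hF
    unfold wt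
    rw [ind_congr (anti_union_old hF hA), ind_congr (anti_union_new hE hF hA), ind_and,
      card_up_union_old hE hF hA, card_up_union_new hF, Finset.card_insert_of_notMem hn,
      pow_succ]
    by_cases h : ∃ u ∈ U, (u, n) ∈ F
    · rw [if_pos h, ind_pos h, ind_neg (not_not.mpr h)]
      ring
    · rw [if_neg h, ind_neg h, ind_pos h]
      ring
  rw [Ex_congr key, Ex_mul_left, Ex_mul_left, Ex_col_hit p hUr]

lemma sum_wt_le {p x : ℝ} (hp0 : 0 ≤ p) (hp1 : p ≤ 1) (hx : 0 ≤ x) {H : ℕ → ℝ} {N : ℕ}
    (hH0 : H 0 = 0)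
    (hH : ∀ u, 1 ≤ u → u < N → H (u + 1) * (1 - (1 - p) ^ u) +
      (H u + x * H (u + 1)) * (1 - p) ^ u ≤ H u) (n : ℕ) (hn : n ≤ N) :
    Ex p (cols 0 n) (fun E => ∑ A ∈ (range n).powerset, wt x H E A n) ≤ n * (x * H 1) := by
  induction n with
  | zero =>
    rw [cols_self, Ex_empty]
    simp [wt, up, hH0]
  | succ n ih =>
    have ih' := ih (by omega)
    rw [Ex_cols_succ (Nat.zero_le n)]
    have h1 : ∀ E ⊆ cols 0 n, Ex p (col n) (fun F =>
        ∑ A ∈ (range (n + 1)).powerset, wt x H (E ∪ F) A (n + 1)) ≤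
        (∑ A ∈ (range n).powerset, wt x H E A n) + x * H 1 := by
      intro E hE
      have h2 : ∀ F : Finset (ℕ × ℕ), ∑ A ∈ (range (n + 1)).powerset, wt x H (E ∪ F) A (n + 1) =
          ∑ A ∈ (range n).powerset,
            (wt x H (E ∪ F) A (n + 1) + wt x H (E ∪ F) (insert n A) (n + 1)) := by
        intro F
        rw [Finset.range_add_one, Finset.sum_powerset_insert (by simp),
          ← Finset.sum_add_distrib]
      simp only [h2]
      rw [Ex_sum]
      have h3 : ∑ A ∈ (range n).powerset, (if A = ∅ then x * H 1 else 0) = x * H 1 := by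
        rw [Finset.sum_ite_eq' (range n).powerset ∅ (fun _ => x * H 1)]
        simp
      rw [← h3, ← Finset.sum_add_distrib]
      refine Finset.sum_le_sum ?_
      intro A hA
      have hA' : A ⊆ range n := Finset.mem_powerset.mp hA
      rw [wt_step hE hA']
      by_cases hAe : A = ∅
      · subst hAe
        have hup : up E ∅ n = ∅ := by
          have : ∀ m, up E ∅ m = ∅ := by
            intro m
            induction m with
            | zero => rfl
            | succ m ihm => rw [up_succ, ihm]; simp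
          exact this n
        have hanti : anti E ∅ n := by
          intro j hj
          simp at hj
        unfold wt
        rw [hup, ind_pos hanti]
        simp [hH0]
      · rw [if_neg hAe, add_zero]
        unfold wt
        refine mul_le_mul_of_nonneg_left ?_ (ind_nonneg _)
        refine mul_le_mul_of_nonneg_left ?_ (pow_nonneg hx _)
        apply hH
        · rw [Nat.succ_le_iff, Finset.card_pos]
          obtain ⟨a, ha⟩ := Finset.nonempty_iff_ne_empty.mpr hAe
          exact ⟨a, mem_up_of_mem ha (Finset.mem_range.mp (hA' ha))⟩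
        · have : (up E A n).card ≤ (range n).card :=
            Finset.card_le_card (up_subset_range E A n)
          rw [Finset.card_range] at this
          omega
    calc Ex p (cols 0 n) (fun E => Ex p (col n) (fun F =>
            ∑ A ∈ (range (n + 1)).powerset, wt x H (E ∪ F) A (n + 1)))
        ≤ Ex p (cols 0 n) (fun E => (∑ A ∈ (range n).powerset, wt x H E A n) + x * H 1) :=
          Ex_mono hp0 hp1 h1
      _ = Ex p (cols 0 n) (fun E => ∑ A ∈ (range n).powerset, wt x H E A n) + x * H 1 := by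
          rw [Ex_add, Ex_const]
      _ ≤ n * (x * H 1) + x * H 1 := by linarith
      _ = ((n + 1 : ℕ) : ℝ) * (x * H 1) := by push_cast; ring

/-- The weight function. -/
noncomputable def hfun (p x : ℝ) (N u : ℕ) : ℝ :=
  if u = 0 then 0 else ∏ v ∈ Ico u N, (1 + x * (1 - p) ^ v / (1 - (1 - p) ^ v))

/-- First moment bound for antichains. -/
theorem Pr_anti_le {p x : ℝ} (hp0 : 0 < p) (hp1 : p ≤ 1) (hx : 0 < x) (n k : ℕ) (hk : 1 ≤ k) :
    x ^ k * Pr p (cols 0 n) (fun E => ∃ A ⊆ range n, A.card = k ∧ anti E A n) ≤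
      n * (x * ∏ v ∈ Ico 1 (n + 1), (1 + x * (1 - p) ^ v / (1 - (1 - p) ^ v))) := by
  have hq0 : 0 ≤ 1 - p := by linarith
  have hq1 : 1 - p < 1 := by linarith
  have hqv : ∀ v : ℕ, 1 ≤ v → (1 - p) ^ v < 1 := by
    intro v hv
    exact pow_lt_one₀ hq0 hq1 (by omega)
  have hterm : ∀ v : ℕ, 1 ≤ v → 1 ≤ 1 + x * (1 - p) ^ v / (1 - (1 - p) ^ v) := by
    intro v hv
    have h1 : 0 < 1 - (1 - p) ^ v := by linarith [hqv v hv]
    have : 0 ≤ x * (1 - p) ^ v / (1 - (1 - p) ^ v) := by positivity
    linarith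
  set H := hfun p x (n + 1) with hH
  have hH1 : ∀ u, 1 ≤ u → 1 ≤ H u := by
    intro u hu
    rw [hH, hfun, if_neg (by omega)]
    apply Finset.one_le_prod
    intro v hv
    exact hterm v (by rw [Finset.mem_Ico] at hv; omega)
  have hHrec : ∀ u, 1 ≤ u → u < n + 1 → H (u + 1) * (1 - (1 - p) ^ u) +
      (H u + x * H (u + 1)) * (1 - p) ^ u ≤ H u := by
    intro u hu hun
    have h1 : H u = (1 + x * (1 - p) ^ u / (1 - (1 - p) ^ u)) * H (u + 1) := by
      rw [hH, hfun, hfun, if_neg (by omega), if_neg (by omega),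
        Finset.prod_eq_prod_Ico_succ_bot hun]
    have h2 : 0 < 1 - (1 - p) ^ u := by linarith [hqv u hu]
    have h3 : H u * (1 - (1 - p) ^ u) = (1 - (1 - p) ^ u + x * (1 - p) ^ u) * H (u + 1) := by
      rw [h1]
      field_simp
    nlinarith [h3]
  have hmain := sum_wt_le (p := p) (x := x) hp0.le hp1 hx.le (H := H) (N := n + 1)
    (by rw [hH, hfun, if_pos rfl]) hHrec n (by omega)
  have hH1' : H 1 = ∏ v ∈ Ico 1 (n + 1), (1 + x * (1 - p) ^ v / (1 - (1 - p) ^ v)) := by
    rw [hH, hfun, if_neg one_ne_zero]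
  rw [← hH1']
  refine le_trans ?_ hmain
  unfold Pr
  rw [← Ex_mul_left]
  refine Ex_mono hp0.le hp1 ?_
  intro E _
  have hnn : ∀ A : Finset ℕ, 0 ≤ H (up E A n).card := by
    intro A
    by_cases h : (up E A n).card = 0
    · rw [h, hH, hfun, if_pos rfl]
    · exact zero_le_one.trans (hH1 _ (by omega))
  have hwnn : ∀ A ∈ (range n).powerset, 0 ≤ wt x H E A n := by
    intro A _
    unfold wt
    exact mul_nonneg (ind_nonneg _) (mul_nonneg (pow_nonneg hx.le _) (hnn A))
  by_cases h : ∃ A ⊆ range n, A.card = k ∧ anti E A n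
  · rw [ind_pos h, mul_one]
    obtain ⟨A, hA, hAk, hanti⟩ := h
    refine le_trans ?_ (Finset.single_le_sum hwnn (Finset.mem_powerset.mpr hA))
    unfold wt
    rw [ind_pos hanti, one_mul, hAk]
    refine le_mul_of_one_le_right (pow_nonneg hx.le _) (hH1 _ ?_)
    rw [Nat.succ_le_iff, Finset.card_pos]
    have hAne : A.Nonempty := by
      rw [← Finset.card_pos]; omega
    obtain ⟨a, ha⟩ := hAne
    exact ⟨a, mem_up_of_mem ha (Finset.mem_range.mp (hA ha))⟩
  · rw [ind_neg h, mul_zero]
    exact Finset.sum_nonneg hwnn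

end Pool.Agent.Helper65
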