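import Pool.Agent.Helper65.Windows
import Pool.Agent.Helper65.Width

/-!
# Transfer between vertex set `Fin n` and `{0, …, n-1} ⊆ ℕ`
-/

set_option autoImplicit false

namespace Pool.Agent.Helper65

open Finset

/-- The event in the problem: every antichain is at most `1 / ε` times as large as every realizer. -/
def Good (ε : ℝ) (n : ℕ) (E : Finset (Fin n × Fin n)) : Prop :=
  ∀ d : ℕ, ∀ A : Finset (Fin n),
    (∀ x ∈ A, ∀ y ∈ A, ¬ Relation.TransGen (fun a b => (a, b) ∈ E) x y) →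
    (∃ σ : Fin d → Equiv.Perm (Fin n), ∀ x y : Fin n, x ≠ y →
      (Relation.TransGen (fun a b => (a, b) ∈ E) x y ↔ ∀ k : Fin d, σ k x < σ k y)) →
    ε * (A.card : ℝ) ≤ (d : ℝ)

/-- The embedding of pairs. -/
def pairEmb (n : ℕ) : Fin n × Fin n ↪ ℕ × ℕ :=
  ⟨fun e => (e.1.val, e.2.val), by
    rintro ⟨a, b⟩ ⟨c, d⟩ h
    simp only [Prod.mk.injEq] at h
    exact Prod.ext (Fin.ext h.1) (Fin.ext h.2)⟩

lemma mem_map_pairEmb {n : ℕ} {E : Finset (Fin n × Fin n)} {x y : ℕ} :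
    (x, y) ∈ E.map (pairEmb n) ↔ ∃ (hx : x < n) (hy : y < n), ((⟨x, hx⟩ : Fin n), (⟨y, hy⟩ : Fin n)) ∈ E := by
  rw [Finset.mem_map]
  constructor
  · rintro ⟨⟨a, b⟩, hab, h⟩
    simp only [pairEmb, Function.Embedding.coeFn_mk, Prod.mk.injEq] at h
    obtain ⟨rfl, rfl⟩ := h
    exact ⟨a.2, b.2, hab⟩
  · rintro ⟨hx, hy, h⟩
    exact ⟨_, h, rfl⟩

lemma map_pairs (n : ℕ) :
    ((Finset.univ.filter (fun e : Fin n × Fin n => e.1 < e.2)).map (pairEmb n)) = cols 0 n := by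
  ext ⟨x, y⟩
  rw [mem_map_pairEmb, mem_cols]
  simp only [Finset.mem_filter, Finset.mem_univ, true_and]
  constructor
  · rintro ⟨hx, hy, h⟩
    exact ⟨h, Nat.zero_le _, hy⟩
  · rintro ⟨h, _, hy⟩
    exact ⟨h.trans hy, hy, h⟩

lemma rel_map_iff {n : ℕ} {E : Finset (Fin n × Fin n)} (x y : Fin n) :
    Rel (E.map (pairEmb n)) x y ↔ Relation.TransGen (fun a b => (a, b) ∈ E) x y := by
  constructor
  · intro h
    have key : ∀ z : ℕ, Rel (E.map (pairEmb n)) x z → ∃ hz : z < n,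
        Relation.TransGen (fun a b => (a, b) ∈ E) x ⟨z, hz⟩ := by
      intro z hz
      induction hz with
      | single h =>
        obtain ⟨_, hy, h2⟩ := mem_map_pairEmb.mp h
        exact ⟨hy, Relation.TransGen.single h2⟩
      | tail _ h ih =>
        obtain ⟨hz1, h1⟩ := ih
        obtain ⟨_, hy, h2⟩ := mem_map_pairEmb.mp h
        exact ⟨hy, Relation.TransGen.tail h1 h2⟩
    obtain ⟨_, h2⟩ := key y h
    exact h2
  · intro h
    induction h with
    | single h =>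
      exact Relation.TransGen.single (mem_map_pairEmb.mpr ⟨x.2, Fin.isLt _, h⟩)
    | tail _ h ih =>
      exact Relation.TransGen.tail ih (mem_map_pairEmb.mpr ⟨Fin.isLt _, Fin.isLt _, h⟩)

lemma good_of_not {n k D : ℕ} {ε : ℝ} (hε : 0 ≤ ε)
    (hεk : ε * ((k : ℝ) - 1) ≤ D) {E : Finset (Fin n × Fin n)}
    (hE : E.map (pairEmb n) ⊆ cols 0 n)
    (h1 : ¬ ∃ A ⊆ range n, A.card = k ∧ anti (E.map (pairEmb n)) A n)
    (h2 : ¬ ∃ d < D, ∃ σ : Fin d → ℕ → ℕ, IsRealizer n (E.map (pairEmb n)) d σ) :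
    Good ε n E := by
  intro d A hA hσ
  have hlt : ∀ e ∈ E.map (pairEmb n), e.1 < e.2 := fun e he => (mem_cols.mp (hE he)).1
  -- the antichain has fewer than `k` elements
  have hcard : A.card < k := by
    by_contra hcon
    push Not at hcon
    apply h1
    obtain ⟨B, hB, hBk⟩ := Finset.exists_subset_card_eq
      (s := A.map Fin.valEmbedding) (n := k) (by rw [Finset.card_map]; exact hcon)
    have hmemA : ∀ x ∈ B, ∃ (hx : x < n), (⟨x, hx⟩ : Fin n) ∈ A := by
      intro x hx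
      have := hB hx
      rw [Finset.mem_map] at this
      obtain ⟨a, ha, rfl⟩ := this
      exact ⟨a.2, ha⟩
    refine ⟨B, ?_, hBk, ?_⟩
    · intro x hx
      obtain ⟨hx', _⟩ := hmemA x hx
      exact Finset.mem_range.mpr hx'
    · rintro j hj hjn ⟨u, hu, huj⟩
      obtain ⟨hjn', hjA⟩ := hmemA j hj
      rw [mem_up_iff_transGen hlt] at hu
      rcases hu.2 with huB | ⟨a, haB, hau⟩
      · obtain ⟨hun, huA⟩ := hmemA u huB
        refine hA ⟨u, hun⟩ huA ⟨j, hjn⟩ hjA ?_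
        rw [← rel_map_iff]
        exact Relation.TransGen.single huj
      · obtain ⟨han, haA⟩ := hmemA a haB
        refine hA ⟨a, han⟩ haA ⟨j, hjn⟩ hjA ?_
        rw [← rel_map_iff]
        exact Relation.TransGen.tail hau huj
  -- the realizer has at least `D` linear orders
  have hd : D ≤ d := by
    by_contra hcon
    push Not at hcon
    apply h2
    obtain ⟨σ, hσ⟩ := hσ
    refine ⟨d, hcon, fun k x => if h : x < n then (σ k ⟨x, h⟩ : ℕ) else 0, ?_, ?_⟩
    · intro k x hx y hy hxy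
      simp only [dif_pos hx, dif_pos hy] at hxy
      have := (σ k).injective (Fin.ext hxy)
      exact Fin.mk.inj_iff.mp this
    · intro x hx y hy hxy
      have h3 := hσ ⟨x, hx⟩ ⟨y, hy⟩ (fun h => hxy (Fin.mk.inj_iff.mp h))
      have h4 := rel_map_iff (E := E) ⟨x, hx⟩ ⟨y, hy⟩
      simp only at h4
      rw [h4, h3]
      simp only [dif_pos hx, dif_pos hy, Fin.lt_def]
  have h5 : (A.card : ℝ) ≤ (k : ℝ) - 1 := by
    have : A.card + 1 ≤ k := hcard
    have : ((A.card + 1 : ℕ) : ℝ) ≤ k := by exact_mod_cast this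
    push_cast at this
    linarith
  calc ε * (A.card : ℝ) ≤ ε * ((k : ℝ) - 1) := mul_le_mul_of_nonneg_left h5 hε
    _ ≤ D := hεk
    _ ≤ d := by exact_mod_cast hd

/-- The sum in the problem is the probability of the event `Good`. -/
lemma sum_eq_Pr (p : ℝ) (n : ℕ) (G : Finset (Fin n × Fin n) → Prop) [DecidablePred G] :
    ∑ E ∈ ((Finset.univ.filter (fun e : Fin n × Fin n => e.1 < e.2)).powerset.filter G),
      p ^ E.card * (1 - p) ^
        ((Finset.univ.filter (fun e : Fin n × Fin n => e.1 < e.2)).card - E.card) =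
    Pr p (Finset.univ.filter (fun e : Fin n × Fin n => e.1 < e.2)) G := by
  unfold Pr Ex
  rw [Finset.sum_filter]
  refine Finset.sum_congr rfl ?_
  intro E _
  show _ = _ * ind (G E)
  by_cases h : G E
  · rw [if_pos h, ind_pos h, mul_one]
  · rw [if_neg h, ind_neg h, mul_zero]

lemma Pr_Good_ge {p ε : ℝ} (hp0 : 0 ≤ p) (hp1 : p ≤ 1) {n k D : ℕ} (hε : 0 ≤ ε)
    (hεk : ε * ((k : ℝ) - 1) ≤ D) :
    1 - Pr p (cols 0 n) (fun E => ∃ A ⊆ range n, A.card = k ∧ anti E A n) -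
      Pr p (cols 0 n) (fun E => ∃ d < D, ∃ σ : Fin d → ℕ → ℕ, IsRealizer n E d σ) ≤
    Pr p (Finset.univ.filter (fun e : Fin n × Fin n => e.1 < e.2)) (Good ε n) := by
  set S := Finset.univ.filter (fun e : Fin n × Fin n => e.1 < e.2) with hS
  have h1 : Pr p (cols 0 n) (fun E => ∃ A ⊆ range n, A.card = k ∧ anti E A n) =
      Pr p S (fun E => ∃ A ⊆ range n, A.card = k ∧ anti (E.map (pairEmb n)) A n) := by
    rw [← map_pairs]
    unfold Pr
    rw [Ex_map]
  have h2 : Pr p (cols 0 n) (fun E => ∃ d < D, ∃ σ : Fin d → ℕ → ℕ, IsRealizer n E d σ) =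
      Pr p S (fun E => ∃ d < D, ∃ σ : Fin d → ℕ → ℕ, IsRealizer n (E.map (pairEmb n)) d σ) := by
    rw [← map_pairs]
    unfold Pr
    rw [Ex_map]
  have h3 := Pr_not p S (Good ε n)
  have h4 : Pr p S (fun E => ¬ Good ε n E) ≤
      Pr p S (fun E => (∃ A ⊆ range n, A.card = k ∧ anti (E.map (pairEmb n)) A n) ∨
        (∃ d < D, ∃ σ : Fin d → ℕ → ℕ, IsRealizer n (E.map (pairEmb n)) d σ)) := by
    refine Pr_mono hp0 hp1 ?_
    intro E hE hG
    by_contra hcon
    rw [not_or] at hcon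
    refine hG (good_of_not hε hεk ?_ hcon.1 hcon.2)
    rw [← map_pairs]
    exact Finset.map_subset_map.mpr hE
  have h5 := Pr_or_le (s := S) hp0 hp1
    (fun E => ∃ A ⊆ range n, A.card = k ∧ anti (E.map (pairEmb n)) A n)
    (fun E => ∃ d < D, ∃ σ : Fin d → ℕ → ℕ, IsRealizer n (E.map (pairEmb n)) d σ)
  rw [h1, h2]
  linarith

end Pool.Agent.Helper65
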