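import Pool.Agent.Helper65.WindowMain
import Pool.Agent.Helper65.Transfer
import Pool.Agent.Helper27.RGOWidthMid
import Pool.Agent.Helper27.RGOWindowReduce

/-!
# The sparse range
-/

set_option autoImplicit false

namespace Pool.Agent.Helper65

open Finset Real Filter Topology

/-- The bound for one window. -/
def WindowMain (R : ℕ) (lam : ℝ) : Prop :=
  ∀ δ : ℝ, 0 < δ → ∀ᶠ p : ℝ in 𝓝[>] (0 : ℝ), ∀ m t : ℕ, 1 / (64 * p) ≤ m →
    (m : ℝ) ≤ (-log p) ^ 3 / p → (1 + p) ^ t ≤ √(lam * (-log p) / p) →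
    √(lam * (-log p) / p) ≤ 2 * (1 + p) ^ t →
    Pr p (cols 0 (2 * (m + t))) (fun E => ∃ d < ⌈(m : ℝ) / (32 * R)⌉₊, ∃ σ : Fin d → ℕ → ℕ,
      IsRealizer (2 * (m + t)) E d σ) ≤
      1 - (Pr p (cols 0 m) (fun F => 7 * m ≤ 8 * (iso m F).card)) ^ 2 * (1 - δ)

theorem Good_mono {ε ε' : ℝ} (h : ε ≤ ε') {n : ℕ} {E : Finset (Fin n × Fin n)}
    (hE : Good ε' n E) : Good ε n E := by
  intro d A hA hσ
  exact (mul_le_mul_of_nonneg_right h (Nat.cast_nonneg _)).trans (hE d A hA hσ)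

lemma t_bound {p L : ℝ} (hp0 : 0 < p) (hL : L = -log p) (hL1 : 1 ≤ L) {t : ℕ}
    (ht : (1 + p) ^ t ≤ √(1 / 4096 * L / p)) :
    2 * t * p ≤ (1 + p) * (L + log L - 8) := by
  have hL0 : 0 < L := by linarith
  have h0 : (0 : ℝ) < (1 + p) ^ t := by positivity
  have h1 : (t : ℝ) * log (1 + p) ≤ log (√(1 / 4096 * L / p)) := by
    rw [← Real.log_pow]
    exact Real.log_le_log h0 ht
  have h2 : p / (1 + p) ≤ log (1 + p) := by
    have h3 := Real.one_sub_inv_le_log_of_pos (by linarith : (0 : ℝ) < 1 + p)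
    have h5 : 1 - (1 + p)⁻¹ = p / (1 + p) := by field_simp; ring
    linarith
  have h3 : log (√(1 / 4096 * L / p)) = (log L - log 4096 + L) / 2 := by
    rw [Real.log_sqrt (by positivity)]
    congr 1
    rw [show (1 : ℝ) / 4096 * L / p = L / (4096 * p) by field_simp,
      Real.log_div hL0.ne' (by positivity), Real.log_mul (by norm_num) hp0.ne', hL]
    ring
  have h4 : (8 : ℝ) ≤ log 4096 := by
    have h5 : log (4096 : ℝ) = 12 * log 2 := by
      rw [show (4096 : ℝ) = 2 ^ 12 by norm_num, Real.log_pow]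
      norm_num
    rw [h5]
    have := Real.log_two_gt_d9
    linarith
  have h6 : (t : ℝ) * (p / (1 + p)) ≤ (L + log L - 8) / 2 := by
    have h7 : (t : ℝ) * (p / (1 + p)) ≤ t * log (1 + p) :=
      mul_le_mul_of_nonneg_left h2 (Nat.cast_nonneg _)
    rw [h3] at h1
    linarith
  have h8 : (t : ℝ) * (p / (1 + p)) = (t * p) / (1 + p) := by ring
  rw [h8, div_le_iff₀ (by linarith)] at h6
  linarith

/-- The common choice of parameters. -/
lemma mid_core {n R : ℕ} {p δ' q0 X ℓ L : ℝ} (hR : 1 ≤ R) (hn : 3 ≤ n) (hℓ : ℓ = log n)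
    (hp0 : 0 < p) (hp1 : p ≤ 1 / 10000) (hL : L = -log p) (hL1 : 1 ≤ L)
    (hX : X = max (1 / p) (√(ℓ / p))) (hXL : X ≤ L ^ 3 / p * 32)
    (hwin : ∀ m t : ℕ, 1 / (64 * p) ≤ m →
    (m : ℝ) ≤ (-log p) ^ 3 / p → (1 + p) ^ t ≤ √(1 / 4096 * (-log p) / p) →
    √(1 / 4096 * (-log p) / p) ≤ 2 * (1 + p) ^ t →
    Pr p (cols 0 (2 * (m + t))) (fun E => ∃ d < ⌈(m : ℝ) / (32 * R)⌉₊, ∃ σ : Fin d → ℕ → ℕ,
      IsRealizer (2 * (m + t)) E d σ) ≤
      1 - (Pr p (cols 0 m) (fun F => 7 * m ≤ 8 * (iso m F).card)) ^ 2 * (1 - δ'))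
    (hq0 : ∀ m t : ℕ, 1 / (64 * p) ≤ m → (m : ℝ) ≤ X / 32 →
      (1 + p) ^ t ≤ √(1 / 4096 * L / p) → 
      ∃ W : ℕ, W * (2 * (m + t)) ≤ n ∧
      (1 - (Pr p (cols 0 m) (fun F => 7 * m ≤ 8 * (iso m F).card)) ^ 2 * (1 - δ')) ^ W ≤ q0) :
    1 - 1 / n - q0 ≤ Pr p (Finset.univ.filter (fun e : Fin n × Fin n => e.1 < e.2))
      (Good (1 / (9 * 64 * 32 * R)) n) := by
  have hR0 : (0 : ℝ) < R := by exact_mod_cast hR
  have hL0 : 0 < L := by linarith
  have hX1 : 1 / p ≤ X := by rw [hX]; exact le_max_left _ _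
  have h1p : 10000 ≤ 1 / p := by
    rw [le_div_iff₀ hp0]; linarith
  have hX0 : 0 < X := by linarith
  have hn1 : (1 : ℝ) ≤ n := by exact_mod_cast (by omega : 1 ≤ n)
  have hℓ0 : 0 ≤ ℓ := by rw [hℓ]; exact Real.log_nonneg hn1
  have hX2 : log n ≤ p * X ^ 2 := by
    have h1 : √(ℓ / p) ≤ X := by rw [hX]; exact le_max_right _ _
    have h2 : ℓ / p ≤ X ^ 2 := by
      have := pow_le_pow_left₀ (Real.sqrt_nonneg _) h1 2
      rwa [Real.sq_sqrt (by positivity)] at this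
    rw [← hℓ]
    rw [div_le_iff₀ hp0] at h2
    linarith
  set m := ⌊X / 32⌋₊ with hm
  have hm1 : (m : ℝ) ≤ X / 32 := Nat.floor_le (by positivity)
  have hm2 : X / 32 - 1 < m := Nat.sub_one_lt_floor _
  have hm3 : X / 64 ≤ m := by linarith
  have hm4 : 1 / (64 * p) ≤ m := by
    have : 1 / (64 * p) = 1 / p / 64 := by field_simp
    rw [this]
    linarith
  set g := √(1 / 4096 * L / p) with hg
  have hg1 : 1 ≤ g := by
    rw [hg]
    refine Real.one_le_sqrt.mpr ?_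
    have : (1 : ℝ) / 4096 * L / p = (1 / p) * L / 4096 := by ring
    rw [this, le_div_iff₀ (by norm_num)]
    nlinarith
  obtain ⟨t, ht1, ht2⟩ := exists_nat_pow_near hg1 (by linarith : (1 : ℝ) < 1 + p)
  have ht3 : g ≤ 2 * (1 + p) ^ t := by
    have h1 : (1 + p) ^ (t + 1) = (1 + p) * (1 + p) ^ t := by ring
    have h2 : (1 + p) * (1 + p) ^ t ≤ 2 * (1 + p) ^ t :=
      mul_le_mul_of_nonneg_right (by linarith) (by positivity)
    linarith
  have hwin' := hwin m t hm4 (by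
    rw [← hL]; linarith) (by rw [← hL]; exact ht1) (by rw [← hL]; exact ht3)
  obtain ⟨W, hW, hWq⟩ := hq0 m t hm4 hm1 ht1
  -- parameters of the final event
  set k := ⌈8 * X⌉₊ + 1 with hk
  set D := ⌈(m : ℝ) / (32 * R)⌉₊ with hD
  have hkX : 8 * X ≤ (k : ℝ) - 1 := by
    rw [hk]; push_cast
    have := Nat.le_ceil (8 * X)
    linarith
  have hwidth := (width_mid hp0 (by linarith) (by omega) hX1 hX2 k hkX).2
  have hsmall := Pr_realizer_windows hp0.le (by linarith : p ≤ 1) n (2 * (m + t)) W D hW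
  have hεk : 1 / (9 * 64 * 32 * R) * ((k : ℝ) - 1) ≤ D := by
    have h1 : (k : ℝ) - 1 ≤ 9 * X := by
      rw [hk]; push_cast
      have := (Nat.ceil_lt_add_one (by positivity : 0 ≤ 8 * X)).le
      linarith
    have h2 : (m : ℝ) / (32 * R) ≤ D := Nat.le_ceil _
    refine le_trans ?_ h2
    have h3 : 1 / (9 * 64 * 32 * (R : ℝ)) * ((k : ℝ) - 1) ≤ 1 / (9 * 64 * 32 * R) * (9 * X) :=
      mul_le_mul_of_nonneg_left h1 (by positivity)
    refine h3.trans ?_
    have h4 : 1 / (9 * 64 * 32 * (R : ℝ)) * (9 * X) = (X / 64) / (32 * R) := by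
      field_simp
    rw [h4]
    exact div_le_div_of_nonneg_right hm3 (by positivity)
  have hgood := Pr_Good_ge (p := p) hp0.le (by linarith) (n := n) (k := k) (D := D)
    (ε := 1 / (9 * 64 * 32 * R)) (by positivity) hεk
  refine le_trans ?_ hgood
  have hpw : (Pr p (cols 0 (2 * (m + t))) (fun E => ∃ d < D, ∃ σ : Fin d → ℕ → ℕ,
      IsRealizer (2 * (m + t)) E d σ)) ^ W ≤ q0 := by
    refine le_trans (pow_le_pow_left₀ (Pr_nonneg hp0.le (by linarith) _) hwin' W) hWq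
  linarith

lemma mid_case1 {n : ℕ} {p δ' e' X ℓ L : ℝ} (hn : 3 ≤ n) (hℓ : ℓ = log n)
    (hp0 : 0 < p) (hp1 : p ≤ 1 / 10000) (hL : L = -log p) (hL1 : 1 ≤ L)
    (hX : X = max (1 / p) (√(ℓ / p))) (hpL : p * (L + log L) ≤ 1) (hlow : ℓ / n ≤ p)
    (hcase : p * ℓ ≤ 1) (hδ0 : 0 ≤ δ') (_hδ1 : δ' ≤ 1) (he : exp (-(1 / (12800 * p))) ≤ e') :
    ∀ m t : ℕ, 1 / (64 * p) ≤ m → (m : ℝ) ≤ X / 32 →
      (1 + p) ^ t ≤ √(1 / 4096 * L / p) →
      ∃ W : ℕ, W * (2 * (m + t)) ≤ n ∧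
      (1 - (Pr p (cols 0 m) (fun F => 7 * m ≤ 8 * (iso m F).card)) ^ 2 * (1 - δ')) ^ W ≤
        2 * e' + δ' := by
  intro m t hm hm2 ht
  have hn3 : (3 : ℝ) ≤ n := by exact_mod_cast hn
  have hn0 : (0 : ℝ) < n := by linarith
  have hℓ1 : 1 ≤ ℓ := by
    rw [hℓ, Real.le_log_iff_exp_le hn0]
    linarith [Real.exp_one_lt_d9]
  have hL0 : 0 < L := by linarith
  have hXp : X = 1 / p := by
    rw [hX]
    refine max_eq_left ?_
    rw [Real.sqrt_le_iff]
    refine ⟨by positivity, ?_⟩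
    rw [div_pow, one_pow, div_le_div_iff₀ hp0 (by positivity)]
    nlinarith
  have hmp : (m : ℝ) * p ≤ 1 / 32 := by
    rw [hXp] at hm2
    have h1 : (m : ℝ) * p ≤ 1 / p / 32 * p := mul_le_mul_of_nonneg_right hm2 hp0.le
    have h2 : 1 / p / 32 * p = 1 / 32 := by field_simp
    linarith
  have htp := t_bound hp0 hL hL1 ht
  refine ⟨1, ?_, ?_⟩
  · -- the window fits
    rw [one_mul]
    have hlogL : 0 ≤ log L := Real.log_nonneg hL1
    have h1 : ((2 * (m + t) : ℕ) : ℝ) * p ≤ L + log L := by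
      push_cast
      have h2 : (1 + p) * (L + log L - 8) = (L + log L) + p * (L + log L) - 8 - 8 * p := by ring
      linarith
    have h3 : L ≤ ℓ - log ℓ := by
      have h4 : log (ℓ / n) ≤ log p := Real.log_le_log (by positivity) hlow
      rw [Real.log_div (by linarith) hn0.ne'] at h4
      rw [hL, hℓ]
      rw [hℓ] at h4
      linarith
    have h5 : 0 ≤ log ℓ := Real.log_nonneg hℓ1
    have h6 : log L ≤ log ℓ := Real.log_le_log hL0 (by linarith)
    have h7 : ℓ ≤ n * p := by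
      rw [div_le_iff₀ hn0] at hlow
      linarith
    have h8 : ((2 * (m + t) : ℕ) : ℝ) * p ≤ n * p := by linarith
    exact_mod_cast le_of_mul_le_mul_right h8 hp0
  · rw [pow_one]
    have h1 := Pr_iso hp0.le (by linarith : p ≤ 1) m (by nlinarith)
    have h2 : exp (-((m : ℝ) / 200)) ≤ e' := by
      refine le_trans (Real.exp_le_exp.mpr ?_) he
      have : 1 / (12800 * p) = 1 / (64 * p) / 200 := by field_simp; norm_num
      rw [this]
      linarith
    set P := Pr p (cols 0 m) (fun F => 7 * m ≤ 8 * (iso m F).card) with hP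
    have hP1 : P ≤ 1 := Pr_le_one hp0.le (by linarith) _
    have hP0 : 1 - e' ≤ P := by linarith
    have h3 : 1 - 2 * e' ≤ P ^ 2 := by nlinarith [sq_nonneg (1 - P)]
    have h4 : P ^ 2 ≤ 1 := by
      have : 0 ≤ P := Pr_nonneg hp0.le (by linarith) _
      nlinarith
    have he0 : 0 ≤ e' := le_trans (exp_pos _).le he
    have h5 : (1 - 2 * e') - δ' ≤ P ^ 2 * (1 - δ') := by
      have h6 : P ^ 2 * δ' ≤ 1 * δ' := mul_le_mul_of_nonneg_right h4 hδ0
      linarith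
    linarith

lemma mid_case2 {n : ℕ} {p δ' q0 X ℓ L : ℝ} (hn : 3 ≤ n) (hℓ : ℓ = log n)
    (hp0 : 0 < p) (hp1 : p ≤ 1 / 10000) (hL : L = -log p) (hL1 : 1 ≤ L)
    (hX : X = max (1 / p) (√(ℓ / p)))
    (hcase : 1 < p * ℓ) (hδ0 : 0 ≤ δ') (hδ1 : δ' ≤ 1 / 2) (hbig : 5 * ℓ ^ 2 * (exp (ℓ / 2) + 1) ≤ n)
    (hq : exp (-(exp (ℓ / 4) / 2)) ≤ q0) :
    ∀ m t : ℕ, 1 / (64 * p) ≤ m → (m : ℝ) ≤ X / 32 →
      (1 + p) ^ t ≤ √(1 / 4096 * L / p) →
      ∃ W : ℕ, W * (2 * (m + t)) ≤ n ∧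
      (1 - (Pr p (cols 0 m) (fun F => 7 * m ≤ 8 * (iso m F).card)) ^ 2 * (1 - δ')) ^ W ≤ q0 := by
  intro m t hm hm2 ht
  have hn3 : (3 : ℝ) ≤ n := by exact_mod_cast hn
  have hn0 : (0 : ℝ) < n := by linarith
  have hℓ1 : 1 ≤ ℓ := by
    rw [hℓ, Real.le_log_iff_exp_le hn0]
    linarith [Real.exp_one_lt_d9]
  have hℓ0 : 0 < ℓ := by linarith
  have hL0 : 0 < L := by linarith
  have h1p : 1 / p < ℓ := by
    rw [div_lt_iff₀ hp0]; linarith
  have hXs : X = √(ℓ / p) := by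
    rw [hX]
    refine max_eq_right ?_
    refine Real.le_sqrt_of_sq_le ?_
    rw [div_pow, one_pow, div_le_div_iff₀ (by positivity) hp0]
    nlinarith
  have hX2 : X ^ 2 = ℓ / p := by rw [hXs]; exact Real.sq_sqrt (by positivity)
  have hX0 : 0 ≤ X := by rw [hXs]; exact Real.sqrt_nonneg _
  have hXl : X ≤ ℓ := by
    rw [hXs, Real.sqrt_le_iff]
    refine ⟨hℓ0.le, ?_⟩
    rw [div_eq_mul_one_div, sq]
    exact mul_le_mul_of_nonneg_left h1p.le hℓ0.le
  have htp := t_bound hp0 hL hL1 ht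
  have hlogL : 0 ≤ log L := Real.log_nonneg hL1
  have hlogL2 : log L ≤ L := by
    have := Real.log_le_sub_one_of_pos hL0
    linarith
  have hLℓ : L ≤ ℓ := by
    have h2 : L = log (1 / p) := by rw [one_div, Real.log_inv, hL]
    have h3 : log (1 / p) ≤ log ℓ := Real.log_le_log (by positivity) h1p.le
    have h4 := Real.log_le_sub_one_of_pos hℓ0
    linarith
  set N := 2 * (m + t) with hN
  have hm0 : 0 < (m : ℝ) := lt_of_lt_of_le (by positivity) hm
  have hm1 : 1 ≤ m := by exact_mod_cast hm0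
  have hN0 : 0 < N := by omega
  have hNle : (N : ℝ) ≤ 5 * ℓ ^ 2 := by
    rw [hN]
    push_cast
    have h2 : 2 * (t : ℝ) ≤ 4 * ℓ * L := by
      have h3 : 2 * (t : ℝ) * p ≤ 2 * (2 * L) := by
        refine htp.trans ?_
        have h4 : L + log L - 8 ≤ 2 * L := by linarith
        calc (1 + p) * (L + log L - 8) ≤ (1 + p) * (2 * L) :=
              mul_le_mul_of_nonneg_left h4 (by linarith)
          _ ≤ 2 * (2 * L) := mul_le_mul_of_nonneg_right (by linarith) (by linarith)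
      have h5 : 2 * (t : ℝ) = 2 * t * p * (1 / p) := by field_simp
      rw [h5]
      calc 2 * (t : ℝ) * p * (1 / p) ≤ 2 * (2 * L) * (1 / p) :=
            mul_le_mul_of_nonneg_right h3 (by positivity)
        _ ≤ 2 * (2 * L) * ℓ := mul_le_mul_of_nonneg_left h1p.le (by positivity)
        _ = 4 * ℓ * L := by ring
    have h6 : 4 * ℓ * L ≤ 4 * ℓ * ℓ := mul_le_mul_of_nonneg_left hLℓ (by positivity)
    have h7 : 2 * (m : ℝ) ≤ ℓ ^ 2 := by nlinarith
    nlinarith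
  set W := n / N with hW
  have hW1 : W * N ≤ n := Nat.div_mul_le_self n N
  have hW2 : exp (ℓ / 2) ≤ W := by
    have h2 : n < (W + 1) * N := by
      have h3 := Nat.lt_div_mul_add (a := n) hN0
      rw [← hW] at h3
      have h4 : (W + 1) * N = W * N + N := by ring
      rw [h4]
      exact h3
    have h3 : (n : ℝ) < (W + 1) * N := by exact_mod_cast h2
    have h4 : ((W : ℝ) + 1) * N ≤ (W + 1) * (5 * ℓ ^ 2) :=
      mul_le_mul_of_nonneg_left hNle (by positivity)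
    have h5 : 5 * ℓ ^ 2 * (exp (ℓ / 2) + 1) < 5 * ℓ ^ 2 * (W + 1) := by linarith
    have h6 := lt_of_mul_lt_mul_left h5 (by positivity)
    linarith
  refine ⟨W, hW1, ?_⟩
  -- the probability of an isolated block
  set P := Pr p (cols 0 m) (fun F => 7 * m ≤ 8 * (iso m F).card) with hP
  have hP1 : P ≤ 1 := Pr_le_one hp0.le (by linarith) _
  have hPlow : exp (-(ℓ / 1024)) ≤ P := by
    have h1 := Pr_iso_empty hp0.le (by linarith : p ≤ 1) m
    refine le_trans ?_ h1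
    have h2 := inv_pow_le_exp hp0.le (by linarith : p ≤ 1 / 2) (m * (m - 1) / 2)
    have hq0 : (0 : ℝ) < (1 - p) ^ (m * (m - 1) / 2) := pow_pos (by linarith) _
    have h3 : exp (-(2 * p * ((m * (m - 1) / 2 : ℕ) : ℝ))) ≤ (1 - p) ^ (m * (m - 1) / 2) := by
      rw [Real.exp_neg, inv_le_comm₀ (exp_pos _) hq0]
      exact h2
    refine le_trans (Real.exp_le_exp.mpr ?_) h3
    have h4 : ((m * (m - 1) / 2 : ℕ) : ℝ) ≤ (m : ℝ) ^ 2 / 2 := by
      have h5 : ((m * (m - 1) / 2 : ℕ) : ℝ) ≤ ((m * (m - 1) : ℕ) : ℝ) / 2 := Nat.cast_div_le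
      have h6 : ((m * (m - 1) : ℕ) : ℝ) ≤ (m : ℝ) ^ 2 := by
        have : m * (m - 1) ≤ m ^ 2 := by
          rw [sq]
          exact Nat.mul_le_mul_left _ (Nat.sub_le _ _)
        exact_mod_cast this
      linarith
    have h7 : (m : ℝ) ^ 2 ≤ (X / 32) ^ 2 := pow_le_pow_left₀ hm0.le hm2 2
    have h8 : 2 * p * ((m * (m - 1) / 2 : ℕ) : ℝ) ≤ 2 * p * ((X / 32) ^ 2 / 2) := by
      refine mul_le_mul_of_nonneg_left ?_ (by positivity)
      linarith
    have h9 : 2 * p * ((X / 32) ^ 2 / 2) = ℓ / 1024 := by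
      rw [div_pow, hX2]
      field_simp
      norm_num
    linarith
  have hP2 : exp (-(ℓ / 512)) ≤ P ^ 2 := by
    have h1 : exp (-(ℓ / 512)) = exp (-(ℓ / 1024)) ^ 2 := by
      rw [← Real.exp_nat_mul]
      congr 1
      push_cast
      ring
    rw [h1]
    exact pow_le_pow_left₀ (exp_pos _).le hPlow 2
  have hbase : 1 - P ^ 2 * (1 - δ') ≤ exp (-(exp (-(ℓ / 512)) / 2)) := by
    have h1 : exp (-(ℓ / 512)) / 2 ≤ P ^ 2 * (1 - δ') := by
      have h2 : exp (-(ℓ / 512)) * (1 / 2) ≤ P ^ 2 * (1 - δ') :=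
        mul_le_mul hP2 (by linarith) (by norm_num) (by positivity)
      linarith
    have h3 := Real.one_sub_le_exp_neg (exp (-(ℓ / 512)) / 2)
    linarith
  have hbase0 : 0 ≤ 1 - P ^ 2 * (1 - δ') := by
    have h1 : P ^ 2 ≤ 1 := by
      have : 0 ≤ P := Pr_nonneg hp0.le (by linarith) _
      nlinarith
    have h2 : P ^ 2 * (1 - δ') ≤ 1 * 1 :=
      mul_le_mul h1 (by linarith) (by linarith) (by norm_num)
    linarith
  refine (pow_le_pow_left₀ hbase0 hbase W).trans (le_trans ?_ hq)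
  rw [← Real.exp_nat_mul]
  refine Real.exp_le_exp.mpr ?_
  have h1 : exp (ℓ / 4) ≤ exp (ℓ / 2) * exp (-(ℓ / 512)) := by
    rw [← Real.exp_add]
    refine Real.exp_le_exp.mpr ?_
    linarith
  have h2 : exp (ℓ / 2) * exp (-(ℓ / 512)) ≤ W * exp (-(ℓ / 512)) :=
    mul_le_mul_of_nonneg_right hW2 (exp_pos _).le
  linarith

/-- Facts valid for all large `n`, uniformly in `p`. -/
theorem mid_range {R : ℕ} (hR : 1 ≤ R) (h : WindowMain R (1 / 4096)) :
    ∃ ε : ℝ, 0 < ε ∧ ∀ δ : ℝ, 0 < δ → ∀ᶠ n : ℕ in atTop, ∀ p : ℝ, log n / n ≤ p →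
      p ≤ (log (log n)) ^ 4 / log n →
      1 - δ ≤ Pr p (Finset.univ.filter (fun e : Fin n × Fin n => e.1 < e.2)) (Good ε n) := by
  have hR0 : (0 : ℝ) < R := by exact_mod_cast hR
  refine ⟨1 / (9 * 64 * 32 * R), by positivity, fun δ hδ => ?_⟩
  set δ' : ℝ := min (δ / 4) (1 / 2) with hδ'
  have hδ'0 : 0 < δ' := lt_min (by positivity) (by norm_num)
  have hδ'1 : δ' ≤ 1 / 2 := min_le_right _ _
  have hδ'2 : δ' ≤ δ / 4 := min_le_left _ _
  -- a threshold for `p`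
  have hev : ∀ᶠ p : ℝ in 𝓝[>] (0 : ℝ), (0 < p ∧ p ≤ 1 / 10000) ∧ 1 ≤ -log p ∧
      p * (-log p + log (-log p)) ≤ 1 ∧ exp (-(1 / (12800 * p))) ≤ δ / 8 ∧
      (∀ m t : ℕ, 1 / (64 * p) ≤ m →
      (m : ℝ) ≤ (-log p) ^ 3 / p → (1 + p) ^ t ≤ √(1 / 4096 * (-log p) / p) →
      √(1 / 4096 * (-log p) / p) ≤ 2 * (1 + p) ^ t →
      Pr p (cols 0 (2 * (m + t))) (fun E => ∃ d < ⌈(m : ℝ) / (32 * R)⌉₊, ∃ σ : Fin d → ℕ → ℕ,
        IsRealizer (2 * (m + t)) E d σ) ≤
        1 - (Pr p (cols 0 m) (fun F => 7 * m ≤ 8 * (iso m F).card)) ^ 2 * (1 - δ')) := by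
    have h1 : ∀ᶠ p : ℝ in 𝓝[>] (0 : ℝ), exp (-(1 / (12800 * p))) ≤ δ / 8 := by
      have h2 : Tendsto (fun p : ℝ => 1 / (12800 * p)) (𝓝[>] (0 : ℝ)) atTop := by
        have h3 : (fun p : ℝ => 1 / (12800 * p)) = fun p => (1 / 12800) * p⁻¹ := by
          funext p
          rw [one_div, mul_inv]
          ring
        rw [h3]
        exact tendsto_inv_nhdsGT_zero.const_mul_atTop (by norm_num)
      have h4 : Tendsto (fun p : ℝ => exp (-(1 / (12800 * p)))) (𝓝[>] (0 : ℝ)) (𝓝 0) :=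
        Real.tendsto_exp_neg_atTop_nhds_zero.comp h2
      exact h4.eventually (ge_mem_nhds (by positivity))
    filter_upwards [ev_pos_le (show (0 : ℝ) < 1 / 10000 by norm_num), ev_neg_log_ge 1,
      ev_pow_sqrt 1 2, h1, h δ' hδ'0] with p hp1 hp2 hp3 hp4 hp5
    refine ⟨hp1, hp2, ?_, hp4, hp5⟩
    have h6 : log (-log p) ≤ -log p := by
      have := Real.log_le_sub_one_of_pos (by linarith : (0 : ℝ) < -log p)
      linarith
    obtain ⟨hr0, hr1, hrr, hpr⟩ := sqrt_facts hp1.1 (by linarith [hp1.2] : p ≤ 1)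
    rw [pow_one] at hp3
    have h7 : p * (-log p + log (-log p)) ≤ p * (2 * (-log p)) :=
      mul_le_mul_of_nonneg_left (by linarith) hp1.1.le
    have h8 : p * (2 * (-log p)) ≤ √p * (2 * (-log p)) :=
      mul_le_mul_of_nonneg_right hpr (by linarith)
    linarith
  rw [eventually_nhdsWithin_iff, Metric.eventually_nhds_iff] at hev
  obtain ⟨p1, hp1, hev⟩ := hev
  -- large `n`
  have hnat : Tendsto (fun n : ℕ => log (n : ℝ)) atTop atTop :=
    Real.tendsto_log_atTop.comp tendsto_natCast_atTop_atTop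
  have hlog2 : Tendsto (fun n : ℕ => log (log (n : ℝ))) atTop atTop :=
    Real.tendsto_log_atTop.comp hnat
  -- (log x)^4 / x -> 0
  have hE1 : ∀ᶠ n : ℕ in atTop, (log (log (n : ℝ))) ^ 4 / log n < p1 := by
    have h1 : Tendsto (fun x : ℝ => log x ^ 4 / x) atTop (𝓝 0) := by
      have := (isLittleO_pow_log_id_atTop (n := 4)).tendsto_div_nhds_zero
      exact this
    exact (h1.comp hnat).eventually (gt_mem_nhds hp1)
  -- x^4 ≤ exp (x/2)
  have hE2 : ∀ᶠ n : ℕ in atTop, (log (log (n : ℝ))) ^ 4 ≤ exp (log (log n) / 2) := by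
    have h1 : ∀ᶠ x : ℝ in atTop, x ^ 4 ≤ exp (x / 2) := by
      have h2 : Tendsto (fun x : ℝ => (x / 2) ^ 4 * exp (-(x / 2))) atTop (𝓝 0) :=
        (Real.tendsto_pow_mul_exp_neg_atTop_nhds_zero 4).comp
          (tendsto_id.atTop_div_const (by norm_num : (0 : ℝ) < 2))
      filter_upwards [h2.eventually (ge_mem_nhds (show (0 : ℝ) < 1 / 16 by norm_num))] with x hx
      rw [Real.exp_neg, ← div_eq_mul_inv, div_le_iff₀ (exp_pos _)] at hx
      have h3 : (x / 2) ^ 4 = x ^ 4 / 16 := by ring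
      rw [h3] at hx
      linarith
    exact hlog2.eventually h1
  have hE3 : ∀ᶠ n : ℕ in atTop, 5 * (log (n : ℝ)) ^ 2 * (exp (log n / 2) + 1) ≤ n := by
    have h1 : ∀ᶠ x : ℝ in atTop, 5 * x ^ 2 * (exp (x / 2) + 1) ≤ exp x := by
      have h2 : Tendsto (fun x : ℝ => (x / 2) ^ 2 * exp (-(x / 2))) atTop (𝓝 0) :=
        (Real.tendsto_pow_mul_exp_neg_atTop_nhds_zero 2).comp
          (tendsto_id.atTop_div_const (by norm_num : (0 : ℝ) < 2))
      filter_upwards [h2.eventually (ge_mem_nhds (show (0 : ℝ) < 1 / 40 by norm_num)),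
        eventually_ge_atTop (0 : ℝ)] with x hx hx0
      rw [Real.exp_neg, ← div_eq_mul_inv, div_le_iff₀ (exp_pos _)] at hx
      have h3 : (x / 2) ^ 2 = x ^ 2 / 4 := by ring
      rw [h3] at hx
      have h4 : 1 ≤ exp (x / 2) := Real.one_le_exp (by linarith)
      have h5 : exp x = exp (x / 2) * exp (x / 2) := by
        rw [← Real.exp_add]; congr 1; ring
      rw [h5]
      have h6 : 10 * x ^ 2 ≤ exp (x / 2) := by linarith
      nlinarith [sq_nonneg x]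
    filter_upwards [hnat.eventually h1, eventually_ge_atTop 1] with n hn hn1
    have hn0 : (0 : ℝ) < n := by exact_mod_cast hn1
    rw [Real.exp_log hn0] at hn
    exact hn
  have hE4 : ∀ᶠ n : ℕ in atTop, exp (-(exp (log (n : ℝ) / 4) / 2)) ≤ δ / 4 := by
    have h1 : Tendsto (fun x : ℝ => exp (-(exp (x / 4) / 2))) atTop (𝓝 0) := by
      refine Real.tendsto_exp_neg_atTop_nhds_zero.comp ?_
      refine Tendsto.atTop_div_const (by norm_num) ?_
      exact Real.tendsto_exp_atTop.comp (tendsto_id.atTop_div_const (by norm_num))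
    exact (h1.comp hnat).eventually (ge_mem_nhds (by positivity))
  have hE5 : ∀ᶠ n : ℕ in atTop, (1 : ℝ) / n ≤ δ / 4 := by
    have h1 : Tendsto (fun n : ℕ => (1 : ℝ) / n) atTop (𝓝 0) :=
      tendsto_const_div_atTop_nhds_zero_nat 1
    exact h1.eventually (ge_mem_nhds (by positivity))
  filter_upwards [hE1, hE2, hE3, hE4, hE5, eventually_ge_atTop 3,
    hlog2.eventually_ge_atTop 2] with n e1 e2 e3 e4 e5 e6 e7 p hpl hpu
  set ℓ := log (n : ℝ) with hℓ
  have hn3 : (3 : ℝ) ≤ n := by exact_mod_cast e6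
  have hn0 : (0 : ℝ) < n := by linarith
  have hℓ1 : 1 ≤ ℓ := by
    rw [hℓ, Real.le_log_iff_exp_le hn0]
    linarith [Real.exp_one_lt_d9]
  have hℓ0 : 0 < ℓ := by linarith
  have hp0 : 0 < p := lt_of_lt_of_le (by positivity) hpl
  have hpp1 : p < p1 := hpu.trans_lt e1
  obtain ⟨⟨_, hp1'⟩, hL1, hpL, he, hwin⟩ := hev (y := p) (by
    rw [Real.dist_eq, sub_zero, abs_of_pos hp0]; exact hpp1) hp0
  set L := -log p with hL
  have hL0 : 0 < L := by linarith
  -- lower bound for `L`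
  have hLlow : log ℓ / 2 ≤ L := by
    have h1 : p ≤ exp (-(log ℓ / 2)) := by
      refine hpu.trans ?_
      rw [div_le_iff₀ hℓ0]
      have h2 : exp (-(log ℓ / 2)) * ℓ = exp (log ℓ / 2) := by
        nth_rewrite 2 [← Real.exp_log hℓ0]
        rw [← Real.exp_add]
        congr 1
        ring
      rw [h2]
      exact e2
    have h3 : log p ≤ -(log ℓ / 2) := by
      have := Real.log_le_log hp0 h1
      rwa [Real.log_exp] at this
    rw [hL]
    linarith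
  set X := max (1 / p) (√(ℓ / p)) with hX
  have hXL : X ≤ L ^ 3 / p * 32 := by
    rw [hX]
    refine max_le ?_ ?_
    · have h1 : 1 ≤ L ^ 3 := one_le_pow₀ hL1
      have h2 : 1 / p ≤ L ^ 3 / p := div_le_div_of_nonneg_right h1 hp0.le
      have h3 : 0 ≤ L ^ 3 / p := by positivity
      linarith
    · rw [Real.sqrt_le_iff]
      refine ⟨by positivity, ?_⟩
      have h1 : ℓ * p ≤ (log ℓ) ^ 4 := by
        rw [le_div_iff₀ hℓ0] at hpu
        linarith
      have h2 : (log ℓ) ^ 4 ≤ (2 * L) ^ 4 := pow_le_pow_left₀ (by linarith) (by linarith) 4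
      have h3 : (2 * L) ^ 4 ≤ 1024 * L ^ 6 := by
        have h4 : L ^ 4 ≤ L ^ 6 := pow_le_pow_right₀ hL1 (by norm_num)
        have h5 : (2 * L) ^ 4 = 16 * L ^ 4 := by ring
        rw [h5]
        have : 0 ≤ L ^ 6 := by positivity
        linarith
      have h6 : (L ^ 3 / p * 32) ^ 2 = 1024 * L ^ 6 / p ^ 2 := by
        field_simp
        ring
      rw [h6, div_le_div_iff₀ hp0 (by positivity)]
      have h7 : ℓ * p ≤ 1024 * L ^ 6 := by linarith
      have h8 : ℓ * p ^ 2 = (ℓ * p) * p := by ring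
      rw [h8]
      exact mul_le_mul_of_nonneg_right h7 hp0.le
  have hfin : ∃ q0 : ℝ, q0 ≤ 3 / 4 * δ ∧ (∀ m t : ℕ, 1 / (64 * p) ≤ m → (m : ℝ) ≤ X / 32 →
      (1 + p) ^ t ≤ √(1 / 4096 * L / p) →
      ∃ W : ℕ, W * (2 * (m + t)) ≤ n ∧
      (1 - (Pr p (cols 0 m) (fun F => 7 * m ≤ 8 * (iso m F).card)) ^ 2 * (1 - δ')) ^ W ≤ q0) := by
    rcases le_or_gt (p * ℓ) 1 with hcase | hcase
    · refine ⟨2 * (δ / 8) + δ', by linarith, ?_⟩
      exact mid_case1 e6 hℓ hp0 hp1' hL hL1 hX hpL hpl hcase hδ'0.le (by linarith) he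
    · refine ⟨δ / 4, by linarith, ?_⟩
      exact mid_case2 e6 hℓ hp0 hp1' hL hL1 hX hcase hδ'0.le hδ'1 e3 e4
  obtain ⟨q0, hq0, hq⟩ := hfin
  have hcore := mid_core (n := n) (R := R) (p := p) (δ' := δ') (q0 := q0) (X := X) (ℓ := ℓ)
    (L := L) hR e6 hℓ hp0 hp1' hL hL1 hX hXL hwin hq
  linarith

end Pool.Agent.Helper65
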