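import Pool.Agent.Helper65.Windows
import Pool.Agent.Helper27.RGOBlock

/-!
# Decomposition of a window into two halves and cross edges
-/

set_option autoImplicit false

namespace Pool.Agent.Helper65

open Finset

/-- reflection of the interval [0,N) -/
def rho (N x : ℕ) : ℕ := if x < N then N - 1 - x else x

lemma rho_rho (N x : ℕ) : rho N (rho N x) = x := by
  unfold rho
  split_ifs <;> omega

/-- the reflection as an embedding -/
def rhoEmb (N : ℕ) : ℕ ↪ ℕ :=
  ⟨rho N, fun x y h => by rw [← rho_rho N x, h, rho_rho]⟩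

/-- the reflection of edges -/
def revEmb (N : ℕ) : ℕ × ℕ ↪ ℕ × ℕ :=
  ⟨fun e => (rho N e.2, rho N e.1), fun x y h => by
    obtain ⟨x1, x2⟩ := x
    obtain ⟨y1, y2⟩ := y
    simp only [Prod.mk.injEq] at h
    rw [Prod.mk.injEq]
    exact ⟨(rhoEmb N).injective h.2, (rhoEmb N).injective h.1⟩⟩

lemma mem_map_rev {N : ℕ} {E : Finset (ℕ × ℕ)} {x y : ℕ} :
    (x, y) ∈ E.map (revEmb N) ↔ (rho N y, rho N x) ∈ E := by
  rw [Finset.mem_map]
  constructor
  · rintro ⟨⟨a, b⟩, hab, h⟩
    have h1 : rho N b = x := congrArg Prod.fst h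
    have h2 : rho N a = y := congrArg Prod.snd h
    rw [← h1, ← h2, rho_rho, rho_rho]
    exact hab
  · intro h
    exact ⟨(rho N y, rho N x), h, Prod.ext (rho_rho _ _) (rho_rho _ _)⟩

lemma rho_lt {N x : ℕ} (h : x < N) : rho N x < N := by
  unfold rho; rw [if_pos h]; omega

lemma rho_anti {N x y : ℕ} (hy : y < N) (h : x < y) : rho N y < rho N x := by
  unfold rho; rw [if_pos hy, if_pos (h.trans hy)]; omega

theorem window_decomp (p : ℝ) {m n : ℕ} (hmn : m ≤ n) (f : Finset (ℕ × ℕ) → ℝ) :
    Ex p (cols 0 (2 * n)) f =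
      Ex p (cols 0 m) (fun F1 => Ex p (cols m n) (fun E1 =>
        Ex p (cols 0 m) (fun F2 => Ex p (cols m n) (fun E2 =>
          Ex p (range n ×ˢ Ico n (2 * n)) (fun X =>
            f ((F1 ∪ E1) ∪ (F2 ∪ E2).map (revEmb (2 * n)) ∪ X)))))) := by
  have hsplit : cols 0 (2 * n) = (cols 0 n ∪ (cols 0 n).map (revEmb (2 * n))) ∪
      (range n ×ˢ Ico n (2 * n)) := by
    ext ⟨u, w⟩
    rw [Finset.mem_union, Finset.mem_union, mem_cols, mem_cols, mem_map_rev, mem_cols,
      Finset.mem_product, Finset.mem_range, Finset.mem_Ico]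
    constructor
    · rintro ⟨h1, _, h2⟩
      simp only at h1 h2 ⊢
      by_cases hw : w < n
      · exact Or.inl (Or.inl ⟨h1, Nat.zero_le _, hw⟩)
      · by_cases hu : u < n
        · exact Or.inr ⟨hu, not_lt.mp hw, h2⟩
        · refine Or.inl (Or.inr ⟨rho_anti h2 h1, Nat.zero_le _, ?_⟩)
          unfold rho
          rw [if_pos (h1.trans h2)]
          omega
    · rintro ((⟨h1, _, h2⟩ | ⟨h1, _, h2⟩) | ⟨h1, h2, h3⟩)
      · simp only at h1 h2 ⊢
        exact ⟨h1, Nat.zero_le _, by omega⟩
      · simp only at h1 h2 ⊢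
        unfold rho at h1 h2
        split_ifs at h1 h2 <;> refine ⟨?_, Nat.zero_le _, ?_⟩ <;> omega
      · simp only at h1 h2 h3 ⊢
        exact ⟨by omega, Nat.zero_le _, h3⟩
  have hd1 : Disjoint (cols 0 n ∪ (cols 0 n).map (revEmb (2 * n)))
      (range n ×ˢ Ico n (2 * n)) := by
    rw [Finset.disjoint_left]
    rintro ⟨u, w⟩ h1 h2
    rw [Finset.mem_product, Finset.mem_range, Finset.mem_Ico] at h2
    simp only at h2
    rcases Finset.mem_union.mp h1 with h | h
    · have := mem_cols.mp h
      simp only at this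
      omega
    · rw [mem_map_rev] at h
      have := mem_cols.mp h
      simp only at this
      unfold rho at this
      rw [if_pos (by omega), if_pos (by omega)] at this
      omega
  have hd2 : Disjoint (cols 0 n) ((cols 0 n).map (revEmb (2 * n))) := by
    rw [Finset.disjoint_left]
    rintro ⟨u, w⟩ h1 h2
    rw [mem_map_rev] at h2
    have h3 := mem_cols.mp h1
    have h4 := mem_cols.mp h2
    simp only at h3 h4
    unfold rho at h4
    rw [if_pos (by omega), if_pos (by omega)] at h4
    omega
  rw [hsplit, Ex_union hd1, Ex_union hd2, Ex_cols_union (Nat.zero_le m) hmn]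
  refine Ex_congr (fun F1 _ => Ex_congr (fun E1 _ => ?_))
  rw [Ex_map, Ex_cols_union (Nat.zero_le m) hmn]

/-- `F1`-edges do not help an isolated vertex. -/
lemma up_iso {m n : ℕ} {F1 E1 : Finset (ℕ × ℕ)} (hF1 : F1 ⊆ cols 0 m)
    (hE1 : E1 ⊆ cols m n) {a : ℕ} (ha : a ∈ iso m F1) (k : ℕ) :
    up (F1 ∪ E1) {a} k = up E1 {a} k := by
  induction k with
  | zero => rfl
  | succ k ih =>
    rw [up_succ, up_succ, ih]
    have hiff : (k ∈ ({a} : Finset ℕ) ∨ ∃ u ∈ up E1 {a} k, (u, k) ∈ F1 ∪ E1) ↔
        (k ∈ ({a} : Finset ℕ) ∨ ∃ u ∈ up E1 {a} k, (u, k) ∈ E1) := by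
      constructor
      · rintro (h | ⟨u, hu, huk⟩)
        · exact Or.inl h
        · rcases Finset.mem_union.mp huk with h | h
          · exfalso
            have h1 := mem_cols.mp (hF1 h)
            simp only at h1
            -- `u = a`
            have hua : u = a := by
              rw [mem_up_iff] at hu
              rcases hu.2 with h2 | ⟨w, _, hw⟩
              · exact Finset.mem_singleton.mp h2
              · have h3 := mem_cols.mp (hE1 hw)
                simp only at h3
                omega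
            have h4 := (Finset.mem_filter.mp ha).2 (u, k) h (hF1 h)
            exact h4.1 hua
          · exact Or.inr ⟨u, hu, h⟩
      · rintro (h | ⟨u, hu, huk⟩)
        · exact Or.inl h
        · exact Or.inr ⟨u, hu, Finset.mem_union_right _ huk⟩
    simp only [hiff]

/-- Up-sets inside the first half of a window. -/
lemma up_first {m n : ℕ} {F1 E1 Y : Finset (ℕ × ℕ)} (hF1 : F1 ⊆ cols 0 m)
    (hE1 : E1 ⊆ cols m n) (hY : ∀ e ∈ Y, n ≤ e.2) {a : ℕ} (ha : a ∈ iso m F1) :
    up ((F1 ∪ E1) ∪ Y) {a} n = up E1 {a} n := by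
  rw [← up_iso hF1 hE1 ha n]
  refine up_congr (fun e he => ?_) (fun _ _ => Iff.rfl)
  rw [Finset.mem_union]
  constructor
  · rintro (h | h)
    · exact h
    · exact absurd (hY e h) (not_le.mpr he)
  · exact fun h => Or.inl h

lemma rel_rev {N : ℕ} {E : Finset (ℕ × ℕ)} {x y : ℕ} :
    Rel (E.map (revEmb N)) x y ↔ Rel E (rho N y) (rho N x) := by
  have key : ∀ (E : Finset (ℕ × ℕ)) (x y : ℕ), Rel (E.map (revEmb N)) x y →
      Rel E (rho N y) (rho N x) := by
    intro E x y h
    induction h with
    | single h => exact Relation.TransGen.single (mem_map_rev.mp h)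
    | tail _ h ih => exact Relation.TransGen.head (mem_map_rev.mp h) ih
  constructor
  · exact key E x y
  · intro h
    have h1 : E = (E.map (revEmb N)).map (revEmb N) := by
      ext ⟨u, w⟩
      rw [mem_map_rev, mem_map_rev, rho_rho, rho_rho]
    rw [h1] at h
    have h2 := key _ _ _ h
    rwa [rho_rho, rho_rho] at h2

/-- A path leaving a set has a leaving edge. -/
lemma exists_cross {α : Type*} {r : α → α → Prop} {P : α → Prop} {a b : α}
    (h : Relation.TransGen r a b) (ha : P a) (hb : ¬ P b) :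
    ∃ u w, Relation.ReflTransGen r a u ∧ P u ∧ r u w ∧ ¬ P w ∧ Relation.ReflTransGen r w b := by
  induction h with
  | single h => exact ⟨a, _, Relation.ReflTransGen.refl, ha, h, hb, Relation.ReflTransGen.refl⟩
  | @tail c d hac hcd ih =>
    by_cases hc : P c
    · exact ⟨c, d, hac.to_reflTransGen, hc, hcd, hb, Relation.ReflTransGen.refl⟩
    · obtain ⟨u, w, h1, h2, h3, h4, h5⟩ := ih hc
      exact ⟨u, w, h1, h2, h3, h4, h5.tail hcd⟩

lemma refl_iff {α : Type*} {r : α → α → Prop} {a b : α} :
    Relation.ReflTransGen r a b ↔ b = a ∨ Relation.TransGen r a b :=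
  Relation.reflTransGen_iff_eq_or_transGen

theorem window_rel {m n : ℕ} (hmn : m ≤ n) {F1 F2 E1 E2 X : Finset (ℕ × ℕ)}
    (hF1 : F1 ⊆ cols 0 m) (hF2 : F2 ⊆ cols 0 m) (hE1 : E1 ⊆ cols m n) (hE2 : E2 ⊆ cols m n)
    (hX : X ⊆ range n ×ˢ Ico n (2 * n)) {a b : ℕ} (ha : a ∈ iso m F1) (hb : b ∈ iso m F2) :
    Rel ((F1 ∪ E1) ∪ (F2 ∪ E2).map (revEmb (2 * n)) ∪ X) a (rho (2 * n) b) ↔
      ¬ Disjoint X ((up E1 {a} n) ×ˢ ((up E2 {b} n).map (rhoEmb (2 * n)))) := by
  set E := (F1 ∪ E1) ∪ (F2 ∪ E2).map (revEmb (2 * n)) ∪ X with hE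
  have ham : a < m := Finset.mem_range.mp (Finset.mem_filter.mp ha).1
  have hbm : b < m := Finset.mem_range.mp (Finset.mem_filter.mp hb).1
  have hsub1 : ∀ e ∈ F1 ∪ E1, e.1 < e.2 ∧ e.2 < n := by
    intro e he
    rcases Finset.mem_union.mp he with h | h
    · have := mem_cols.mp (hF1 h)
      exact ⟨this.1, by omega⟩
    · have := mem_cols.mp (hE1 h)
      exact ⟨this.1, this.2.2⟩
  have hsub2 : ∀ e ∈ F2 ∪ E2, e.1 < e.2 ∧ e.2 < n := by
    intro e he
    rcases Finset.mem_union.mp he with h | h
    · have := mem_cols.mp (hF2 h)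
      exact ⟨this.1, by omega⟩
    · have := mem_cols.mp (hE2 h)
      exact ⟨this.1, this.2.2⟩
  have hrev : ∀ e ∈ (F2 ∪ E2).map (revEmb (2 * n)), n ≤ e.1 ∧ e.1 < e.2 ∧ e.2 < 2 * n := by
    rintro ⟨u, w⟩ he
    rw [mem_map_rev] at he
    have := hsub2 _ he
    simp only at this ⊢
    unfold rho at this
    split_ifs at this <;> omega
  have hcr : ∀ e ∈ X, e.1 < n ∧ n ≤ e.2 ∧ e.2 < 2 * n := by
    intro e he
    have := hX he
    rw [Finset.mem_product, Finset.mem_range, Finset.mem_Ico] at this
    exact this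
  have hinc : ∀ e ∈ E, e.1 < e.2 := by
    intro e he
    rw [hE, Finset.mem_union, Finset.mem_union] at he
    rcases he with (h | h) | h
    · exact (hsub1 e h).1
    · exact (hrev e h).2.1
    · have := hcr e h; omega
  have hE1up : up E {a} n = up E1 {a} n := by
    have h1 : E = (F1 ∪ E1) ∪ ((F2 ∪ E2).map (revEmb (2 * n)) ∪ X) := by
      rw [hE, Finset.union_assoc]
    rw [h1]
    refine up_first hF1 hE1 (fun e he => ?_) ha
    rcases Finset.mem_union.mp he with h | h
    · have := hrev e h; omega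
    · exact (hcr e h).2.1
  -- the reflected edge set
  set E' := E.map (revEmb (2 * n)) with hE'
  have hinc' : ∀ e ∈ E', e.1 < e.2 := by
    rintro ⟨u, w⟩ he
    rw [hE', mem_map_rev] at he
    have h1 := hinc _ he
    have h2 : rho (2 * n) u < 2 * n := by
      rw [hE, Finset.mem_union, Finset.mem_union] at he
      rcases he with (h | h) | h
      · have := hsub1 _ h; simp only at this; omega
      · have := hrev _ h; simp only at this; omega
      · have := hcr _ h; simp only at this; omega
    have h3 := rho_anti h2 h1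
    simp only [rho_rho] at h3
    exact h3
  have hE2up : up E' {b} n = up E2 {b} n := by
    have h1 : E' = (F2 ∪ E2) ∪ ((F1 ∪ E1).map (revEmb (2 * n)) ∪ X.map (revEmb (2 * n))) := by
      rw [hE', hE]
      ext ⟨u, w⟩
      simp only [Finset.mem_union, mem_map_rev, rho_rho]
      tauto
    rw [h1]
    refine up_first hF2 hE2 (fun e he => ?_) hb
    obtain ⟨u, w⟩ := e
    rcases Finset.mem_union.mp he with h | h
    · rw [mem_map_rev] at h
      have := hsub1 _ h
      simp only at this ⊢
      unfold rho at this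
      split_ifs at this <;> omega
    · rw [mem_map_rev] at h
      have := hcr _ h
      simp only at this ⊢
      unfold rho at this
      split_ifs at this <;> omega
  rw [Finset.not_disjoint_iff]
  constructor
  · intro h
    obtain ⟨u, w, h1, h2, h3, h4, h5⟩ := exists_cross (P := fun x => x < n) h
      (by omega : a < n) (by unfold rho; rw [if_pos (by omega)]; omega)
    have hXe : (u, w) ∈ X := by
      have h6 : (u, w) ∈ E := h3
      rw [hE, Finset.mem_union, Finset.mem_union] at h6
      rcases h6 with (h | h) | h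
      · have := (hsub1 _ h).2
        exact absurd this h4
      · have := (hrev _ h).1
        simp only at this
        exact absurd h2 (by omega)
      · exact h
    refine ⟨(u, w), hXe, ?_⟩
    rw [Finset.mem_product]
    constructor
    · show u ∈ up E1 {a} n
      rw [← hE1up, mem_up_iff_transGen hinc]
      refine ⟨h2, ?_⟩
      rcases refl_iff.mp h1 with h | h
      · exact Or.inl (by rw [h]; exact Finset.mem_singleton_self a)
      · exact Or.inr ⟨a, Finset.mem_singleton_self a, h⟩
    · show w ∈ (up E2 {b} n).map (rhoEmb (2 * n))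
      rw [Finset.mem_map]
      refine ⟨rho (2 * n) w, ?_, rho_rho _ _⟩
      have hw2 := (hcr _ hXe).2
      simp only at hw2
      rw [← hE2up, mem_up_iff_transGen hinc']
      refine ⟨by unfold rho; rw [if_pos hw2.2]; omega, ?_⟩
      rcases refl_iff.mp h5 with h | h
      · left
        rw [← h, rho_rho]
        exact Finset.mem_singleton_self b
      · right
        refine ⟨b, Finset.mem_singleton_self b, ?_⟩
        have h7 : Rel E w (rho (2 * n) b) := h
        have h8 : Rel E' b (rho (2 * n) w) := by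
          rw [hE', rel_rev, rho_rho]
          exact h7
        exact h8
  · rintro ⟨⟨u, w⟩, hXe, hp⟩
    rw [Finset.mem_product] at hp
    obtain ⟨hu, hw⟩ := hp
    simp only at hu hw
    rw [← hE1up, mem_up_iff_transGen hinc] at hu
    rw [Finset.mem_map] at hw
    obtain ⟨z, hz, hzw⟩ := hw
    have hzw' : rho (2 * n) z = w := hzw
    rw [← hE2up, mem_up_iff_transGen hinc'] at hz
    have he : (u, w) ∈ E := by
      rw [hE]
      exact Finset.mem_union_right _ hXe
    have h1 : Relation.ReflTransGen (fun x y => (x, y) ∈ E) a u := by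
      rcases hu.2 with h | ⟨a', ha', h⟩
      · rw [Finset.mem_singleton.mp h]
      · rw [Finset.mem_singleton.mp ha'] at h
        exact h.to_reflTransGen
    have h2 : Relation.ReflTransGen (fun x y => (x, y) ∈ E) w (rho (2 * n) b) := by
      rcases hz.2 with h | ⟨b', hb', h⟩
      · rw [Finset.mem_singleton.mp h] at hzw'
        rw [hzw']
      · rw [Finset.mem_singleton.mp hb'] at h
        have h3 : Rel E' b z := h
        rw [hE', rel_rev] at h3
        rw [hzw'] at h3
        exact h3.to_reflTransGen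
    exact (Relation.TransGen.single he |> fun h => Relation.TransGen.trans_right h1 h).trans_left h2

end Pool.Agent.Helper65
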