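import Pool.Agent.Helper65.Graph

/-!
# Standard examples in windows of a random graph order
-/

set_option autoImplicit false

namespace Pool.Agent.Helper65

open Finset

/-- The order generated by the edge set `E`. -/
def Rel (E : Finset (ℕ × ℕ)) (x y : ℕ) : Prop := Relation.TransGen (fun a b => (a, b) ∈ E) x y

/-- `σ` is a realizer of the order generated by `E` on `{0, …, n-1}`. -/
def IsRealizer (n : ℕ) (E : Finset (ℕ × ℕ)) (d : ℕ) (σ : Fin d → ℕ → ℕ) : Prop :=
  (∀ k, ∀ x < n, ∀ y < n, σ k x = σ k y → x = y) ∧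
    ∀ x < n, ∀ y < n, x ≠ y → (Rel E x y ↔ ∀ k, σ k x < σ k y)

/-- A standard example forces many linear orders. -/
lemma realizer_ge {n d m : ℕ} {E : Finset (ℕ × ℕ)} {σ : Fin d → ℕ → ℕ}
    (h : IsRealizer n E d σ) (a b : ℕ → ℕ) (ha : ∀ i < m, a i < n) (hb : ∀ i < m, b i < n)
    (hne : ∀ i < m, ∀ k < m, a i ≠ b k) (h1 : ∀ i < m, ∀ k < m, i ≠ k → Rel E (a i) (b k))
    (h2 : ∀ i < m, ¬ Rel E (a i) (b i)) : m ≤ d := by
  have h3 : ∀ i : Fin m, ∃ k : Fin d, σ k (b i) ≤ σ k (a i) := by
    intro i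
    have h4 := h2 i i.2
    rw [h.2 (a i) (ha i i.2) (b i) (hb i i.2) (hne i i.2 i i.2)] at h4
    push Not at h4
    exact h4
  choose f hf using h3
  have hinj : Function.Injective f := by
    intro i j hij
    by_contra hne'
    have hne'' : (i : ℕ) ≠ j := fun hh => hne' (Fin.ext hh)
    have h5 := (h.2 (a i) (ha i i.2) (b j) (hb j j.2) (hne i i.2 j j.2)).mp
      (h1 i i.2 j j.2 hne'') (f i)
    have h6 := (h.2 (a j) (ha j j.2) (b i) (hb i i.2) (hne j j.2 i i.2)).mp
      (h1 j j.2 i i.2 hne''.symm) (f i)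
    have h7 := hf i
    have h8 := hf j
    rw [← hij] at h8
    omega
  have := Fintype.card_le_of_injective f hinj
  simpa using this

/-- The bit `j` of `i` as a natural number. -/
def bit (i j : ℕ) : ℕ := if Nat.testBit i j then 1 else 0

lemma bit_lt (i j : ℕ) : bit i j < 2 := by
  unfold bit; split_ifs <;> norm_num

lemma bit_ne_iff {i k j : ℕ} : bit k j ≠ bit i j ↔ Nat.testBit k j ≠ Nat.testBit i j := by
  unfold bit
  cases Nat.testBit k j <;> cases Nat.testBit i j <;> simp

/-- Two different numbers below `2 ^ r` differ in a bit. -/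
lemma exists_bit_ne {i k r : ℕ} (hi : i < 2 ^ r) (hk : k < 2 ^ r) (h : i ≠ k) :
    ∃ j < r, bit k j ≠ bit i j := by
  obtain ⟨j, hj⟩ := Nat.exists_testBit_ne_of_ne h
  refine ⟨j, ?_, ?_⟩
  · by_contra hjr
    push Not at hjr
    have h1 : Nat.testBit i j = false :=
      Nat.testBit_lt_two_pow (hi.trans_le (Nat.pow_le_pow_right (by norm_num) hjr))
    have h2 : Nat.testBit k j = false :=
      Nat.testBit_lt_two_pow (hk.trans_le (Nat.pow_le_pow_right (by norm_num) hjr))
    rw [h1, h2] at hj
    exact hj rfl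
  · rw [bit_ne_iff]
    exact fun hh => hj hh.symm

/-- The edges of the pattern, relative to the offset `o`. -/
def pat (o m r : ℕ) : Finset (ℕ × ℕ) :=
  ((range m ×ˢ range r).image (fun e => (o + e.1, o + m + 2 * e.2 + bit e.1 e.2))) ∪
  ((range m ×ˢ range r).image
    (fun e => (o + m + 2 * e.2 + (1 - bit e.1 e.2), o + m + 2 * r + e.1)))

/-- The pairs inside a window. -/
def win (o M : ℕ) : Finset (ℕ × ℕ) := (Ico o (o + M) ×ˢ Ico o (o + M)).filter (fun e => e.1 < e.2)

lemma mem_win {o M : ℕ} {e : ℕ × ℕ} : e ∈ win o M ↔ o ≤ e.1 ∧ e.1 < e.2 ∧ e.2 < o + M := by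
  simp only [win, Finset.mem_filter, Finset.mem_product, Finset.mem_Ico]
  omega

lemma mem_pat {o m r x y : ℕ} : (x, y) ∈ pat o m r ↔
    (∃ i < m, ∃ j < r, x = o + i ∧ y = o + m + 2 * j + bit i j) ∨
    (∃ i < m, ∃ j < r, x = o + m + 2 * j + (1 - bit i j) ∧ y = o + m + 2 * r + i) := by
  simp only [pat, Finset.mem_union, Finset.mem_image, Finset.mem_product, Finset.mem_range,
    Prod.exists, Prod.mk.injEq]
  refine or_congr ?_ ?_
  · constructor
    · rintro ⟨i, j, ⟨hi, hj⟩, h1, h2⟩
      exact ⟨i, hi, j, hj, h1.symm, h2.symm⟩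
    · rintro ⟨i, hi, j, hj, h1, h2⟩
      exact ⟨i, j, ⟨hi, hj⟩, h1.symm, h2.symm⟩
  · constructor
    · rintro ⟨i, j, ⟨hi, hj⟩, h1, h2⟩
      exact ⟨i, hi, j, hj, h1.symm, h2.symm⟩
    · rintro ⟨i, hi, j, hj, h1, h2⟩
      exact ⟨i, j, ⟨hi, hj⟩, h1.symm, h2.symm⟩

lemma card_pat_le (o m r : ℕ) : (pat o m r).card ≤ 2 * (m * r) := by
  unfold pat
  refine (Finset.card_union_le _ _).trans ?_
  have h1 := Finset.card_image_le (s := range m ×ˢ range r)
    (f := fun e : ℕ × ℕ => (o + e.1, o + m + 2 * e.2 + bit e.1 e.2))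
  have h2 := Finset.card_image_le (s := range m ×ˢ range r)
    (f := fun e : ℕ × ℕ => (o + m + 2 * e.2 + (1 - bit e.1 e.2), o + m + 2 * r + e.1))
  rw [Finset.card_product, Finset.card_range, Finset.card_range] at h1 h2
  omega

lemma card_win_le (o M : ℕ) : (win o M).card ≤ M ^ 2 := by
  unfold win
  refine (Finset.card_filter_le _ _).trans ?_
  rw [Finset.card_product, Nat.card_Ico]
  have : o + M - o = M := by omega
  rw [this, sq]

lemma pat_subset_win (o m r : ℕ) : pat o m r ⊆ win o (2 * m + 2 * r) := by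
  rintro ⟨x, y⟩ h
  rw [mem_pat] at h
  rw [mem_win]
  rcases h with ⟨i, hi, j, hj, h1, h2⟩ | ⟨i, hi, j, hj, h1, h2⟩
  · have := bit_lt i j
    simp only
    omega
  · have := bit_lt i j
    simp only
    omega

lemma win_subset_cols {o M n : ℕ} (h : o + M ≤ n) : win o M ⊆ cols 0 n := by
  intro e he
  rw [mem_win] at he
  rw [mem_cols]
  omega

/-- If the edges inside the window are the pattern, there is a standard example. -/
lemma std_of_pat {n o m r : ℕ} {E : Finset (ℕ × ℕ)} (hE : E ⊆ cols 0 n) (hm : m ≤ 2 ^ r)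
    (hpat : E ∩ win o (2 * m + 2 * r) = pat o m r) :
    (∀ i < m, ∀ k < m, i ≠ k → Rel E (o + i) (o + m + 2 * r + k)) ∧
      (∀ i < m, ¬ Rel E (o + i) (o + m + 2 * r + i)) := by
  have hEP : ∀ x y, (x, y) ∈ pat o m r → (x, y) ∈ E := by
    intro x y h
    rw [← hpat] at h
    exact (Finset.mem_inter.mp h).1
  constructor
  · intro i hi k hk hik
    obtain ⟨j, hj, hbit⟩ := exists_bit_ne (hi.trans_le hm) (hk.trans_le hm) hik
    have h1 : (o + i, o + m + 2 * j + bit i j) ∈ E := by
      apply hEP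
      rw [mem_pat]
      exact Or.inl ⟨i, hi, j, hj, rfl, rfl⟩
    have h2 : (o + m + 2 * j + bit i j, o + m + 2 * r + k) ∈ E := by
      apply hEP
      rw [mem_pat]
      refine Or.inr ⟨k, hk, j, hj, ?_, rfl⟩
      have := bit_lt i j
      have := bit_lt k j
      omega
    exact Relation.TransGen.tail (Relation.TransGen.single h1) h2
  · intro i hi hrel
    have hedge : ∀ x y, o ≤ x → (x, y) ∈ E → y < o + (2 * m + 2 * r) → (x, y) ∈ pat o m r := by
      intro x y hx hxy hy
      rw [← hpat, Finset.mem_inter]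
      refine ⟨hxy, ?_⟩
      rw [mem_win]
      have := mem_cols.mp (hE hxy)
      simp only at this ⊢
      omega
    have inv : ∀ y, Rel E (o + i) y → (o + (2 * m + 2 * r) ≤ y) ∨
        (∃ j < r, y = o + m + 2 * j + bit i j) ∨ (∃ k < m, k ≠ i ∧ y = o + m + 2 * r + k) := by
      intro y hy
      induction hy with
      | single h =>
        rename_i y
        by_cases hy : y < o + (2 * m + 2 * r)
        · have h1 := hedge _ _ (by omega) h hy
          rw [mem_pat] at h1
          rcases h1 with ⟨i', hi', j, hj, h1, h2⟩ | ⟨i', hi', j, hj, h1, h2⟩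
          · have : i' = i := by omega
            subst this
            exact Or.inr (Or.inl ⟨j, hj, h2⟩)
          · omega
        · left; omega
      | tail _ h ih =>
        rename_i x y _
        by_cases hy : y < o + (2 * m + 2 * r)
        · have hxy := mem_cols.mp (hE h)
          simp only at hxy
          rcases ih with h1 | ⟨j, hj, h1⟩ | ⟨k, hk, hki, h1⟩
          · omega
          · have h2 := hedge _ _ (by omega) h hy
            rw [mem_pat] at h2
            have hb := bit_lt i j
            rcases h2 with ⟨i', hi', j', hj', h3, h4⟩ | ⟨i', hi', j', hj', h3, h4⟩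
            · omega
            · right; right
              have hb' := bit_lt i' j'
              have hjj : j' = j := by omega
              subst hjj
              refine ⟨i', hi', ?_, h4⟩
              rintro rfl
              omega
          · have h2 := hedge _ _ (by omega) h hy
            rw [mem_pat] at h2
            rcases h2 with ⟨i', hi', j', hj', h3, h4⟩ | ⟨i', hi', j', hj', h3, h4⟩
            · omega
            · have hb' := bit_lt i' j'
              omega
        · left; omega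
    rcases inv _ hrel with h1 | ⟨j, hj, h1⟩ | ⟨k, hk, hki, h1⟩
    · omega
    · have := bit_lt i j
      omega
    · omega

/-- The order contains a standard example unless all windows fail. -/
theorem Pr_small_dim_le {p : ℝ} (hp0 : 0 ≤ p) (hp1 : p ≤ 1) (n m r W : ℕ) (hm : m ≤ 2 ^ r)
    (hW : W * (2 * m + 2 * r) ≤ n) :
    Pr p (cols 0 n) (fun E => ∃ d < m, ∃ σ : Fin d → ℕ → ℕ, IsRealizer n E d σ) ≤
      (1 - p ^ (2 * (m * r)) * (1 - p) ^ ((2 * m + 2 * r) ^ 2)) ^ W := by
  set M := 2 * m + 2 * r with hM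
  have hq0 : 0 ≤ 1 - p := by linarith
  have hq1 : 1 - p ≤ 1 := by linarith
  have hsub : ∀ t ∈ range W, win (t * M) M ⊆ cols 0 n := by
    intro t ht
    apply win_subset_cols
    rw [Finset.mem_range] at ht
    calc t * M + M = (t + 1) * M := by ring
      _ ≤ W * M := Nat.mul_le_mul_right _ ht
      _ ≤ n := hW
  have hdisj : ∀ s ∈ range W, ∀ t ∈ range W, s ≠ t → Disjoint (win (s * M) M) (win (t * M) M) := by
    have key : ∀ s t : ℕ, s < t → Disjoint (win (s * M) M) (win (t * M) M) := by
      intro s t hst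
      rw [Finset.disjoint_left]
      intro e he he'
      rw [mem_win] at he he'
      have : (s + 1) * M ≤ t * M := Nat.mul_le_mul_right _ hst
      have h2 : (s + 1) * M = s * M + M := by ring
      omega
    intro s _ t _ hst
    rcases lt_or_gt_of_ne hst with h | h
    · exact key s t h
    · exact (key t s h).symm
  have h1 : Pr p (cols 0 n) (fun E => ∃ d < m, ∃ σ : Fin d → ℕ → ℕ, IsRealizer n E d σ) ≤
      Pr p (cols 0 n) (fun E => ∀ t ∈ range W, ¬ (E ∩ win (t * M) M = pat (t * M) m r)) := by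
    refine Pr_mono hp0 hp1 ?_
    rintro E hE ⟨d, hd, σ, hσ⟩ t ht hpat
    have ht' : t * M + M ≤ n := by
      rw [Finset.mem_range] at ht
      calc t * M + M = (t + 1) * M := by ring
        _ ≤ W * M := Nat.mul_le_mul_right _ ht
        _ ≤ n := hW
    have hstd := std_of_pat hE hm hpat
    have := realizer_ge hσ (fun i => t * M + i) (fun i => t * M + m + 2 * r + i)
      (m := m) (fun i hi => by omega) (fun i hi => by omega)
      (fun i hi k hk => by omega)
      (fun i hi k hk hik => hstd.1 i hi k hk hik) (fun i hi => hstd.2 i hi)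
    omega
  have h2 : Pr p (cols 0 n) (fun E => ∀ t ∈ range W, ¬ (E ∩ win (t * M) M = pat (t * M) m r)) =
      ∏ t ∈ range W, Pr p (win (t * M) M) (fun E => ¬ (E ∩ win (t * M) M = pat (t * M) m r)) := by
    refine Pr_forall_indep (range W) (fun t => win (t * M) M) hdisj hsub
      (fun t E => ¬ (E ∩ win (t * M) M = pat (t * M) m r)) ?_
    intro t _ E _
    rw [Finset.inter_assoc, Finset.inter_self]
  refine h1.trans (h2.le.trans ?_)
  have h3 : ∀ t ∈ range W,
      Pr p (win (t * M) M) (fun E => ¬ (E ∩ win (t * M) M = pat (t * M) m r)) ≤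
        1 - p ^ (2 * (m * r)) * (1 - p) ^ (M ^ 2) := by
    intro t _
    rw [Pr_not]
    have h4 : Pr p (win (t * M) M) (fun E => E ∩ win (t * M) M = pat (t * M) m r) =
        Pr p (win (t * M) M) (fun E => E = pat (t * M) m r) := by
      refine Pr_congr ?_
      intro E hE
      rw [Finset.inter_eq_left.mpr hE]
    rw [h4, Pr_eq p (pat_subset_win (t * M) m r)]
    have h5 : p ^ (2 * (m * r)) ≤ p ^ (pat (t * M) m r).card :=
      pow_le_pow_of_le_one hp0 hp1 (card_pat_le _ _ _)
    have h6 : (1 - p) ^ (M ^ 2) ≤ (1 - p) ^ ((win (t * M) M).card - (pat (t * M) m r).card) :=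
      pow_le_pow_of_le_one hq0 hq1 ((Nat.sub_le _ _).trans (card_win_le _ _))
    have h7 : p ^ (2 * (m * r)) * (1 - p) ^ (M ^ 2) ≤ p ^ (pat (t * M) m r).card *
        (1 - p) ^ ((win (t * M) M).card - (pat (t * M) m r).card) :=
      mul_le_mul h5 h6 (by positivity) (by positivity)
    linarith
  calc ∏ t ∈ range W, Pr p (win (t * M) M) (fun E => ¬ (E ∩ win (t * M) M = pat (t * M) m r))
      ≤ ∏ _t ∈ range W, (1 - p ^ (2 * (m * r)) * (1 - p) ^ (M ^ 2)) :=
        Finset.prod_le_prod (fun t _ => Pr_nonneg hp0 hp1 _) h3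
    _ = _ := by rw [Finset.prod_const, Finset.card_range]

end Pool.Agent.Helper65
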