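import Pool.Agent.Helper65.Cross
import Pool.Agent.Helper65.Windows
import Pool.Agent.Helper65.WinRel

/-!
# The window bound
-/

set_option autoImplicit false

namespace Pool.Agent.Helper65

open Finset Real

lemma rho_of_lt {N x : ℕ} (h : x < N) : rho N x = N - 1 - x := if_pos h

lemma rhoEmb_apply (N x : ℕ) : rhoEmb N x = rho N x := rfl

lemma up_subset_range' (E : Finset (ℕ × ℕ)) (a n : ℕ) : up E {a} n ⊆ range n :=
  up_subset_range E {a} n

lemma map_rho_subset {n : ℕ} {S : Finset ℕ} (hS : S ⊆ range n) :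
    S.map (rhoEmb (2 * n)) ⊆ Ico n (2 * n) := by
  intro x hx
  rw [Finset.mem_map] at hx
  obtain ⟨y, hy, rfl⟩ := hx
  have hy' := Finset.mem_range.mp (hS hy)
  rw [rhoEmb_apply, rho_of_lt (by omega), Finset.mem_Ico]
  omega

lemma biUnion_up_card {E : Finset (ℕ × ℕ)} (S : Finset ℕ) (n : ℕ) :
    (up E S n).card ≤ (S.biUnion (fun a => up E {a} n)).card :=
  Finset.card_le_card (up_subset_biUnion E S n)

/-- Given good halves, the dimension of the window is large with high probability over the cross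
edges. -/
theorem cross_bound {p g M2 η κ β : ℝ} (hp0 : 0 < p) (hp1 : p ≤ 1 / 2) (hg : 0 ≤ g)
    (hη : 0 ≤ η) (hκ : 0 ≤ κ) {m n R K : ℕ} (hR : 1 ≤ R) (hm : 1 ≤ m) (hmn : m ≤ n)
    (hK : (K : ℝ) ≤ M2)
    {F1 F2 E1 E2 : Finset (ℕ × ℕ)} (hF1 : F1 ⊆ cols 0 m) (hF2 : F2 ⊆ cols 0 m)
    (hE1 : E1 ⊆ cols m n) (hE2 : E2 ⊆ cols m n)
    (hi1 : 7 * m ≤ 8 * (iso m F1).card) (hi2 : 7 * m ≤ 8 * (iso m F2).card)
    (hH1 : HalfGood m n R g M2 η κ E1) (hH2 : HalfGood m n R g M2 η κ E2)
    (hβ : exp (512 * (p * g ^ 2)) * (2 / m + 4 * κ) + (exp (32 * (p * g * η)) - 1) ≤ β) :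
    Pr p (range n ×ˢ Ico n (2 * n)) (fun X => ∃ d < ⌈(m : ℝ) / (32 * R)⌉₊,
      ∃ σ : Fin d → ℕ → ℕ,
      IsRealizer (2 * n) ((F1 ∪ E1) ∪ (F2 ∪ E2).map (revEmb (2 * n)) ∪ X) d σ) ≤
      100 * β + (m : ℝ) ^ (2 * R) * (1 - p) ^ (K * K) := by
  classical
  have hp1' : p < 1 := by linarith
  have hm0 : (0 : ℝ) < m := by exact_mod_cast hm
  have hR0 : (0 : ℝ) < R := by exact_mod_cast hR
  obtain ⟨A1, hA1, hA1c, hA1u, hA1R, hA1p⟩ := hH1
  obtain ⟨A2, hA2, hA2c, hA2u, hA2R, hA2p⟩ := hH2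
  have hisub : ∀ F, iso m F ⊆ range m := fun F => Finset.filter_subset _ _
  have hcard : ∀ S : Finset ℕ, S ⊆ range m → 5 * m ≤ 8 * S.card →
      ∀ F : Finset (ℕ × ℕ), 7 * m ≤ 8 * (iso m F).card → m ≤ 2 * (S ∩ iso m F).card := by
    intro S hS hSc F hF
    have h1 := Finset.card_union_add_card_inter S (iso m F)
    have h2 : (S ∪ iso m F).card ≤ m := by
      have := Finset.card_le_card (Finset.union_subset hS (hisub F))
      rwa [Finset.card_range] at this
    omega
  set A := A1 ∩ iso m F1 with hA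
  set C := A2 ∩ iso m F2 with hC
  have hAc : m ≤ 2 * A.card := hcard A1 hA1 hA1c F1 hi1
  have hCc : m ≤ 2 * C.card := hcard A2 hA2 hA2c F2 hi2
  have hAm : A ⊆ range m := Finset.inter_subset_left.trans hA1
  have hCm : C ⊆ range m := Finset.inter_subset_left.trans hA2
  set B := C.map (rhoEmb (2 * n)) with hB
  have hBcard : B.card = C.card := Finset.card_map _
  set U : ℕ → Finset ℕ := fun a => up E1 {a} n with hU
  set V : ℕ → Finset ℕ := fun b => up E2 {b} n with hV
  set Dn : ℕ → Finset ℕ := fun b => (up E2 {rho (2 * n) b} n).map (rhoEmb (2 * n)) with hDn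
  have hDrho : ∀ b, Dn (rho (2 * n) b) = (V b).map (rhoEmb (2 * n)) := by
    intro b
    simp only [hDn, hV, rho_rho]
  have hUsub : ∀ a ∈ A, U a ⊆ range n := fun a _ => up_subset_range E1 {a} n
  have hDsub : ∀ b ∈ B, Dn b ⊆ Ico n (2 * n) := fun b _ =>
    map_rho_subset (up_subset_range E2 {rho (2 * n) b} n)
  have hApos : A.Nonempty := by
    rw [← Finset.card_pos]; omega
  have hBpos : B.Nonempty := by
    rw [← Finset.card_pos]; omega
  have hUle : ∀ a ∈ A, ((U a).card : ℝ) ≤ 16 * g := fun a ha =>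
    hA1u a (Finset.mem_inter.mp ha).1
  have hVle : ∀ b ∈ C, ((V b).card : ℝ) ≤ 16 * g := fun b hb =>
    hA2u b (Finset.mem_inter.mp hb).1
  -- second moment sums
  have hβB : ∀ a ∈ A, ∑ b ∈ B, ∑ b' ∈ B,
      (((1 - p) ^ ((U a).card * (Dn b ∩ Dn b').card))⁻¹ - 1) ≤ β * (B.card : ℝ) ^ 2 := by
    intro a ha
    have h1 : ∑ b ∈ B, ∑ b' ∈ B, (((1 - p) ^ ((U a).card * (Dn b ∩ Dn b').card))⁻¹ - 1) =
        ∑ b ∈ C, ∑ b' ∈ C, (((1 - p) ^ ((U a).card * (V b ∩ V b').card))⁻¹ - 1) := by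
      rw [hB, Finset.sum_map]
      refine Finset.sum_congr rfl (fun b _ => ?_)
      rw [Finset.sum_map]
      refine Finset.sum_congr rfl (fun b' _ => ?_)
      rw [rhoEmb_apply, rhoEmb_apply, hDrho, hDrho, ← Finset.map_inter, Finset.card_map]
    rw [h1, hBcard]
    exact beta_bound hp0.le hp1 hg hη hκ hm C V (U a).card (hUle a ha) hCm hCc hVle hA2p hβ
  have hβA : ∀ b ∈ B, ∑ a ∈ A, ∑ a' ∈ A,
      (((1 - p) ^ ((U a ∩ U a').card * (Dn b).card))⁻¹ - 1) ≤ β * (A.card : ℝ) ^ 2 := by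
    intro b hb
    rw [hB, Finset.mem_map] at hb
    obtain ⟨c, hc, rfl⟩ := hb
    rw [rhoEmb_apply, hDrho, Finset.card_map]
    have h1 := beta_bound hp0.le hp1 hg hη hκ hm A U (V c).card (hVle c hc) hAm hAc hUle hA1p hβ
    refine le_trans (le_of_eq ?_) h1
    refine Finset.sum_congr rfl (fun a _ => Finset.sum_congr rfl (fun a' _ => ?_))
    rw [mul_comm]
  have hβ0 : 0 ≤ β := by
    refine le_trans ?_ hβ
    have h1 := Real.add_one_le_exp (32 * (p * g * η))
    have h2 : 0 ≤ 32 * (p * g * η) := by positivity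
    have h3 : 0 ≤ exp (512 * (p * g ^ 2)) * (2 / m + 4 * κ) := by positivity
    linarith
  have hw := cross_weights hp0 hp1' hβ0 (range n) (Ico n (2 * n)) A B U Dn hUsub hDsub hApos hBpos
    hβB hβA
  have hk := cross_KRR hp0 hp1' R K K (range n) (Ico n (2 * n)) A B U Dn hUsub hDsub
    (by
      intro S hS hSR
      have h1 := hA1R S (hS.trans Finset.inter_subset_left) hSR
      have h2 := biUnion_up_card (E := E1) S n
      have h3 : (K : ℝ) ≤ ((S.biUnion U).card : ℝ) :=
        (hK.trans h1).trans (by exact_mod_cast h2)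
      exact_mod_cast h3)
    (by
      intro T hT hTR
      -- pull back to `C`
      set T' := T.map (rhoEmb (2 * n)) with hT'
      have hT'C : T' ⊆ C := by
        intro x hx
        rw [hT', Finset.mem_map] at hx
        obtain ⟨y, hy, rfl⟩ := hx
        have := hT hy
        rw [hB, Finset.mem_map] at this
        obtain ⟨z, hz, rfl⟩ := this
        rw [rhoEmb_apply, rhoEmb_apply, rho_rho]
        exact hz
      have h1 := hA2R T' (hT'C.trans Finset.inter_subset_left) (by rw [hT', Finset.card_map, hTR])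
      have h2 := biUnion_up_card (E := E2) T' n
      have h4 : (T.biUnion Dn).card = (T'.biUnion (fun b => up E2 {b} n)).card := by
        have h5 : T.biUnion Dn = (T'.biUnion (fun b => up E2 {b} n)).map (rhoEmb (2 * n)) := by
          ext z
          simp only [Finset.mem_biUnion, Finset.mem_map, hDn, hT']
          constructor
          · rintro ⟨b, hb, y, hy, rfl⟩
            exact ⟨y, ⟨rho (2 * n) b, ⟨b, hb, rfl⟩, hy⟩, rfl⟩
          · rintro ⟨y, ⟨_, ⟨b, hb, rfl⟩, hy⟩, rfl⟩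
            exact ⟨b, hb, y, hy, rfl⟩
        rw [h5, Finset.card_map]
      have h3 : (K : ℝ) ≤ ((T.biUnion Dn).card : ℝ) := by
        rw [h4]
        exact (hK.trans h1).trans (by exact_mod_cast h2)
      exact_mod_cast h3)
  set P1 : Finset (ℕ × ℕ) → Prop := fun E =>
      ∃ A' ⊆ A, ∃ B' ⊆ B, ∃ w : ℕ → ℕ → ℝ, (∀ a b, 0 ≤ w a b) ∧
        (∀ a ∈ A', ∑ b ∈ B, w a b * ind (inc U Dn E a b) ≤ 2 * B.card) ∧
        (∀ b ∈ B', ∑ a ∈ A, w a b * ind (inc U Dn E a b) ≤ 2 * A.card) ∧
        ((A.card : ℝ) * B.card) / 4 ≤ ∑ a ∈ A', ∑ b ∈ B', w a b * ind (inc U Dn E a b) with hP1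
  set P2 : Finset (ℕ × ℕ) → Prop := fun E => ∃ S ⊆ A, ∃ T ⊆ B, S.card = R ∧ T.card = R ∧
      ∀ a ∈ S, ∀ b ∈ T, inc U Dn E a b with hP2
  have hmain : Pr p (range n ×ˢ Ico n (2 * n)) (fun X => ∃ d < ⌈(m : ℝ) / (32 * R)⌉₊,
      ∃ σ : Fin d → ℕ → ℕ,
      IsRealizer (2 * n) ((F1 ∪ E1) ∪ (F2 ∪ E2).map (revEmb (2 * n)) ∪ X) d σ) ≤
      Pr p (range n ×ˢ Ico n (2 * n)) (fun X => ¬ P1 X ∨ P2 X) := by
    refine Pr_mono hp0.le hp1'.le (fun X hX hsmall => ?_)
    by_contra hcon
    rw [not_or, not_not] at hcon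
    obtain ⟨⟨A', hA', B', hB', w, hw0, hrow, hcol, htot⟩, hnK⟩ := hcon
    obtain ⟨d, hd, σ, hσ⟩ := hsmall
    have hAn : ∀ a ∈ A, a < 2 * n := fun a ha => by
      have := Finset.mem_range.mp (hAm ha)
      omega
    have hBn : ∀ b ∈ B, n ≤ b ∧ b < 2 * n := fun b hb => by
      rw [hB] at hb
      have := map_rho_subset (hCm.trans (Finset.range_subset_range.mpr hmn)) hb
      exact Finset.mem_Ico.mp this
    have hdisj : Disjoint A B := by
      rw [Finset.disjoint_left]
      intro x hxA hxB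
      have h1 := Finset.mem_range.mp (hAm hxA)
      have h2 := hBn x hxB
      omega
    have hlow := realizer_lower A B A' B' hA' hB' R d (fun a b => inc U Dn X a b) w hw0 hrow hcol
      htot hnK σ
      (by
        intro k x hx y hy hxy
        have hlt : ∀ z ∈ A' ∪ B', z < 2 * n := by
          intro z hz
          rcases Finset.mem_union.mp hz with h | h
          · exact hAn z (hA' h)
          · exact (hBn z (hB' h)).2
        exact hσ.1 k x (hlt x hx) y (hlt y hy) hxy)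
      hdisj
      (by
        intro a ha b hb
        have haA := hA' ha
        have hbB := hB' hb
        have hb' := hbB
        rw [hB, Finset.mem_map] at hb'
        obtain ⟨c, hc, rfl⟩ := hb'
        rw [rhoEmb_apply] at hbB ⊢
        have hrel := window_rel hmn hF1 hF2 hE1 hE2 hX (Finset.mem_inter.mp haA).2
          (Finset.mem_inter.mp hc).2
        have hne : a ≠ rho (2 * n) c := by
          intro h
          exact (Finset.disjoint_left.mp hdisj haA) (h ▸ hbB)
        have hreal := hσ.2 a (hAn a haA) (rho (2 * n) c) (hBn _ hbB).2 hne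
        have hinc : inc U Dn X a (rho (2 * n) c) ↔
            ¬ Rel ((F1 ∪ E1) ∪ (F2 ∪ E2).map (revEmb (2 * n)) ∪ X) a (rho (2 * n) c) := by
          rw [hrel, not_not]
          unfold inc
          rw [hDrho]
        rw [hinc, hreal]
        push Not
        constructor
        · rintro ⟨k, hk⟩
          refine ⟨k, lt_of_le_of_ne hk (fun h => hne ?_)⟩
          exact (hσ.1 k _ (hBn _ hbB).2 _ (hAn a haA) h).symm
        · rintro ⟨k, hk⟩
          exact ⟨k, hk.le⟩)
    -- numerical contradiction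
    have hdlt : (d : ℝ) < m / (32 * R) := Nat.lt_ceil.mp hd
    rw [hBcard] at hlow
    have hx : (m : ℝ) ≤ 2 * A.card := by exact_mod_cast hAc
    have hy : (m : ℝ) ≤ 2 * C.card := by exact_mod_cast hCc
    rw [lt_div_iff₀ (by positivity)] at hdlt
    set x : ℝ := (A.card : ℝ) with hxdef
    set y : ℝ := (C.card : ℝ) with hydef
    have hx0 : 0 < x := by linarith
    have hy0 : 0 < y := by linarith
    have h1 : d * (R * (2 * x + 2 * y)) * 16 < m * (x + y) := by
      have : d * (R * (2 * x + 2 * y)) * 16 = (d * (32 * R)) * (x + y) := by ring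
      rw [this]
      exact mul_lt_mul_of_pos_right hdlt (by linarith)
    have h2 : m * (x + y) ≤ 4 * (x * y) := by
      have h3 : m * x ≤ 2 * y * x := mul_le_mul_of_nonneg_right hy hx0.le
      have h4 : m * y ≤ 2 * x * y := mul_le_mul_of_nonneg_right hx hy0.le
      nlinarith
    linarith
  have hor := Pr_or_le hp0.le hp1'.le (s := range n ×ˢ Ico n (2 * n)) (fun X => ¬ P1 X) P2
  rw [Pr_not] at hor
  have hA2 : (A.card : ℝ) ^ R * (B.card : ℝ) ^ R * (1 - p) ^ (K * K) ≤
      (m : ℝ) ^ (2 * R) * (1 - p) ^ (K * K) := by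
    refine mul_le_mul_of_nonneg_right ?_ (pow_nonneg (by linarith) _)
    have h1 : (A.card : ℝ) ≤ m := by
      have := Finset.card_le_card hAm
      rw [Finset.card_range] at this
      exact_mod_cast this
    have h2 : (B.card : ℝ) ≤ m := by
      have := Finset.card_le_card hCm
      rw [Finset.card_range] at this
      rw [hBcard]
      exact_mod_cast this
    rw [two_mul, pow_add]
    exact mul_le_mul (pow_le_pow_left₀ (Nat.cast_nonneg _) h1 R)
      (pow_le_pow_left₀ (Nat.cast_nonneg _) h2 R) (by positivity) (by positivity)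
  linarith

end Pool.Agent.Helper65
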