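import Pool.Agent.Helper65.Window
import Pool.Agent.Helper65.HalfAsym

/-!
# The window bound: integration over the two halves, and the asymptotic statement
-/

set_option autoImplicit false

namespace Pool.Agent.Helper65

open Finset Real Filter Topology

theorem Pr_window {p g M2 η κ β δ1 : ℝ} (hp0 : 0 < p) (hp1 : p ≤ 1 / 2) (hg : 0 ≤ g)
    (hη : 0 ≤ η) (hκ : 0 ≤ κ) {m n R K : ℕ} (hR : 1 ≤ R) (hm : 1 ≤ m) (hmn : m ≤ n)
    (hK : (K : ℝ) ≤ M2) (hδ1 : 0 ≤ δ1)
    (hhalf : 1 - δ1 ≤ Pr p (cols m n) (HalfGood m n R g M2 η κ))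
    (hβ : exp (512 * (p * g ^ 2)) * (2 / m + 4 * κ) + (exp (32 * (p * g * η)) - 1) ≤ β)
    (hβ0 : 0 ≤ β) :
    Pr p (cols 0 (2 * n)) (fun E => ∃ d < ⌈(m : ℝ) / (32 * R)⌉₊, ∃ σ : Fin d → ℕ → ℕ,
      IsRealizer (2 * n) E d σ) ≤
      1 - (Pr p (cols 0 m) (fun F => 7 * m ≤ 8 * (iso m F).card)) ^ 2 *
        (1 - (2 * δ1 + (100 * β + (m : ℝ) ^ (2 * R) * (1 - p) ^ (K * K)))) := by
  have hp0' := hp0.le
  have hp1' : p ≤ 1 := by linarith
  set e : ℝ := 100 * β + (m : ℝ) ^ (2 * R) * (1 - p) ^ (K * K) with he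
  have he0 : 0 ≤ e := by
    have : 0 ≤ (1 - p) ^ (K * K) := pow_nonneg (by linarith) _
    positivity
  set small : Finset (ℕ × ℕ) → Prop := fun E => ∃ d < ⌈(m : ℝ) / (32 * R)⌉₊,
    ∃ σ : Fin d → ℕ → ℕ, IsRealizer (2 * n) E d σ with hsmall
  set I : Finset (ℕ × ℕ) → Prop := fun F => 7 * m ≤ 8 * (iso m F).card with hI
  set H : Finset (ℕ × ℕ) → Prop := HalfGood m n R g M2 η κ with hH
  set PI := Pr p (cols 0 m) I with hPI
  set PH := Pr p (cols m n) H with hPH
  have hPI0 : 0 ≤ PI := Pr_nonneg hp0' hp1' _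
  have hPI1 : PI ≤ 1 := Pr_le_one hp0' hp1' _
  have hPH0 : 0 ≤ PH := Pr_nonneg hp0' hp1' _
  have hPH1 : PH ≤ 1 := Pr_le_one hp0' hp1' _
  have hlow : PI * (PH * (PI * (PH * (1 - e)))) ≤ Pr p (cols 0 (2 * n)) (fun E => ¬ small E) := by
    unfold Pr
    rw [window_decomp p hmn]
    have hconst : PI * (PH * (PI * (PH * (1 - e)))) =
        Ex p (cols 0 m) (fun F1 => Ex p (cols m n) (fun E1 =>
        Ex p (cols 0 m) (fun F2 => Ex p (cols m n) (fun E2 =>
          ind (I F1) * (ind (H E1) * (ind (I F2) * (ind (H E2) * (1 - e)))))))) := by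
      simp only [Ex_mul_left, Ex_mul_right]
      rfl
    rw [hconst]
    refine Ex_mono hp0' hp1' (fun F1 hF1 => ?_)
    refine Ex_mono hp0' hp1' (fun E1 hE1 => ?_)
    refine Ex_mono hp0' hp1' (fun F2 hF2 => ?_)
    refine Ex_mono hp0' hp1' (fun E2 hE2 => ?_)
    have hnn : 0 ≤ Ex p (range n ×ˢ Ico n (2 * n)) (fun X =>
        ind (¬ small ((F1 ∪ E1) ∪ (F2 ∪ E2).map (revEmb (2 * n)) ∪ X))) :=
      Ex_nonneg hp0' hp1' (fun _ _ => ind_nonneg _)
    by_cases h1 : I F1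
    · by_cases h2 : H E1
      · by_cases h3 : I F2
        · by_cases h4 : H E2
          · rw [ind_pos h1, ind_pos h2, ind_pos h3, ind_pos h4, one_mul, one_mul, one_mul,
              one_mul]
            have h5 := cross_bound hp0 hp1 hg hη hκ hR hm hmn hK hF1 hF2 hE1 hE2 h1 h3 h2 h4 hβ
            have h6 := Pr_not p (range n ×ˢ Ico n (2 * n)) (fun X =>
              small ((F1 ∪ E1) ∪ (F2 ∪ E2).map (revEmb (2 * n)) ∪ X))
            unfold Pr at h5 h6
            rw [h6]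
            linarith
          · rw [ind_neg h4]
            simpa using hnn
        · rw [ind_neg h3]
          simpa using hnn
      · rw [ind_neg h2]
        simpa using hnn
    · rw [ind_neg h1]
      simpa using hnn
  rw [Pr_not] at hlow
  have hfin : PI ^ 2 * (1 - (2 * δ1 + e)) ≤ PI * (PH * (PI * (PH * (1 - e)))) := by
    have h1 : PI * (PH * (PI * (PH * (1 - e)))) = PI ^ 2 * (PH ^ 2 * (1 - e)) := by ring
    rw [h1]
    refine mul_le_mul_of_nonneg_left ?_ (by positivity)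
    have h2 : 1 - 2 * δ1 ≤ PH ^ 2 := by nlinarith [sq_nonneg (PH - 1)]
    have h3 : PH ^ 2 ≤ 1 := by nlinarith
    rcases le_total e 1 with h4 | h4
    · nlinarith [mul_nonneg hδ1 he0]
    · nlinarith [mul_nonneg hδ1 he0]
  linarith

lemma ev_pow_exp (k : ℕ) (C : ℝ) {c : ℝ} (hc : 0 < c) :
    ∀ᶠ p in 𝓝[>] (0 : ℝ), C * (-log p) ^ k * exp (-(c * (-log p))) ≤ 1 := by
  have h : Tendsto (fun p : ℝ => -log p) (𝓝[>] (0 : ℝ)) atTop :=
    tendsto_neg_atBot_atTop.comp Real.tendsto_log_nhdsGT_zero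
  have h1 : Tendsto (fun x : ℝ => (c * x) ^ k * exp (-(c * x))) atTop (𝓝 0) :=
    (Real.tendsto_pow_mul_exp_neg_atTop_nhds_zero k).comp (tendsto_id.const_mul_atTop hc)
  have h2 : Tendsto (fun x : ℝ => (C / c ^ k) * ((c * x) ^ k * exp (-(c * x)))) atTop
      (𝓝 ((C / c ^ k) * 0)) := h1.const_mul _
  rw [mul_zero] at h2
  filter_upwards [(h2.comp h).eventually (ge_mem_nhds (zero_lt_one' ℝ))] with p hp
  simp only [Function.comp] at hp
  calc C * (-log p) ^ k * exp (-(c * (-log p))) =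
      (C / c ^ k) * ((c * (-log p)) ^ k * exp (-(c * (-log p)))) := by
        rw [mul_pow]
        field_simp
    _ ≤ 1 := hp

lemma exp_sub_one_le {x : ℝ} (hx0 : 0 ≤ x) (hx : x ≤ 1 / 2) : exp x - 1 ≤ 2 * x := by
  have h1 : exp x ≤ (1 - x)⁻¹ := by
    have h2 := Real.one_sub_le_exp_neg x
    rw [Real.exp_neg] at h2
    rw [le_inv_comm₀ (exp_pos _) (by linarith)]
    exact h2
  have h3 : (1 - x)⁻¹ ≤ 1 + 2 * x := by
    rw [inv_le_iff_one_le_mul₀ (by linarith)]
    nlinarith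
  linarith

theorem window_asym {R : ℕ} (hR : 1 ≤ R) (hRbig : 3 * (32 * (400 * exp 33) ^ 2 * 4096) ≤ (R : ℝ))
    {δ : ℝ} (hδ : 0 < δ) :
    ∀ᶠ p : ℝ in 𝓝[>] (0 : ℝ), ∀ m t : ℕ, 1 / (64 * p) ≤ m →
    (m : ℝ) ≤ (-log p) ^ 3 / p → (1 + p) ^ t ≤ √(1 / 4096 * (-log p) / p) →
    √(1 / 4096 * (-log p) / p) ≤ 2 * (1 + p) ^ t →
    Pr p (cols 0 (2 * (m + t))) (fun E => ∃ d < ⌈(m : ℝ) / (32 * R)⌉₊, ∃ σ : Fin d → ℕ → ℕ,
      IsRealizer (2 * (m + t)) E d σ) ≤
      1 - (Pr p (cols 0 m) (fun F => 7 * m ≤ 8 * (iso m F).card)) ^ 2 * (1 - δ) := by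
  set B : ℝ := 400 * exp 33 with hB
  have hB1 : 1 ≤ B := by
    have := Real.add_one_le_exp (33 : ℝ)
    rw [hB]; linarith
  have hB0 : 0 < B := by linarith
  filter_upwards [half_main (c0 := 1 / 64) (δ := δ / 8) (lam := 1 / 4096) (by norm_num)
    (by positivity) (by norm_num) (by norm_num) hR,
    ev_pos_le (show (0 : ℝ) < 1 / 10000 by norm_num), ev_neg_log_ge 100,
    ev_neg_log_ge (16 / δ), ev_pow_sqrt 1 10, ev_pow_exp 5 (160 * 800 / δ) (show (0 : ℝ) < 1 / 4 by norm_num),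
    ev_pow_sqrt (6 * R) (4 / δ), ev_pow_sqrt 1 (65536 * (16 * B) ^ 2)]
    with p hhalf hp hL100 hLδ hs1 hs2 hs3 hs4 m t hm hm2 ht ht2
  obtain ⟨hp0, hp1⟩ := hp
  set L := -log p with hL
  have hL0 : 0 < L := by linarith
  have hL1 : 1 ≤ L := by linarith
  obtain ⟨hr0, hr1, hrr, hpr⟩ := sqrt_facts hp0 (by linarith : p ≤ 1)
  set r := √p with hr
  have hp1' : p ≤ 1 := by linarith
  rw [pow_one] at hs1 hs4
  set g := √(1 / 4096 * L / p) with hg
  have hLr : L * r ≤ 1 := by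
    have : 0 ≤ L * r := by positivity
    linarith
  obtain ⟨hg0, hg2, hpg, hlogg⟩ := num_g hp0 hp1 hL hL1 (lam := 1 / 4096) (by norm_num)
    (by norm_num) hLr hg
  have hm1 : 1 ≤ m := by
    have : 0 < (m : ℝ) := lt_of_lt_of_le (by positivity) hm
    exact_mod_cast this
  have hm0 : (0 : ℝ) < m := by exact_mod_cast hm1
  have hR0 : (1 : ℝ) ≤ R := by exact_mod_cast hR
  have hhalf' := hhalf m t (by
    have : (1 : ℝ) / 64 / p = 1 / (64 * p) := by field_simp
    rw [this]; exact hm) hm2 ht ht2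
  set M2 : ℝ := R * g / (4 * B) with hM2
  set κ : ℝ := 8 * p * g * L ^ 4 with hκ
  set η : ℝ := g / L ^ 3 with hη
  have hκ0 : 0 < κ := by positivity
  have hη0 : 0 < η := by positivity
  set β : ℝ := exp (512 * (p * g ^ 2)) * (2 / m + 4 * κ) + (exp (32 * (p * g * η)) - 1) with hβ
  have hpg2 : p * g ^ 2 = L / 4096 := by rw [hg2]; field_simp
  have hpgη : p * g * η = 1 / (4096 * L ^ 2) := by
    have : p * g * η = p * g ^ 2 / L ^ 3 := by rw [hη]; ring
    rw [this, hpg2]; field_simp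
  have hβ0 : 0 ≤ β := by
    have h1 := Real.add_one_le_exp (32 * (p * g * η))
    have h2 : 0 ≤ 32 * (p * g * η) := by positivity
    have h3 : 0 ≤ exp (512 * (p * g ^ 2)) * (2 / m + 4 * κ) := by positivity
    rw [hβ]; linarith
  -- size of β
  have hβle : 100 * β ≤ δ / 4 := by
    have hsq : r = exp (-(L / 2)) := by
      rw [hr, Real.sqrt_eq_rpow, Real.rpow_def_of_pos hp0]
      congr 1
      rw [hL]; ring
    have h1 : exp (512 * (p * g ^ 2)) = exp (L / 8) := by rw [hpg2]; congr 1; ring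
    have h2 : 2 / (m : ℝ) ≤ 128 * r := by
      have h3 : 2 / (m : ℝ) ≤ 2 / (1 / (64 * p)) :=
        div_le_div_of_nonneg_left (by norm_num) (by positivity) hm
      have h4 : 2 / (1 / (64 * p)) = 128 * p := by field_simp; norm_num
      rw [h4] at h3
      linarith
    have h3 : 4 * κ ≤ 32 * L ^ 5 * r := by
      have h4 : 4 * κ = 32 * L ^ 4 * (p * g) := by rw [hκ]; ring
      rw [h4]
      calc 32 * L ^ 4 * (p * g) ≤ 32 * L ^ 4 * (L * r) :=
            mul_le_mul_of_nonneg_left hpg (by positivity)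
        _ = _ := by ring
    have hL5 : 1 ≤ L ^ 5 := one_le_pow₀ hL1
    have h5 : 2 / (m : ℝ) + 4 * κ ≤ 160 * L ^ 5 * r := by
      have h6 : 128 * r ≤ 128 * L ^ 5 * r := by
        refine mul_le_mul_of_nonneg_right ?_ hr0.le
        linarith
      linarith
    have h6 : exp (L / 8) * (2 / (m : ℝ) + 4 * κ) ≤ δ / 800 := by
      have h7 : exp (L / 8) * r ≤ exp (-(1 / 4 * L)) := by
        rw [hsq, ← Real.exp_add]
        refine Real.exp_le_exp.mpr ?_
        linarith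
      have h8 : 160 * 800 / δ * L ^ 5 * exp (-(1 / 4 * L)) ≤ 1 := hs2
      have h9 : 160 * 800 / δ * L ^ 5 * exp (-(1 / 4 * L)) =
          (160 * L ^ 5 * exp (-(1 / 4 * L))) * 800 / δ := by ring
      rw [h9, div_le_one hδ] at h8
      calc exp (L / 8) * (2 / (m : ℝ) + 4 * κ) ≤ exp (L / 8) * (160 * L ^ 5 * r) :=
            mul_le_mul_of_nonneg_left h5 (exp_pos _).le
        _ = 160 * L ^ 5 * (exp (L / 8) * r) := by ring
        _ ≤ 160 * L ^ 5 * exp (-(1 / 4 * L)) := mul_le_mul_of_nonneg_left h7 (by positivity)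
        _ ≤ δ / 800 := by linarith
    have h10 : exp (32 * (p * g * η)) - 1 ≤ δ / 800 := by
      have h11 : 32 * (p * g * η) = 1 / (128 * L ^ 2) := by rw [hpgη]; field_simp; norm_num
      have h12 : 1 / (128 * L ^ 2) ≤ 1 / (128 * L) := by
        refine one_div_le_one_div_of_le (by positivity) ?_
        nlinarith
      have h13 : 1 / (128 * L) ≤ 1 / 2 := by
        refine one_div_le_one_div_of_le (by norm_num) ?_
        linarith
      have h14 := exp_sub_one_le (x := 32 * (p * g * η)) (by positivity) (by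
        rw [h11]; linarith)
      have h15 : 2 * (1 / (128 * L)) ≤ δ / 800 := by
        have h16 : 16 ≤ L * δ := by rwa [div_le_iff₀ hδ] at hLδ
        have h17 : 2 * (1 / (128 * L)) = 1 / (64 * L) := by field_simp; norm_num
        rw [h17, div_le_div_iff₀ (by positivity) (by norm_num)]
        linarith
      rw [h11] at h14 ⊢
      linarith
    rw [hβ, h1]
    linarith
  -- the parameter K
  set K := ⌊M2⌋₊ with hK
  have hM20 : 0 ≤ M2 := by positivity
  have hK1 : (K : ℝ) ≤ M2 := Nat.floor_le hM20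
  have hK2 : M2 - 1 < K := Nat.sub_one_lt_floor M2
  have hM2big : 4 ≤ M2 := by
    have h1 : 16 * B ≤ g := by
      rw [← pow_le_pow_iff_left₀ (by positivity) hg0.le (two_ne_zero), hg2, le_div_iff₀ hp0]
      have h2 : 65536 * (16 * B) ^ 2 * L * r ≤ 1 := hs4
      have h3 : (16 * B) ^ 2 * p ≤ (16 * B) ^ 2 * (L * r) := by
        refine mul_le_mul_of_nonneg_left ?_ (by positivity)
        calc p ≤ r := hpr
          _ = 1 * r := by ring
          _ ≤ L * r := mul_le_mul_of_nonneg_right hL1 hr0.le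
      have h4 : (16 * B) ^ 2 * (L * r) ≤ 1 / 65536 := by linarith
      linarith
    rw [hM2, le_div_iff₀ (by positivity)]
    nlinarith
  have hKsq : M2 ^ 2 / 2 ≤ ((K * K : ℕ) : ℝ) := by
    push_cast
    nlinarith
  have hkrr : (m : ℝ) ^ (2 * R) * (1 - p) ^ (K * K) ≤ δ / 4 := by
    have h1 : (1 - p) ^ (K * K) ≤ exp (-(p * (M2 ^ 2 / 2))) := by
      have h2 : (1 - p) ^ (K * K) ≤ exp (-p) ^ (K * K) :=
        pow_le_pow_left₀ (by linarith) (Real.one_sub_le_exp_neg p) _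
      rw [← Real.exp_nat_mul] at h2
      refine h2.trans (Real.exp_le_exp.mpr ?_)
      have := mul_le_mul_of_nonneg_left hKsq hp0.le
      linarith
    have h3 : 3 * (R * L) ≤ p * (M2 ^ 2 / 2) := by
      have h4 : p * (M2 ^ 2 / 2) = (p * g ^ 2) * R ^ 2 / (32 * B ^ 2) := by
        rw [hM2]; field_simp; ring
      rw [h4, hpg2, le_div_iff₀ (by positivity)]
      have h5 : 3 * (R * L) * (32 * B ^ 2) = (3 * (32 * B ^ 2 * 4096)) * (R * L) / 4096 := by ring
      have h6 : L / 4096 * (R : ℝ) ^ 2 = R * (R * L) / 4096 := by ring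
      rw [h5, h6]
      have h7 : (3 * (32 * B ^ 2 * 4096)) * (R * L) ≤ R * (R * L) :=
        mul_le_mul_of_nonneg_right hRbig (by positivity)
      linarith
    have h8 : (m : ℝ) ^ (2 * R) ≤ (L ^ 3 / p) ^ (2 * R) :=
      pow_le_pow_left₀ hm0.le hm2 _
    have hexpL : exp (-L) = p := by rw [hL, neg_neg, Real.exp_log hp0]
    have h9 : (L ^ 3 / p) ^ (2 * R) = L ^ (6 * R) * exp (2 * (R * L)) := by
      rw [div_pow, ← pow_mul]
      have h10 : p ^ (2 * R) = exp (-(2 * (R * L))) := by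
        rw [← hexpL, ← Real.exp_nat_mul]
        congr 1
        push_cast
        ring
      rw [h10, div_eq_mul_inv, ← Real.exp_neg, neg_neg]
      congr 2
      ring
    have h11 : (1 - p) ^ (K * K) ≤ exp (-(3 * (R * L))) := by
      refine h1.trans (Real.exp_le_exp.mpr ?_)
      linarith
    have h12 : exp (2 * (R * L)) * exp (-(3 * (R * L))) ≤ r := by
      rw [← Real.exp_add]
      have hsq : r = exp (-(L / 2)) := by
        rw [hr, Real.sqrt_eq_rpow, Real.rpow_def_of_pos hp0]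
        congr 1
        rw [hL]; ring
      rw [hsq]
      refine Real.exp_le_exp.mpr ?_
      nlinarith
    have h13 : 4 / δ * L ^ (6 * R) * r ≤ 1 := hs3
    have h14 : 4 / δ * L ^ (6 * R) * r = (L ^ (6 * R) * r) * 4 / δ := by ring
    rw [h14, div_le_one hδ] at h13
    calc (m : ℝ) ^ (2 * R) * (1 - p) ^ (K * K)
        ≤ (L ^ (6 * R) * exp (2 * (R * L))) * exp (-(3 * (R * L))) := by
          rw [← h9]
          exact mul_le_mul h8 h11 (pow_nonneg (by linarith) _) (by positivity)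
      _ = L ^ (6 * R) * (exp (2 * (R * L)) * exp (-(3 * (R * L)))) := by ring
      _ ≤ L ^ (6 * R) * r := mul_le_mul_of_nonneg_left h12 (by positivity)
      _ ≤ δ / 4 := by linarith
  have hwin := Pr_window (p := p) (g := g) (M2 := M2) (η := η) (κ := κ) (β := β) (δ1 := δ / 8)
    hp0 (by linarith) hg0.le hη0.le hκ0.le (m := m) (n := m + t) (R := R) (K := K) hR hm1
    (Nat.le_add_right _ _) hK1 (by positivity) hhalf' le_rfl hβ0
  refine hwin.trans ?_
  have hPI0 : 0 ≤ (Pr p (cols 0 m) (fun F => 7 * m ≤ 8 * (iso m F).card)) ^ 2 := by positivity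
  have hfin : 1 - δ ≤ 1 - (2 * (δ / 8) + (100 * β + (m : ℝ) ^ (2 * R) * (1 - p) ^ (K * K))) := by
    linarith
  have := mul_le_mul_of_nonneg_left hfin hPI0
  linarith

end Pool.Agent.Helper65
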